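import Mathlib

open scoped TensorProduct

noncomputable section

namespace Pool.Agent.Helper51.SymbolDefs

/-- The defining relations `u ^ n = a`, `v ^ n = b`, `u v = ξ v u` of the symbol algebra. -/
inductive SymbolRel (F : Type) [Field F] (n : ℕ) (ξ a b : F) :
    FreeAlgebra F (Fin 2) → FreeAlgebra F (Fin 2) → Prop
  | u_pow : SymbolRel F n ξ a b (FreeAlgebra.ι F 0 ^ n) (algebraMap F (FreeAlgebra F (Fin 2)) a)
  | v_pow : SymbolRel F n ξ a b (FreeAlgebra.ι F 1 ^ n) (algebraMap F (FreeAlgebra F (Fin 2)) b)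
  | comm : SymbolRel F n ξ a b (FreeAlgebra.ι F 0 * FreeAlgebra.ι F 1)
      (ξ • (FreeAlgebra.ι F 1 * FreeAlgebra.ι F 0))

/-- The symbol algebra `(a, b)_n`. -/
abbrev SymbolAlg (F : Type) [Field F] (n : ℕ) (ξ a b : F) : Type :=
  RingQuot (SymbolRel F n ξ a b)

/-- `A` is a division algebra. -/
def IsDivisionAlg (A : Type) [Ring A] : Prop := Nontrivial A ∧ ∀ x : A, x ≠ 0 → IsUnit x

/-- The index of `A` is smaller than `N`: `A` is a matrix algebra over a division `F`-algebra `D`
with `dim D < N ^ 2`. -/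
def IndexLT (F A : Type) [Field F] [Ring A] [Algebra F A] (N : ℕ) : Prop :=
  ∃ (D : Type) (_ : DivisionRing D) (_ : Algebra F D) (m : ℕ),
    Nonempty (A ≃ₐ[F] Matrix (Fin m) (Fin m) D) ∧ 0 < Module.finrank F D ∧ Module.finrank F D < N ^ 2

/-- `A` and `B` share a common maximal subfield: a field extension of `F` of degree `n`
which embeds in both. -/
def ShareMaxSubfield (F : Type) [Field F] (n : ℕ) (A B : Type) [Ring A] [Algebra F A] [Ring B]
    [Algebra F B] : Prop :=
  ∃ (K : Type) (_ : Field K) (_ : Algebra F K), Module.finrank F K = n ∧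
    (∃ f : K →ₐ[F] A, Function.Injective f) ∧ (∃ g : K →ₐ[F] B, Function.Injective g)


end Pool.Agent.Helper51.SymbolDefs
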