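import Mathlib
import Pool.Agent.Helper386.D5V.Helper51_SymbolDefs

open Finset
open scoped TensorProduct

noncomputable section

namespace Pool.Agent.Helper51.CompositeDegree

open Pool.Agent.Helper51.SymbolDefs


section General

variable {F : Type} [Field F] {n : ℕ} {ξ a b : F}

def gu (F : Type) [Field F] (n : ℕ) (ξ a b : F) : SymbolAlg F n ξ a b :=
  RingQuot.mkAlgHom F (SymbolRel F n ξ a b) (FreeAlgebra.ι F 0)

def gv (F : Type) [Field F] (n : ℕ) (ξ a b : F) : SymbolAlg F n ξ a b :=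
  RingQuot.mkAlgHom F (SymbolRel F n ξ a b) (FreeAlgebra.ι F 1)

theorem gu_pow : gu F n ξ a b ^ n = algebraMap F _ a := by
  rw [gu, ← map_pow, RingQuot.mkAlgHom_rel F SymbolRel.u_pow, AlgHom.commutes]

theorem gv_pow : gv F n ξ a b ^ n = algebraMap F _ b := by
  rw [gv, ← map_pow, RingQuot.mkAlgHom_rel F SymbolRel.v_pow, AlgHom.commutes]

theorem gu_gv : gu F n ξ a b * gv F n ξ a b = ξ • (gv F n ξ a b * gu F n ξ a b) := by
  rw [gu, gv, ← map_mul, RingQuot.mkAlgHom_rel F SymbolRel.comm, map_smul, map_mul]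

def lift {A : Type*} [Ring A] [Algebra F A] (U V : A) (hU : U ^ n = algebraMap F A a)
    (hV : V ^ n = algebraMap F A b) (hUV : U * V = ξ • (V * U)) : SymbolAlg F n ξ a b →ₐ[F] A :=
  RingQuot.liftAlgHom F ⟨FreeAlgebra.lift F ![U, V], by
    intro x y h
    induction h with
    | u_pow => simp [hU]
    | v_pow => simp [hV]
    | comm => simp [hUV]⟩

theorem pow_swap {K : Type*} [Field K] {A : Type*} [Ring A] [Algebra K A] (q : K) (X Y : A)
    (h : Y * X = q • (X * Y)) (i j : ℕ) : Y ^ j * X ^ i = q ^ (j * i) • (X ^ i * Y ^ j) := by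
  have h1 : ∀ i : ℕ, Y * X ^ i = q ^ i • (X ^ i * Y) := by
    intro i
    induction i with
    | zero => simp
    | succ i ih =>
      rw [pow_succ, ← mul_assoc, ih, smul_mul_assoc, mul_assoc, h, mul_smul_comm, smul_smul, ← pow_succ,
        ← mul_assoc]
  induction j with
  | zero => simp
  | succ j ih =>
    rw [pow_succ, mul_assoc, h1, mul_smul_comm, ← mul_assoc, ih, smul_mul_assoc, smul_smul, mul_assoc,
      ← pow_succ, ← pow_add]
    congr 2; ring

theorem mono_mul {A : Type*} [Ring A] [Algebra F A] (hξ : ξ ≠ 0) (U V : A) (hU : U ^ n = algebraMap F A a)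
    (hV : V ^ n = algebraMap F A b) (hUV : U * V = ξ • (V * U)) (i j k l : ℕ) :
    ∃ c : F, (U ^ i * V ^ j) * (U ^ k * V ^ l) = c • (U ^ ((i + k) % n) * V ^ ((j + l) % n)) := by
  have hVU : V * U = ξ⁻¹ • (U * V) := by rw [hUV, smul_smul, inv_mul_cancel₀ hξ, one_smul]
  have e1 : U ^ (i + k) = a ^ ((i + k) / n) • U ^ ((i + k) % n) := by
    conv_lhs => rw [← Nat.div_add_mod (i + k) n, pow_add, pow_mul, hU, ← map_pow]
    rw [Algebra.smul_def]
  have e2 : V ^ (j + l) = b ^ ((j + l) / n) • V ^ ((j + l) % n) := by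
    conv_lhs => rw [← Nat.div_add_mod (j + l) n, pow_add, pow_mul, hV, ← map_pow]
    rw [Algebra.smul_def]
  refine ⟨ξ⁻¹ ^ (j * k) * (a ^ ((i + k) / n) * b ^ ((j + l) / n)), ?_⟩
  calc (U ^ i * V ^ j) * (U ^ k * V ^ l)
      = U ^ i * (V ^ j * U ^ k) * V ^ l := by simp only [mul_assoc]
    _ = ξ⁻¹ ^ (j * k) • (U ^ (i + k) * V ^ (j + l)) := by
        rw [pow_swap ξ⁻¹ U V hVU, mul_smul_comm, smul_mul_assoc, pow_add, pow_add]
        simp only [mul_assoc]
    _ = _ := by
        rw [e1, e2, smul_mul_smul_comm, smul_smul]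

def gm (F : Type) [Field F] (n : ℕ) (ξ a b : F) (g : Fin n × Fin n) : SymbolAlg F n ξ a b :=
  gu F n ξ a b ^ g.1.val * gv F n ξ a b ^ g.2.val

theorem span_gm (hn : 2 ≤ n) (hξ : ξ ≠ 0) : Submodule.span F (Set.range (gm F n ξ a b)) = ⊤ := by
  have hn0 : 0 < n := by omega
  set S := Submodule.span F (Set.range (gm F n ξ a b)) with hS
  have hmem : ∀ i j : ℕ, i < n → j < n → gu F n ξ a b ^ i * gv F n ξ a b ^ j ∈ S := by
    intro i j hi hj
    exact Submodule.subset_span ⟨(⟨i, hi⟩, ⟨j, hj⟩), rfl⟩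
  have h1 : (1 : SymbolAlg F n ξ a b) ∈ S := by
    have := hmem 0 0 hn0 hn0
    simpa using this
  have hmul : ∀ x ∈ S, ∀ y ∈ S, x * y ∈ S := by
    intro x hx y hy
    induction hx using Submodule.span_induction with
    | mem x hx =>
      induction hy using Submodule.span_induction with
      | mem y hy =>
        obtain ⟨g, rfl⟩ := hx
        obtain ⟨h, rfl⟩ := hy
        obtain ⟨c, hc⟩ := mono_mul hξ (gu F n ξ a b) (gv F n ξ a b) gu_pow gv_pow gu_gv g.1.val g.2.val h.1.val h.2.val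
        rw [gm, gm, hc]
        exact S.smul_mem _ (hmem _ _ (Nat.mod_lt _ hn0) (Nat.mod_lt _ hn0))
      | zero => simp
      | add y z _ _ h1 h2 => rw [mul_add]; exact S.add_mem h1 h2
      | smul c y _ h1 => rw [mul_smul_comm]; exact S.smul_mem _ h1
    | zero => simp
    | add x z _ _ h1 h2 => rw [add_mul]; exact S.add_mem h1 h2
    | smul c x _ h1 => rw [smul_mul_assoc]; exact S.smul_mem _ h1
  rw [eq_top_iff]
  rintro x -
  obtain ⟨y, rfl⟩ := RingQuot.mkAlgHom_surjective F (SymbolRel F n ξ a b) x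
  induction y using FreeAlgebra.induction with
  | grade0 r =>
    rw [AlgHom.commutes, Algebra.algebraMap_eq_smul_one]
    exact S.smul_mem _ h1
  | grade1 i =>
    fin_cases i
    · have := hmem 1 0 (by omega) hn0
      simpa [gu] using this
    · have := hmem 0 1 hn0 (by omega)
      simpa [gv] using this
  | mul x y hx hy => rw [map_mul]; exact hmul _ hx _ hy
  | add x y hx hy => rw [map_add]; exact S.add_mem hx hy

theorem finite_symb (hn : 2 ≤ n) (hξ : ξ ≠ 0) : Module.Finite F (SymbolAlg F n ξ a b) := by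
  rw [Module.finite_def, ← span_gm hn hξ]
  exact Submodule.fg_span (Set.finite_range _)

theorem finrank_symb (hn : 2 ≤ n) (hξ : ξ ≠ 0) : Module.finrank F (SymbolAlg F n ξ a b) ≤ n * n := by
  have := finrank_range_le_card (R := F) (gm F n ξ a b)
  rw [Set.finrank, span_gm hn hξ, finrank_top] at this
  simpa using this

theorem exists_coeff (hn : 2 ≤ n) (hξ : ξ ≠ 0) (x : SymbolAlg F n ξ a b) :
    ∃ c : Fin n × Fin n → F, ∑ g, c g • gm F n ξ a b g = x := by
  have : x ∈ Submodule.span F (Set.range (gm F n ξ a b)) := by rw [span_gm hn hξ]; trivial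
  exact (Submodule.mem_span_range_iff_exists_fun F).1 this

/-- clock and shift -/
theorem nontrivial_symb (hn : 0 < n) (hξ : IsPrimitiveRoot ξ n) : Nontrivial (SymbolAlg F n ξ a b) := by
  haveI : NeZero n := ⟨hn.ne'⟩
  let E := AlgebraicClosure F
  obtain ⟨σ, hσ⟩ := IsAlgClosed.exists_pow_nat_eq (algebraMap F E a) hn
  obtain ⟨τ, hτ⟩ := IsAlgClosed.exists_pow_nat_eq (algebraMap F E b) hn
  let ζ : E := algebraMap F E ξ
  have hζ : ζ ^ n = 1 := by simp only [ζ]; rw [← map_pow, hξ.pow_eq_one, map_one]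
  let U : Module.End F (ZMod n → E) :=
    { toFun := fun φ i => σ * ζ ^ (i.val) * φ i
      map_add' := by intro x y; funext i; simp [mul_add]
      map_smul' := by intro r x; funext i; simp }
  let V : Module.End F (ZMod n → E) :=
    { toFun := fun φ i => τ * φ (i - 1)
      map_add' := by intro x y; funext i; simp [mul_add]
      map_smul' := by intro r x; funext i; simp }
  have hUk : ∀ k : ℕ, ∀ φ i, (U ^ k) φ i = σ ^ k * (ζ ^ k) ^ (i.val) * φ i := by
    intro k
    induction k with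
    | zero => intro φ i; simp
    | succ k ih =>
      intro φ i
      rw [pow_succ, Module.End.mul_apply, ih]
      change σ ^ k * (ζ ^ k) ^ i.val * (σ * ζ ^ (i.val) * φ i) = _
      rw [pow_succ ζ k, mul_pow]; ring
  have hVk : ∀ k : ℕ, ∀ φ i, (V ^ k) φ i = τ ^ k * φ (i - k) := by
    intro k
    induction k with
    | zero => intro φ i; simp
    | succ k ih =>
      intro φ i
      rw [pow_succ, Module.End.mul_apply, ih]
      change τ ^ k * (τ * φ (i - k - 1)) = _
      rw [pow_succ, Nat.cast_succ, sub_sub]; ring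
  have hU : U ^ n = algebraMap F _ a := by
    apply LinearMap.ext; intro φ; funext i
    rw [hUk, hζ, one_pow, mul_one, hσ, Module.algebraMap_end_apply, Pi.smul_apply, Algebra.smul_def]
  have hV : V ^ n = algebraMap F _ b := by
    apply LinearMap.ext; intro φ; funext i
    rw [hVk, hτ, ZMod.natCast_self, sub_zero, Module.algebraMap_end_apply, Pi.smul_apply, Algebra.smul_def]
  have hstep : ∀ i : ZMod n, ζ ^ (i.val) = ζ * ζ ^ ((i - 1).val) := by
    intro i
    have h1 : ((i - 1).val + 1) % n = i.val := by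
      have := ZMod.val_natCast (n := n) ((i - 1).val + 1)
      rw [← this]
      congr 1
      push_cast
      rw [ZMod.natCast_zmod_val]; ring
    rw [← pow_succ', ← h1]
    exact (pow_eq_pow_mod _ hζ).symm
  have hUV : U * V = ξ • (V * U) := by
    apply LinearMap.ext; intro φ; funext i
    rw [Module.End.mul_apply, LinearMap.smul_apply, Module.End.mul_apply, Pi.smul_apply, Algebra.smul_def]
    change σ * ζ ^ (i.val) * (τ * φ (i - 1)) = ζ * (τ * (σ * ζ ^ ((i - 1).val) * φ (i - 1)))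
    rw [hstep i]; ring
  exact (lift U V hU hV hUV).toRingHom.domain_nontrivial

end General

section Core
variable {Γ : Type} [AddCommGroup Γ] [LinearOrder Γ] [IsOrderedAddMonoid Γ] {k : Type} [Field k]

omit [IsOrderedAddMonoid Γ] in
theorem sum_ne_zero {ι : Type*} (s : Finset ι) (f : ι → HahnSeries Γ k) (i0 : ι) (hi0 : i0 ∈ s)
    (h0 : f i0 ≠ 0)
    (h : ∀ i ∈ s, i ≠ i0 → f i ≠ 0 → (f i0).order < (f i).order) : ∑ i ∈ s, f i ≠ 0 := by
  classical
  intro hsum
  have hc : (∑ i ∈ s, f i).coeff (f i0).order = 0 := by rw [hsum]; rfl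
  rw [HahnSeries.coeff_sum, ← Finset.add_sum_erase s _ hi0] at hc
  have hz : ∑ i ∈ s.erase i0, (f i).coeff (f i0).order = 0 := by
    apply Finset.sum_eq_zero
    intro i hi
    rw [Finset.mem_erase] at hi
    by_cases hfi : f i = 0
    · rw [hfi]; rfl
    · exact HahnSeries.coeff_eq_zero_of_lt_order (h i hi.2 hi.1 hfi)
  rw [hz, add_zero] at hc
  exact h0 (HahnSeries.coeff_order_eq_zero.1 hc)

/-- structure constants with a weight function that is separated modulo `N`. -/
structure Tw (Γ k : Type) [AddCommGroup Γ] [LinearOrder Γ] [IsOrderedAddMonoid Γ] [Field k]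
    (N : ℕ) (G : Type) where
  mu : G → G → G
  ga : G → G → HahnSeries Γ k
  W : G → Γ
  ga_ne : ∀ g h, ga g h ≠ 0
  hga : ∀ g h, N • (ga g h).order + W (mu g h) = W g + W h

def Tw.Sep {Γ k : Type} [AddCommGroup Γ] [LinearOrder Γ] [IsOrderedAddMonoid Γ] [Field k]
    {N : ℕ} {G : Type} (t : Tw Γ k N G) : Prop :=
  ∀ (α β : Γ) (g h : G), N • α + t.W g = N • β + t.W h → g = h

variable {N : ℕ} {G : Type} [Fintype G] [DecidableEq G]

theorem Tw.conv_ne_zero (t : Tw Γ k N G) (hsep : t.Sep) (c d : G → HahnSeries Γ k) (hc : c ≠ 0) (hd : d ≠ 0) :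
    ∃ k0, ∑ p ∈ univ.filter (fun p : G × G => t.mu p.1 p.2 = k0), t.ga p.1 p.2 * c p.1 * d p.2 ≠ 0 := by
  classical
  have key : ∀ c : G → HahnSeries Γ k, c ≠ 0 → ∃ g0, c g0 ≠ 0 ∧ ∀ g, c g ≠ 0 → g ≠ g0 →
      N • (c g0).order + t.W g0 < N • (c g).order + t.W g := by
    intro c hc
    obtain ⟨g1, hg1⟩ := Function.ne_iff.1 hc
    obtain ⟨g0, hg0, hmin⟩ := Finset.exists_min_image (univ.filter (fun g => c g ≠ 0))
      (fun g => N • (c g).order + t.W g) ⟨g1, by simpa using hg1⟩
    refine ⟨g0, by simpa using hg0, ?_⟩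
    intro g hg hne
    refine lt_of_le_of_ne (hmin g (by simpa using hg)) ?_
    intro heq
    exact hne (hsep _ _ _ _ heq).symm
  obtain ⟨g0, hg0, hg⟩ := key c hc
  obtain ⟨h0, hh0, hh⟩ := key d hd
  refine ⟨t.mu g0 h0, ?_⟩
  have hne : ∀ g h, c g ≠ 0 → d h ≠ 0 → t.ga g h * c g * d h ≠ 0 := fun g h h1 h2 =>
    mul_ne_zero (mul_ne_zero (t.ga_ne g h) h1) h2
  apply sum_ne_zero _ _ (g0, h0) (by simp) (hne _ _ hg0 hh0)
  rintro ⟨g, h⟩ hmem hneq hprod
  simp only [Finset.mem_filter, Finset.mem_univ, true_and] at hmem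
  have hcg : c g ≠ 0 := fun hz => hprod (by simp [hz])
  have hdh : d h ≠ 0 := fun hz => hprod (by simp [hz])
  have ho : ∀ g h, c g ≠ 0 → d h ≠ 0 → N • (t.ga g h * c g * d h).order + t.W (t.mu g h)
      = (N • (c g).order + t.W g) + (N • (d h).order + t.W h) := by
    intro g h h1 h2
    rw [HahnSeries.order_mul (mul_ne_zero (t.ga_ne g h) h1) h2, HahnSeries.order_mul (t.ga_ne g h) h1,
      nsmul_add, nsmul_add]
    have := t.hga g h
    calc _ = (N • (t.ga g h).order + t.W (t.mu g h)) + N • (c g).order + N • (d h).order := by abel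
      _ = _ := by rw [this]; abel
  have h1 := ho g0 h0 hg0 hh0
  have h2 := ho g h hcg hdh
  have hlt : (N • (c g0).order + t.W g0) + (N • (d h0).order + t.W h0) <
      (N • (c g).order + t.W g) + (N • (d h).order + t.W h) := by
    by_cases hgg : g = g0
    · have hhh : h ≠ h0 := fun e => hneq (by rw [hgg, e])
      subst hgg
      exact (add_lt_add_iff_left _).2 (hh h hdh hhh)
    · by_cases hhh : h = h0
      · subst hhh
        exact (add_lt_add_iff_right _).2 (hg g hcg hgg)
      · exact add_lt_add (hg g hcg hgg) (hh h hdh hhh)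
  rw [← h1, ← h2] at hlt
  rw [hmem] at hlt
  have := (add_lt_add_iff_right _).1 hlt
  exact lt_of_nsmul_lt_nsmul_right _ this

/-- left convolution by a nonzero element is surjective -/
theorem Tw.exists_conv (t : Tw Γ k N G) (hsep : t.Sep) (c : G → HahnSeries Γ k) (hc : c ≠ 0) (f : G → HahnSeries Γ k) :
    ∃ d : G → HahnSeries Γ k, ∀ k0,
      ∑ p ∈ univ.filter (fun p : G × G => t.mu p.1 p.2 = k0), t.ga p.1 p.2 * d p.1 * c p.2 = f k0 := by
  classical
  let Ψ : (G → HahnSeries Γ k) →ₗ[HahnSeries Γ k] (G → HahnSeries Γ k) :=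
    { toFun := fun d k0 => ∑ p ∈ univ.filter (fun p : G × G => t.mu p.1 p.2 = k0), t.ga p.1 p.2 * d p.1 * c p.2
      map_add' := by
        intro x y; funext k0
        simp only [Pi.add_apply]
        rw [← Finset.sum_add_distrib]
        apply Finset.sum_congr rfl; intros; ring
      map_smul' := by
        intro r x; funext k0
        simp only [Pi.smul_apply, smul_eq_mul, RingHom.id_apply]
        rw [Finset.mul_sum]
        apply Finset.sum_congr rfl; intros; ring }
  have hinj : Function.Injective Ψ := by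
    rw [injective_iff_map_eq_zero]
    intro d hd
    by_contra hne
    obtain ⟨k0, hk0⟩ := t.conv_ne_zero hsep d c hne hc
    exact hk0 (congrFun hd k0)
  obtain ⟨d, hd⟩ := LinearMap.injective_iff_surjective.1 hinj f
  exact ⟨d, fun k0 => congrFun hd k0⟩

theorem Tw.exists_left_inv (t : Tw Γ k N G) (hsep : t.Sep) {A : Type*} [Ring A] [Algebra (HahnSeries Γ k) A] (e : G → A)
    (he : ∀ g h, e g * e h = t.ga g h • e (t.mu g h)) (g1 : G) (h1 : e g1 = 1)
    (c : G → HahnSeries Γ k) (hc : c ≠ 0) :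
    ∃ d : G → HahnSeries Γ k, (∑ g, d g • e g) * (∑ h, c h • e h) = 1 := by
  classical
  obtain ⟨d, hd⟩ := t.exists_conv hsep c hc (Pi.single g1 1)
  refine ⟨d, ?_⟩
  rw [Finset.sum_mul_sum, ← Finset.sum_product']
  have : ∀ p : G × G, d p.1 • e p.1 * c p.2 • e p.2 = (t.ga p.1 p.2 * d p.1 * c p.2) • e (t.mu p.1 p.2) := by
    intro p
    rw [smul_mul_smul_comm, he, smul_smul]
    congr 1; ring
  rw [Finset.sum_congr rfl (fun p _ => this p)]
  rw [← Finset.sum_fiberwise_of_maps_to (g := fun p : G × G => t.mu p.1 p.2) (t := univ) (fun _ _ => Finset.mem_univ _)]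
  have h3 : ∀ k0 : G, ∑ p ∈ (univ ×ˢ univ).filter (fun p : G × G => t.mu p.1 p.2 = k0),
      (t.ga p.1 p.2 * d p.1 * c p.2) • e (t.mu p.1 p.2) = (Pi.single g1 1 : G → HahnSeries Γ k) k0 • e k0 := by
    intro k0
    rw [← hd k0, Finset.sum_smul]
    apply Finset.sum_congr (by simp)
    intro p hp
    simp only [Finset.mem_filter] at hp
    rw [hp.2]
  rw [Finset.sum_congr rfl (fun k0 _ => h3 k0)]
  rw [Finset.sum_eq_single g1]
  · simp [h1]
  · intro b _ hb; simp [Pi.single_eq_of_ne hb]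
  · simp


def Tw.prod {G H : Type} (t : Tw Γ k N G) (s : Tw Γ k N H) : Tw Γ k N (G × H) where
  mu g h := (t.mu g.1 h.1, s.mu g.2 h.2)
  ga g h := t.ga g.1 h.1 * s.ga g.2 h.2
  W g := t.W g.1 + s.W g.2
  ga_ne g h := mul_ne_zero (t.ga_ne _ _) (s.ga_ne _ _)
  hga g h := by
    rw [HahnSeries.order_mul (t.ga_ne _ _) (s.ga_ne _ _), nsmul_add]
    have h1 := t.hga g.1 h.1
    have h2 := s.hga g.2 h.2
    calc _ = (N • (t.ga g.1 h.1).order + t.W (t.mu g.1 h.1)) + (N • (s.ga g.2 h.2).order + s.W (s.mu g.2 h.2)) := by abel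
      _ = _ := by rw [h1, h2]; abel

theorem Tw.prod_rel {G H : Type} (t : Tw Γ k N G) (s : Tw Γ k N H) {A : Type*} [Ring A]
    [Algebra (HahnSeries Γ k) A] (e : G → A) (f : H → A)
    (he : ∀ g h, e g * e h = t.ga g h • e (t.mu g h)) (hf : ∀ g h, f g * f h = s.ga g h • f (s.mu g h))
    (hc : ∀ g h, Commute (f h) (e g)) (g h : G × H) :
    (e g.1 * f g.2) * (e h.1 * f h.2) = (t.prod s).ga g h • (e ((t.prod s).mu g h).1 * f ((t.prod s).mu g h).2) := by
  have : (e g.1 * f g.2) * (e h.1 * f h.2) = (e g.1 * e h.1) * (f g.2 * f h.2) := by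
    rw [mul_assoc, ← mul_assoc (f g.2), (hc h.1 g.2).eq]
    simp only [mul_assoc]
  rw [this, he, hf, smul_mul_smul_comm]
  rfl

def Tw.block (N a m : ℕ) (hm : 0 < m) (hN : N = a * m) (q x y : HahnSeries Γ k) (hq : q ≠ 0) (hx : x ≠ 0)
    (hy : y ≠ 0) (hq0 : q.order = 0) : Tw Γ k N (Fin m × Fin m) where
  mu g h := (⟨(g.1.val + h.1.val) % m, Nat.mod_lt _ hm⟩, ⟨(g.2.val + h.2.val) % m, Nat.mod_lt _ hm⟩)
  ga g h := q ^ (g.2.val * h.1.val) * x ^ ((g.1.val + h.1.val) / m) * y ^ ((g.2.val + h.2.val) / m)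
  W g := (a * g.1.val) • x.order + (a * g.2.val) • y.order
  ga_ne g h := mul_ne_zero (mul_ne_zero (pow_ne_zero _ hq) (pow_ne_zero _ hx)) (pow_ne_zero _ hy)
  hga g h := by
    rw [HahnSeries.order_mul (mul_ne_zero (pow_ne_zero _ hq) (pow_ne_zero _ hx)) (pow_ne_zero _ hy),
      HahnSeries.order_mul (pow_ne_zero _ hq) (pow_ne_zero _ hx), HahnSeries.order_pow, HahnSeries.order_pow,
      HahnSeries.order_pow, hq0, nsmul_zero, zero_add, nsmul_add, smul_smul, smul_smul]
    have e1 : N * ((g.1.val + h.1.val) / m) + a * ((g.1.val + h.1.val) % m) = a * g.1.val + a * h.1.val := by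
      rw [hN, mul_assoc, ← mul_add, Nat.div_add_mod, mul_add]
    have e2 : N * ((g.2.val + h.2.val) / m) + a * ((g.2.val + h.2.val) % m) = a * g.2.val + a * h.2.val := by
      rw [hN, mul_assoc, ← mul_add, Nat.div_add_mod, mul_add]
    calc _ = (N * ((g.1.val + h.1.val) / m) + a * ((g.1.val + h.1.val) % m)) • x.order
          + (N * ((g.2.val + h.2.val) / m) + a * ((g.2.val + h.2.val) % m)) • y.order := by
            simp only [add_smul]; abel
      _ = _ := by rw [e1, e2]; simp only [add_smul]; abel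

theorem Tw.block_rel (N a m : ℕ) (hm : 0 < m) (hN : N = a * m) (q x y : HahnSeries Γ k) (hq : q ≠ 0) (hx : x ≠ 0)
    (hy : y ≠ 0) (hq0 : q.order = 0) {A : Type*} [Ring A] [Algebra (HahnSeries Γ k) A] (X Y : A)
    (hX : X ^ m = algebraMap _ A x) (hY : Y ^ m = algebraMap _ A y) (hXY : Y * X = q • (X * Y))
    (g h : Fin m × Fin m) :
    (X ^ g.1.val * Y ^ g.2.val) * (X ^ h.1.val * Y ^ h.2.val) =
      (Tw.block N a m hm hN q x y hq hx hy hq0).ga g h •
      (X ^ ((Tw.block N a m hm hN q x y hq hx hy hq0).mu g h).1.val *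
        Y ^ ((Tw.block N a m hm hN q x y hq hx hy hq0).mu g h).2.val) := by
  simp only [Tw.block]
  have e1 : X ^ (g.1.val + h.1.val) = x ^ ((g.1.val + h.1.val) / m) • X ^ ((g.1.val + h.1.val) % m) := by
    conv_lhs => rw [← Nat.div_add_mod (g.1.val + h.1.val) m, pow_add, pow_mul, hX, ← map_pow]
    rw [Algebra.smul_def]
  have e2 : Y ^ (g.2.val + h.2.val) = y ^ ((g.2.val + h.2.val) / m) • Y ^ ((g.2.val + h.2.val) % m) := by
    conv_lhs => rw [← Nat.div_add_mod (g.2.val + h.2.val) m, pow_add, pow_mul, hY, ← map_pow]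
    rw [Algebra.smul_def]
  calc (X ^ g.1.val * Y ^ g.2.val) * (X ^ h.1.val * Y ^ h.2.val)
      = X ^ g.1.val * (Y ^ g.2.val * X ^ h.1.val) * Y ^ h.2.val := by simp only [mul_assoc]
    _ = q ^ (g.2.val * h.1.val) • (X ^ (g.1.val + h.1.val) * Y ^ (g.2.val + h.2.val)) := by
        rw [pow_swap q X Y hXY, mul_smul_comm, smul_mul_assoc, pow_add, pow_add]
        simp only [mul_assoc]
    _ = _ := by
        rw [e1, e2, smul_mul_smul_comm, smul_smul, mul_assoc]


/-- a nonzero vector generates a space of dimension at least `|G|` -/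
theorem Tw.card_le_finrank (t : Tw Γ k N G) (hsep : t.Sep) {M : Type*} [AddCommGroup M]
    [Module (HahnSeries Γ k) M] [Module.Finite (HahnSeries Γ k) M] [Nontrivial M]
    (e : G → Module.End (HahnSeries Γ k) M)
    (he : ∀ g h, e g * e h = t.ga g h • e (t.mu g h)) (g1 : G) (h1 : e g1 = 1) :
    Fintype.card G ≤ Module.finrank (HahnSeries Γ k) M := by
  classical
  obtain ⟨m, hm⟩ := exists_ne (0 : M)
  have hli : LinearIndependent (HahnSeries Γ k) (fun g => e g m) := by
    rw [Fintype.linearIndependent_iff]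
    intro c hc
    by_contra hne
    push Not at hne
    obtain ⟨i, hi⟩ := hne
    have hc0 : c ≠ 0 := fun h => hi (by rw [h]; rfl)
    obtain ⟨d, hd⟩ := t.exists_left_inv hsep e he g1 h1 c hc0
    have h2 : (∑ h, c h • e h) m = 0 := by
      rw [LinearMap.sum_apply]
      simpa using hc
    have h3 := congrArg (fun f : Module.End (HahnSeries Γ k) M => f m) hd
    simp only [Module.End.mul_apply, h2, map_zero, Module.End.one_apply] at h3
    exact hm h3.symm
  exact hli.fintype_card_le_finrank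

end Core


section
variable {F K B C : Type} [Field F] [Field K] [Algebra F K] [Ring B] [Algebra F B] [Ring C] [Algebra F C]

/-- right multiplication structure -/
@[instance_reducible] def rmod (f : K →ₐ[F] B) : Module K B :=
  Module.compHom B (f.toRingHom.toOpposite (fun x y => (Commute.all x y).map f))

theorem rep_exists {n : ℕ} (hn : 0 < n) (hK : Module.finrank F K = n) (f : K →ₐ[F] B) (g : K →ₐ[F] C)
    [Nontrivial B] [Nontrivial C] [Module.Finite F B] [Module.Finite F C]
    (hB : Module.finrank F B ≤ n * n) (hC : Module.finrank F C ≤ n * n) :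
    ∃ (M : Type) (_ : AddCommGroup M) (_ : Module F M) (_ : (B ⊗[F] C) →ₐ[F] Module.End F M),
      Nontrivial M ∧ Module.Finite F M ∧ Module.finrank F M ≤ n * (n * n) := by
  haveI : Module.Finite F K := Module.finite_of_finrank_pos (by omega)
  letI mB : Module K B := rmod f
  letI mC : Module K C := rmod g
  have sB : ∀ (k : K) (x : B), k • x = x * f k := fun k x => rfl
  have sC : ∀ (k : K) (x : C), k • x = x * g k := fun k x => rfl
  haveI tB : IsScalarTower F K B := ⟨fun c k x => by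
    rw [sB, sB, map_smul, mul_smul_comm]⟩
  haveI tC : IsScalarTower F K C := ⟨fun c k x => by
    rw [sC, sC, map_smul, mul_smul_comm]⟩
  haveI cB : SMulCommClass K F B := ⟨fun k c x => by
    rw [sB, sB, smul_mul_assoc]⟩
  haveI fB : Module.Finite K B := Module.Finite.of_restrictScalars_finite F K B
  haveI fC : Module.Finite K C := Module.Finite.of_restrictScalars_finite F K C
  let M := B ⊗[K] C
  have tM : IsScalarTower F K M := TensorProduct.isScalarTower_left
  let lB : B → Module.End K B := fun b =>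
    { toFun := fun x => b * x
      map_add' := fun x y => mul_add _ _ _
      map_smul' := fun k x => by
        simp only [RingHom.id_apply]
        rw [sB, sB, mul_assoc] }
  let lC : C → Module.End K C := fun b =>
    { toFun := fun x => b * x
      map_add' := fun x y => mul_add _ _ _
      map_smul' := fun k x => by
        simp only [RingHom.id_apply]
        rw [sC, sC, mul_assoc] }
  let PB : B →ₐ[F] Module.End F M :=
    { toFun := fun b => (LinearMap.rTensor C (lB b)).restrictScalars F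
      map_one' := by
        apply LinearMap.ext; intro t
        have : lB 1 = LinearMap.id := by apply LinearMap.ext; intro x; exact one_mul x
        simp [this]
      map_mul' := by
        intro x y
        apply LinearMap.ext; intro t
        have : lB (x * y) = (lB x) ∘ₗ (lB y) := by apply LinearMap.ext; intro z; exact mul_assoc x y z
        simp [this, LinearMap.rTensor_comp]
      map_zero' := by
        apply LinearMap.ext; intro t
        have : lB 0 = 0 := by apply LinearMap.ext; intro z; exact zero_mul z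
        simp [this]
      map_add' := by
        intro x y
        apply LinearMap.ext; intro t
        have : lB (x + y) = (lB x) + (lB y) := by apply LinearMap.ext; intro z; exact add_mul x y z
        simp [this, LinearMap.rTensor_add]
      commutes' := by
        intro c
        apply LinearMap.ext; intro t
        induction t using TensorProduct.induction_on with
        | zero => simp
        | add x y hx hy => rw [map_add, map_add, hx, hy]
        | tmul x y =>
          change (lB (algebraMap F B c) x) ⊗ₜ[K] y = c • (x ⊗ₜ[K] y)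
          rw [TensorProduct.smul_tmul']
          congr 1
          change algebraMap F B c * x = _
          rw [Algebra.smul_def] }
  let PC : C →ₐ[F] Module.End F M :=
    { toFun := fun b => (LinearMap.lTensor B (lC b)).restrictScalars F
      map_one' := by
        apply LinearMap.ext; intro t
        have : lC 1 = LinearMap.id := by apply LinearMap.ext; intro x; exact one_mul x
        simp [this]
      map_mul' := by
        intro x y
        apply LinearMap.ext; intro t
        have : lC (x * y) = (lC x) ∘ₗ (lC y) := by apply LinearMap.ext; intro z; exact mul_assoc x y z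
        simp [this, LinearMap.lTensor_comp]
      map_zero' := by
        apply LinearMap.ext; intro t
        have : lC 0 = 0 := by apply LinearMap.ext; intro z; exact zero_mul z
        simp [this]
      map_add' := by
        intro x y
        apply LinearMap.ext; intro t
        have : lC (x + y) = (lC x) + (lC y) := by apply LinearMap.ext; intro z; exact add_mul x y z
        simp [this, LinearMap.lTensor_add]
      commutes' := by
        intro c
        apply LinearMap.ext; intro t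
        induction t using TensorProduct.induction_on with
        | zero => simp
        | add x y hx hy => rw [map_add, map_add, hx, hy]
        | tmul x y =>
          change x ⊗ₜ[K] (lC (algebraMap F C c) y) = c • (x ⊗ₜ[K] y)
          have h1 : lC (algebraMap F C c) y = (algebraMap F K c) • y := by
            change algebraMap F C c * y = _
            rw [sC, AlgHom.commutes, Algebra.commutes]
          have h2 : c • x = (algebraMap F K c) • x := by
            rw [sB, AlgHom.commutes, ← Algebra.commutes, Algebra.smul_def]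
          rw [h1, TensorProduct.smul_tmul', h2, TensorProduct.smul_tmul] }
  refine ⟨M, inferInstance, inferInstance, Algebra.TensorProduct.lift PB PC ?_, ?_, ?_, ?_⟩
  · intro x y
    apply LinearMap.ext; intro t
    induction t using TensorProduct.induction_on with
    | zero => simp
    | add u v hu hv => rw [map_add, map_add, hu, hv]
    | tmul u v => rfl
  · have h1 : 0 < Module.finrank K B := Module.finrank_pos
    have h2 : 0 < Module.finrank K C := Module.finrank_pos
    have h3 : Module.finrank K M = Module.finrank K B * Module.finrank K C := Module.finrank_tensorProduct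
    have h4 : 0 < Module.finrank K M := by rw [h3]; positivity
    exact Module.nontrivial_of_finrank_pos h4
  · exact Module.Finite.trans K M
  · have h3 : Module.finrank K M = Module.finrank K B * Module.finrank K C := Module.finrank_tensorProduct
    have h5 := Module.finrank_mul_finrank F K M
    have h6 := Module.finrank_mul_finrank F K B
    have h7 := Module.finrank_mul_finrank F K C
    rw [hK] at h5 h6 h7
    have h8 : Module.finrank K B ≤ n := by
      rw [← h6] at hB
      exact Nat.le_of_mul_le_mul_left hB hn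
    have h9 : Module.finrank K C ≤ n := by
      rw [← h7] at hC
      exact Nat.le_of_mul_le_mul_left hC hn
    rw [← h5, h3]
    exact Nat.mul_le_mul_left _ (Nat.mul_le_mul h8 h9)

end

section Key

variable {Γ : Type} [AddCommGroup Γ] [LinearOrder Γ] [IsOrderedAddMonoid Γ] {k : Type} [Field k]

theorem order_inv_root {ξ : HahnSeries Γ k} {n : ℕ} (hn : 0 < n) (h : ξ ^ n = 1) : ξ.order = 0 := by
  have h1 : (ξ ^ n).order = n • ξ.order := HahnSeries.order_pow ξ n
  rw [h, HahnSeries.order_one] at h1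
  rcases lt_trichotomy ξ.order 0 with h2 | h2 | h2
  · exact absurd h1 (ne_of_gt (nsmul_neg h2 hn.ne'))
  · exact h2
  · exact absurd h1 (ne_of_lt (nsmul_pos h2 hn.ne'))

theorem key {n a b : ℕ} (ha : 0 < a) (hb : 0 < b) (hn : n = a * b) {ξ x y z w : HahnSeries Γ k}
    (hξ : IsPrimitiveRoot ξ n) (hx : x ≠ 0) (hy : y ≠ 0) (hz : z ≠ 0) (hw : w ≠ 0)
    (p : Fin 4 → (Γ →+ ℤ)) (px : ∀ i, p i x.order = if i = 0 then 1 else 0)
    (py : ∀ i, p i y.order = if i = 1 then 1 else 0)
    (pz : ∀ i, p i z.order = if i = 2 then 1 else 0)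
    (pw : ∀ i, p i w.order = if i = 3 then 1 else 0)
    {M : Type} [AddCommGroup M] [Module (HahnSeries Γ k) M] [Module.Finite (HahnSeries Γ k) M] [Nontrivial M]
    (X Y Z W : Module.End (HahnSeries Γ k) M)
    (hX : X ^ n = algebraMap _ _ x) (hY : Y ^ n = algebraMap _ _ y)
    (hZ : Z ^ n = algebraMap _ _ (z ^ a)) (hW : W ^ n = algebraMap _ _ w)
    (hXY : X * Y = ξ • (Y * X)) (hZW : Z * W = ξ • (W * Z))
    (cXZ : X * Z = Z * X) (cXW : X * W = W * X) (cYZ : Y * Z = Z * Y) (cYW : Y * W = W * Y) :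
    a * ((n * n) * (b * b)) ≤ Module.finrank (HahnSeries Γ k) M := by
  classical
  have hn0 : 0 < n := by rw [hn]; positivity
  have hξ0 : ξ ≠ 0 := hξ.ne_zero hn0.ne'
  set T : Module.End (HahnSeries Γ k) M := Z ^ b with hT
  have hTa : T ^ a = algebraMap _ _ (z ^ a) := by rw [hT, ← pow_mul, mul_comm b a, ← hn, hZ]
  have hη : IsPrimitiveRoot (ξ ^ b) a := hξ.pow hn0 (by rw [hn, mul_comm])
  have hη' : IsPrimitiveRoot (ξ ^ a) b := hξ.pow hn0 hn
  -- an eigenvalue
  obtain ⟨lam, hlam⟩ : ∃ lam : (HahnSeries Γ k), lam ^ a = z ^ a ∧ T.HasEigenvalue lam := by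
    have hdvd : minpoly (HahnSeries Γ k) T ∣ (Polynomial.X ^ a - Polynomial.C (z ^ a)) := by
      apply minpoly.dvd
      simp [hTa]
    have hsp : (Polynomial.X ^ a - Polynomial.C (z ^ a)).Splits :=
      X_pow_sub_C_splits_of_isPrimitiveRoot hη rfl
    have hne : (Polynomial.X ^ a - Polynomial.C (z ^ a)) ≠ 0 := Polynomial.X_pow_sub_C_ne_zero ha _
    have hsp2 : (minpoly (HahnSeries Γ k) T).Splits := hsp.of_dvd hne hdvd
    have hdeg : (minpoly (HahnSeries Γ k) T).degree ≠ 0 := (minpoly.degree_pos (Algebra.IsIntegral.isIntegral T)).ne'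
    obtain ⟨lam, hl⟩ := hsp2.exists_eval_eq_zero hdeg
    refine ⟨lam, ?_, Module.End.hasEigenvalue_of_isRoot hl⟩
    have := Polynomial.eval_eq_zero_of_dvd_of_eval_eq_zero hdvd hl
    simpa [sub_eq_zero] using this
  obtain ⟨hlam1, hlam2⟩ := hlam
  have hl0 : lam ≠ 0 := by
    intro h
    rw [h, zero_pow ha.ne'] at hlam1
    exact hz (pow_eq_zero_iff ha.ne' |>.1 hlam1.symm)
  have hlo : lam.order = z.order := by
    have h1 : (lam / z) ^ a = 1 := by rw [div_pow, hlam1, div_self (pow_ne_zero _ hz)]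
    have h2 := order_inv_root ha h1
    have h3 : lam = (lam / z) * z := by field_simp
    rw [h3, HahnSeries.order_mul (div_ne_zero hl0 hz) hz, h2, zero_add]
  set M0 : Submodule (HahnSeries Γ k) M := T.eigenspace lam with hM0
  have hM0ne : M0 ≠ ⊥ := hlam2
  haveI : Nontrivial M0 := Submodule.nontrivial_iff_ne_bot.2 hM0ne
  -- commutation
  have hWZ : W * Z = ξ⁻¹ • (Z * W) := by rw [hZW, smul_smul, inv_mul_cancel₀ hξ0, one_smul]
  have hYX : Y * X = ξ⁻¹ • (X * Y) := by rw [hXY, smul_smul, inv_mul_cancel₀ hξ0, one_smul]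
  have hWlZk : ∀ i j : ℕ, W ^ j * Z ^ i = ξ⁻¹ ^ (j * i) • (Z ^ i * W ^ j) := pow_swap ξ⁻¹ Z W hWZ
  have hTW : ∀ l : ℕ, T * W ^ l = (ξ ^ b) ^ l • (W ^ l * T) := by
    intro l
    rw [hT, hWlZk b l, smul_smul, inv_pow, ← pow_mul, mul_comm l b, mul_inv_cancel₀ (pow_ne_zero _ hξ0), one_smul]
  have hXT : Commute X T := by rw [hT]; exact (show Commute X Z from cXZ).pow_right b
  have hYT : Commute Y T := by rw [hT]; exact (show Commute Y Z from cYZ).pow_right b
  have hZT : Commute Z T := by rw [hT]; exact (Commute.refl Z).pow_right b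
  have hVT : Commute (W ^ a) T := by
    have := hTW a
    rw [hη.pow_eq_one, one_smul] at this
    exact this.symm
  have hmem : ∀ m : M, m ∈ M0 ↔ T m = lam • m := fun m => Module.End.mem_eigenspace_iff
  have hstab : ∀ P : Module.End (HahnSeries Γ k) M, Commute P T → ∀ m ∈ M0, P m ∈ M0 := by
    intro P hP m hm
    rw [hmem] at hm ⊢
    have : T (P m) = P (T m) := by rw [← Module.End.mul_apply, ← hP.eq, Module.End.mul_apply]
    rw [this, hm, map_smul]
  -- first: a copies
  have hfirst : a * Module.finrank (HahnSeries Γ k) M0 ≤ Module.finrank (HahnSeries Γ k) M := by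
    let Φ : (Fin a → M0) →ₗ[(HahnSeries Γ k)] M :=
      { toFun := fun f => ∑ l : Fin a, (W ^ (l : ℕ)) (f l : M)
        map_add' := by
          intro f g
          rw [← Finset.sum_add_distrib]
          apply Finset.sum_congr rfl; intros; simp
        map_smul' := by
          intro r f
          rw [RingHom.id_apply, Finset.smul_sum]
          apply Finset.sum_congr rfl; intros; simp }
    have hWinj : ∀ l : ℕ, ∀ m : M, (W ^ l) m = 0 → m = 0 := by
      intro l m hm
      have h1 : (W ^ (l * n)) m = (w ^ l) • m := by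
        rw [mul_comm l n, pow_mul, hW, ← map_pow, Module.algebraMap_end_apply]
      have h2 : (W ^ (l * n)) m = 0 := by
        obtain ⟨q, hq⟩ : ∃ q, l * n = q + l := ⟨l * (n - 1), by
          obtain ⟨n', rfl⟩ : ∃ n', n = n' + 1 := ⟨n - 1, by omega⟩
          simp; ring⟩
        rw [hq, pow_add, Module.End.mul_apply, hm, map_zero]
      rw [h1] at h2
      exact (smul_eq_zero.1 h2).resolve_left (pow_ne_zero _ hw)
    have hinj : Function.Injective Φ := by
      rw [injective_iff_map_eq_zero]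
      intro f hf
      by_contra hne
      let S := {l : Fin a // f l ≠ 0}
      have hli : LinearIndependent (HahnSeries Γ k) (fun l : S => (W ^ ((l : Fin a) : ℕ)) (f l : M)) := by
        apply Module.End.eigenvectors_linearIndependent' T (fun l : S => (ξ ^ b) ^ ((l : Fin a) : ℕ) * lam)
        · intro l l' hll
          have h1 := mul_right_cancel₀ hl0 hll
          have h2 := hη.pow_inj (l : Fin a).isLt (l' : Fin a).isLt h1
          exact Subtype.ext (Fin.ext h2)
        · intro l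
          refine ⟨?_, ?_⟩
          · rw [Module.End.mem_eigenspace_iff]
            have h1 := congrArg (fun P : Module.End (HahnSeries Γ k) M => P (f l : M)) (hTW ((l : Fin a) : ℕ))
            simp only [Module.End.mul_apply, LinearMap.smul_apply] at h1
            rw [h1, (hmem _).1 (f l).2, map_smul, smul_smul]
          · intro h0
            exact l.2 (Subtype.ext (hWinj _ _ h0))
      rw [Fintype.linearIndependent_iff] at hli
      have hsum : ∑ l : S, (1 : (HahnSeries Γ k)) • (W ^ ((l : Fin a) : ℕ)) (f l : M) = 0 := by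
        have h1 : ∑ l : Fin a, (W ^ (l : ℕ)) (f l : M) = 0 := hf
        rw [← Finset.sum_filter_add_sum_filter_not univ (fun l => f l ≠ 0)] at h1
        have h2 : ∑ l ∈ univ.filter (fun l => ¬ f l ≠ 0), (W ^ (l : ℕ)) (f l : M) = 0 := by
          apply Finset.sum_eq_zero
          intro l hl
          simp only [Finset.mem_filter, Finset.mem_univ, true_and, not_not] at hl
          rw [hl]; simp
        rw [h2, add_zero] at h1
        rw [← h1]
        simp only [one_smul]
        exact (Finset.sum_subtype (univ.filter (fun l => f l ≠ 0)) (by simp)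
          (fun l : Fin a => (W ^ (l : ℕ)) (f l : M))).symm
      have h0 := hli (fun _ => 1) hsum
      apply hne
      funext l
      by_contra hl
      exact one_ne_zero (h0 ⟨l, hl⟩)
    have := LinearMap.finrank_le_finrank_of_injective hinj
    rwa [Module.finrank_pi_fintype, Finset.sum_const, Finset.card_univ, Fintype.card_fin, smul_eq_mul] at this
  -- second: M0 is a module over a division algebra
  have hsecond : (n * n) * (b * b) ≤ Module.finrank (HahnSeries Γ k) M0 := by
    let X0 : Module.End (HahnSeries Γ k) M0 := X.restrict (hstab X hXT)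
    let Y0 : Module.End (HahnSeries Γ k) M0 := Y.restrict (hstab Y hYT)
    let Z0 : Module.End (HahnSeries Γ k) M0 := Z.restrict (hstab Z hZT)
    let V0 : Module.End (HahnSeries Γ k) M0 := (W ^ a).restrict (hstab (W ^ a) hVT)
    have rpow : ∀ (P : Module.End (HahnSeries Γ k) M) (hP : ∀ m ∈ M0, P m ∈ M0) (j : ℕ) (m : M0),
        (((P.restrict hP : Module.End (HahnSeries Γ k) M0) ^ j) m : M) = (P ^ j) (m : M) := by
      intro P hP j
      induction j with
      | zero => intro m; simp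
      | succ j ih =>
        intro m
        rw [pow_succ, pow_succ, Module.End.mul_apply, Module.End.mul_apply, ih]
        rfl
    have hX0 : X0 ^ n = algebraMap _ _ x := by
      apply LinearMap.ext; intro m; apply Subtype.ext
      rw [rpow, hX]; rfl
    have hY0 : Y0 ^ n = algebraMap _ _ y := by
      apply LinearMap.ext; intro m; apply Subtype.ext
      rw [rpow, hY]; rfl
    have hZ0 : Z0 ^ b = algebraMap _ _ lam := by
      apply LinearMap.ext; intro m; apply Subtype.ext
      rw [rpow, ← hT, (hmem _).1 m.2]; rfl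
    have hV0 : V0 ^ b = algebraMap _ _ w := by
      apply LinearMap.ext; intro m; apply Subtype.ext
      rw [rpow, ← pow_mul, ← hn, hW]; rfl
    have hYX0 : Y0 * X0 = ξ⁻¹ • (X0 * Y0) := by
      apply LinearMap.ext; intro m; apply Subtype.ext
      exact congrArg (fun P : Module.End (HahnSeries Γ k) M => P (m : M)) hYX
    have hVZ : W ^ a * Z = (ξ ^ a)⁻¹ • (Z * W ^ a) := by
      have := hWlZk 1 a
      rw [pow_one, mul_one] at this
      rw [this, inv_pow]
    have hVZ0 : V0 * Z0 = (ξ ^ a)⁻¹ • (Z0 * V0) := by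
      apply LinearMap.ext; intro m; apply Subtype.ext
      exact congrArg (fun P : Module.End (HahnSeries Γ k) M => P (m : M)) hVZ
    have cXW' : X * W ^ a = W ^ a * X := ((show Commute X W from cXW).pow_right a).eq
    have cYW' : Y * W ^ a = W ^ a * Y := ((show Commute Y W from cYW).pow_right a).eq
    have cXZ0 : Commute X0 Z0 := by
      apply LinearMap.ext; intro m; apply Subtype.ext
      exact congrArg (fun P : Module.End (HahnSeries Γ k) M => P (m : M)) cXZ
    have cYZ0 : Commute Y0 Z0 := by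
      apply LinearMap.ext; intro m; apply Subtype.ext
      exact congrArg (fun P : Module.End (HahnSeries Γ k) M => P (m : M)) cYZ
    have cXV0 : Commute X0 V0 := by
      apply LinearMap.ext; intro m; apply Subtype.ext
      exact congrArg (fun P : Module.End (HahnSeries Γ k) M => P (m : M)) cXW'
    have cYV0 : Commute Y0 V0 := by
      apply LinearMap.ext; intro m; apply Subtype.ext
      exact congrArg (fun P : Module.End (HahnSeries Γ k) M => P (m : M)) cYW'
    have q1 : (ξ⁻¹).order = 0 := order_inv_root hn0 (by rw [inv_pow, hξ.pow_eq_one, inv_one])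
    have q2 : ((ξ ^ a)⁻¹).order = 0 := order_inv_root hb (by rw [inv_pow, hη'.pow_eq_one, inv_one])
    let t1 := Tw.block n 1 n hn0 (one_mul n).symm ξ⁻¹ x y (inv_ne_zero hξ0) hx hy q1
    let t2 := Tw.block n a b hb hn (ξ ^ a)⁻¹ lam w (inv_ne_zero (pow_ne_zero _ hξ0)) hl0 hw q2
    have hsep : (t1.prod t2).Sep := by
      intro α β g h heq
      have hW' : ∀ i : Fin 4, ∀ g : (Fin n × Fin n) × (Fin b × Fin b), p i ((t1.prod t2).W g) =
          (g.1.1.val : ℤ) * (if i = 0 then 1 else 0) + (g.1.2.val : ℤ) * (if i = 1 then 1 else 0)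
          + ((a * g.2.1.val : ℕ) : ℤ) * (if i = 2 then 1 else 0) + ((a * g.2.2.val : ℕ) : ℤ) * (if i = 3 then 1 else 0) := by
        intro i g
        simp only [Tw.prod, Tw.block, t1, t2, map_add, map_nsmul, px, py, pw, hlo, pz, one_mul, nsmul_eq_mul]
        ring
      have hp : ∀ i : Fin 4, (n : ℤ) * p i α + p i ((t1.prod t2).W g) = (n : ℤ) * p i β + p i ((t1.prod t2).W h) := by
        intro i
        have := congrArg (p i) heq
        simpa [map_add, map_nsmul] using this
      have e0 := hp 0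
      have e1 := hp 1
      have e2 := hp 2
      have e3 := hp 3
      rw [hW', hW'] at e0 e1 e2 e3
      simp at e0 e1 e2 e3
      have cancel1 : ∀ (i j : Fin n) (A B : ℤ), (n : ℤ) * A + (i.val : ℤ) = n * B + (j.val : ℤ) → i = j := by
        intro i j A B h
        have h1 : ((i.val : ℤ)) % n = (j.val : ℤ) % n := by
          have := congrArg (· % (n : ℤ)) h
          simpa [Int.add_emod, Int.mul_emod_right] using this
        rw [Int.emod_eq_of_lt (by positivity) (by exact_mod_cast i.isLt),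
          Int.emod_eq_of_lt (by positivity) (by exact_mod_cast j.isLt)] at h1
        exact Fin.ext (by exact_mod_cast h1)
      have cancel2 : ∀ (i j : Fin b) (A B : ℤ), (n : ℤ) * A + (a : ℤ) * (i.val : ℤ) = n * B + (a : ℤ) * (j.val : ℤ) → i = j := by
        intro i j A B h
        have ha' : (a : ℤ) ≠ 0 := by exact_mod_cast ha.ne'
        have h0 : (b : ℤ) * A + (i.val : ℤ) = b * B + (j.val : ℤ) := by
          apply mul_left_cancel₀ ha'
          rw [hn] at h
          push_cast at h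
          linear_combination h
        have h1 : ((i.val : ℤ)) % b = (j.val : ℤ) % b := by
          have := congrArg (· % (b : ℤ)) h0
          simpa [Int.add_emod, Int.mul_emod_right] using this
        rw [Int.emod_eq_of_lt (by positivity) (by exact_mod_cast i.isLt),
          Int.emod_eq_of_lt (by positivity) (by exact_mod_cast j.isLt)] at h1
        exact Fin.ext (by exact_mod_cast h1)
      have r0 := cancel1 _ _ _ _ e0
      have r1 := cancel1 _ _ _ _ e1
      have r2 := cancel2 _ _ _ _ e2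
      have r3 := cancel2 _ _ _ _ e3
      exact Prod.ext (Prod.ext r0 r1) (Prod.ext r2 r3)
    have h1 := (t1.prod t2).card_le_finrank hsep
      (fun g => (X0 ^ g.1.1.val * Y0 ^ g.1.2.val) * (Z0 ^ g.2.1.val * V0 ^ g.2.2.val))
      (by
        intro g h
        exact Tw.prod_rel t1 t2 (fun g => X0 ^ g.1.val * Y0 ^ g.2.val) (fun g => Z0 ^ g.1.val * V0 ^ g.2.val)
          (fun g h => Tw.block_rel n 1 n hn0 _ _ _ _ _ _ _ q1 X0 Y0 hX0 hY0 hYX0 g h)
          (fun g h => Tw.block_rel n a b hb hn _ _ _ _ _ _ q2 Z0 V0 hZ0 hV0 hVZ0 g h)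
          (fun g h => by
            apply Commute.mul_right <;> apply Commute.mul_left <;> apply Commute.pow_pow
            · exact cXZ0.symm
            · exact cXV0.symm
            · exact cYZ0.symm
            · exact cYV0.symm) g h)
      ((⟨0, hn0⟩, ⟨0, hn0⟩), (⟨0, hb⟩, ⟨0, hb⟩)) (by simp)
    simpa using h1
  calc a * ((n * n) * (b * b)) ≤ a * Module.finrank (HahnSeries Γ k) M0 := Nat.mul_le_mul_left _ hsecond
    _ ≤ _ := hfirst

end Key

section Simple

variable {F : Type} [Field F] [DecidableEq F] {A : Type} [Ring A] [Algebra F A] {G : Type} [Fintype G] [DecidableEq G]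

theorem one_mem_of_monomials (e : G → A) (he : ∀ g, IsUnit (e g))
    (hsep : ∀ g h, g ≠ h → ∃ (r s : A) (χ : G → F), r * s = 1 ∧
      (∀ k, r * e k = χ k • (e k * r)) ∧ χ g ≠ χ h) (I : TwoSidedIdeal A) :
    ∀ (N : ℕ) (c : G → F), (univ.filter (fun g => c g ≠ 0)).card = N → 0 < N →
      ∑ g, c g • e g ∈ I → (1 : A) ∈ I := by
  intro N
  induction N using Nat.strong_induction_on with
  | _ N ih =>
    intro c hc hN hmem
    by_cases h1 : N = 1
    · rw [h1, Finset.card_eq_one] at hc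
      obtain ⟨g, hg⟩ := hc
      have hz : ∀ h, h ≠ g → c h = 0 := by
        intro h hh
        by_contra hne
        have : h ∈ univ.filter (fun g => c g ≠ 0) := by simp [hne]
        rw [hg, Finset.mem_singleton] at this
        exact hh this
      have hcg : c g ≠ 0 := by
        have : g ∈ univ.filter (fun g => c g ≠ 0) := by rw [hg]; simp
        simpa using this
      rw [Finset.sum_eq_single g (fun h _ hh => by rw [hz h hh, zero_smul]) (by simp)] at hmem
      obtain ⟨w, hw⟩ := he g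
      have h2 := I.mul_mem_left ((c g)⁻¹ • (↑w⁻¹ : A)) _ hmem
      rw [smul_mul_smul_comm, inv_mul_cancel₀ hcg, one_smul, ← hw, Units.inv_mul] at h2
      exact h2
    · have h2 : 1 < (univ.filter (fun g => c g ≠ 0)).card := by omega
      obtain ⟨g, hg, h, hh, hgh⟩ := Finset.one_lt_card.1 h2
      obtain ⟨r, s, χ, hrs, hr, hχ⟩ := hsep g h hgh
      have hy : ∑ k, ((χ k - χ g) * c k) • e k ∈ I := by
        have h3 : r * (∑ k, c k • e k) * s = ∑ k, (χ k * c k) • e k := by
          rw [Finset.mul_sum, Finset.sum_mul]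
          apply Finset.sum_congr rfl
          intro k _
          rw [mul_smul_comm, hr, smul_mul_assoc, smul_mul_assoc, mul_assoc, hrs, mul_one, smul_smul, mul_comm]
        have h4 : r * (∑ k, c k • e k) * s ∈ I := I.mul_mem_right _ _ (I.mul_mem_left _ _ hmem)
        have h5 : (χ g • (1 : A)) * (∑ k, c k • e k) ∈ I := I.mul_mem_left _ _ hmem
        have h6 := I.sub_mem h4 h5
        rw [h3, smul_mul_assoc, one_mul, Finset.smul_sum, ← Finset.sum_sub_distrib] at h6
        convert h6 using 2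
        rw [smul_smul, ← sub_smul, sub_mul]
      refine ih _ ?_ _ rfl ?_ hy
      · rw [← hc]
        apply Finset.card_lt_card
        rw [Finset.ssubset_iff_of_subset]
        · exact ⟨g, hg, by simp⟩
        · intro k hk
          simp only [Finset.mem_filter, Finset.mem_univ, true_and] at hk ⊢
          exact fun h0 => hk (by rw [h0, mul_zero])
      · rw [Finset.card_pos]
        refine ⟨h, ?_⟩
        simp only [Finset.mem_filter, Finset.mem_univ, true_and] at hh ⊢
        exact mul_ne_zero (sub_ne_zero.2 hχ.symm) hh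

theorem simple_of_monomials [Nontrivial A] (e : G → A) (he : ∀ g, IsUnit (e g))
    (hspan : ∀ x : A, ∃ c : G → F, ∑ g, c g • e g = x)
    (hsep : ∀ g h, g ≠ h → ∃ (r s : A) (χ : G → F), r * s = 1 ∧
      (∀ k, r * e k = χ k • (e k * r)) ∧ χ g ≠ χ h) : IsSimpleRing A := by
  apply IsSimpleRing.of_eq_bot_or_eq_top
  intro I
  by_cases hI : I = ⊥
  · exact Or.inl hI
  · right
    have : ∃ x ∈ I, x ≠ 0 := by
      by_contra hcon
      push Not at hcon
      apply hI
      rw [eq_bot_iff]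
      intro x hx
      rw [TwoSidedIdeal.mem_bot]
      exact hcon x hx
    obtain ⟨x, hx, hx0⟩ := this
    obtain ⟨c, rfl⟩ := hspan x
    rw [← TwoSidedIdeal.one_mem_iff]
    apply one_mem_of_monomials e he hsep I _ c rfl _ hx
    rw [Finset.card_pos]
    by_contra hne
    rw [Finset.not_nonempty_iff_eq_empty, Finset.filter_eq_empty_iff] at hne
    apply hx0
    apply Finset.sum_eq_zero
    intro g _
    have := hne (Finset.mem_univ g)
    simp only [ne_eq, not_not] at this
    rw [this, zero_smul]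

end Simple

section Final

variable {F : Type} [Field F]

theorem isUnit_of_pow {A : Type} [Ring A] [Algebra F A] {n : ℕ} (hn : 0 < n) {x : A} {c : F} (hc : c ≠ 0)
    (h : x ^ n = algebraMap F A c) : IsUnit x := by
  have h1 : IsUnit (x ^ n) := by rw [h]; exact (IsUnit.mk0 c hc).map (algebraMap F A)
  exact (isUnit_pow_iff hn.ne').1 h1

theorem eigen_exists {A : Type} [Ring A] [Algebra F A] [Module.Finite F A] [Nontrivial A] {a : ℕ} (ha : 0 < a)
    {η z : F} (hη : IsPrimitiveRoot η a) {T : A} (hT : T ^ a = algebraMap F A (z ^ a)) :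
    ∃ (lam : F) (x : A), x ≠ 0 ∧ T * x = lam • x := by
  let T' : Module.End F A := Algebra.lmul F A T
  have hTa : T' ^ a = algebraMap _ _ (z ^ a) := by
    simp only [T']
    rw [← map_pow, hT, AlgHom.commutes]
  have hdvd : minpoly F T' ∣ (Polynomial.X ^ a - Polynomial.C (z ^ a)) := by
    apply minpoly.dvd
    simp [hTa]
  have hsp : (Polynomial.X ^ a - Polynomial.C (z ^ a)).Splits :=
    X_pow_sub_C_splits_of_isPrimitiveRoot hη rfl
  have hne : (Polynomial.X ^ a - Polynomial.C (z ^ a)) ≠ 0 := Polynomial.X_pow_sub_C_ne_zero ha _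
  have hsp2 : (minpoly F T').Splits := hsp.of_dvd hne hdvd
  have hdeg : (minpoly F T').degree ≠ 0 := (minpoly.degree_pos (Algebra.IsIntegral.isIntegral T')).ne'
  obtain ⟨lam, hl⟩ := hsp2.exists_eval_eq_zero hdeg
  obtain ⟨x, hx⟩ := (Module.End.hasEigenvalue_of_isRoot hl).exists_hasEigenvector
  exact ⟨lam, x, hx.2, hx.apply_eq_smul⟩

/-- Relations inside the tensor product of two symbol algebras. -/
theorem tensor_rel {n : ℕ} (hn : 2 ≤ n) {ξ x y w zz : F} (hξ : ξ ≠ 0) (hξn : ξ ^ n = 1) (hy : y ≠ 0) (hw : w ≠ 0) :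
    ∃ (X Y Z W : SymbolAlg F n ξ (x * w) y ⊗[F] SymbolAlg F n ξ (y * zz) w),
      X ^ n = algebraMap _ _ x ∧ Y ^ n = algebraMap _ _ y ∧ Z ^ n = algebraMap _ _ zz ∧
      W ^ n = algebraMap _ _ w ∧ X * Y = ξ • (Y * X) ∧ Z * W = ξ • (W * Z) ∧
      X * Z = Z * X ∧ X * W = W * X ∧ Y * Z = Z * Y ∧ Y * W = W * Y := by
  obtain ⟨m, rfl⟩ : ∃ m, n = m + 1 := ⟨n - 1, by omega⟩
  set u1 : SymbolAlg F (m + 1) ξ (x * w) y ⊗[F] SymbolAlg F (m + 1) ξ (y * zz) w :=
    Algebra.TensorProduct.includeLeft (S := F) (gu F (m + 1) ξ (x * w) y) with hu1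
  set v1 : SymbolAlg F (m + 1) ξ (x * w) y ⊗[F] SymbolAlg F (m + 1) ξ (y * zz) w :=
    Algebra.TensorProduct.includeLeft (S := F) (gv F (m + 1) ξ (x * w) y) with hv1
  set u2 : SymbolAlg F (m + 1) ξ (x * w) y ⊗[F] SymbolAlg F (m + 1) ξ (y * zz) w :=
    Algebra.TensorProduct.includeRight (gu F (m + 1) ξ (y * zz) w) with hu2
  set v2 : SymbolAlg F (m + 1) ξ (x * w) y ⊗[F] SymbolAlg F (m + 1) ξ (y * zz) w :=
    Algebra.TensorProduct.includeRight (gv F (m + 1) ξ (y * zz) w) with hv2
  have e1 : u1 ^ (m + 1) = algebraMap _ _ (x * w) := by rw [hu1, ← map_pow, gu_pow, AlgHom.commutes]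
  have e2 : v1 ^ (m + 1) = algebraMap _ _ y := by rw [hv1, ← map_pow, gv_pow, AlgHom.commutes]
  have e3 : u2 ^ (m + 1) = algebraMap _ _ (y * zz) := by rw [hu2, ← map_pow, gu_pow, AlgHom.commutes]
  have e4 : v2 ^ (m + 1) = algebraMap _ _ w := by rw [hv2, ← map_pow, gv_pow, AlgHom.commutes]
  have r1 : u1 * v1 = ξ • (v1 * u1) := by rw [hu1, hv1, ← map_mul, gu_gv, map_smul, map_mul]
  have r2 : u2 * v2 = ξ • (v2 * u2) := by rw [hu2, hv2, ← map_mul, gu_gv, map_smul, map_mul]
  have cc : ∀ (s : SymbolAlg F (m + 1) ξ (x * w) y) (t : SymbolAlg F (m + 1) ξ (y * zz) w),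
      Commute (Algebra.TensorProduct.includeLeft (S := F) s : SymbolAlg F (m + 1) ξ (x * w) y ⊗[F] SymbolAlg F (m + 1) ξ (y * zz) w)
        (Algebra.TensorProduct.includeRight t) := by
    intro s t
    rw [Commute, SemiconjBy, Algebra.TensorProduct.includeLeft_apply, Algebra.TensorProduct.includeRight_apply,
      Algebra.TensorProduct.tmul_mul_tmul, Algebra.TensorProduct.tmul_mul_tmul]
    simp
  have c11 : Commute u1 u2 := cc _ _
  have c12 : Commute u1 v2 := cc _ _
  have c21 : Commute v1 u2 := cc _ _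
  have c22 : Commute v1 v2 := cc _ _
  have s1 : v1 * u1 = ξ⁻¹ • (u1 * v1) := by rw [r1, smul_smul, inv_mul_cancel₀ hξ, one_smul]
  have s2 : v2 * u2 = ξ⁻¹ • (u2 * v2) := by rw [r2, smul_smul, inv_mul_cancel₀ hξ, one_smul]
  have hsm : ∀ r c : F, r • (algebraMap F (SymbolAlg F (m + 1) ξ (x * w) y ⊗[F] SymbolAlg F (m + 1) ξ (y * zz) w)) c
      = algebraMap F (SymbolAlg F (m + 1) ξ (x * w) y ⊗[F] SymbolAlg F (m + 1) ξ (y * zz) w) (r * c) := by
    intro r c
    exact (Algebra.smul_def (R := F) (A := SymbolAlg F (m + 1) ξ (x * w) y ⊗[F] SymbolAlg F (m + 1) ξ (y * zz) w) r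
      (algebraMap F _ c)).trans (map_mul (algebraMap F _) r c).symm
  have p1 := pow_swap ξ⁻¹ u1 v1 s1
  have p2 := pow_swap ξ⁻¹ u2 v2 s2
  refine ⟨w⁻¹ • (u1 * v2 ^ m), v1, y⁻¹ • (u2 * v1 ^ m), v2, ?_, e2, ?_, e4, ?_, ?_, ?_, ?_, ?_, c22.eq⟩
  · rw [smul_pow, (c12.pow_right m).mul_pow, e1, ← pow_mul, mul_comm m, pow_mul, e4, ← map_pow, ← map_mul]
    refine (hsm _ _).trans ?_
    congr 1
    rw [inv_pow, pow_succ]
    field_simp
  · rw [smul_pow, (c21.symm.pow_right m).mul_pow, e3, ← pow_mul, mul_comm m, pow_mul, e2, ← map_pow, ← map_mul]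
    refine (hsm _ _).trans ?_
    congr 1
    rw [inv_pow, pow_succ]
    field_simp
  · rw [smul_mul_assoc, mul_smul_comm, smul_comm ξ w⁻¹]
    congr 1
    rw [mul_assoc, ← (c22.pow_right m).eq, ← mul_assoc, r1, smul_mul_assoc, mul_assoc]
  · rw [smul_mul_assoc, mul_smul_comm, smul_comm ξ y⁻¹]
    congr 1
    rw [mul_assoc, (c22.pow_left m).eq, ← mul_assoc, r2, smul_mul_assoc, mul_assoc]
  · rw [smul_mul_assoc, mul_smul_comm, smul_mul_assoc, mul_smul_comm, smul_comm]
    congr 2
    have q1 : v2 ^ m * u2 = ξ⁻¹ ^ m • (u2 * v2 ^ m) := by simpa using p2 1 m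
    have q2 : v1 ^ m * u1 = ξ⁻¹ ^ m • (u1 * v1 ^ m) := by simpa using p1 1 m
    calc u1 * v2 ^ m * (u2 * v1 ^ m) = u1 * (v2 ^ m * u2) * v1 ^ m := by simp only [mul_assoc]
      _ = ξ⁻¹ ^ m • (u1 * u2 * (v2 ^ m * v1 ^ m)) := by
        rw [q1, mul_smul_comm, smul_mul_assoc]; simp only [mul_assoc]
      _ = ξ⁻¹ ^ m • (u2 * (u1 * v1 ^ m) * v2 ^ m) := by
        rw [c11.eq, ← (c22.pow_pow m m).eq]; simp only [mul_assoc]
      _ = u2 * v1 ^ m * (u1 * v2 ^ m) := by
        rw [← smul_mul_assoc, ← mul_smul_comm, ← q2]; simp only [mul_assoc]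
  · rw [smul_mul_assoc, mul_smul_comm]
    congr 1
    rw [mul_assoc, ← pow_succ, ← mul_assoc, ← c12.eq, mul_assoc, ← pow_succ']
  · rw [smul_mul_assoc, mul_smul_comm]
    congr 1
    rw [mul_assoc, ← pow_succ, ← mul_assoc, c21.eq, mul_assoc, ← pow_succ']

/-- tensor products of two symbol algebras are simple -/
theorem tensor_simple {n : ℕ} (hn : 2 ≤ n) {ξ a b c d : F} (hξ : IsPrimitiveRoot ξ n) (ha : a ≠ 0) (hb : b ≠ 0)
    (hc : c ≠ 0) (hd : d ≠ 0) [Nontrivial (SymbolAlg F n ξ a b ⊗[F] SymbolAlg F n ξ c d)] :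
    IsSimpleRing (SymbolAlg F n ξ a b ⊗[F] SymbolAlg F n ξ c d) := by
  classical
  have hn0 : 0 < n := by omega
  have hξ0 : ξ ≠ 0 := hξ.ne_zero hn0.ne'
  let e : (Fin n × Fin n) × (Fin n × Fin n) → SymbolAlg F n ξ a b ⊗[F] SymbolAlg F n ξ c d :=
    fun g => gm F n ξ a b g.1 ⊗ₜ[F] gm F n ξ c d g.2
  have hgu : ∀ (a b : F) (g : Fin n × Fin n), gu F n ξ a b * gm F n ξ a b g = ξ ^ g.2.val • (gm F n ξ a b g * gu F n ξ a b) := by
    intro a b g
    have h1 : gv F n ξ a b * gu F n ξ a b = ξ⁻¹ • (gu F n ξ a b * gv F n ξ a b) := by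
      rw [gu_gv, smul_smul, inv_mul_cancel₀ hξ0, one_smul]
    have h2 := pow_swap ξ⁻¹ (gu F n ξ a b) (gv F n ξ a b) h1 1 g.2.val
    rw [pow_one, mul_one] at h2
    rw [gm, mul_assoc, h2, mul_smul_comm, smul_smul, ← mul_pow, mul_inv_cancel₀ hξ0, one_pow, one_smul,
      ← mul_assoc, ← mul_assoc, ← pow_succ', ← pow_succ]
  have hgv : ∀ (a b : F) (g : Fin n × Fin n), gv F n ξ a b * gm F n ξ a b g = (ξ⁻¹) ^ g.1.val • (gm F n ξ a b g * gv F n ξ a b) := by
    intro a b g
    have h1 : gv F n ξ a b * gu F n ξ a b = ξ⁻¹ • (gu F n ξ a b * gv F n ξ a b) := by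
      rw [gu_gv, smul_smul, inv_mul_cancel₀ hξ0, one_smul]
    have h2 := pow_swap ξ⁻¹ (gu F n ξ a b) (gv F n ξ a b) h1 g.1.val 1
    rw [pow_one, one_mul] at h2
    rw [gm, ← mul_assoc, h2, smul_mul_assoc, mul_assoc, mul_assoc, ← pow_succ', ← pow_succ]
  have hunit : ∀ (a b : F), a ≠ 0 → b ≠ 0 → ∀ g : Fin n × Fin n, IsUnit (gm F n ξ a b g) := by
    intro a b ha hb g
    exact ((isUnit_of_pow hn0 ha gu_pow).pow _).mul ((isUnit_of_pow hn0 hb gv_pow).pow _)
  have hinv : ∀ (A : Type) [Ring A] (x : A), IsUnit x → ∃ y, x * y = 1 := by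
    intro A _ x hx
    obtain ⟨u, rfl⟩ := hx
    exact ⟨_, u.mul_inv⟩
  apply simple_of_monomials (F := F) e
  · intro g
    obtain ⟨x, hx⟩ := hunit a b ha hb g.1
    obtain ⟨y, hy⟩ := hunit c d hc hd g.2
    refine ⟨⟨(x : SymbolAlg F n ξ a b) ⊗ₜ[F] (y : SymbolAlg F n ξ c d), (↑x⁻¹ : SymbolAlg F n ξ a b) ⊗ₜ[F] (↑y⁻¹ : SymbolAlg F n ξ c d), ?_, ?_⟩, ?_⟩
    · rw [Algebra.TensorProduct.tmul_mul_tmul, Units.mul_inv, Units.mul_inv]; rfl
    · rw [Algebra.TensorProduct.tmul_mul_tmul, Units.inv_mul, Units.inv_mul]; rfl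
    · simp only [e]; rw [hx, hy]
  · intro x
    have hx : x ∈ Submodule.span F (Set.range e) := by
      induction x using TensorProduct.induction_on with
      | zero => exact Submodule.zero_mem _
      | add x y hx hy => exact Submodule.add_mem _ hx hy
      | tmul s t =>
        obtain ⟨cs, rfl⟩ := exists_coeff hn hξ0 s
        obtain ⟨ct, rfl⟩ := exists_coeff hn hξ0 t
        rw [TensorProduct.sum_tmul]
        apply Submodule.sum_mem
        intro g _
        rw [TensorProduct.tmul_sum]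
        apply Submodule.sum_mem
        intro h _
        rw [TensorProduct.tmul_smul, ← TensorProduct.smul_tmul']
        exact Submodule.smul_mem _ _ (Submodule.smul_mem _ _ (Submodule.subset_span ⟨(g, h), rfl⟩))
    exact (Submodule.mem_span_range_iff_exists_fun F).1 hx
  · intro g h hgh
    have hpinj : ∀ i j : Fin n, ξ ^ i.val = ξ ^ j.val → i = j := fun i j hij =>
      Fin.ext (hξ.pow_inj i.isLt j.isLt hij)
    have hpinj' : ∀ i j : Fin n, ξ⁻¹ ^ i.val = ξ⁻¹ ^ j.val → i = j := fun i j hij =>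
      Fin.ext (hξ.inv.pow_inj i.isLt j.isLt hij)
    obtain ⟨iu1, hiu1⟩ := hinv _ _ (isUnit_of_pow hn0 ha (gu_pow (F := F) (n := n) (ξ := ξ) (a := a) (b := b)))
    obtain ⟨iv1, hiv1⟩ := hinv _ _ (isUnit_of_pow hn0 hb (gv_pow (F := F) (n := n) (ξ := ξ) (a := a) (b := b)))
    obtain ⟨iu2, hiu2⟩ := hinv _ _ (isUnit_of_pow hn0 hc (gu_pow (F := F) (n := n) (ξ := ξ) (a := c) (b := d)))
    obtain ⟨iv2, hiv2⟩ := hinv _ _ (isUnit_of_pow hn0 hd (gv_pow (F := F) (n := n) (ξ := ξ) (a := c) (b := d)))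
    by_cases h1 : g.1.1 = h.1.1
    · by_cases h2 : g.1.2 = h.1.2
      · by_cases h3 : g.2.1 = h.2.1
        · have h4 : g.2.2 ≠ h.2.2 := fun h4 => hgh (Prod.ext (Prod.ext h1 h2) (Prod.ext h3 h4))
          refine ⟨1 ⊗ₜ[F] gu F n ξ c d, 1 ⊗ₜ[F] iu2, fun k => ξ ^ k.2.2.val, ?_, ?_, fun h0 => h4 (hpinj _ _ h0)⟩
          · rw [Algebra.TensorProduct.tmul_mul_tmul, one_mul, hiu2]; rfl
          · intro k
            simp only [e]
            rw [Algebra.TensorProduct.tmul_mul_tmul, Algebra.TensorProduct.tmul_mul_tmul, hgu, one_mul, mul_one,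
              TensorProduct.tmul_smul]
        · refine ⟨1 ⊗ₜ[F] gv F n ξ c d, 1 ⊗ₜ[F] iv2, fun k => ξ⁻¹ ^ k.2.1.val, ?_, ?_, fun h0 => h3 (hpinj' _ _ h0)⟩
          · rw [Algebra.TensorProduct.tmul_mul_tmul, one_mul, hiv2]; rfl
          · intro k
            simp only [e]
            rw [Algebra.TensorProduct.tmul_mul_tmul, Algebra.TensorProduct.tmul_mul_tmul, hgv, one_mul, mul_one,
              TensorProduct.tmul_smul]
      · refine ⟨gu F n ξ a b ⊗ₜ[F] 1, iu1 ⊗ₜ[F] 1, fun k => ξ ^ k.1.2.val, ?_, ?_, fun h0 => h2 (hpinj _ _ h0)⟩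
        · rw [Algebra.TensorProduct.tmul_mul_tmul, one_mul, hiu1]; rfl
        · intro k
          simp only [e]
          rw [Algebra.TensorProduct.tmul_mul_tmul, Algebra.TensorProduct.tmul_mul_tmul, hgu, one_mul, mul_one,
            TensorProduct.smul_tmul']
    · refine ⟨gv F n ξ a b ⊗ₜ[F] 1, iv1 ⊗ₜ[F] 1, fun k => ξ⁻¹ ^ k.1.1.val, ?_, ?_, fun h0 => h1 (hpinj' _ _ h0)⟩
      · rw [Algebra.TensorProduct.tmul_mul_tmul, one_mul, hiv1]; rfl
      · intro k
        simp only [e]
        rw [Algebra.TensorProduct.tmul_mul_tmul, Algebra.TensorProduct.tmul_mul_tmul, hgv, one_mul, mul_one,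
          TensorProduct.smul_tmul']

end Final

section Main

theorem isDiv_symb {Γ : Type} [AddCommGroup Γ] [LinearOrder Γ] [IsOrderedAddMonoid Γ] {k : Type} [Field k]
    {n : ℕ} (hn : 2 ≤ n) {ξ s t : HahnSeries Γ k} (hξ : IsPrimitiveRoot ξ n) (hs : s ≠ 0) (ht : t ≠ 0)
    (p q : Γ →+ ℤ) (ps : p s.order = 1) (pt : p t.order = 0) (qs : q s.order = 0) (qt : q t.order = 1) :
    IsDivisionAlg (SymbolAlg (HahnSeries Γ k) n ξ s t) := by
  classical
  have hn0 : 0 < n := by omega
  have hξ0 : ξ ≠ 0 := hξ.ne_zero hn0.ne'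
  refine ⟨nontrivial_symb hn0 hξ, ?_⟩
  have q1 : (ξ⁻¹).order = 0 := order_inv_root hn0 (by rw [inv_pow, hξ.pow_eq_one, inv_one])
  let t1 := Tw.block n 1 n hn0 (one_mul n).symm ξ⁻¹ s t (inv_ne_zero hξ0) hs ht q1
  have cancel1 : ∀ (i j : Fin n) (A B : ℤ), (n : ℤ) * A + (i.val : ℤ) = n * B + (j.val : ℤ) → i = j := by
    intro i j A B h
    have h1 : ((i.val : ℤ)) % n = (j.val : ℤ) % n := by
      have := congrArg (· % (n : ℤ)) h
      simpa [Int.add_emod, Int.mul_emod_right] using this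
    rw [Int.emod_eq_of_lt (by positivity) (by exact_mod_cast i.isLt),
      Int.emod_eq_of_lt (by positivity) (by exact_mod_cast j.isLt)] at h1
    exact Fin.ext (by exact_mod_cast h1)
  have hsep : t1.Sep := by
    intro α β g h heq
    simp only [t1, Tw.block, one_mul] at heq
    have e0 := congrArg p heq
    have e1 := congrArg q heq
    simp only [map_add, map_nsmul, ps, pt, qs, qt, nsmul_eq_mul, mul_one, mul_zero, add_zero, zero_add] at e0 e1
    exact Prod.ext (cancel1 _ _ _ _ e0) (cancel1 _ _ _ _ e1)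
  have hleft : ∀ x : SymbolAlg (HahnSeries Γ k) n ξ s t, x ≠ 0 → ∃ y, y * x = 1 := by
    intro x hx
    obtain ⟨c, rfl⟩ := exists_coeff hn hξ0 x
    have hc : c ≠ 0 := by
      intro h
      apply hx
      simp [h]
    have hvu : gv (HahnSeries Γ k) n ξ s t * gu (HahnSeries Γ k) n ξ s t =
        ξ⁻¹ • (gu (HahnSeries Γ k) n ξ s t * gv (HahnSeries Γ k) n ξ s t) := by
      rw [gu_gv, smul_smul, inv_mul_cancel₀ hξ0, one_smul]
    obtain ⟨d, hd⟩ := t1.exists_left_inv hsep (gm (HahnSeries Γ k) n ξ s t)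
      (fun g h => Tw.block_rel n 1 n hn0 _ _ _ _ _ _ _ q1 _ _ gu_pow gv_pow hvu g h)
      (⟨0, hn0⟩, ⟨0, hn0⟩) (by simp [gm]) c hc
    exact ⟨_, hd⟩
  intro x hx
  obtain ⟨y, hy⟩ := hleft x hx
  haveI := nontrivial_symb (a := s) (b := t) hn0 hξ
  have hy0 : y ≠ 0 := by
    rintro rfl
    rw [zero_mul] at hy
    exact zero_ne_one hy
  obtain ⟨z, hz⟩ := hleft y hy0
  have : z = x := by
    calc z = z * (y * x) := by rw [hy, mul_one]
      _ = x := by rw [← mul_assoc, hz, one_mul]
  subst this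
  exact ⟨⟨z, y, hz, hy⟩, rfl⟩

def matOne (F D : Type) [Field F] [DivisionRing D] [Algebra F D] : Matrix (Fin 1) (Fin 1) D →ₐ[F] D where
  toFun M := M 0 0
  map_one' := by simp
  map_mul' M N := by simp [Matrix.mul_apply]
  map_zero' := by simp
  map_add' M N := by simp
  commutes' c := by simp [Matrix.algebraMap_matrix_apply]

theorem matOne_injective (F D : Type) [Field F] [DivisionRing D] [Algebra F D] :
    Function.Injective (matOne F D) := by
  intro M N h
  ext i j
  rw [Subsingleton.elim i 0, Subsingleton.elim j 0]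
  exact h

theorem indexLT_tensor {F : Type} [Field F] {n a b : ℕ} (ha : 2 ≤ a) (hb : 0 < b) (hnab : n = a * b) (hn : 2 ≤ n)
    {ξ x y z w : F} (hξ : IsPrimitiveRoot ξ n) (hx : x ≠ 0) (hy : y ≠ 0) (hz : z ≠ 0) (hw : w ≠ 0) :
    IndexLT F (SymbolAlg F n ξ (x * w) y ⊗[F] SymbolAlg F n ξ (y * z ^ a) w) (n ^ 2) := by
  have hn0 : 0 < n := by omega
  have hξ0 : ξ ≠ 0 := hξ.ne_zero hn0.ne'
  haveI n1 : Nontrivial (SymbolAlg F n ξ (x * w) y) := nontrivial_symb hn0 hξ
  haveI n2 : Nontrivial (SymbolAlg F n ξ (y * z ^ a) w) := nontrivial_symb hn0 hξ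
  haveI f1 : Module.Finite F (SymbolAlg F n ξ (x * w) y) := finite_symb hn hξ0
  haveI f2 : Module.Finite F (SymbolAlg F n ξ (y * z ^ a) w) := finite_symb hn hξ0
  have hfr : Module.finrank F (SymbolAlg F n ξ (x * w) y ⊗[F] SymbolAlg F n ξ (y * z ^ a) w) =
      Module.finrank F (SymbolAlg F n ξ (x * w) y) * Module.finrank F (SymbolAlg F n ξ (y * z ^ a) w) :=
    Module.finrank_tensorProduct
  have hpos : 0 < Module.finrank F (SymbolAlg F n ξ (x * w) y ⊗[F] SymbolAlg F n ξ (y * z ^ a) w) := by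
    rw [hfr]; exact Nat.mul_pos Module.finrank_pos Module.finrank_pos
  have hle : Module.finrank F (SymbolAlg F n ξ (x * w) y ⊗[F] SymbolAlg F n ξ (y * z ^ a) w) ≤ (n * n) * (n * n) := by
    rw [hfr]; exact Nat.mul_le_mul (finrank_symb hn hξ0) (finrank_symb hn hξ0)
  haveI n3 : Nontrivial (SymbolAlg F n ξ (x * w) y ⊗[F] SymbolAlg F n ξ (y * z ^ a) w) :=
    Module.nontrivial_of_finrank_pos hpos
  haveI s3 : IsSimpleRing (SymbolAlg F n ξ (x * w) y ⊗[F] SymbolAlg F n ξ (y * z ^ a) w) :=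
    tensor_simple hn hξ (mul_ne_zero hx hw) hy (mul_ne_zero hy (pow_ne_zero _ hz)) hw
  haveI f3 : Module.Finite F (SymbolAlg F n ξ (x * w) y ⊗[F] SymbolAlg F n ξ (y * z ^ a) w) := inferInstance
  haveI a3 : IsArtinianRing (SymbolAlg F n ξ (x * w) y ⊗[F] SymbolAlg F n ξ (y * z ^ a) w) :=
    IsArtinianRing.of_finite F (SymbolAlg F n ξ (x * w) y ⊗[F] SymbolAlg F n ξ (y * z ^ a) w)
  obtain ⟨m, hm, D, iD, aD, fD, ⟨e⟩⟩ := IsSimpleRing.exists_algEquiv_matrix_divisionRing_finite F
    (SymbolAlg F n ξ (x * w) y ⊗[F] SymbolAlg F n ξ (y * z ^ a) w)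
  have hfD : 0 < Module.finrank F D := Module.finrank_pos
  refine ⟨D, iD, aD, m, ⟨e⟩, hfD, ?_⟩
  have hm1 : m ≠ 1 := by
    rintro rfl
    obtain ⟨X, Y, Z, W, -, -, hZ, hW, -, hZW, -, -, -, -⟩ :=
      tensor_rel (F := F) hn hξ0 hξ.pow_eq_one hy hw (x := x) (zz := z ^ a)
    have hη : IsPrimitiveRoot (ξ ^ b) a := hξ.pow hn0 (by rw [hnab, mul_comm])
    have hT : (Z ^ b) ^ a = algebraMap F _ (z ^ a) := by rw [← pow_mul, mul_comm b a, ← hnab, hZ]
    obtain ⟨lam, v, hv, hTv⟩ := eigen_exists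
      (A := SymbolAlg F n ξ (x * w) y ⊗[F] SymbolAlg F n ξ (y * z ^ a) w) (by omega : 0 < a) hη hT
    let e' : (SymbolAlg F n ξ (x * w) y ⊗[F] SymbolAlg F n ξ (y * z ^ a) w) →ₐ[F] D :=
      (matOne F D).comp e.toAlgHom
    have he' : Function.Injective e' := (matOne_injective F D).comp e.injective
    have h1 : e' (Z ^ b) * e' v = lam • e' v := by rw [← map_mul, hTv, map_smul]
    have h2 : e' v ≠ 0 := fun h => hv (he' (by rw [h, map_zero]))
    have h3 : e' (Z ^ b) = algebraMap F D lam := by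
      apply mul_right_cancel₀ h2
      rw [h1, Algebra.smul_def]
    have hWZ : W * Z = ξ⁻¹ • (Z * W) := by rw [hZW, smul_smul, inv_mul_cancel₀ hξ0, one_smul]
    have h4 : W * Z ^ b = ξ⁻¹ ^ b • (Z ^ b * W) := by
      have := pow_swap (A := SymbolAlg F n ξ (x * w) y ⊗[F] SymbolAlg F n ξ (y * z ^ a) w) ξ⁻¹ Z W hWZ b 1
      simpa using this
    have h5 : e' W * algebraMap F D lam = ξ⁻¹ ^ b • (algebraMap F D lam * e' W) := by
      rw [← h3, ← map_mul, h4, map_smul, map_mul]
    have hZu : IsUnit (Z ^ b) := (isUnit_of_pow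
      (A := SymbolAlg F n ξ (x * w) y ⊗[F] SymbolAlg F n ξ (y * z ^ a) w) hn0 (pow_ne_zero _ hz) hZ).pow b
    have hWu : IsUnit W := isUnit_of_pow
      (A := SymbolAlg F n ξ (x * w) y ⊗[F] SymbolAlg F n ξ (y * z ^ a) w) hn0 hw hW
    have h6 : algebraMap F D lam * e' W ≠ 0 := by
      rw [← h3]
      exact mul_ne_zero (hZu.map e').ne_zero (hWu.map e').ne_zero
    have h7 : (1 - ξ⁻¹ ^ b) • (algebraMap F D lam * e' W) = 0 := by
      rw [sub_smul, one_smul, ← h5, Algebra.commutes, sub_self]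
    rcases smul_eq_zero.1 h7 with h8 | h8
    · have h9 : (ξ ^ b) = 1 := by
        rw [inv_pow] at h8
        have := sub_eq_zero.1 h8
        exact inv_eq_one.1 this.symm
      have h10 := hη.pow_eq_one_iff_dvd 1
      rw [pow_one] at h10
      have := Nat.le_of_dvd one_pos (h10.1 h9)
      omega
    · exact h6 h8
  have hm2 : 2 ≤ m := by
    have : m ≠ 0 := hm.out
    omega
  have hfe : Module.finrank F (SymbolAlg F n ξ (x * w) y ⊗[F] SymbolAlg F n ξ (y * z ^ a) w) =
      m * m * Module.finrank F D := by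
    rw [e.toLinearEquiv.finrank_eq, Module.finrank_matrix]
    simp
  have h4 : 4 * Module.finrank F D ≤ m * m * Module.finrank F D :=
    Nat.mul_le_mul_right _ (by nlinarith)
  have h5 : (n ^ 2) ^ 2 = (n * n) * (n * n) := by ring
  rw [h5]
  omega

/-- **Main theorem.** -/
theorem main (n : ℕ) (hn : 2 ≤ n) (hcomp : ¬ n.Prime) :
    ∃ (F : Type) (_ : Field F) (ξ : F), IsPrimitiveRoot ξ n ∧
      ∃ a b c d : F, a ≠ 0 ∧ b ≠ 0 ∧ c ≠ 0 ∧ d ≠ 0 ∧
        IsDivisionAlg (SymbolAlg F n ξ a b) ∧ IsDivisionAlg (SymbolAlg F n ξ c d) ∧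
        IndexLT F (SymbolAlg F n ξ a b ⊗[F] SymbolAlg F n ξ c d) (n ^ 2) ∧
        ∀ a' b' c' d' : F, a' ≠ 0 → b' ≠ 0 → c' ≠ 0 → d' ≠ 0 →
          Nonempty (SymbolAlg F n ξ a b ⊗[F] SymbolAlg F n ξ c d ≃ₐ[F]
            SymbolAlg F n ξ a' b' ⊗[F] SymbolAlg F n ξ c' d') →
          ¬ ShareMaxSubfield F n (SymbolAlg F n ξ a' b') (SymbolAlg F n ξ c' d') := by
  obtain ⟨a, b, ha, hb, hnab⟩ : ∃ a b : ℕ, 2 ≤ a ∧ 2 ≤ b ∧ n = a * b := by
    obtain ⟨m, hm, hm1, hmn⟩ := Nat.exists_dvd_of_not_prime hn hcomp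
    obtain ⟨b, hb⟩ := hm
    refine ⟨m, b, ?_, ?_, hb⟩
    · rcases m with _ | _ | m
      · simp at hb; omega
      · exact absurd rfl hm1
      · omega
    · rcases b with _ | _ | b
      · simp at hb; omega
      · simp at hb; exact absurd hb.symm hmn
      · omega
  have hn0 : 0 < n := by omega
  let Γ : Type := Lex (Fin 4 → ℤ)
  let E : Fin 4 → Γ := fun i => toLex (Pi.single i 1)
  let V : Fin 4 → HahnSeries Γ ℂ := fun i => HahnSeries.single (E i) 1
  have hV0 : ∀ i, V i ≠ 0 := fun i => HahnSeries.single_ne_zero one_ne_zero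
  have hVo : ∀ i, (V i).order = E i := fun i => HahnSeries.order_single one_ne_zero
  let p : Fin 4 → (Γ →+ ℤ) := fun i =>
    { toFun := fun g => ofLex g i
      map_zero' := rfl
      map_add' := fun _ _ => rfl }
  have hp : ∀ i j, p i (V j).order = if i = j then 1 else 0 := by
    intro i j
    rw [hVo]
    change (Pi.single j (1 : ℤ) : Fin 4 → ℤ) i = _
    rw [Pi.single_apply]
  let ξ : HahnSeries Γ ℂ := HahnSeries.C (Complex.exp (2 * Real.pi * Complex.I / n))
  have hξ : IsPrimitiveRoot ξ n :=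
    (Complex.isPrimitiveRoot_exp n hn0.ne').map_of_injective (f := (HahnSeries.C : ℂ →+* HahnSeries Γ ℂ))
      HahnSeries.C_injective
  refine ⟨HahnSeries Γ ℂ, inferInstance, ξ, hξ, V 0 * V 3, V 1, V 1 * V 2 ^ a, V 3,
    mul_ne_zero (hV0 _) (hV0 _), hV0 _, mul_ne_zero (hV0 _) (pow_ne_zero _ (hV0 _)), hV0 _, ?_, ?_, ?_, ?_⟩
  · apply isDiv_symb hn hξ (mul_ne_zero (hV0 _) (hV0 _)) (hV0 _) (p 0) (p 1)
    · rw [HahnSeries.order_mul (hV0 _) (hV0 _), map_add, hp, hp]; simp
    · rw [hp]; simp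
    · rw [HahnSeries.order_mul (hV0 _) (hV0 _), map_add, hp, hp]; simp
    · rw [hp]; simp
  · apply isDiv_symb hn hξ (mul_ne_zero (hV0 _) (pow_ne_zero _ (hV0 _))) (hV0 _) (p 1) (p 3)
    · rw [HahnSeries.order_mul (hV0 _) (pow_ne_zero _ (hV0 _)), HahnSeries.order_pow, map_add, map_nsmul, hp, hp]; simp
    · rw [hp]; simp
    · rw [HahnSeries.order_mul (hV0 _) (pow_ne_zero _ (hV0 _)), HahnSeries.order_pow, map_add, map_nsmul, hp, hp]; simp
    · rw [hp]; simp
  · exact indexLT_tensor ha (by omega) hnab hn hξ (hV0 _) (hV0 _) (hV0 _) (hV0 _)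
  · rintro a' b' c' d' ha' hb' hc' hd' ⟨Ψ⟩ ⟨K, iK, aK, hK, ⟨f, hf⟩, ⟨g, hg⟩⟩
    have hξ0 : ξ ≠ 0 := hξ.ne_zero hn0.ne'
    haveI : Nontrivial (SymbolAlg (HahnSeries Γ ℂ) n ξ a' b') := hf.nontrivial
    haveI : Nontrivial (SymbolAlg (HahnSeries Γ ℂ) n ξ c' d') := hg.nontrivial
    haveI : Module.Finite (HahnSeries Γ ℂ) (SymbolAlg (HahnSeries Γ ℂ) n ξ a' b') := finite_symb hn hξ0
    haveI : Module.Finite (HahnSeries Γ ℂ) (SymbolAlg (HahnSeries Γ ℂ) n ξ c' d') := finite_symb hn hξ0
    obtain ⟨M, iM, mM, Φ, hMn, hMf, hMr⟩ := rep_exists hn0 hK f g (finrank_symb hn hξ0) (finrank_symb hn hξ0)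
    obtain ⟨X, Y, Z, W, hX, hY, hZ, hW, hXY, hZW, cXZ, cXW, cYZ, cYW⟩ :=
      tensor_rel (F := HahnSeries Γ ℂ) hn hξ0 hξ.pow_eq_one (hV0 1) (hV0 3) (x := V 0) (zz := V 2 ^ a)
    let Θ := Φ.comp Ψ.toAlgHom
    have hkey := key (by omega : 0 < a) (by omega : 0 < b) hnab hξ (hV0 0) (hV0 1) (hV0 2) (hV0 3) p
      (fun i => hp i 0) (fun i => hp i 1) (fun i => hp i 2) (fun i => hp i 3)
      (M := M) (Θ X) (Θ Y) (Θ Z) (Θ W)
      (by rw [← map_pow, hX, AlgHom.commutes]) (by rw [← map_pow, hY, AlgHom.commutes])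
      (by rw [← map_pow, hZ, AlgHom.commutes]) (by rw [← map_pow, hW, AlgHom.commutes])
      (by rw [← map_mul, hXY, map_smul, map_mul]) (by rw [← map_mul, hZW, map_smul, map_mul])
      (by rw [← map_mul, cXZ, map_mul]) (by rw [← map_mul, cXW, map_mul])
      (by rw [← map_mul, cYZ, map_mul]) (by rw [← map_mul, cYW, map_mul])
    have h1 : a * ((n * n) * (b * b)) ≤ n * (n * n) := hkey.trans hMr
    have h2 : a * ((n * n) * (b * b)) = (n * (n * n)) * b := by rw [hnab]; ring
    rw [h2] at h1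
    have h3 : 0 < n * (n * n) := by positivity
    nlinarith

end Main

end Pool.Agent.Helper51.CompositeDegree
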