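import Mathlib
import Pool.Agent.Helper386.D5V.Helper51_CompositeDegree

/-!
# Cubic symbol algebras and norm forms (module ALG of MP_d5741c_al)

`cn a g0 g1 g2` is the norm of `g0 + g1 A + g2 A^2`, `A^3 = a`; `Sp a x` says that `x` is a value
of this norm form, i.e. that the symbol algebra `(a, x)_3` is split.
-/

open Finset Polynomial
open scoped TensorProduct

noncomputable section

namespace Pool.Agent.Helper51.Alg3

open Pool.Agent.Helper51.SymbolDefs Pool.Agent.Helper51.CompositeDegree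

/-- The norm form of `L[A]/(A^3 - a)`. -/
def cn {L : Type*} [CommRing L] (a g0 g1 g2 : L) : L :=
  g0 ^ 3 + a * g1 ^ 3 + a ^ 2 * g2 ^ 3 - 3 * a * g0 * g1 * g2

/-- `x` is a norm from `L[A]/(A^3 - a)`. -/
def Sp {L : Type*} [CommRing L] (a x : L) : Prop := ∃ g0 g1 g2 : L, cn a g0 g1 g2 = x

theorem cn_mul {L : Type*} [CommRing L] (a g0 g1 g2 h0 h1 h2 : L) :
    cn a g0 g1 g2 * cn a h0 h1 h2 = cn a (g0 * h0 + a * (g1 * h2 + g2 * h1))
      (g0 * h1 + g1 * h0 + a * g2 * h2) (g0 * h2 + g1 * h1 + g2 * h0) := by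
  simp only [cn]; ring

theorem Sp.mul {L : Type*} [CommRing L] {a x y : L} (hx : Sp a x) (hy : Sp a y) : Sp a (x * y) := by
  obtain ⟨g0, g1, g2, rfl⟩ := hx
  obtain ⟨h0, h1, h2, rfl⟩ := hy
  exact ⟨_, _, _, (cn_mul _ _ _ _ _ _ _).symm⟩

theorem Sp.cube {L : Type*} [CommRing L] (a c : L) : Sp a (c ^ 3) := ⟨c, 0, 0, by simp [cn]⟩

theorem Sp.one {L : Type*} [CommRing L] (a : L) : Sp a 1 := ⟨1, 0, 0, by simp [cn]⟩

theorem Sp.self {L : Type*} [CommRing L] (a : L) : Sp a a := ⟨0, 1, 0, by simp [cn]⟩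

theorem Sp.map {L M : Type*} [CommRing L] [CommRing M] (f : L →+* M) {a x : L} (h : Sp a x) :
    Sp (f a) (f x) := by
  obtain ⟨g0, g1, g2, rfl⟩ := h
  exact ⟨f g0, f g1, f g2, by simp only [cn, map_sub, map_add, map_mul, map_pow, map_ofNat]⟩

theorem Sp.mul_cube_iff {L : Type*} [Field L] {a x c : L} (hc : c ≠ 0) :
    Sp a (x * c ^ 3) ↔ Sp a x := by
  constructor
  · intro h
    have := h.mul (Sp.cube a c⁻¹)
    rwa [mul_assoc, ← mul_pow, mul_inv_cancel₀ hc, one_pow, mul_one] at this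
  · intro h
    exact h.mul (Sp.cube a c)

theorem Sp.inv {L : Type*} [Field L] {a x : L} (h : Sp a x) : Sp a x⁻¹ := by
  by_cases hx : x = 0
  · rw [hx, inv_zero]; exact ⟨0, 0, 0, by simp [cn]⟩
  · have h2 : x⁻¹ = (x * x) * (x⁻¹) ^ 3 := by field_simp
    rw [h2]
    exact (h.mul h).mul (Sp.cube a _)

/-- rescaling the first slot by a cube -/
theorem Sp.cube_left_iff {L : Type*} [Field L] {a x c : L} (hc : c ≠ 0) :
    Sp (a * c ^ 3) x ↔ Sp a x := by
  constructor
  · rintro ⟨g0, g1, g2, h⟩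
    exact ⟨g0, c * g1, c ^ 2 * g2, by rw [← h]; simp only [cn]; ring⟩
  · rintro ⟨g0, g1, g2, h⟩
    refine ⟨g0, c⁻¹ * g1, (c⁻¹) ^ 2 * g2, ?_⟩
    rw [← h]; simp only [cn]
    field_simp

/-- if the first slot is a nonzero cube, everything is a norm -/
theorem Sp.of_cube {L : Type*} [Field L] (h3 : (3 : L) ≠ 0) {c : L} (hc : c ≠ 0) (x : L) : Sp (c ^ 3) x := by
  refine ⟨1 + (x - 1) / 3, (x - 1) / (3 * c), (x - 1) / (3 * c ^ 2), ?_⟩
  simp only [cn]
  field_simp
  ring

section ModuleLemma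

variable {L : Type*} [Field L]

theorem triple_poly {z : L} (hz : z ^ 2 + z + 1 = 0) (a g0 g1 g2 : L) :
    (C g0 + C g1 * (C z * X) + C g2 * (C z * X) ^ 2) * (C g0 + C g1 * (C z ^ 2 * X) + C g2 * (C z ^ 2 * X) ^ 2) *
      (C g0 + C g1 * X + C g2 * X ^ 2) = C (cn a g0 g1 g2) +
        (C g1 ^ 3 + C g2 ^ 3 * (X ^ 3 + C a) - 3 * C g0 * C g1 * C g2) * (X ^ 3 - C a) := by
  have h : (C z) ^ 2 + C z + 1 = (0 : L[X]) := by
    have := congrArg (C : L → L[X]) hz
    simpa using this
  simp only [cn, map_sub, map_add, map_mul, map_pow, map_ofNat]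
  linear_combination (C z ^ 4 * X ^ 6 * C g2 ^ 3+C z ^ 4 * X ^ 5 * C g1 * C g2 ^ 2+C z ^ 4 * X ^ 4 * C g0 * C g2 ^ 2-C z ^ 3 * X ^ 6 * C g2 ^ 3-C z ^ 3 * X ^ 4 * C g0 * C g2 ^ 2+C z ^ 3 * X ^ 4 * C g1 ^ 2 * C g2+C z ^ 3 * X ^ 3 * C g0 * C g1 * C g2+C z ^ 2 * X ^ 4 * C g0 * C g2 ^ 2+C z ^ 2 * X ^ 3 * C g0 * C g1 * C g2+C z ^ 2 * X ^ 2 * C g0 ^ 2 * C g2+C z * X ^ 6 * C g2 ^ 3-2 * C z * X ^ 3 * C g0 * C g1 * C g2+C z * X ^ 3 * C g1 ^ 3-C z * X ^ 2 * C g0 ^ 2 * C g2+C z * X ^ 2 * C g0 * C g1 ^ 2-X ^ 6 * C g2 ^ 3+3 * X ^ 3 * C g0 * C g1 * C g2-X ^ 3 * C g1 ^ 3+X ^ 2 * C g0 ^ 2 * C g2+X * C g0 ^ 2 * C g1) * h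

/-- the key computation in an algebra -/
theorem triple_alg {A : Type*} [Ring A] [Algebra L A] {z : L} (hz : z ^ 2 + z + 1 = 0) (a g0 g1 g2 : L) (V : A)
    (hV : V ^ 3 = algebraMap L A a) :
    aeval V (C g0 + C g1 * (C z * X) + C g2 * (C z * X) ^ 2) *
      aeval V (C g0 + C g1 * (C z ^ 2 * X) + C g2 * (C z ^ 2 * X) ^ 2) *
      aeval V (C g0 + C g1 * X + C g2 * X ^ 2) = algebraMap L A (cn a g0 g1 g2) := by
  have h1 : aeval V (X ^ 3 - C a) = 0 := by rw [map_sub, map_pow, aeval_X, aeval_C, hV, sub_self]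
  rw [← map_mul, ← map_mul, triple_poly hz a, map_add, map_mul _ _ (X ^ 3 - C a), h1, mul_zero, add_zero, aeval_C]

theorem swap_aeval {A : Type*} [Ring A] [Algebra L A] {z : L} {U V : A} (hUV : U * V = z • (V * U)) (p : L[X]) :
    U * aeval V p = aeval V (p.comp (C z * X)) * U := by
  induction p using Polynomial.induction_on' with
  | add p q hp hq => rw [map_add, mul_add, hp, hq, add_comp, map_add, add_mul]
  | monomial n c =>
    rw [← C_mul_X_pow_eq_monomial, mul_comp, C_comp, X_pow_comp, map_mul, map_mul, map_pow, map_pow, aeval_X, map_mul,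
      aeval_X, aeval_C, aeval_C]
    have h1 : ∀ n : ℕ, U * V ^ n = (algebraMap L A z * V) ^ n * U := by
      intro n
      induction n with
      | zero => simp
      | succ n ih =>
        rw [pow_succ, ← mul_assoc, ih, mul_assoc, hUV, pow_succ, mul_assoc, mul_assoc, Algebra.smul_def]
    rw [← mul_assoc, ← Algebra.commutes c U, mul_assoc, h1, mul_assoc]

/-- If `V` satisfies `V^3 = a` with `a` not a cube then nonzero vectors are cyclic of order three. -/
theorem indep {M : Type*} [AddCommGroup M] [Module L M] {a : L} (ha : ∀ c : L, c ^ 3 ≠ a) (V : Module.End L M)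
    (hV : V ^ 3 = algebraMap L _ a) {e : M} (he : e ≠ 0) : LinearIndependent L ![e, V e, V (V e)] := by
  have hirr : Irreducible (X ^ 3 - C a : L[X]) := X_pow_sub_C_irreducible_of_prime Nat.prime_three ha
  rw [Fintype.linearIndependent_iff]
  intro g hg
  rw [Fin.sum_univ_three] at hg
  simp only [Matrix.cons_val_zero, Matrix.cons_val_one, Matrix.cons_val_two, Matrix.head_cons, Matrix.tail_cons] at hg
  set q : L[X] := C (g 0) + C (g 1) * X + C (g 2) * X ^ 2 with hq
  have hq0 : q = 0 := by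
    by_contra hne
    have hdeg : q.degree < (X ^ 3 - C a : L[X]).degree := by
      rw [degree_X_pow_sub_C (by norm_num)]
      have : q.degree ≤ 2 := by
        rw [hq]
        compute_degree
      exact lt_of_le_of_lt this (by norm_num)
    have hcop : IsCoprime (X ^ 3 - C a : L[X]) q := by
      rw [hirr.coprime_iff_not_dvd]
      intro hd
      exact absurd (degree_le_of_dvd hd hne) (not_le.2 hdeg)
    obtain ⟨r, t, hrt⟩ := hcop
    have h1 := congrArg (fun p => (aeval V p : Module.End L M) e) hrt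
    simp only [map_add, map_mul, map_sub, map_pow, aeval_X, aeval_C, hV, sub_self, mul_zero, zero_add, map_one,
      Module.End.one_apply, Module.End.mul_apply] at h1
    have h2 : (aeval V q : Module.End L M) e = 0 := by
      rw [hq]
      simpa [aeval_C, pow_two, Module.algebraMap_end_apply] using hg
    rw [h2, map_zero] at h1
    exact he h1.symm
  have hc : ∀ i : ℕ, q.coeff i = 0 := fun i => by rw [hq0, coeff_zero]
  have h0 := hc 0
  have h1 := hc 1
  have h2 := hc 2
  simp [hq, coeff_X, coeff_C] at h0 h1 h2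
  intro i
  fin_cases i
  · exact h0
  · exact h1
  · exact h2

/-- **Module lemma**: a three dimensional representation forces `x` to be a norm. -/
theorem Sp.of_module {M : Type*} [AddCommGroup M] [Module L M] (h3 : (3 : L) ≠ 0) {z : L} (hz : z ^ 2 + z + 1 = 0)
    {a x : L} (ha : a ≠ 0) (hM : Module.finrank L M = 3) (U V : Module.End L M) (hU : U ^ 3 = algebraMap L _ x)
    (hV : V ^ 3 = algebraMap L _ a) (hUV : U * V = z • (V * U)) : Sp a x := by
  by_cases hc : ∃ c : L, c ^ 3 = a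
  · obtain ⟨c, rfl⟩ := hc
    exact Sp.of_cube h3 (by rintro rfl; simp at ha) x
  push Not at hc
  haveI : Module.Finite L M := Module.finite_of_finrank_pos (by omega)
  haveI : Nontrivial M := Module.nontrivial_of_finrank_pos (R := L) (by omega)
  obtain ⟨e, he⟩ := exists_ne (0 : M)
  have hind := indep hc V hV he
  have hsp := hind.span_eq_top_of_card_eq_finrank (by simp [hM])
  have hmem : U e ∈ Submodule.span L (Set.range ![e, V e, V (V e)]) := by rw [hsp]; trivial
  obtain ⟨g, hg⟩ := (Submodule.mem_span_range_iff_exists_fun L).1 hmem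
  rw [Fin.sum_univ_three] at hg
  simp only [Matrix.cons_val_zero, Matrix.cons_val_one, Matrix.cons_val_two, Matrix.head_cons, Matrix.tail_cons] at hg
  refine ⟨g 0, g 1, g 2, ?_⟩
  set p : L[X] := C (g 0) + C (g 1) * X + C (g 2) * X ^ 2 with hp
  have hUe : U e = (aeval V p : Module.End L M) e := by
    rw [← hg, hp]
    simp [aeval_C, pow_two, Module.algebraMap_end_apply]
  have hp1 : p.comp (C z * X) = C (g 0) + C (g 1) * (C z * X) + C (g 2) * (C z * X) ^ 2 := by simp [hp]
  have hp2 : (p.comp (C z * X)).comp (C z * X) = C (g 0) + C (g 1) * (C z ^ 2 * X) + C (g 2) * (C z ^ 2 * X) ^ 2 := by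
    simp only [hp, add_comp, mul_comp, C_comp, X_comp, pow_comp]; ring
  have hzz : (C z : L[X]) * C z = C z ^ 2 := by ring
  have h2 : (U * U) e = ((aeval V (p.comp (C z * X)) : Module.End L M) * (aeval V p : Module.End L M)) e := by
    rw [Module.End.mul_apply, hUe, ← Module.End.mul_apply, swap_aeval hUV, Module.End.mul_apply, hUe,
      Module.End.mul_apply]
  have h3' : (U * (U * U)) e = ((aeval V ((p.comp (C z * X)).comp (C z * X)) : Module.End L M) *
      ((aeval V (p.comp (C z * X)) : Module.End L M) * (aeval V p : Module.End L M))) e := by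
    rw [Module.End.mul_apply, h2, ← Module.End.mul_apply, ← mul_assoc, swap_aeval hUV, mul_assoc,
      Module.End.mul_apply (aeval V ((p.comp (C z * X)).comp (C z * X))), swap_aeval hUV, Module.End.mul_apply, hUe]
    rfl
  have h4 : (aeval V ((p.comp (C z * X)).comp (C z * X)) : Module.End L M) *
      ((aeval V (p.comp (C z * X)) : Module.End L M) * (aeval V p : Module.End L M)) =
      algebraMap L _ (cn a (g 0) (g 1) (g 2)) := by
    have := triple_alg hz a (g 0) (g 1) (g 2) V hV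
    rw [← this, hp2, hp1, ← mul_assoc]
    congr 1
    rw [← map_mul, ← map_mul, mul_comm]
  rw [h4, ← pow_two, ← pow_succ', hU, Module.algebraMap_end_apply, Module.algebraMap_end_apply] at h3'
  have := smul_left_injective L he h3'
  exact this.symm

/-- build a representation from a norm -/
theorem rep_of_norm {A : Type*} [Ring A] [Algebra L A] {z : L} (hz : z ^ 2 + z + 1 = 0) (a g0 g1 g2 : L) (S V : A)
    (hV : V ^ 3 = algebraMap L A a) (hS : S ^ 3 = 1) (hSV : S * V = z • (V * S)) :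
    ∃ U : A, U ^ 3 = algebraMap L A (cn a g0 g1 g2) ∧ U * V = z • (V * U) := by
  set p : L[X] := C g0 + C g1 * X + C g2 * X ^ 2 with hp
  have hp1 : p.comp (C z * X) = C g0 + C g1 * (C z * X) + C g2 * (C z * X) ^ 2 := by simp [hp]
  have hp2 : (p.comp (C z * X)).comp (C z * X) = C g0 + C g1 * (C z ^ 2 * X) + C g2 * (C z ^ 2 * X) ^ 2 := by
    simp only [hp, add_comp, mul_comp, C_comp, X_comp, pow_comp]; ring
  refine ⟨aeval V p * S, ?_, ?_⟩
  · have h1 := triple_alg hz a g0 g1 g2 V hV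
    rw [← h1, ← hp1, ← hp2, ← hp, mul_assoc]
    have hc : ∀ q r : L[X], (aeval V q : A) * aeval V r = aeval V r * aeval V q := by
      intro q r; rw [← map_mul, ← map_mul, mul_comm]
    have h2 : (aeval V p * S) ^ 3 = aeval V p * (aeval V (p.comp (C z * X)) *
        (aeval V ((p.comp (C z * X)).comp (C z * X)))) * S ^ 3 := by
      calc (aeval V p * S) ^ 3 = aeval V p * ((S * aeval V p) * ((S * aeval V p) * S)) := by
            simp only [pow_succ, pow_zero, one_mul, mul_assoc]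
        _ = aeval V p * ((aeval V (p.comp (C z * X)) * S) * ((aeval V (p.comp (C z * X)) * S) * S)) := by
            rw [swap_aeval hSV]
        _ = aeval V p * (aeval V (p.comp (C z * X)) * ((S * aeval V (p.comp (C z * X))) * (S * S))) := by
            simp only [mul_assoc]
        _ = _ := by
            rw [swap_aeval hSV]
            simp only [pow_succ, pow_zero, one_mul, mul_assoc]
    rw [h2, hS, mul_one, ← map_mul, ← map_mul, ← map_mul, ← map_mul]
    congr 1
    ring
  · have hc : aeval V p * V = V * aeval V p := by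
      have : aeval V p * aeval V (X : L[X]) = aeval V (X : L[X]) * aeval V p := by rw [← map_mul, ← map_mul, mul_comm]
      rwa [aeval_X] at this
    rw [mul_assoc, hSV, mul_smul_comm, ← mul_assoc, ← mul_assoc, hc]

/-- companion matrix of `T^3 - a` -/
def Vm (a : L) : Matrix (Fin 3) (Fin 3) L := !![0, 0, a; 1, 0, 0; 0, 1, 0]

/-- clock matrix -/
def Sm (z : L) : Matrix (Fin 3) (Fin 3) L := !![1, 0, 0; 0, z, 0; 0, 0, z ^ 2]

theorem Vm_pow (a : L) : Vm a ^ 3 = algebraMap L _ a := by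
  ext i j
  fin_cases i <;> fin_cases j <;> simp [Vm, pow_succ, Matrix.mul_apply, Fin.sum_univ_three, Matrix.algebraMap_eq_diagonal]

theorem Sm_pow {z : L} (hz : z ^ 2 + z + 1 = 0) : Sm z ^ 3 = 1 := by
  have h3 : z ^ 3 = 1 := by linear_combination (z - 1) * hz
  ext i j
  fin_cases i <;> fin_cases j <;> simp [Sm, pow_succ, Matrix.mul_apply, Fin.sum_univ_three] <;>
    first | linear_combination h3 | linear_combination (z ^ 3 + 1) * h3

theorem Sm_Vm {z : L} (hz : z ^ 2 + z + 1 = 0) (a : L) : Sm z * Vm a = z • (Vm a * Sm z) := by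
  have h3 : z ^ 3 = 1 := by linear_combination (z - 1) * hz
  ext i j
  fin_cases i <;> fin_cases j <;> simp [Sm, Vm, Matrix.mul_apply, Fin.sum_univ_three] <;>
    first | ring1 | linear_combination (-a) * h3

theorem exists_rep {z : L} (hz : z ^ 2 + z + 1 = 0) {a x : L} (h : Sp a x) :
    ∃ U V : Matrix (Fin 3) (Fin 3) L, U ^ 3 = algebraMap L _ x ∧ V ^ 3 = algebraMap L _ a ∧ U * V = z • (V * U) := by
  obtain ⟨g0, g1, g2, rfl⟩ := h
  obtain ⟨U, h1, h2⟩ := rep_of_norm hz a g0 g1 g2 (Sm z) (Vm a) (Vm_pow a) (Sm_pow hz) (Sm_Vm hz a)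
  exact ⟨U, Vm a, h1, Vm_pow a, h2⟩

theorem Sp.of_matrix (h3 : (3 : L) ≠ 0) {z : L} (hz : z ^ 2 + z + 1 = 0)
    {a x : L} (ha : a ≠ 0) (U V : Matrix (Fin 3) (Fin 3) L) (hU : U ^ 3 = algebraMap L _ x)
    (hV : V ^ 3 = algebraMap L _ a) (hUV : U * V = z • (V * U)) : Sp a x := by
  let f := (Matrix.toLinAlgEquiv' : Matrix (Fin 3) (Fin 3) L ≃ₐ[L] _)
  refine Sp.of_module (M := Fin 3 → L) h3 hz ha (by simp) (f U) (f V) ?_ ?_ ?_
  · rw [← map_pow, hU, AlgEquiv.commutes]
  · rw [← map_pow, hV, AlgEquiv.commutes]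
  · rw [← map_mul, hUV, map_smul, map_mul]

/-- **(N1)** symmetry of the symbol. -/
theorem Sp.symm (h3 : (3 : L) ≠ 0) {z : L} (hz : z ^ 2 + z + 1 = 0) {a x : L} (hx : x ≠ 0) (h : Sp a x) : Sp x a := by
  obtain ⟨U, V, hU, hV, hUV⟩ := exists_rep hz h
  have h3' : z ^ 3 = 1 := by linear_combination (z - 1) * hz
  refine Sp.of_matrix h3 (z := z ^ 2) (by linear_combination (z ^ 2 - z + 1) * hz) hx V U hV hU ?_
  rw [hUV, smul_smul, ← pow_succ, h3', one_smul]

theorem Sp.symm_iff (h3 : (3 : L) ≠ 0) {z : L} (hz : z ^ 2 + z + 1 = 0) {a x : L} (ha : a ≠ 0) (hx : x ≠ 0) :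
    Sp a x ↔ Sp x a := ⟨Sp.symm h3 hz hx, Sp.symm h3 hz ha⟩

end ModuleLemma

section Degree

/-- a vector space with `V^3 = a`, `a` not a cube, has dimension divisible by three -/
theorem three_dvd {L : Type*} [Field L] {M : Type*} [AddCommGroup M] [Module L M] {a : L}
    (ha : ∀ c : L, c ^ 3 ≠ a) (V : Module.End L M) (hV : V ^ 3 = algebraMap L _ a) : 3 ∣ Module.finrank L M := by
  have hirr : Irreducible (X ^ 3 - C a : L[X]) := X_pow_sub_C_irreducible_of_prime Nat.prime_three ha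
  haveI : Fact (Irreducible (X ^ 3 - C a : L[X])) := ⟨hirr⟩
  let K := AdjoinRoot (X ^ 3 - C a : L[X])
  let φ : K →+* Module.End L M := Ideal.Quotient.lift _ (aeval V : L[X] →ₐ[L] Module.End L M).toRingHom (by
    intro p hp
    rw [Ideal.mem_span_singleton] at hp
    obtain ⟨q, rfl⟩ := hp
    have h1 : (aeval V : L[X] →ₐ[L] Module.End L M) (X ^ 3 - C a) = 0 := by
      rw [map_sub, map_pow, aeval_X, aeval_C, hV, sub_self]
    change (aeval V : L[X] →ₐ[L] Module.End L M) ((X ^ 3 - C a) * q) = 0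
    rw [map_mul, h1, zero_mul])
  letI : Module K M := Module.compHom M φ
  have hφ : ∀ c : L, φ (algebraMap L K c) = algebraMap L _ c := by
    intro c
    have : φ (algebraMap L K c) = (aeval V : L[X] →ₐ[L] Module.End L M) (C c) := rfl
    rw [this, aeval_C]
  haveI : IsScalarTower L K M := ⟨by
    intro c k m
    change φ (c • k) m = c • (φ k m)
    rw [Algebra.smul_def, map_mul, hφ, Module.End.mul_apply, Module.algebraMap_end_apply]⟩
  have h := Module.finrank_mul_finrank L K M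
  have hK : Module.finrank L K = 3 := by
    have h1 := (AdjoinRoot.powerBasis hirr.ne_zero).finrank
    rw [AdjoinRoot.powerBasis_dim, natDegree_X_pow_sub_C] at h1
    exact h1
  rw [hK] at h
  exact ⟨_, h.symm⟩

end Degree

section Symbol

variable {F : Type} [Field F]

theorem z_ne_zero {F : Type*} [Field F] {z : F} (hz3 : IsPrimitiveRoot z 3) : z ≠ 0 := hz3.ne_zero (by norm_num)

theorem z_rel {F : Type*} [Field F] {z : F} (hz3 : IsPrimitiveRoot z 3) : z ^ 2 + z + 1 = 0 := by
  have h := hz3.geom_sum_eq_zero (by norm_num)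
  simp [Finset.sum_range_succ] at h
  linear_combination h

theorem three_ne_zero_of_root {F : Type*} [Field F] {z : F} (hz3 : IsPrimitiveRoot z 3) : (3 : F) ≠ 0 := by
  intro h
  have h1 := z_rel hz3
  have h2 : (z - 1) ^ 2 = 0 := by linear_combination h1 - z * h
  have h3 : z = 1 := by
    have := pow_eq_zero_iff (two_ne_zero) |>.1 h2
    linear_combination this
  exact hz3.ne_one (by norm_num) h3

/-- the nine monomials are separated by conjugations with `u` and `v` -/
theorem hsep3 {z : F} (hz3 : IsPrimitiveRoot z 3) {A : Type*} [Ring A] [Algebra F A] {x a : F} (hx : x ≠ 0) (ha : a ≠ 0)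
    (U V : A) (hU : U ^ 3 = algebraMap F A x) (hV : V ^ 3 = algebraMap F A a) (hUV : U * V = z • (V * U)) :
    ∀ g h : Fin 3 × Fin 3, g ≠ h → ∃ (r s : A) (χ : Fin 3 × Fin 3 → F), r * s = 1 ∧
      (∀ k : Fin 3 × Fin 3, r * (U ^ k.1.val * V ^ k.2.val) = χ k • ((U ^ k.1.val * V ^ k.2.val) * r)) ∧ χ g ≠ χ h := by
  intro g h hgh
  have hinv : ∀ (W : A) (c : F), c ≠ 0 → W ^ 3 = algebraMap F A c → W * (c⁻¹ • W ^ 2) = 1 := by
    intro W c hc hW
    rw [mul_smul_comm, ← pow_succ', hW, Algebra.algebraMap_eq_smul_one, smul_smul, inv_mul_cancel₀ hc, one_smul]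
  by_cases h2 : g.2 = h.2
  · have h1 : g.1 ≠ h.1 := fun h1 => hgh (Prod.ext h1 h2)
    refine ⟨V, a⁻¹ • V ^ 2, fun k => z⁻¹ ^ k.1.val, hinv V a ha hV, ?_, ?_⟩
    · intro k
      have hVU : V * U = z⁻¹ • (U * V) := by rw [hUV, smul_smul, inv_mul_cancel₀ (z_ne_zero hz3), one_smul]
      have := pow_swap z⁻¹ U V hVU k.1.val 1
      rw [pow_one, one_mul] at this
      rw [← mul_assoc, this, smul_mul_assoc, mul_assoc, mul_assoc, (Commute.refl V).pow_left k.2.val |>.eq]
    · intro h0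
      exact h1 (Fin.ext (hz3.inv.pow_inj g.1.isLt h.1.isLt h0))
  · refine ⟨U, x⁻¹ • U ^ 2, fun k => z ^ k.2.val, hinv U x hx hU, ?_, ?_⟩
    · intro k
      have := pow_swap z V U hUV k.2.val 1
      rw [pow_one, one_mul] at this
      rw [← mul_assoc, ← pow_succ', pow_succ, mul_assoc, this, mul_smul_comm, mul_assoc]
    · intro h0
      exact h2 (Fin.ext (hz3.pow_inj g.2.isLt h.2.isLt h0))

/-- the nine monomials are linearly independent in every nontrivial algebra -/
theorem indep3 {z : F} (hz3 : IsPrimitiveRoot z 3) {A : Type} [Ring A] [Nontrivial A] [Algebra F A] {x a : F}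
    (hx : x ≠ 0) (ha : a ≠ 0)
    (U V : A) (hU : U ^ 3 = algebraMap F A x) (hV : V ^ 3 = algebraMap F A a) (hUV : U * V = z • (V * U)) :
    LinearIndependent F (fun k : Fin 3 × Fin 3 => U ^ k.1.val * V ^ k.2.val) := by
  classical
  rw [Fintype.linearIndependent_iff]
  intro c hc
  by_contra hcon
  push Not at hcon
  obtain ⟨i, hi⟩ := hcon
  have h1 := one_mem_of_monomials (F := F) (fun k : Fin 3 × Fin 3 => U ^ k.1.val * V ^ k.2.val) (by
    intro k
    exact ((isUnit_of_pow (by norm_num) hx hU).pow _).mul ((isUnit_of_pow (by norm_num) ha hV).pow _))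
    (hsep3 hz3 hx ha U V hU hV hUV) ⊥ _ c rfl (Finset.card_pos.2 ⟨i, by simp [hi]⟩) (by rw [hc]; exact zero_mem _)
  rw [TwoSidedIdeal.mem_bot] at h1
  exact one_ne_zero h1

/-- the symbol algebra of MODULE ALG: `u^3 = x`, `v^3 = a`, `u v = z v u` -/
abbrev D3 (z x a : F) : Type := SymbolAlg F 3 z x a

theorem finrank_D3 {z : F} (hz3 : IsPrimitiveRoot z 3) {x a : F} (hx : x ≠ 0) (ha : a ≠ 0) :
    Module.finrank F (D3 z x a) = 9 := by
  haveI : Nontrivial (D3 z x a) := nontrivial_symb (by norm_num) hz3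
  haveI : Module.Finite F (D3 z x a) := finite_symb (by norm_num) (z_ne_zero hz3)
  apply le_antisymm
  · have := finrank_symb (F := F) (n := 3) (ξ := z) (a := x) (b := a) (by norm_num) (z_ne_zero hz3)
    exact this
  · have := (indep3 hz3 hx ha (gu F 3 z x a) (gv F 3 z x a) gu_pow gv_pow gu_gv).fintype_card_le_finrank
    simpa using this

/-- left stable subspaces -/
theorem sub_lemma {z : F} (hz3 : IsPrimitiveRoot z 3) {x a : F} (ha : a ≠ 0) (hn : ¬ Sp a x)
    (N : Submodule F (D3 z x a)) (hu : ∀ y ∈ N, gu F 3 z x a * y ∈ N) (hv : ∀ y ∈ N, gv F 3 z x a * y ∈ N) :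
    3 ∣ Module.finrank F N ∧ Module.finrank F N ≠ 3 := by
  have h3 := three_ne_zero_of_root hz3
  have hcube : ∀ c : F, c ^ 3 ≠ a := by
    intro c hc
    apply hn
    rw [← hc]
    exact Sp.of_cube h3 (by rintro rfl; exact ha (by rw [← hc]; norm_num)) x
  let U : Module.End F N := (LinearMap.mulLeft F (gu F 3 z x a)).restrict hu
  let V : Module.End F N := (LinearMap.mulLeft F (gv F 3 z x a)).restrict hv
  have hU : U ^ 3 = algebraMap F _ x := by
    apply LinearMap.ext
    intro y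
    apply Subtype.ext
    have h1 : ((U ^ 3) y : D3 z x a) = gu F 3 z x a * (gu F 3 z x a * (gu F 3 z x a * y)) := rfl
    rw [h1, ← mul_assoc, ← mul_assoc, mul_assoc (gu F 3 z x a), ← pow_two, ← pow_succ', gu_pow,
      Module.algebraMap_end_apply, ← Algebra.smul_def]
    rfl
  have hV : V ^ 3 = algebraMap F _ a := by
    apply LinearMap.ext
    intro y
    apply Subtype.ext
    have h1 : ((V ^ 3) y : D3 z x a) = gv F 3 z x a * (gv F 3 z x a * (gv F 3 z x a * y)) := rfl
    rw [h1, ← mul_assoc, ← mul_assoc, mul_assoc (gv F 3 z x a), ← pow_two, ← pow_succ', gv_pow,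
      Module.algebraMap_end_apply, ← Algebra.smul_def]
    rfl
  have hUV : U * V = z • (V * U) := by
    apply LinearMap.ext
    intro y
    apply Subtype.ext
    have h1 : ((U * V) y : D3 z x a) = gu F 3 z x a * (gv F 3 z x a * y) := rfl
    rw [h1, ← mul_assoc, gu_gv, smul_mul_assoc, mul_assoc]
    rfl
  constructor
  · exact three_dvd (L := F) (M := N) hcube V hV
  · intro h
    apply hn
    exact Sp.of_module (M := N) h3 (z_rel hz3) ha h U V hU hV hUV

theorem isUnit_D3 {z : F} (hz3 : IsPrimitiveRoot z 3) {x a : F} (hx : x ≠ 0) (ha : a ≠ 0) (hn : ¬ Sp a x)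
    (w : D3 z x a) : IsUnit w ∨ w = 0 := by
  by_cases hw : w = 0
  · exact Or.inr hw
  left
  haveI : Module.Finite F (D3 z x a) := finite_symb (by norm_num) (z_ne_zero hz3)
  let R : D3 z x a →ₗ[F] D3 z x a := LinearMap.mulRight F w
  have h1 := sub_lemma hz3 ha hn R.range (by
    rintro _ ⟨y, rfl⟩; exact ⟨gu F 3 z x a * y, by simp [R, mul_assoc]⟩) (by
    rintro _ ⟨y, rfl⟩; exact ⟨gv F 3 z x a * y, by simp [R, mul_assoc]⟩)
  have h2 := sub_lemma hz3 ha hn R.ker (by
    intro y hy; rw [LinearMap.mem_ker] at hy ⊢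
    have hy' : y * w = 0 := hy
    change gu F 3 z x a * y * w = 0
    rw [mul_assoc, hy', mul_zero]) (by
    intro y hy; rw [LinearMap.mem_ker] at hy ⊢
    have hy' : y * w = 0 := hy
    change gv F 3 z x a * y * w = 0
    rw [mul_assoc, hy', mul_zero])
  have h3 := LinearMap.finrank_range_add_finrank_ker R
  rw [finrank_D3 hz3 hx ha] at h3
  have h4 : 0 < Module.finrank F R.range := by
    have hne : R.range ≠ ⊥ := by
      intro h
      have : w ∈ R.range := ⟨1, by simp [R]⟩
      rw [h, Submodule.mem_bot] at this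
      exact hw this
    exact Nat.pos_of_ne_zero (fun h => hne (Submodule.finrank_eq_zero.1 h))
  have h5 : Module.finrank F R.ker = 0 := by omega
  have h6 : R.ker = ⊥ := Submodule.finrank_eq_zero.1 h5
  have hinj : Function.Injective R := LinearMap.ker_eq_bot.1 h6
  have hsur : Function.Surjective R := LinearMap.injective_iff_surjective.1 hinj
  obtain ⟨y, hy⟩ := hsur 1
  have hy' : y * w = 1 := hy
  have hwy : w * y = 1 := by
    apply hinj
    change w * y * w = 1 * w
    rw [mul_assoc, hy', mul_one, one_mul]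
  exact ⟨⟨w, y, hwy, hy'⟩, rfl⟩

theorem nontrivial_D3 {z : F} (hz3 : IsPrimitiveRoot z 3) (x a : F) : Nontrivial (D3 z x a) :=
  nontrivial_symb (by norm_num) hz3

/-- the division ring structure -/
@[reducible] def divD3 {z : F} (hz3 : IsPrimitiveRoot z 3) {x a : F} (hx : x ≠ 0) (ha : a ≠ 0) (hn : ¬ Sp a x) :
    DivisionRing (D3 z x a) :=
  haveI := nontrivial_D3 hz3 x a
  DivisionRing.ofIsUnitOrEqZero (isUnit_D3 hz3 hx ha hn)

theorem central_D3 {z : F} (hz3 : IsPrimitiveRoot z 3) {x a : F} (hx : x ≠ 0) (ha : a ≠ 0) :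
    Algebra.IsCentral F (D3 z x a) := by
  haveI := nontrivial_D3 hz3 x a
  constructor
  intro w hw
  rw [Subalgebra.mem_center_iff] at hw
  obtain ⟨c, rfl⟩ := exists_coeff (by norm_num) (z_ne_zero hz3) w
  have hind := indep3 hz3 hx ha (gu F 3 z x a) (gv F 3 z x a) gu_pow gv_pow gu_gv
  rw [Fintype.linearIndependent_iff] at hind
  have hsep := hsep3 hz3 hx ha (gu F 3 z x a) (gv F 3 z x a) gu_pow gv_pow gu_gv
  have hz : ∀ k : Fin 3 × Fin 3, k ≠ (0, 0) → c k = 0 := by
    intro k hk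
    obtain ⟨r, s, χ, hrs, hr, hχ⟩ := hsep k (0, 0) hk
    have h1 := hw r
    rw [Finset.mul_sum, Finset.sum_mul] at h1
    have h00 : χ (0, 0) = 1 := by
      have := hr (0, 0)
      simp only [Fin.val_zero, pow_zero, mul_one, one_mul] at this
      have h2 : (χ (0, 0) - 1) • (1 : D3 z x a) = 0 := by
        have h3 : (χ (0, 0) - 1) • r = 0 := by
          have h4 := sub_smul (χ (0, 0)) 1 r
          rw [one_smul, ← this, sub_self] at h4
          exact h4
        rw [← hrs, ← smul_mul_assoc, h3, zero_mul]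
      rcases smul_eq_zero.1 h2 with h3 | h3
      · exact sub_eq_zero.1 h3
      · exact absurd h3 one_ne_zero
    have h2 : ∑ k : Fin 3 × Fin 3, ((χ k - 1) * c k) • ((gu F 3 z x a) ^ k.1.val * (gv F 3 z x a) ^ k.2.val) = 0 := by
      have h3 : (∑ k : Fin 3 × Fin 3, ((χ k - 1) * c k) • ((gu F 3 z x a) ^ k.1.val * (gv F 3 z x a) ^ k.2.val)) * r = 0 := by
        rw [Finset.sum_mul]
        rw [← sub_eq_zero, ← Finset.sum_sub_distrib] at h1
        rw [← h1]
        apply Finset.sum_congr rfl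
        intro j _
        rw [gm, mul_smul_comm, hr, smul_smul, smul_mul_assoc, smul_mul_assoc, ← sub_smul]
        congr 1; ring
      have h4 := congrArg (· * s) h3
      simp only [zero_mul] at h4
      rwa [mul_assoc, hrs, mul_one] at h4
    have h3 := hind _ h2 k
    rcases mul_eq_zero.1 h3 with h4 | h4
    · exact absurd ((sub_eq_zero.1 h4).trans h00.symm) hχ
    · exact h4
  rw [Finset.sum_eq_single (0, 0) (fun k _ hk => by rw [hz k hk, zero_smul]) (by simp)]
  simp only [gm, Fin.val_zero, pow_zero, mul_one]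
  exact Subalgebra.smul_mem _ (Subalgebra.one_mem _) _

/-- **(N3)** descent along extensions of degree prime to three -/
theorem Sp.descent {L : Type} {L' : Type*} [Field L] [Field L'] [Algebra L L'] [FiniteDimensional L L']
    {z : L} (hz3 : IsPrimitiveRoot z 3)
    (hdeg : ¬ 3 ∣ Module.finrank L L') {a x : L} (ha : a ≠ 0) (hx : x ≠ 0)
    (h : Sp (algebraMap L L' a) (algebraMap L L' x)) : Sp a x := by
  by_contra hn
  have hz := z_rel hz3
  obtain ⟨U, V, hU, hV, hUV⟩ := exists_rep (z := algebraMap L L' z) (by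
    rw [← map_pow, ← map_add, ← map_one (algebraMap L L'), ← map_add, hz, map_zero]) h
  let φ : D3 z x a →ₐ[L] Matrix (Fin 3) (Fin 3) L' := lift U V (by
    rw [hU, IsScalarTower.algebraMap_apply L L' (Matrix (Fin 3) (Fin 3) L')]) (by
    rw [hV, IsScalarTower.algebraMap_apply L L' (Matrix (Fin 3) (Fin 3) L')]) (by
    rw [hUV, algebraMap_smul])
  letI := divD3 hz3 hx ha hn
  let M := Fin 3 → L'
  let ψ : D3 z x a →+* Module.End L' M := (Matrix.toLinAlgEquiv' : Matrix (Fin 3) (Fin 3) L' ≃ₐ[L'] _).toRingEquiv.toRingHom.comp φ.toRingHom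
  letI : Module (D3 z x a) M := Module.compHom M ψ
  haveI : IsScalarTower L (D3 z x a) M := ⟨by
    intro c k m
    change ψ (c • k) m = c • (ψ k m)
    have h1 : ψ (c • k) = (algebraMap L L' c) • ψ k := by
      change (Matrix.toLinAlgEquiv' : Matrix (Fin 3) (Fin 3) L' ≃ₐ[L'] _) (φ (c • k)) = _
      rw [map_smul φ, ← algebraMap_smul L' c (φ k), map_smul]
      rfl
    rw [h1, LinearMap.smul_apply, algebraMap_smul]⟩
  have h1 := Module.finrank_mul_finrank L (D3 z x a) M
  have h2 : Module.finrank L M = 3 * Module.finrank L L' := by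
    rw [Module.finrank_pi_fintype]; simp
  rw [finrank_D3 hz3 hx ha, h2] at h1
  omega

end Symbol

end Pool.Agent.Helper51.Alg3
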