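import Mathlib
import Pool.Agent.Helper386.D5V.Helper51_Alg3

/-!
# Cubic symbol algebras, part 2: splitting, non-isomorphism
-/

open Finset Polynomial
open scoped TensorProduct

noncomputable section

namespace Pool.Agent.Helper51.Alg3

open Pool.Agent.Helper51.SymbolDefs Pool.Agent.Helper51.CompositeDegree

variable {F : Type} [Field F]

theorem lift_gu {A : Type*} [Ring A] [Algebra F A] {n : ℕ} {ξ a b : F} (U V : A) (hU : U ^ n = algebraMap F A a)
    (hV : V ^ n = algebraMap F A b) (hUV : U * V = ξ • (V * U)) :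
    lift U V hU hV hUV (gu F n ξ a b) = U := by
  simp [lift, gu]

theorem lift_gv {A : Type*} [Ring A] [Algebra F A] {n : ℕ} {ξ a b : F} (U V : A) (hU : U ^ n = algebraMap F A a)
    (hV : V ^ n = algebraMap F A b) (hUV : U * V = ξ • (V * U)) :
    lift U V hU hV hUV (gv F n ξ a b) = V := by
  simp [lift, gv]

/-- splitting over an extension field -/
theorem split_iff {z : F} (hz3 : IsPrimitiveRoot z 3) {x a : F} (hx : x ≠ 0) (ha : a ≠ 0) (L : Type) [Field L] [Algebra F L] :
    Nonempty ((L ⊗[F] D3 z x a) ≃ₐ[L] Matrix (Fin 3) (Fin 3) L) ↔ Sp (algebraMap F L a) (algebraMap F L x) := by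
  have hzL : IsPrimitiveRoot (algebraMap F L z) 3 := hz3.map_of_injective (algebraMap F L).injective
  have haL : algebraMap F L a ≠ 0 := by simpa using ha
  have hxL : algebraMap F L x ≠ 0 := by simpa using hx
  have h3 := three_ne_zero_of_root hzL
  have hz := z_rel hzL
  have key : ∀ c : F, (1 : L) ⊗ₜ[F] algebraMap F (D3 z x a) c = algebraMap L (L ⊗[F] D3 z x a) (algebraMap F L c) := by
    intro c
    rw [Algebra.algebraMap_eq_smul_one (R := F) (A := D3 z x a), TensorProduct.tmul_smul,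
      ← IsScalarTower.algebraMap_apply F L (L ⊗[F] D3 z x a), Algebra.algebraMap_eq_smul_one,
      Algebra.TensorProduct.one_def]
  constructor
  · rintro ⟨e⟩
    refine Sp.of_matrix h3 hz haL (e (1 ⊗ₜ[F] gu F 3 z x a)) (e (1 ⊗ₜ[F] gv F 3 z x a)) ?_ ?_ ?_
    · rw [← map_pow, Algebra.TensorProduct.tmul_pow, one_pow, gu_pow, key, AlgEquiv.commutes]
    · rw [← map_pow, Algebra.TensorProduct.tmul_pow, one_pow, gv_pow, key, AlgEquiv.commutes]
    · rw [← map_mul, ← map_mul, Algebra.TensorProduct.tmul_mul_tmul, Algebra.TensorProduct.tmul_mul_tmul, gu_gv,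
        TensorProduct.tmul_smul, ← map_smul, algebraMap_smul]
  · intro h
    obtain ⟨U, V, hU, hV, hUV⟩ := exists_rep hz h
    let φ : D3 z x a →ₐ[F] Matrix (Fin 3) (Fin 3) L := lift U V (by
      rw [hU, IsScalarTower.algebraMap_apply F L (Matrix (Fin 3) (Fin 3) L)]) (by
      rw [hV, IsScalarTower.algebraMap_apply F L (Matrix (Fin 3) (Fin 3) L)]) (by
      rw [hUV, algebraMap_smul])
    let Φ : (L ⊗[F] D3 z x a) →ₐ[L] Matrix (Fin 3) (Fin 3) L :=
      Algebra.TensorProduct.lift (Algebra.ofId L _) φ (fun c w => Algebra.commutes c (φ w))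
    have hφu : φ (gu F 3 z x a) = U := lift_gu _ _ _ _ _
    have hφv : φ (gv F 3 z x a) = V := lift_gv _ _ _ _ _
    have hind := indep3 hzL hxL haL U V hU hV hUV
    have hM : Module.finrank L (Matrix (Fin 3) (Fin 3) L) = 9 := by
      rw [Module.finrank_matrix]; simp
    have hspan := hind.span_eq_top_of_card_eq_finrank (by rw [hM]; simp)
    have hsurj : Function.Surjective Φ := by
      have h1 : LinearMap.range Φ.toLinearMap = ⊤ := by
        rw [eq_top_iff, ← hspan, Submodule.span_le]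
        rintro _ ⟨k, rfl⟩
        refine ⟨1 ⊗ₜ[F] (gu F 3 z x a ^ k.1.val * gv F 3 z x a ^ k.2.val), ?_⟩
        simp [Φ, hφu, hφv]
      intro y
      have : y ∈ LinearMap.range Φ.toLinearMap := by rw [h1]; trivial
      exact this
    haveI : Module.Finite F (D3 z x a) := finite_symb (by norm_num) (z_ne_zero hz3)
    have hfin : Module.finrank L (L ⊗[F] D3 z x a) = 9 := by
      rw [Module.finrank_baseChange, finrank_D3 hz3 hx ha]
    have hinj : Function.Injective Φ.toLinearMap :=
      (LinearMap.injective_iff_surjective_of_finrank_eq_finrank (by rw [hfin, hM])).2 hsurj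
    exact ⟨AlgEquiv.ofBijective Φ ⟨hinj, hsurj⟩⟩

/-- representation theoretic core of the comparison of two symbol structures -/
theorem Sp.of_nine {W : Type*} [AddCommGroup W] [Module F W] (h9 : Module.finrank F W = 9) {z : F}
    (hz3 : IsPrimitiveRoot z 3) {a c x : F} (ha : a ≠ 0) (hc : c ≠ 0) (T P U S : Module.End F W)
    (hT : ∀ w, T (T (T w)) = w) (hTP : ∀ w, T (P w) = z • P (T w)) (hP : ∀ w, P (P (P w)) = a • w)
    (hTU : ∀ w, T (U w) = U (T w)) (hTS : ∀ w, T (S w) = S (T w))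
    (hU : ∀ w, U (U (U w)) = x • w) (hS : ∀ w, S (S (S w)) = c • w)
    (hUS : ∀ w, U (S w) = z • S (U w)) : Sp c x := by
  have h3 := three_ne_zero_of_root hz3
  have hz := z_rel hz3
  have hzc : z ^ 3 = 1 := hz3.pow_eq_one
  haveI : Module.Finite F W := Module.finite_of_finrank_pos (by omega)
  have hPinj : Function.Injective P := by
    intro w w' h
    have h1 := congrArg (fun t => P (P t)) h
    simp only [hP] at h1
    exact smul_right_injective W ha h1
  let M : Submodule F W := LinearMap.ker (T - 1)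
  have hM : ∀ w, w ∈ M ↔ T w = w := by
    intro w
    rw [LinearMap.mem_ker, LinearMap.sub_apply, Module.End.one_apply, sub_eq_zero]
  let Φ : (M × M × M) →ₗ[F] W :=
    LinearMap.coprod M.subtype (LinearMap.coprod (P ∘ₗ M.subtype) ((P ∘ₗ P) ∘ₗ M.subtype))
  have hΦ : ∀ m0 m1 m2 : M, Φ (m0, m1, m2) = (m0 : W) + (P m1 + P (P m2)) := fun _ _ _ => rfl
  have hΦT : ∀ m0 m1 m2 : M, T (Φ (m0, m1, m2)) = (m0 : W) + (z • P m1 + z ^ 2 • P (P m2)) := by
    intro m0 m1 m2
    rw [hΦ, map_add, map_add, hTP, hTP, hTP, (hM _).1 m0.2, (hM _).1 m1.2, (hM _).1 m2.2, map_smul, smul_smul, ← pow_two]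
  have hΦTT : ∀ m0 m1 m2 : M, T (T (Φ (m0, m1, m2))) = (m0 : W) + (z ^ 2 • P m1 + z ^ 4 • P (P m2)) := by
    intro m0 m1 m2
    rw [hΦT, map_add, map_add, map_smul, map_smul, hTP, hTP, hTP, (hM _).1 m0.2, (hM _).1 m1.2, (hM _).1 m2.2, map_smul,
      smul_smul, smul_smul, smul_smul]
    congr 3 <;> ring
  have hinj : Function.Injective Φ := by
    rw [← LinearMap.ker_eq_bot, LinearMap.ker_eq_bot']
    rintro ⟨m0, m1, m2⟩ h
    have e0 := h
    have e1 := hΦT m0 m1 m2
    have e2 := hΦTT m0 m1 m2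
    rw [hΦ] at e0
    rw [h, map_zero] at e1
    rw [h, map_zero, map_zero] at e2
    have f0 : (3 : F) • (m0 : W) = 0 := by
      have : (3 : F) • (m0 : W) = ((m0 : W) + (P m1 + P (P m2))) + ((m0 : W) + (z • P m1 + z ^ 2 • P (P m2)))
          + ((m0 : W) + (z ^ 2 • P m1 + z ^ 4 • P (P m2))) := by
        have k1 : z = - z ^ 2 - 1 := by linear_combination hz
        have k2 : z ^ 4 = - z ^ 2 - 1 := by linear_combination hz + z * hzc
        rw [k2]; nth_rewrite 1 [k1]
        module
      rw [this, e0, ← e1, ← e2]; simp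
    have g0 : (m0 : W) = 0 := (smul_eq_zero.1 f0).resolve_left h3
    have f1 : (3 : F) • P (m1 : W) = 0 := by
      have : (3 : F) • P (m1 : W) = ((m0 : W) + (P m1 + P (P m2))) + z ^ 2 • ((m0 : W) + (z • P m1 + z ^ 2 • P (P m2)))
          + z • ((m0 : W) + (z ^ 2 • P m1 + z ^ 4 • P (P m2))) := by
        rw [g0]
        have : ((0 : W) + (P m1 + P (P m2))) + z ^ 2 • ((0 : W) + (z • P m1 + z ^ 2 • P (P m2)))
          + z • ((0 : W) + (z ^ 2 • P m1 + z ^ 4 • P (P m2))) = (1 + z ^ 3 + z ^ 3) • P m1 + (1 + z ^ 4 + z ^ 5) • P (P m2) := by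
          module
        rw [this, hzc]
        have k2 : 1 + z ^ 4 + z ^ 5 = 0 := by linear_combination hz + (z + z ^ 2) * hzc
        rw [k2]; module
      rw [this, e0, ← e1, ← e2]; simp
    have g1 : (m1 : W) = 0 := hPinj (by rw [map_zero]; exact (smul_eq_zero.1 f1).resolve_left h3)
    have g2 : (m2 : W) = 0 := hPinj (hPinj (by
      rw [g0, g1, map_zero, zero_add, zero_add] at e0
      rw [e0, map_zero, map_zero]))
    ext
    · exact g0
    · exact g1
    · exact g2
  have hPi : ∀ w, ∃ y, P y = w := by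
    intro w
    refine ⟨a⁻¹ • P (P w), ?_⟩
    rw [map_smul, hP, smul_smul, inv_mul_cancel₀ ha, one_smul]
  have hPT : ∀ (y w : W) (q : F), P y = w → T w = (q * z) • w → T y = q • y := by
    intro y w q h1 h2
    apply hPinj
    rw [← h1, hTP, ← smul_smul, smul_comm] at h2
    have h3 := smul_right_injective W (z_ne_zero hz3) h2
    rw [h3, map_smul]
  have hsurj : Function.Surjective Φ := by
    intro w
    let w0 := (3 : F)⁻¹ • (w + T w + T (T w))
    let w1 := (3 : F)⁻¹ • (w + z ^ 2 • T w + z • T (T w))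
    let w2 := (3 : F)⁻¹ • (w + z • T w + z ^ 2 • T (T w))
    have hw : w = w0 + (w1 + w2) := by
      have : w0 + (w1 + w2) = (3 : F)⁻¹ • ((3 : F) • w + (z ^ 2 + z + 1) • T w + (z ^ 2 + z + 1) • T (T w)) := by
        simp only [w0, w1, w2]
        module
      rw [this, hz, zero_smul, zero_smul, add_zero, add_zero, smul_smul, inv_mul_cancel₀ h3, one_smul]
    have t0 : T w0 = w0 := by
      simp only [w0, map_smul, map_add, hT]
      module
    have t1 : T w1 = (1 * z) • w1 := by
      simp only [w1, map_smul, map_add, hT]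
      have : (1 * z) • ((3 : F)⁻¹ • (w + z ^ 2 • T w + z • T (T w))) = (3 : F)⁻¹ • (z • w + z ^ 3 • T w + z ^ 2 • T (T w)) := by
        module
      rw [this, hzc]
      module
    have t2 : T w2 = (z * z) • w2 := by
      simp only [w2, map_smul, map_add, hT]
      have : (z * z) • ((3 : F)⁻¹ • (w + z • T w + z ^ 2 • T (T w))) = (3 : F)⁻¹ • (z ^ 2 • w + z ^ 3 • T w + (z ^ 3 * z) • T (T w)) := by
        module
      rw [this, hzc]
      module
    obtain ⟨y1, hy1⟩ := hPi w1
    obtain ⟨y2, hy2⟩ := hPi w2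
    obtain ⟨y3, hy3⟩ := hPi y2
    have s1 := hPT y1 w1 1 hy1 t1
    have s2 := hPT y2 w2 z hy2 t2
    have s3 := hPT y3 y2 1 hy3 (by rw [one_mul]; exact s2)
    rw [one_smul] at s1 s3
    refine ⟨(⟨w0, (hM _).2 t0⟩, ⟨y1, (hM _).2 s1⟩, ⟨y3, (hM _).2 s3⟩), ?_⟩
    rw [hΦ]
    simp only [hy1, hy2, hy3]
    exact hw.symm
  have hdim : Module.finrank F M = 3 := by
    have h1 := LinearEquiv.finrank_eq (LinearEquiv.ofBijective Φ ⟨hinj, hsurj⟩)
    rw [Module.finrank_prod, Module.finrank_prod, h9] at h1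
    omega
  let U' : Module.End F M := U.restrict (fun y hy => (hM _).2 (by rw [hTU, (hM _).1 hy]))
  let S' : Module.End F M := S.restrict (fun y hy => (hM _).2 (by rw [hTS, (hM _).1 hy]))
  refine Sp.of_module (M := M) h3 hz hc hdim U' S' ?_ ?_ ?_
  · apply LinearMap.ext
    intro y
    apply Subtype.ext
    exact hU y
  · apply LinearMap.ext
    intro y
    apply Subtype.ext
    exact hS y
  · apply LinearMap.ext
    intro y
    apply Subtype.ext
    exact hUS y

/-- two symbol structures on the same 9-dimensional algebra -/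
theorem Sp.of_iso {z : F} (hz3 : IsPrimitiveRoot z 3) {A : Type*} [Ring A] [Algebra F A] (h9 : Module.finrank F A = 9)
    {x a b : F} (hx : x ≠ 0) (ha : a ≠ 0) (hb : b ≠ 0) (u v u' v' : A)
    (hu : u ^ 3 = algebraMap F A x) (hv : v ^ 3 = algebraMap F A a) (huv : u * v = z • (v * u))
    (hu' : u' ^ 3 = algebraMap F A x) (hv' : v' ^ 3 = algebraMap F A b) (huv' : u' * v' = z • (v' * u')) :
    Sp (a * b ^ 2) x := by
  have hzc : z ^ 3 = 1 := hz3.pow_eq_one
  have hvu : v' * u' = z ^ 2 • (u' * v') := by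
    rw [huv', smul_smul, ← pow_succ, hzc, one_smul]
  refine Sp.of_nine (W := A) h9 hz3 (a := a) (c := a * b ^ 2) ha (mul_ne_zero ha (pow_ne_zero _ hb))
    (x⁻¹ • LinearMap.mulLeftRight F (u, u' ^ 2)) (LinearMap.mulLeft F v) (LinearMap.mulLeft F u)
    (LinearMap.mulLeftRight F (v, v' ^ 2)) ?_ ?_ ?_ ?_ ?_ ?_ ?_ ?_
  · intro w
    simp only [LinearMap.smul_apply, LinearMap.mulLeftRight_apply, mul_smul_comm, smul_mul_assoc, smul_smul]
    have : u * (u * (u * w * u' ^ 2) * u' ^ 2) * u' ^ 2 = u ^ 3 * w * (u' ^ 3) ^ 2 := by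
      noncomm_ring
    rw [this, hu, hu', ← map_pow, Algebra.algebraMap_eq_smul_one, Algebra.algebraMap_eq_smul_one]
    simp only [smul_mul_assoc, mul_smul_comm, one_mul, mul_one, smul_smul]
    rw [show x⁻¹ * (x⁻¹ * x⁻¹) * (x ^ 2 * x) = 1 by field_simp, one_smul]
  · intro w
    simp only [LinearMap.smul_apply, LinearMap.mulLeftRight_apply, LinearMap.mulLeft_apply]
    rw [← mul_assoc, huv]
    simp only [smul_mul_assoc, mul_smul_comm, mul_assoc]
    rw [smul_comm]
  · intro w
    simp only [LinearMap.mulLeft_apply]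
    rw [← mul_assoc, ← mul_assoc, mul_assoc v v v, ← pow_two, ← pow_succ', hv, Algebra.smul_def]
  · intro w
    simp only [LinearMap.smul_apply, LinearMap.mulLeftRight_apply, LinearMap.mulLeft_apply]
    simp only [mul_smul_comm, mul_assoc]
  · intro w
    simp only [LinearMap.smul_apply, LinearMap.mulLeftRight_apply]
    have e1 : u * (v * w * v' ^ 2) * u' ^ 2 = (u * v) * w * (v' ^ 2 * u' ^ 2) := by noncomm_ring
    have e2 : v * (u * w * u' ^ 2) * v' ^ 2 = (v * u) * w * (u' ^ 2 * v' ^ 2) := by noncomm_ring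
    rw [e1, pow_swap (z ^ 2) u' v' hvu 2 2, huv, mul_smul_comm, smul_mul_assoc, smul_mul_assoc, smul_smul, smul_smul, ← e2,
      show x⁻¹ * (z ^ 2) ^ (2 * 2) * z = x⁻¹ * (z ^ 3) ^ 3 by ring, hzc, one_pow, mul_one, mul_smul_comm, smul_mul_assoc]
  · intro w
    simp only [LinearMap.mulLeft_apply]
    rw [← mul_assoc, ← mul_assoc, mul_assoc u u u, ← pow_two, ← pow_succ', hu, Algebra.smul_def]
  · intro w
    simp only [LinearMap.mulLeftRight_apply]
    have : v * (v * (v * w * v' ^ 2) * v' ^ 2) * v' ^ 2 = v ^ 3 * w * (v' ^ 3) ^ 2 := by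
      noncomm_ring
    rw [this, hv, hv', ← map_pow, Algebra.algebraMap_eq_smul_one, Algebra.algebraMap_eq_smul_one]
    simp only [smul_mul_assoc, mul_smul_comm, one_mul, mul_one, smul_smul]
    rw [mul_comm]
  · intro w
    simp only [LinearMap.mulLeftRight_apply, LinearMap.mulLeft_apply]
    rw [← mul_assoc, ← mul_assoc, huv]
    simp only [smul_mul_assoc, mul_assoc]

/-- a symbol structure and an opposite symbol structure on the same 9-dimensional algebra -/
theorem Sp.of_op {z : F} (hz3 : IsPrimitiveRoot z 3) {A : Type*} [Ring A] [Algebra F A] (h9 : Module.finrank F A = 9)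
    {x a b : F} (hx : x ≠ 0) (ha : a ≠ 0) (hb : b ≠ 0) (u v u' v' : A)
    (hu : u ^ 3 = algebraMap F A x) (hv : v ^ 3 = algebraMap F A a) (huv : u * v = z • (v * u))
    (hu' : u' ^ 3 = algebraMap F A x) (hv' : v' ^ 3 = algebraMap F A b) (huv' : v' * u' = z • (u' * v')) :
    Sp (a * b) x := by
  have hzc : z ^ 3 = 1 := hz3.pow_eq_one
  refine Sp.of_nine (W := A) h9 hz3 (a := a) (c := a * b) ha (mul_ne_zero ha hb)
    (x⁻¹ • LinearMap.mulLeftRight F (u, u' ^ 2)) (LinearMap.mulLeft F v) (LinearMap.mulLeft F u)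
    (LinearMap.mulLeftRight F (v, v')) ?_ ?_ ?_ ?_ ?_ ?_ ?_ ?_
  · intro w
    simp only [LinearMap.smul_apply, LinearMap.mulLeftRight_apply, mul_smul_comm, smul_mul_assoc, smul_smul]
    have : u * (u * (u * w * u' ^ 2) * u' ^ 2) * u' ^ 2 = u ^ 3 * w * (u' ^ 3) ^ 2 := by
      noncomm_ring
    rw [this, hu, hu', ← map_pow, Algebra.algebraMap_eq_smul_one, Algebra.algebraMap_eq_smul_one]
    simp only [smul_mul_assoc, mul_smul_comm, one_mul, mul_one, smul_smul]
    rw [show x⁻¹ * (x⁻¹ * x⁻¹) * (x ^ 2 * x) = 1 by field_simp, one_smul]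
  · intro w
    simp only [LinearMap.smul_apply, LinearMap.mulLeftRight_apply, LinearMap.mulLeft_apply]
    rw [← mul_assoc, huv]
    simp only [smul_mul_assoc, mul_smul_comm, mul_assoc]
    rw [smul_comm]
  · intro w
    simp only [LinearMap.mulLeft_apply]
    rw [← mul_assoc, ← mul_assoc, mul_assoc v v v, ← pow_two, ← pow_succ', hv, Algebra.smul_def]
  · intro w
    simp only [LinearMap.smul_apply, LinearMap.mulLeftRight_apply, LinearMap.mulLeft_apply]
    simp only [mul_smul_comm, mul_assoc]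
  · intro w
    simp only [LinearMap.smul_apply, LinearMap.mulLeftRight_apply]
    have e1 : u * (v * w * v') * u' ^ 2 = (u * v) * w * (v' ^ 1 * u' ^ 2) := by noncomm_ring
    have e2 : v * (u * w * u' ^ 2) * v' = (v * u) * w * (u' ^ 2 * v' ^ 1) := by noncomm_ring
    rw [e1, pow_swap z u' v' huv' 2 1, huv, mul_smul_comm, smul_mul_assoc, smul_mul_assoc, smul_smul, smul_smul, ← e2,
      show x⁻¹ * z ^ (1 * 2) * z = x⁻¹ * z ^ 3 by ring, hzc, mul_one, mul_smul_comm, smul_mul_assoc]
  · intro w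
    simp only [LinearMap.mulLeft_apply]
    rw [← mul_assoc, ← mul_assoc, mul_assoc u u u, ← pow_two, ← pow_succ', hu, Algebra.smul_def]
  · intro w
    simp only [LinearMap.mulLeftRight_apply]
    have : v * (v * (v * w * v') * v') * v' = v ^ 3 * w * (v' ^ 3) := by
      noncomm_ring
    rw [this, hv, hv', Algebra.algebraMap_eq_smul_one, Algebra.algebraMap_eq_smul_one]
    simp only [smul_mul_assoc, mul_smul_comm, one_mul, mul_one, smul_smul]
    rw [mul_comm]
  · intro w
    simp only [LinearMap.mulLeftRight_apply, LinearMap.mulLeft_apply]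
    rw [← mul_assoc, ← mul_assoc, huv]
    simp only [smul_mul_assoc, mul_assoc]

end Pool.Agent.Helper51.Alg3
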