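import Mathlib

/-! Norm forms of cubic Kummer extensions. -/

set_option autoImplicit false

namespace SF

/-- The norm of `g0 + g1 A + g2 A^2` from `R[A]/(A^3 - a)`. -/
def N3 {R : Type*} [CommRing R] (a g0 g1 g2 : R) : R :=
  g0 ^ 3 + a * g1 ^ 3 + a ^ 2 * g2 ^ 3 - 3 * a * g0 * g1 * g2

/-- `L` splits the symbol algebra `(a, x)`. -/
def Sp (L : Type*) [Field L] (a x : L) : Prop := ∃ g0 g1 g2 : L, N3 a g0 g1 g2 = x

end SF
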