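import Pool.Agent.Helper386.D5V.H399_FieldK

set_option autoImplicit false

namespace Pool.Agent.H399.FieldK

open Cardinal

universe u v w

/-- Countable subfields of the complex numbers, containing `z` and `x`, in which `x` is not a
cube. -/
structure Good (z x : ℂ) (K : Subfield ℂ) : Prop where
  z_mem : z ∈ K
  x_mem : x ∈ K
  count : (K : Set ℂ).Countable
  nocube : ∀ r ∈ K, r ^ 3 ≠ x

/-- `c` is a common zero of `S`. -/
def IsZero {m : ℕ} (S : Finset (MvPolynomial (Fin m) ℂ)) (c : Fin m → ℂ) : Prop :=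
  ∀ p ∈ S, MvPolynomial.aeval c p = 0

theorem Good.mono {z x : ℂ} {K K' : Subfield ℂ} (h : Good z x K') (hle : K ≤ K')
    (hz : z ∈ K) (hx : x ∈ K) : Good z x K :=
  ⟨hz, hx, h.count.mono hle, fun r hr => h.nocube r (hle hr)⟩

theorem good_iSup {z x : ℂ} (K : ℕ → Subfield ℂ) (hmono : Monotone K)
    (h : ∀ n, Good z x (K n)) : Good z x (⨆ n, K n) := by
  have hdir : Directed (· ≤ ·) K := hmono.directed_le
  have hcoe : ((⨆ n, K n : Subfield ℂ) : Set ℂ) = ⋃ n, (K n : Set ℂ) :=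
    Subfield.coe_iSup_of_directed hdir
  refine ⟨?_, ?_, ?_, ?_⟩
  · exact le_iSup K 0 (h 0).z_mem
  · exact le_iSup K 0 (h 0).x_mem
  · rw [hcoe]
    exact Set.countable_iUnion fun n => (h n).count
  · intro r hr
    have : r ∈ ((⨆ n, K n : Subfield ℂ) : Set ℂ) := hr
    rw [hcoe] at this
    obtain ⟨n, hn⟩ := Set.mem_iUnion.1 this
    exact (h n).nocube r hn

/-- the step -/
theorem exists_step {z x : ℂ} (K : Subfield ℂ) (hK : Good z x K) {m : ℕ}
    (S : Finset (MvPolynomial (Fin m) ℂ)) :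
    ∃ K', K ≤ K' ∧ Good z x K' ∧ ((∃ K'' c, K' ≤ K'' ∧ Good z x K'' ∧ (∀ i, c i ∈ K'') ∧ IsZero S c) →
      ∃ c, (∀ i, c i ∈ K') ∧ IsZero S c) := by
  classical
  by_cases h : ∃ c : Fin m → ℂ, IsZero S c ∧ Good z x (Subfield.closure ((K : Set ℂ) ∪ Set.range c))
  · obtain ⟨c, hc, hg⟩ := h
    refine ⟨_, ?_, hg, fun _ => ⟨c, ?_, hc⟩⟩
    · intro a ha
      exact Subfield.subset_closure (Or.inl ha)
    · intro i
      exact Subfield.subset_closure (Or.inr ⟨i, rfl⟩)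
  · refine ⟨K, le_refl _, hK, ?_⟩
    rintro ⟨K'', c, hle, hg, hc, hz⟩
    exfalso
    apply h
    refine ⟨c, hz, hg.mono ?_ ?_ ?_⟩
    · rw [Subfield.closure_le]
      rintro a (ha | ⟨i, rfl⟩)
      · exact hle ha
      · exact hc i
    · exact Subfield.subset_closure (Or.inl hK.z_mem)
    · exact Subfield.subset_closure (Or.inl hK.x_mem)

/-- one-step closure -/
theorem exists_closure {z x : ℂ} (K : Subfield ℂ) (hK : Good z x K) :
    ∃ K', K ≤ K' ∧ Good z x K' ∧ ∀ (m : ℕ) (S : Finset (MvPolynomial (Fin m) K)),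
      (∃ K'' c, K' ≤ K'' ∧ Good z x K'' ∧ (∀ i, c i ∈ K'') ∧
        ∀ p ∈ S, MvPolynomial.aeval c p = 0) →
      ∃ c : Fin m → ℂ, (∀ i, c i ∈ K') ∧ ∀ p ∈ S, MvPolynomial.aeval c p = 0 := by
  classical
  have hcount : Countable K := hK.count.to_subtype
  let T := Σ m : ℕ, Finset (MvPolynomial (Fin m) K)
  have : ∀ m : ℕ, Countable (MvPolynomial (Fin m) K) := fun m => by
    rw [← Cardinal.mk_le_aleph0_iff]
    refine (MvPolynomial.cardinalMk_le_max).trans ?_
    simp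
  have : Countable T := inferInstance
  have : Nonempty T := ⟨⟨0, ∅⟩⟩
  obtain ⟨e, he⟩ := exists_surjective_nat T
  have hstep : ∀ (n : ℕ) (L : {L : Subfield ℂ // Good z x L}), ∃ L' : {L : Subfield ℂ // Good z x L},
      L.1 ≤ L'.1 ∧ ((∃ K'' c, L'.1 ≤ K'' ∧ Good z x K'' ∧ (∀ i, c i ∈ K'') ∧
        IsZero ((e n).2.image (MvPolynomial.map K.subtype)) c) →
        ∃ c, (∀ i, c i ∈ L'.1) ∧ IsZero ((e n).2.image (MvPolynomial.map K.subtype)) c) := by
    intro n L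
    obtain ⟨K', h1, h2, h3⟩ := exists_step L.1 L.2 ((e n).2.image (MvPolynomial.map K.subtype))
    exact ⟨⟨K', h2⟩, h1, h3⟩
  choose F hF1 hF2 using hstep
  let L : ℕ → {L : Subfield ℂ // Good z x L} := fun n => Nat.rec ⟨K, hK⟩ (fun n L => F n L) n
  have hL : ∀ n, L (n + 1) = F n (L n) := fun n => rfl
  have hmono : Monotone (fun n => (L n).1) := monotone_nat_of_le_succ fun n => by
    show (L n).1 ≤ (L (n+1)).1
    rw [hL]
    exact hF1 n (L n)
  have hev : ∀ (m : ℕ) (c : Fin m → ℂ) (p : MvPolynomial (Fin m) K),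
      MvPolynomial.aeval c (MvPolynomial.map K.subtype p) = MvPolynomial.aeval c p := by
    intro m c p
    rw [MvPolynomial.aeval_def, MvPolynomial.aeval_def, MvPolynomial.eval₂_map]
    rfl
  refine ⟨⨆ n, (L n).1, le_iSup (fun n => (L n).1) 0, good_iSup _ hmono fun n => (L n).2, ?_⟩
  rintro m S ⟨K'', c, hle, hg, hc, hz⟩
  obtain ⟨n, hn⟩ := he ⟨m, S⟩
  have h1 := hF2 n (L n)
  rw [hn] at h1
  obtain ⟨c', hc', hz'⟩ := h1 ⟨K'', c, (le_iSup (fun n => (L n).1) (n+1)).trans hle, hg, hc, by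
    intro p hp
    obtain ⟨q, hq, rfl⟩ := Finset.mem_image.1 hp
    rw [hev]
    exact hz q hq⟩
  refine ⟨c', fun i => ?_, fun p hp => ?_⟩
  · exact (le_iSup (fun n => (L n).1) (n+1)) (hc' i)
  · rw [← hev]
    exact hz' _ (Finset.mem_image_of_mem _ hp)

/-- the field `k`, internal form -/
theorem exists_ec {z x : ℂ} (K : Subfield ℂ) (hK : Good z x K) :
    ∃ k, K ≤ k ∧ Good z x k ∧ ∀ (m : ℕ) (S : Finset (MvPolynomial (Fin m) k)),
      (∃ K'' c, k ≤ K'' ∧ Good z x K'' ∧ (∀ i, c i ∈ K'') ∧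
        ∀ p ∈ S, MvPolynomial.aeval c p = 0) →
      ∃ c : Fin m → k, ∀ p ∈ S, MvPolynomial.aeval c p = 0 := by
  classical
  have hstep : ∀ (L : {L : Subfield ℂ // Good z x L}), ∃ L' : {L : Subfield ℂ // Good z x L},
      L.1 ≤ L'.1 ∧ ∀ (m : ℕ) (S : Finset (MvPolynomial (Fin m) L.1)),
      (∃ K'' c, L'.1 ≤ K'' ∧ Good z x K'' ∧ (∀ i, c i ∈ K'') ∧
        ∀ p ∈ S, MvPolynomial.aeval c p = 0) →
      ∃ c : Fin m → ℂ, (∀ i, c i ∈ L'.1) ∧ ∀ p ∈ S, MvPolynomial.aeval c p = 0 := by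
    intro L
    obtain ⟨K', h1, h2, h3⟩ := exists_closure L.1 L.2
    exact ⟨⟨K', h2⟩, h1, h3⟩
  choose F hF1 hF2 using hstep
  let L : ℕ → {L : Subfield ℂ // Good z x L} := fun n => Nat.rec ⟨K, hK⟩ (fun _ L => F L) n
  have hL : ∀ n, L (n + 1) = F (L n) := fun n => rfl
  have hmono : Monotone (fun n => (L n).1) := monotone_nat_of_le_succ fun n => by
    show (L n).1 ≤ (L (n+1)).1
    rw [hL]
    exact hF1 (L n)
  have hdir : Directed (· ≤ ·) (fun n => (L n).1) := hmono.directed_le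
  have hcoe : ((⨆ n, (L n).1 : Subfield ℂ) : Set ℂ) = ⋃ n, ((L n).1 : Set ℂ) :=
    Subfield.coe_iSup_of_directed hdir
  obtain ⟨k, hk⟩ : ∃ k : Subfield ℂ, k = ⨆ n, (L n).1 := ⟨_, rfl⟩
  refine ⟨k, hk ▸ le_iSup (fun n => (L n).1) 0, hk ▸ good_iSup _ hmono fun n => (L n).2, ?_⟩
  rintro m S ⟨K'', c, hle, hg, hc, hz⟩
  -- all coefficients lie in some stage
  have hcoef : ∀ (A : Finset ℂ), (∀ a ∈ A, a ∈ k) → ∃ n, ∀ a ∈ A, a ∈ (L n).1 := by
    intro A
    induction A using Finset.induction_on with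
    | empty => intro _; exact ⟨0, by simp⟩
    | insert a A ha ih =>
      intro hA
      obtain ⟨n, hn⟩ := ih fun b hb => hA b (Finset.mem_insert_of_mem hb)
      have : a ∈ ((⨆ n, (L n).1 : Subfield ℂ) : Set ℂ) := by
        rw [← hk]; exact hA a (Finset.mem_insert_self a A)
      rw [hcoe] at this
      obtain ⟨n', hn'⟩ := Set.mem_iUnion.1 this
      refine ⟨max n n', ?_⟩
      intro b hb
      rcases Finset.mem_insert.1 hb with rfl | hb
      · exact hmono (le_max_right n n') hn'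
      · exact hmono (le_max_left n n') (hn b hb)
  obtain ⟨n, hn⟩ := hcoef (S.biUnion fun p => (p.support.image fun d => ((p.coeff d : k) : ℂ))) (by
    intro a ha
    obtain ⟨p, _, hp⟩ := Finset.mem_biUnion.1 ha
    obtain ⟨d, _, rfl⟩ := Finset.mem_image.1 hp
    exact (p.coeff d).2)
  -- descend the polynomials
  have hle0 : ∀ n, (L n).1 ≤ k := fun n => by rw [hk]; exact le_iSup (fun n => (L n).1) n
  have hle' : (L n).1 ≤ k := hle0 n
  have hdesc : ∀ p ∈ S, ∃ q : MvPolynomial (Fin m) (L n).1,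
      MvPolynomial.map (Subfield.inclusion hle') q = p := by
    intro p hp
    have : p ∈ Set.range (MvPolynomial.map (σ := Fin m) (Subfield.inclusion hle')) := by
      rw [MvPolynomial.mem_range_map_iff_coeffs_subset]
      intro a ha
      have ha' : a ∈ p.coeffs := ha
      rw [MvPolynomial.mem_coeffs_iff] at ha'
      obtain ⟨d, hd, rfl⟩ := ha'
      have : ((p.coeff d : k) : ℂ) ∈ (L n).1 :=
        hn _ (Finset.mem_biUnion.2 ⟨p, hp, Finset.mem_image.2 ⟨d, hd, rfl⟩⟩)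
      exact ⟨⟨_, this⟩, rfl⟩
    exact this
  choose! D hD using hdesc
  have hev : ∀ (c : Fin m → ℂ) (q : MvPolynomial (Fin m) (L n).1),
      MvPolynomial.aeval c (MvPolynomial.map (Subfield.inclusion hle') q) =
        MvPolynomial.aeval c q := by
    intro c q
    rw [MvPolynomial.aeval_def, MvPolynomial.aeval_def, MvPolynomial.eval₂_map]
    rfl
  obtain ⟨c', hc', hz'⟩ := hF2 (L n) m (S.image D) ⟨K'', c, by
      exact le_trans (hle0 (n+1)) hle, hg, hc, by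
      intro p hp
      obtain ⟨q, hq, rfl⟩ := Finset.mem_image.1 hp
      rw [← hev, hD q hq]
      exact hz q hq⟩
  have hc'' : ∀ i, c' i ∈ k := fun i => hle0 (n+1) (hc' i)
  refine ⟨fun i => ⟨c' i, hc'' i⟩, fun p hp => ?_⟩
  apply k.subtype.injective
  rw [map_zero]
  have h1 := hz' _ (Finset.mem_image_of_mem D hp)
  rw [← hev, hD p hp] at h1
  rw [← h1]
  have h2 := MvPolynomial.aeval_algebraMap_apply (R := k) (A := k) ℂ (fun i => (⟨c' i, hc'' i⟩ : k)) p
  exact h2.symm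

end Pool.Agent.H399.FieldK
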