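import Mathlib
import Pool.Agent.Helper386.D5V.Helper379_SFGal

/-! STEP: subfields of a big algebraically closed field, algebraic independence, automorphisms. -/

set_option autoImplicit false

open IntermediateField Cardinal

namespace Step

section Basic

variable {F Ω : Type*} [Field F] [Field Ω] [Algebra F Ω]

/-- `σ` fixes the subfield `K` pointwise. -/
def Fx (K : IntermediateField F Ω) (σ : Ω ≃ₐ[F] Ω) : Prop := ∀ k ∈ K, σ k = k

/-- `K` is algebraically closed in `Ω`. -/
def Closed (K : IntermediateField F Ω) : Prop := ∀ c : Ω, IsAlgebraic K c → c ∈ K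

variable (F) in
/-- The algebraic closure in `Ω` of the field generated by a set. -/
def cl (S : Set Ω) : IntermediateField F Ω :=
  (algebraicClosure (adjoin F S) Ω).restrictScalars F

theorem mem_cl {S : Set Ω} {x : Ω} : x ∈ cl F S ↔ IsAlgebraic (adjoin F S) x := by
  unfold cl
  rw [IntermediateField.mem_restrictScalars, mem_algebraicClosure_iff]

theorem subset_cl (S : Set Ω) : S ⊆ (cl F S : Set Ω) := by
  intro x hx
  rw [SetLike.mem_coe, mem_cl]
  exact isAlgebraic_algebraMap (⟨x, subset_adjoin F S hx⟩ : adjoin F S)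

theorem Fx.mono {K L : IntermediateField F Ω} {σ : Ω ≃ₐ[F] Ω} (h : K ≤ L) (hσ : Fx L σ) : Fx K σ :=
  fun k hk => hσ k (h hk)

theorem Fx.symm {K : IntermediateField F Ω} {σ : Ω ≃ₐ[F] Ω} (hσ : Fx K σ) : Fx K σ⁻¹ := by
  intro k hk
  have h : σ k = k := hσ k hk
  calc σ⁻¹ k = σ⁻¹ (σ k) := by rw [h]
    _ = k := σ.symm_apply_apply k

theorem Fx.mul {K : IntermediateField F Ω} {σ τ : Ω ≃ₐ[F] Ω} (hσ : Fx K σ) (hτ : Fx K τ) :
    Fx K (σ * τ) := by
  intro k hk
  rw [AlgEquiv.mul_apply, hτ k hk, hσ k hk]

theorem Fx.one {K : IntermediateField F Ω} : Fx K (1 : Ω ≃ₐ[F] Ω) := fun _ _ => rfl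

theorem isAlgebraic_of_le {K L : IntermediateField F Ω} (h : K ≤ L) {x : Ω} (hx : IsAlgebraic K x) :
    IsAlgebraic L x := by
  let _ : Algebra K L := (IntermediateField.inclusion h).toAlgebra
  have : IsScalarTower K L Ω := IsScalarTower.of_algebraMap_eq (fun _ => rfl)
  exact hx.tower_top L

theorem closed_cl (S : Set Ω) : Closed (cl F S) := by
  intro c hc
  rw [mem_cl]
  let A := adjoin F S
  have h1 : IsAlgebraic (algebraicClosure A Ω) c := hc
  have h2 : Algebra.IsAlgebraic A (algebraicClosure A Ω) := inferInstance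
  exact h1.restrictScalars A

theorem cl_le {S : Set Ω} {K : IntermediateField F Ω} (hK : Closed K) (hS : S ⊆ (K : Set Ω)) :
    cl F S ≤ K := by
  intro x hx
  rw [mem_cl] at hx
  exact hK x (isAlgebraic_of_le (adjoin_le_iff.2 hS) hx)

theorem cl_mono {S T : Set Ω} (h : S ⊆ T) : cl F S ≤ cl F T :=
  cl_le (closed_cl T) (h.trans (subset_cl T))

theorem countable_algCl (A B : Type*) [Field A] [Field B] [Algebra A B] [Countable A] :
    #(algebraicClosure A B) ≤ ℵ₀ := by
  have : Module.IsTorsionFree A (algebraicClosure A B) := inferInstance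
  have := Algebra.IsAlgebraic.lift_cardinalMk_le_max A (algebraicClosure A B)
  rw [← Cardinal.lift_le_aleph0]
  refine this.trans ?_
  simp [Cardinal.mk_le_aleph0]

theorem countable_cl [Countable F] {S : Set Ω} (hS : S.Countable) : Countable (cl F S) := by
  have h1 : Countable S := hS.to_subtype
  have h2 : #(adjoin F S) ≤ ℵ₀ := by
    have := IntermediateField.lift_cardinalMk_adjoin_le F S
    rw [← Cardinal.lift_le_aleph0]
    refine this.trans ?_
    simp [Cardinal.mk_le_aleph0]
  have h3 : #(algebraicClosure (adjoin F S) Ω) ≤ ℵ₀ := by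
    have h5 := Cardinal.mk_le_aleph0_iff.1 h2
    exact countable_algCl _ _
  exact Cardinal.mk_le_aleph0_iff.1 h3

end Basic

section Ind

/-- The exchange lemma in the form used in the rank counts. -/
theorem span_ind {T Ω ι κ : Type*} [Field T] [Field Ω] [Algebra T Ω] [Fintype ι] [Fintype κ]
    {u : ι → Ω} {v : κ → Ω} (hu : AlgebraicIndependent T u)
    (huv : ∀ i, IsAlgebraic (adjoin T (Set.range v)) (u i)) (hc : Fintype.card κ ≤ Fintype.card ι) :
    AlgebraicIndependent T v := by
  let M := AlgebraicIndependent.matroid T Ω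
  have h1 : M.Indep (Set.range u) := hu.to_subtype_range
  have h2 : Set.range u ⊆ M.closure (Set.range v) := by
    rintro _ ⟨i, rfl⟩
    rw [AlgebraicIndependent.matroid_closure_eq]
    have := huv i
    rw [IntermediateField.isAlgebraic_adjoin_iff] at this
    exact this
  have h3 : (Fintype.card ι : ℕ∞) ≤ M.eRk (Set.range v) := by
    rw [← M.eRk_closure_eq]
    have := h1.encard_le_eRk_of_subset h2
    rwa [← Set.image_univ, hu.injective.encard_image, Set.encard_univ, ENat.card_eq_coe_fintype_card]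
      at this
  have h4 : (Set.range v).encard ≤ Fintype.card κ := by
    rw [← Set.image_univ]
    refine (Set.encard_image_le _ _).trans ?_
    rw [Set.encard_univ, ENat.card_eq_coe_fintype_card]
  have h5 : (Set.range v).encard = Fintype.card κ := by
    apply le_antisymm h4
    have h6 := M.eRk_le_encard (Set.range v)
    exact (Nat.cast_le.2 hc).trans (h3.trans h6)
  have h7 : M.Indep (Set.range v) := by
    rw [M.indep_iff_eRk_eq_encard_of_finite (Set.finite_range v)]
    apply le_antisymm (M.eRk_le_encard _)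
    rw [h5]
    exact (Nat.cast_le.2 hc).trans h3
  have h8 : Function.Injective v := by
    have h9 : (Set.range v).ncard = Fintype.card κ := by
      rw [Set.ncard_def, h5]; rfl
    rw [← Set.injOn_univ]
    rw [← Set.ncard_image_iff Set.finite_univ]
    rw [Set.image_univ, h9, Set.ncard_univ, Nat.card_eq_fintype_card]
  exact AlgebraicIndependent.of_subtype_range h8 h7

end Ind

section Galois

variable {F Ω : Type*} [Field F] [Field Ω] [Algebra F Ω]

theorem mem_cl_union {K : IntermediateField F Ω} {S : Set Ω} {x : Ω} :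
    x ∈ cl F ((K : Set Ω) ∪ S) ↔ IsAlgebraic (adjoin K S) x := by
  rw [mem_cl]
  have h := IntermediateField.restrictScalars_adjoin F K S
  rw [← h]
  rfl

theorem transcendental_of_notMem {K : IntermediateField F Ω} {S : Set Ω} {x : Ω}
    (h : x ∉ cl F ((K : Set Ω) ∪ S)) : Transcendental (adjoin K S) x := by
  rw [mem_cl_union] at h
  exact h

theorem closed_iff_cl {K : IntermediateField F Ω} : Closed K ↔ cl F (K : Set Ω) ≤ K :=
  ⟨fun h => cl_le h subset_rfl, fun h c hc => h (by
    rw [mem_cl]
    exact isAlgebraic_of_le (adjoin_le_iff.1 le_rfl) hc)⟩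

variable [IsAlgClosed Ω] [CharZero F]

theorem mem_of_fix {K : IntermediateField F Ω} {c : Ω} (h : ∀ σ : Ω ≃ₐ[F] Ω, Fx K σ → σ c = c) :
    c ∈ K := by
  have h1 : c ∈ (algebraMap K Ω).range := by
    apply SF.mem_range_of_fixed
    intro σ
    exact h (σ.restrictScalars F) (fun k hk => σ.commutes ⟨k, hk⟩)
  obtain ⟨x, hx⟩ := h1
  rw [← hx]
  exact x.2

theorem mem_of_finite_orbit {K : IntermediateField F Ω} (hK : Closed K) {c : Ω}
    (h : {d | ∃ σ : Ω ≃ₐ[F] Ω, Fx K σ ∧ σ c = d}.Finite) : c ∈ K := by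
  apply hK
  rw [← SF.finite_orbit_iff]
  refine h.subset ?_
  rintro _ ⟨σ, rfl⟩
  exact ⟨σ.restrictScalars F, fun k hk => σ.commutes ⟨k, hk⟩, rfl⟩

omit [CharZero F] in
theorem exists_same_type {K : IntermediateField F Ω} [Countable K] [Uncountable Ω] {ι : Type*}
    [Countable ι] {s t : ι → Ω}
    (h : ∀ p : MvPolynomial ι K, MvPolynomial.aeval s p = 0 ↔ MvPolynomial.aeval t p = 0) :
    ∃ σ : Ω ≃ₐ[F] Ω, Fx K σ ∧ ∀ i, σ (s i) = t i := by
  obtain ⟨σ, hσ⟩ := SF.exists_algEquiv_of_same_type s t h
  exact ⟨σ.restrictScalars F, fun k hk => σ.commutes ⟨k, hk⟩, hσ⟩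

omit [CharZero F] in
theorem exists_conj_of_ind {K : IntermediateField F Ω} [Countable K] [Uncountable Ω] {ι : Type*}
    [Countable ι] {s t : ι → Ω} (hs : AlgebraicIndependent K s) (ht : AlgebraicIndependent K t) :
    ∃ σ : Ω ≃ₐ[F] Ω, Fx K σ ∧ ∀ i, σ (s i) = t i := by
  apply exists_same_type
  intro p
  rw [map_eq_zero_iff _ hs, map_eq_zero_iff _ ht]

omit [IsAlgClosed Ω] [CharZero F] in
theorem exists_generic [Uncountable Ω] (E : IntermediateField F Ω) [Algebra.IsAlgebraic E Ω]
    (K : IntermediateField F Ω) [Countable K] [Countable F] (ι : Type*) [Finite ι] :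
    ∃ e : ι → Ω, (∀ i, e i ∈ E) ∧ AlgebraicIndependent K e := by
  induction ι using Finite.induction_empty_option with
  | of_equiv f h =>
    obtain ⟨e, h1, h2⟩ := h
    refine ⟨e ∘ f.symm, fun i => h1 _, ?_⟩
    exact h2.comp _ f.symm.injective
  | h_empty =>
    refine ⟨fun i => i.elim, fun i => i.elim, ?_⟩
    rw [algebraicIndependent_empty_type_iff]
    exact (algebraMap K Ω).injective
  | h_option h =>
    obtain ⟨e, h1, h2⟩ := h
    have h3 : ∃ x ∈ E, x ∉ cl F ((K : Set Ω) ∪ Set.range e) := by
      by_contra hc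
      push Not at hc
      have h4 : ∀ x : Ω, x ∈ cl F ((K : Set Ω) ∪ Set.range e) := by
        intro x
        apply closed_cl
        exact isAlgebraic_of_le (fun y hy => hc y hy) (Algebra.IsAlgebraic.isAlgebraic (R := E) x)
      have h5 : Countable (cl F ((K : Set Ω) ∪ Set.range e)) :=
        countable_cl ((Set.countable_coe_iff.1 ‹_›).union (Set.countable_range e))
      have h6 : Countable Ω := by
        have : Function.Surjective (fun x : cl F ((K : Set Ω) ∪ Set.range e) => (x : Ω)) :=
          fun x => ⟨⟨x, h4 x⟩, rfl⟩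
        exact this.countable
      exact not_countable h6
    obtain ⟨x, hxE, hx⟩ := h3
    refine ⟨fun o => o.elim x e, ?_, ?_⟩
    · rintro (_ | i)
      · exact hxE
      · exact h1 i
    · rw [h2.option_iff_transcendental]
      have h7 := transcendental_of_notMem hx
      rw [IntermediateField.transcendental_adjoin_iff] at h7
      exact h7

end Galois

end Step
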