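import Pool.Agent.Helper386.D5V.Helper18_Step_Side

/-! The special solutions (7.5 + 7.7). -/

set_option autoImplicit false
set_option linter.all false
set_option linter.overlappingInstances false

open Module FF SF Step

namespace Pool.Agent.Helper740.Special

theorem n3_prod {R : Type*} [CommRing R] (A z g0 g1 g2 : R) (hz : z ^ 2 + z + 1 = 0) :
    (g0 + g1 * A + g2 * A ^ 2) * (g0 + g1 * (z * A) + g2 * (z * A) ^ 2) *
      (g0 + g1 * (z ^ 2 * A) + g2 * (z ^ 2 * A) ^ 2) = N3 (A ^ 3) g0 g1 g2 := by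
  unfold N3
  linear_combination (g0 + g1 * A + g2 * A ^ 2) * (g0 * (g1 * A) + g0 * (g2 * A ^ 2) * (z ^ 2 - z + 1)
    + (g1 * A) ^ 2 * (z - 1) + (g1 * A) * (g2 * A ^ 2) * (z ^ 3 - z + 1)
    + (g2 * A ^ 2) ^ 2 * (z - 1) * (z ^ 3 + 1)) * hz

theorem zp_one {F : Type*} [Field F] (z : F) : zp z 1 = z := by
  unfold zp
  have : (1 : ZMod 3).val = 1 := rfl
  rw [this, pow_one]

theorem zp_two {F : Type*} [Field F] (z : F) : zp z 2 = z ^ 2 := by
  unfold zp
  have : (2 : ZMod 3).val = 2 := rfl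
  rw [this]

theorem zp_neg {F : Type*} [Field F] {z : F} (hz : z ^ 3 = 1) (j : ZMod 3) :
    zp z (-j) = (zp z j)⁻¹ := by
  have h := zp_add hz j (-j)
  rw [add_neg_cancel, zp_zero] at h
  exact eq_inv_of_mul_eq_one_right h.symm

variable {F Ω L M : Type} [Field F] [Field Ω] [Algebra F Ω] [Field L] [Algebra F L]
    [Field M] [Algebra Ω M] [Algebra L M] [IsAlgClosed Ω] [CharZero Ω] [CharZero F] [IsFF F L]
    [IsFF Ω M] (m : Model F Ω L M)

theorem act_cj (σ : Ω ≃ₐ[F] Ω) (β : Ω) (g0 g1 g2 : L) :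
    m.act σ (cj β g0 g1 g2) = cj (σ β) g0 g1 g2 := by
  unfold cj
  simp only [map_add, map_mul, m.act_L, m.act_const, map_pow]

theorem mem_cl_empty {c : Ω} {a : F} (h : c ^ 3 = algebraMap F Ω a) : c ∈ cl F (∅ : Set Ω) := by
  rw [mem_cl]
  have h1 : IsAlgebraic F c := by
    refine ⟨Polynomial.X ^ 3 - Polynomial.C a, Polynomial.X_pow_sub_C_ne_zero (by norm_num) a, ?_⟩
    simp [h]
  exact h1.tower_top _

/-- the twist of a cube root -/
theorem exists_twist {z a : F} (hz : IsPrimitiveRoot z 3) (ha : a ≠ 0) {al : Ω}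
    (hal : al ^ 3 = algebraMap F Ω a) (σ : Ω ≃ₐ[F] Ω) :
    ∃ j : ZMod 3, σ al = algebraMap F Ω (zp z j) * al := by
  have hal0 : al ≠ 0 := by
    intro h
    rw [h, zero_pow (by norm_num)] at hal
    exact ha ((map_eq_zero (algebraMap F Ω)).1 hal.symm)
  have h1 : (σ al / al) ^ 3 = 1 := by
    rw [div_pow, ← map_pow, hal, AlgEquiv.commutes, div_self]
    rwa [Ne, map_eq_zero]
  have hz' : IsPrimitiveRoot (algebraMap F Ω z) 3 := hz.map_of_injective (algebraMap F Ω).injective
  obtain ⟨j, hj⟩ := exists_zp hz' h1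
  refine ⟨j, ?_⟩
  have h2 : zp (algebraMap F Ω z) j = algebraMap F Ω (zp z j) := by
    unfold zp; rw [map_pow]
  rw [← h2, ← hj, div_mul_cancel₀ _ hal0]

theorem special (z x a b : F) (hz : IsPrimitiveRoot z 3) (hx : x ≠ 0) (ha : a ≠ 0) (hb : b ≠ 0)
    (E : IntermediateField F Ω)
    (hE : (∃ c ∈ E, c ^ 3 = algebraMap F Ω (b / a)) ∨ (∃ c ∈ E, c ^ 3 = algebraMap F Ω (a * b)))
    (g0 g1 g2 : L) (hg : N3 (algebraMap F L a) g0 g1 g2 = algebraMap F L x)
    (al : Ω) (hal : al ^ 3 = algebraMap F Ω a) (be : Ω) (hbe : be ^ 3 = algebraMap F Ω b)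
    (c : (Ω ≃ₐ[F] Ω) → ZMod 3) (hc : ∀ s, s be = algebraMap F Ω (zp z (c s)) * be)
    (d : ℤ) (hd : d = ddeg (DD (Ω := Ω) (M := M) (cj al g0 g1 g2)
      (cj (algebraMap F Ω z * al) g0 g1 g2))) :
    ∃ r : ℕ, 1 ≤ r ∧ r ≤ 2 ∧ ∃ (hs : ZMod 3 → M) (A : ZMod 3 → (Place Ω M →₀ ℤ)),
      (∀ j, hs j ≠ 0) ∧ hs 0 * hs 1 * hs 2 = algebraMap Ω M (algebraMap F Ω x) ∧
      (∀ s, Fx E s → ∀ j, m.act s (hs j) = hs (j + c s)) ∧
      (∀ s, Fx (cl F (∅ : Set Ω)) s → ∀ j, m.act s (hs j) = hs j) ∧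
      0 ≤ A 0 ∧ ddeg (A 0) = r * d ∧
      (∀ j, divisor Ω (hs j) = A j - A (j + 1)) ∧
      (∀ s, Fx E s → ∀ j P, A (j + c s) (m.actP s P) = A j P) ∧
      (∀ j, ∀ P ∈ (A j).support, ∀ s, Fx (cl F (∅ : Set Ω)) s → m.actP s P = P) := by
  classical
  have hz3 : z ^ 3 = 1 := hz.pow_eq_one
  have hal0 : al ≠ 0 := by
    intro h
    rw [h, zero_pow (by norm_num)] at hal
    exact ha ((map_eq_zero (algebraMap F Ω)).1 hal.symm)
  have hbe0 : be ≠ 0 := by
    intro h
    rw [h, zero_pow (by norm_num)] at hbe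
    exact hb ((map_eq_zero (algebraMap F Ω)).1 hbe.symm)
  have htw : ∀ σ : Ω ≃ₐ[F] Ω, ∃ j : ZMod 3, σ al = algebraMap F Ω (zp z j) * al :=
    fun σ => exists_twist hz ha hal σ
  choose ca hca using htw
  have hcasesZ : ∀ j : ZMod 3, j = 0 ∨ j = 1 ∨ j = 2 := by decide
  -- the conjugates
  let G : ZMod 3 → M := fun j => cj (algebraMap F Ω (zp z j) * al) g0 g1 g2
  have hG : ∀ j, G j = cj (algebraMap F Ω (zp z j) * al) g0 g1 g2 := fun j => rfl
  have hGact : ∀ σ j, m.act σ (G j) = G (j + ca σ) := by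
    intro σ j
    rw [hG, hG, act_cj, map_mul, AlgEquiv.commutes, hca, zp_add hz3, map_mul, mul_assoc]
  have hprod : G 0 * G 1 * G 2 = algebraMap Ω M (algebraMap F Ω x) := by
    have hzeta : (algebraMap Ω M (algebraMap F Ω z)) ^ 2 + algebraMap Ω M (algebraMap F Ω z) + 1 = 0 := by
      have h1 : z ^ 2 + z + 1 = 0 := by
        have h2 : (z - 1) * (z ^ 2 + z + 1) = 0 := by linear_combination hz3
        rcases mul_eq_zero.1 h2 with h3 | h3
        · exfalso
          have h4 : z = 1 := sub_eq_zero.1 h3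
          have := hz.ne_one (by norm_num)
          exact this h4
        · exact h3
      have h2 := congrArg (fun t => algebraMap Ω M (algebraMap F Ω t)) h1
      simpa using h2
    have h1 := n3_prod (algebraMap Ω M al) (algebraMap Ω M (algebraMap F Ω z))
      (algebraMap L M g0) (algebraMap L M g1) (algebraMap L M g2) hzeta
    have h2 : (algebraMap Ω M al) ^ 3 = algebraMap L M (algebraMap F L a) := by
      rw [← map_pow, hal, m.compat]
    have h3 : N3 (algebraMap L M (algebraMap F L a)) (algebraMap L M g0) (algebraMap L M g1)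
        (algebraMap L M g2) = algebraMap Ω M (algebraMap F Ω x) := by
      rw [m.compat, ← hg]
      unfold N3
      simp only [map_sub, map_add, map_mul, map_pow, map_ofNat]
    rw [h2, h3] at h1
    rw [← h1, hG, hG, hG, zp_zero, zp_one, zp_two]
    unfold cj
    simp only [map_one, one_mul, map_mul, map_pow]
  have hxM : algebraMap Ω M (algebraMap F Ω x) ≠ 0 := by
    rw [Ne, map_eq_zero, map_eq_zero]; exact hx
  have hG0 : ∀ j, G j ≠ 0 := by
    have h1 : G 0 * G 1 * G 2 ≠ 0 := by rw [hprod]; exact hxM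
    have h2 := mul_ne_zero_iff.1 h1
    have h3 := mul_ne_zero_iff.1 h2.1
    intro j
    rcases hcasesZ j with h | h | h
    · rw [h]; exact h3.1
    · rw [h]; exact h3.2
    · rw [h]; exact h2.2
  have hcyc : ∀ (P : Place Ω M) j, P.ord (G j) + P.ord (G (j + 1)) + P.ord (G (j + 1 + 1)) = 0 := by
    intro P j
    have h1 : P.ord (G 0) + P.ord (G 1) + P.ord (G 2) = 0 := by
      rw [← P.ord_mul (hG0 0) (hG0 1), ← P.ord_mul (mul_ne_zero (hG0 0) (hG0 1)) (hG0 2), hprod,
        P.ord_const (by rw [Ne, map_eq_zero]; exact hx)]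
    rcases hcasesZ j with h | h | h
    · rw [h]
      have e1 : (0 : ZMod 3) + 1 = 1 := by decide
      have e2 : (1 : ZMod 3) + 1 = 2 := by decide
      rw [e1, e2]; omega
    · rw [h]
      have e1 : (1 : ZMod 3) + 1 = 2 := by decide
      have e2 : (2 : ZMod 3) + 1 = 0 := by decide
      rw [e1, e2]; omega
    · rw [h]
      have e1 : (2 : ZMod 3) + 1 = 0 := by decide
      have e2 : (0 : ZMod 3) + 1 = 1 := by decide
      rw [e1, e2]; omega
  let D : ZMod 3 → (Place Ω M →₀ ℤ) := fun j => DD (G j) (G (j + 1))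
  have hD : ∀ j P, D j P = max (max (- P.ord (G j)) 0) (max (- (P.ord (G j) + P.ord (G (j + 1)))) 0) := by
    intro j P
    change (polar (G j) ⊔ polar (G j * G (j + 1))) P = _
    rw [Finsupp.sup_apply, polar_apply, polar_apply, P.ord_mul (hG0 _) (hG0 _)]
  have hDnn : ∀ j, 0 ≤ D j := by
    intro j P
    rw [hD]
    simp
  have hDdiv : ∀ j, divisor Ω (G j) = D (j + 1) - D j := by
    intro j
    ext P
    rw [Finsupp.sub_apply, hD, hD, divisor_apply]
    have := hcyc P j
    omega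
  have hDact : ∀ σ j P, D (j + ca σ) (m.actP σ P) = D j P := by
    intro σ j P
    rw [hD, hD]
    have h1 : ∀ i, (m.actP σ P).ord (G (i + ca σ)) = P.ord (G i) := by
      intro i
      rw [← hGact, m.actP_ord]
    have h2 : j + ca σ + 1 = (j + 1) + ca σ := by ring
    rw [h2, h1, h1]
  have hca0 : ∀ σ, Fx (cl F (∅ : Set Ω)) σ → ca σ = 0 := by
    intro σ hσ
    apply twist_zero hal0 hz
    rw [← hca]
    exact hσ _ (mem_cl_empty hal)
  have hGfix : ∀ σ, Fx (cl F (∅ : Set Ω)) σ → ∀ j, m.act σ (G j) = G j := by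
    intro σ hσ j
    rw [hGact, hca0 σ hσ, add_zero]
  have hDfix : ∀ j, ∀ P ∈ (D j).support, ∀ s, Fx (cl F (∅ : Set Ω)) s → m.actP s P = P := by
    intro j P hP s hs
    rw [Finsupp.mem_support_iff, hD] at hP
    by_cases h1 : P.ord (G j) = 0
    · have h2 : P.ord (G (j + 1)) ≠ 0 := by
        intro h2
        apply hP
        rw [h1, h2]; simp
      exact place_fixed_of_fun m (closed_cl _) (fun σ hσ => hGfix σ hσ (j + 1)) h2 hs
    · exact place_fixed_of_fun m (closed_cl _) (fun σ hσ => hGfix σ hσ j) h1 hs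
  have hD0 : ddeg (D 0) = d := by
    rw [hd]
    congr 1
    change DD (G 0) (G (0 + 1)) = _
    have e1 : (0 : ZMod 3) + 1 = 1 := by decide
    rw [e1, hG, hG, zp_zero, zp_one, map_one, one_mul]
  rcases hE with ⟨c0, hc0E, hc0⟩ | ⟨c0, hc0E, hc0⟩
  · -- b / a is a cube in `E`
    have hcc : ∀ σ, Fx E σ → c σ = ca σ := by
      intro σ hσ
      have h1 : (be / (c0 * al)) ^ 3 = 1 := by
        rw [div_pow, mul_pow, hc0, hal, hbe, ← map_mul, div_mul_cancel₀ _ ha, div_self]
        rwa [Ne, map_eq_zero]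
      have hz' : IsPrimitiveRoot (algebraMap F Ω z) 3 :=
        hz.map_of_injective (algebraMap F Ω).injective
      obtain ⟨j, hj⟩ := exists_zp hz' h1
      have h2 : zp (algebraMap F Ω z) j = algebraMap F Ω (zp z j) := by
        unfold zp; rw [map_pow]
      rw [h2] at hj
      have hc00 : c0 ≠ 0 := by
        intro h
        rw [h, zero_pow (by norm_num)] at hc0
        exact (div_ne_zero hb ha) ((map_eq_zero (algebraMap F Ω)).1 hc0.symm)
      have h3 : be = algebraMap F Ω (zp z j) * (c0 * al) := by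
        rw [← hj, div_mul_cancel₀ _ (mul_ne_zero hc00 hal0)]
      have h4 : σ be = algebraMap F Ω (zp z (ca σ)) * be := by
        rw [h3, map_mul, AlgEquiv.commutes, map_mul, hσ c0 hc0E, hca]
        ring
      rw [hc] at h4
      exact zp_inj hz ((algebraMap F Ω).injective (mul_right_cancel₀ hbe0 h4))
    refine ⟨2, by norm_num, le_rfl, fun j => algebraMap Ω M (algebraMap F Ω x) * ((G j)⁻¹ * (G j)⁻¹),
      fun j => D j + D j, ?_, ?_, ?_, ?_, ?_, ?_, ?_, ?_, ?_⟩
    · intro j
      exact mul_ne_zero hxM (mul_ne_zero (inv_ne_zero (hG0 j)) (inv_ne_zero (hG0 j)))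
    · have h1 : algebraMap Ω M (algebraMap F Ω x) * ((G 0)⁻¹ * (G 0)⁻¹) *
          (algebraMap Ω M (algebraMap F Ω x) * ((G 1)⁻¹ * (G 1)⁻¹)) *
          (algebraMap Ω M (algebraMap F Ω x) * ((G 2)⁻¹ * (G 2)⁻¹)) =
          (algebraMap Ω M (algebraMap F Ω x)) ^ 3 * ((G 0 * G 1 * G 2)⁻¹) ^ 2 := by
        rw [mul_inv, mul_inv]; ring
      change algebraMap Ω M (algebraMap F Ω x) * ((G 0)⁻¹ * (G 0)⁻¹) *
          (algebraMap Ω M (algebraMap F Ω x) * ((G 1)⁻¹ * (G 1)⁻¹)) *
          (algebraMap Ω M (algebraMap F Ω x) * ((G 2)⁻¹ * (G 2)⁻¹)) = _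
      rw [h1, hprod]
      field_simp
    · intro s hs j
      simp only [map_mul, map_inv₀, hGact, m.act_const, AlgEquiv.commutes]
      rw [hcc s hs]
    · intro s hs j
      simp only [map_mul, map_inv₀, hGfix s hs, m.act_const, AlgEquiv.commutes]
    · exact add_nonneg (hDnn 0) (hDnn 0)
    · change ddeg (D 0 + D 0) = _
      rw [ddeg_add, hD0]; push_cast; ring
    · intro j
      change divisor Ω _ = (D j + D j) - (D (j + 1) + D (j + 1))
      rw [divisor_mul hxM (mul_ne_zero (inv_ne_zero (hG0 j)) (inv_ne_zero (hG0 j))),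
        divisor_mul (inv_ne_zero (hG0 j)) (inv_ne_zero (hG0 j)), divisor_inv, hDdiv]
      have h1 : divisor Ω (algebraMap Ω M (algebraMap F Ω x)) = 0 := by
        ext P
        rw [divisor_apply, P.ord_const (by rw [Ne, map_eq_zero]; exact hx)]; rfl
      rw [h1]; abel
    · intro s hs j P
      change (D (j + c s) + D (j + c s)) _ = (D j + D j) P
      rw [Finsupp.add_apply, Finsupp.add_apply, hcc s hs, hDact]
    · intro j P hP s hs
      apply hDfix j P _ s hs
      rw [Finsupp.mem_support_iff] at hP ⊢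
      intro h
      apply hP
      change (D j + D j) P = 0
      rw [Finsupp.add_apply, h]; rfl
  · -- `a b` is a cube in `E`
    have hcc : ∀ σ, Fx E σ → c σ = - ca σ := by
      intro σ hσ
      have h1 : (be * al / c0) ^ 3 = 1 := by
        rw [div_pow, mul_pow, hc0, hal, hbe, ← map_mul, mul_comm b a, div_self]
        rw [Ne, map_eq_zero]
        exact mul_ne_zero ha hb
      have hz' : IsPrimitiveRoot (algebraMap F Ω z) 3 :=
        hz.map_of_injective (algebraMap F Ω).injective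
      obtain ⟨j, hj⟩ := exists_zp hz' h1
      have h2 : zp (algebraMap F Ω z) j = algebraMap F Ω (zp z j) := by
        unfold zp; rw [map_pow]
      rw [h2] at hj
      have hc00 : c0 ≠ 0 := by
        intro h
        rw [h, zero_pow (by norm_num)] at hc0
        exact (mul_ne_zero ha hb) ((map_eq_zero (algebraMap F Ω)).1 hc0.symm)
      have h3 : be * al = algebraMap F Ω (zp z j) * c0 := by
        rw [← hj, div_mul_cancel₀ _ hc00]
      have h4 : σ (be * al) = be * al := by
        rw [h3, map_mul, AlgEquiv.commutes, hσ c0 hc0E]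
      rw [map_mul, hc, hca] at h4
      have h5 : algebraMap F Ω (zp z (c σ + ca σ)) * (be * al) = be * al := by
        rw [zp_add hz3, map_mul]
        calc _ = algebraMap F Ω (zp z (c σ)) * be * (algebraMap F Ω (zp z (ca σ)) * al) := by ring
          _ = _ := h4
      have h6 := twist_zero (mul_ne_zero hbe0 hal0) hz h5
      exact eq_neg_of_add_eq_zero_left h6
    refine ⟨1, le_rfl, by norm_num, fun j => G (-j), fun j => D (1 - j), ?_, ?_, ?_, ?_, ?_, ?_, ?_, ?_, ?_⟩
    · intro j; exact hG0 _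
    · change G (-0) * G (-1) * G (-2) = _
      have e0 : (-0 : ZMod 3) = 0 := by decide
      have e1 : (-1 : ZMod 3) = 2 := by decide
      have e2 : (-2 : ZMod 3) = 1 := by decide
      rw [e0, e1, e2, ← hprod]; ring
    · intro s hs j
      change m.act s (G (-j)) = G (-(j + c s))
      rw [hGact, hcc s hs]
      congr 1
      ring
    · intro s hs j
      exact hGfix s hs _
    · exact hDnn _
    · change ddeg (D (1 - 0)) = _
      have e1 : (1 - 0 : ZMod 3) = 0 + 1 := by decide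
      have h1 := congrArg ddeg (hDdiv 0)
      rw [ddeg_divisor, ddeg_sub, hD0] at h1
      rw [e1]; push_cast; omega
    · intro j
      change divisor Ω (G (-j)) = D (1 - j) - D (1 - (j + 1))
      rw [hDdiv]
      congr 2
      · ring
      · ring
    · intro s hs j P
      change D (1 - (j + c s)) _ = D (1 - j) P
      rw [hcc s hs]
      have h1 : 1 - (j + - ca s) = (1 - j) + ca s := by ring
      rw [h1, hDact]
    · intro j P hP s hs
      exact hDfix _ P hP s hs

end Pool.Agent.Helper740.Special
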