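import Mathlib

/-! (7.2) Automorphisms of algebraically closed fields. -/

set_option autoImplicit false

namespace SF

open Cardinal

section extend

/-- Transcendence bases over the same field, indexed by the same type, are matched by an
isomorphism of algebraically closed fields. -/
theorem exists_algEquiv_of_bases {K Om1 Om2 ι : Type*} [Field K] [Field Om1] [Field Om2]
    [IsAlgClosed Om1] [IsAlgClosed Om2] [Algebra K Om1] [Algebra K Om2]
    {B : ι → Om1} {C : ι → Om2} (hB : IsTranscendenceBasis K B) (hC : IsTranscendenceBasis K C) :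
    ∃ σ : Om1 ≃ₐ[K] Om2, ∀ i, σ (B i) = C i := by
  have : IsAlgClosure (Algebra.adjoin K (Set.range B)) Om1 :=
    { isAlgClosed := inferInstance, isAlgebraic := hB.isAlgebraic }
  have : IsAlgClosure (Algebra.adjoin K (Set.range C)) Om2 :=
    { isAlgClosed := inferInstance, isAlgebraic := hC.isAlgebraic }
  let e : Algebra.adjoin K (Set.range B) ≃ₐ[K] Algebra.adjoin K (Set.range C) :=
    hB.1.aevalEquiv.symm.trans hC.1.aevalEquiv
  let σ : Om1 ≃+* Om2 := IsAlgClosure.equivOfEquiv Om1 Om2 e.toRingEquiv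
  have hσ : ∀ s : Algebra.adjoin K (Set.range B), σ (s : Om1) = (e s : Om2) := fun s =>
    IsAlgClosure.equivOfEquiv_algebraMap Om1 Om2 e.toRingEquiv s
  refine ⟨AlgEquiv.ofRingEquiv (f := σ) ?_, ?_⟩
  · intro r
    have h1 := hσ (algebraMap K _ r)
    rw [e.commutes] at h1
    exact h1
  · intro i
    have hm : B i ∈ Algebra.adjoin K (Set.range B) := Algebra.subset_adjoin ⟨i, rfl⟩
    have h1 := hσ ⟨B i, hm⟩
    have h2 : e ⟨B i, hm⟩ = ⟨C i, Algebra.subset_adjoin ⟨i, rfl⟩⟩ := by
      have h3 : hB.1.aevalEquiv (MvPolynomial.X i) = ⟨B i, hm⟩ := by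
        apply Subtype.ext
        simp
      simp only [e, AlgEquiv.trans_apply]
      rw [← h3, AlgEquiv.symm_apply_apply]
      apply Subtype.ext
      simp
    rw [h2] at h1
    exact h1

/-- Two embeddings with matched transcendence bases differ by an automorphism. -/
theorem exists_ringEquiv_of_bases {K Om ι κ : Type*} [Field K] [Field Om] [IsAlgClosed Om]
    (i1 i2 : K →+* Om) (e : ι ≃ κ) {B : ι → Om} {C : κ → Om}
    (hB : @IsTranscendenceBasis ι K Om _ _ i1.toAlgebra B)
    (hC : @IsTranscendenceBasis κ K Om _ _ i2.toAlgebra C) :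
    ∃ σ : Om ≃+* Om, (∀ a, σ (i1 a) = i2 a) ∧ ∀ i, σ (B i) = C (e i) := by
  have hC' : @IsTranscendenceBasis ι K Om _ _ i2.toAlgebra (C ∘ e) := by
    let _ := i2.toAlgebra
    exact IsTranscendenceBasis.comp_equiv e hC
  obtain ⟨σ, hσ⟩ := @exists_algEquiv_of_bases K Om Om ι _ _ _ _ _ i1.toAlgebra i2.toAlgebra
    B (C ∘ e) hB hC'
  refine ⟨@AlgEquiv.toRingEquiv K Om Om _ _ _ i1.toAlgebra i2.toAlgebra σ, ?_, hσ⟩
  intro a
  exact @AlgEquiv.commutes K Om Om _ _ _ i1.toAlgebra i2.toAlgebra σ a

/-- Any two embeddings of a countable field in an uncountable algebraically closed field differ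
by an automorphism. -/
theorem exists_ringEquiv_of_countable {K Om : Type*} [Field K] [Countable K] [Field Om]
    [IsAlgClosed Om] (hOm : ℵ₀ < #Om) (i1 i2 : K →+* Om) :
    ∃ σ : Om ≃+* Om, ∀ a, σ (i1 a) = i2 a := by
  obtain ⟨s, hs⟩ := @exists_isTranscendenceBasis K Om _ _ i1.toAlgebra
    ((@faithfulSMul_iff_algebraMap_injective K Om _ _ i1.toAlgebra).2 i1.injective)
  obtain ⟨t, ht⟩ := @exists_isTranscendenceBasis K Om _ _ i2.toAlgebra
    ((@faithfulSMul_iff_algebraMap_injective K Om _ _ i2.toAlgebra).2 i2.injective)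
  have h1 := @IsAlgClosed.cardinal_eq_cardinal_transcendence_basis_of_aleph0_lt K Om _ _
    i1.toAlgebra _ _ _ _ hs (Cardinal.mk_le_aleph0_iff.2 inferInstance) hOm
  have h2 := @IsAlgClosed.cardinal_eq_cardinal_transcendence_basis_of_aleph0_lt K Om _ _
    i2.toAlgebra _ _ _ _ ht (Cardinal.mk_le_aleph0_iff.2 inferInstance) hOm
  have h3 : #s = #t := by
    rw [h1] at h2
    simpa using h2
  obtain ⟨e⟩ := Cardinal.eq.1 h3
  obtain ⟨σ, hσ, _⟩ := exists_ringEquiv_of_bases i1 i2 e hs ht
  exact ⟨σ, hσ⟩

/-- Relative version of the previous theorem. -/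
theorem exists_algEquiv_of_countable {T K Om : Type*} [Field T] [Field K] [Countable K]
    [Field Om] [IsAlgClosed Om] [Algebra T K] [Algebra T Om] (hOm : ℵ₀ < #Om)
    (i1 i2 : K →ₐ[T] Om) : ∃ σ : Om ≃ₐ[T] Om, ∀ a, σ (i1 a) = i2 a := by
  obtain ⟨σ, hσ⟩ := exists_ringEquiv_of_countable hOm (i1 : K →+* Om) (i2 : K →+* Om)
  refine ⟨AlgEquiv.ofRingEquiv (f := σ) ?_, hσ⟩
  intro r
  have h1 := hσ (algebraMap T K r)
  simpa using h1

variable {T Om : Type*} [Field T] [Field Om] [IsAlgClosed Om] [Algebra T Om]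

/-- Two algebraically independent finite families are conjugate. -/
theorem exists_algEquiv_of_indep {ι : Type*} [Finite ι] {u v : ι → Om}
    (hu : AlgebraicIndependent T u) (hv : AlgebraicIndependent T v) :
    ∃ σ : Om ≃ₐ[T] Om, ∀ i, σ (u i) = v i := by
  classical
  obtain ⟨s, hs1, hs⟩ := exists_isTranscendenceBasis_superset hu.to_subtype_range
  obtain ⟨t, ht1, ht⟩ := exists_isTranscendenceBasis_superset hv.to_subtype_range
  have hst : #s = #t := hs.cardinalMk_eq ht
  obtain ⟨e0⟩ := Cardinal.eq.1 hst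
  -- the subset of s
  let S : Set s := {a | (a : Om) ∈ Set.range u}
  have hui : Function.Injective u := hu.injective
  have hvi : Function.Injective v := hv.injective
  let eu : ι ≃ Set.range u := Equiv.ofInjective u hui
  let f : S ↪ t := ⟨fun a => ⟨v (eu.symm ⟨a.1, a.2⟩), ht1 ⟨_, rfl⟩⟩, by
    intro a b hab
    have h1 : v (eu.symm ⟨a.1, a.2⟩) = v (eu.symm ⟨b.1, b.2⟩) := congrArg Subtype.val hab
    have h2 := eu.symm.injective (hvi h1)
    apply Subtype.ext
    apply Subtype.ext
    exact congrArg (fun w : Set.range u => (w : Om)) h2⟩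
  have hSfin : Finite S := by
    have : Finite (Set.range u) := Set.finite_range u
    exact Finite.of_injective (fun a : S => (⟨a.1, a.2⟩ : Set.range u)) (by
      intro a b hab
      apply Subtype.ext
      apply Subtype.ext
      exact congrArg (fun w : Set.range u => (w : Om)) hab)
  obtain ⟨g, hg⟩ : ∃ g : s ≃ t, ∀ x : S, g x = f x := by
    rcases finite_or_infinite s with h | h
    · exact Cardinal.extend_function_finite f ⟨e0⟩
    · apply Cardinal.extend_function_of_lt f _ ⟨e0⟩
      exact (Cardinal.lt_aleph0_of_finite S).trans_le (Cardinal.aleph0_le_mk s)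
  obtain ⟨σ, hσ⟩ := exists_algEquiv_of_bases hs (ht.comp_equiv g)
  refine ⟨σ, fun i => ?_⟩
  have hmem : u i ∈ s := hs1 ⟨i, rfl⟩
  have h1 := hσ ⟨u i, hmem⟩
  have h2 := hg ⟨⟨u i, hmem⟩, ⟨i, rfl⟩⟩
  have h3 : (f ⟨⟨u i, hmem⟩, ⟨i, rfl⟩⟩ : Om) = v i := by
    show v (eu.symm ⟨u i, _⟩) = v i
    congr 1
    rw [Equiv.symm_apply_eq]
    rfl
  have h4 : ((g ⟨u i, hmem⟩ : t) : Om) = v i := by
    rw [← h3]
    exact congrArg Subtype.val h2
  rw [← h4]
  exact h1

/-- Two embeddings of an algebraic extension differ by an automorphism. -/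
theorem exists_algEquiv_of_algebraic {F : Type*} [Field F] [Algebra T F]
    [Algebra.IsAlgebraic T F] (f1 f2 : F →ₐ[T] Om) : ∃ σ : Om ≃ₐ[T] Om, ∀ a, σ (f1 a) = f2 a := by
  obtain ⟨s, hs⟩ := exists_isTranscendenceBasis T Om
  have key : ∀ f : F →ₐ[T] Om, @IsTranscendenceBasis s F Om _ _ f.toRingHom.toAlgebra
      ((↑) : s → Om) := by
    intro f
    let _ : Algebra F Om := f.toRingHom.toAlgebra
    have : IsScalarTower T F Om := IsScalarTower.of_algebraMap_eq fun a => (f.commutes a).symm
    have : FaithfulSMul F Om := (faithfulSMul_iff_algebraMap_injective F Om).2 f.toRingHom.injective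
    exact (Algebra.IsAlgebraic.isTranscendenceBasis_iff T F).1 hs
  obtain ⟨σ, hσ, _⟩ := exists_ringEquiv_of_bases f1.toRingHom f2.toRingHom (Equiv.refl s)
    (key f1) (key f2)
  refine ⟨AlgEquiv.ofRingEquiv (f := σ) ?_, hσ⟩
  intro r
  have h1 := hσ (algebraMap T F r)
  have h2 : f1.toRingHom (algebraMap T F r) = algebraMap T Om r := f1.commutes r
  have h3 : f2.toRingHom (algebraMap T F r) = algebraMap T Om r := f2.commutes r
  rw [h2, h3] at h1
  exact h1

end extend

section fixed

variable {T Om : Type*} [Field T] [Field Om] [IsAlgClosed Om] [Algebra T Om]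

/-- A transcendental element is conjugate to each of its translates. -/
theorem exists_algEquiv_add_of_transcendental {c : Om} (hc : Transcendental T c) (n : T) :
    ∃ σ : Om ≃ₐ[T] Om, σ c = c + algebraMap T Om n := by
  have h1 : AlgebraicIndependent T ![c] := by
    rw [algebraicIndependent_unique_type_iff]
    exact hc
  have hc' : Transcendental T (c + algebraMap T Om n) := by
    intro h
    apply hc
    have h2 := h.sub (isAlgebraic_algebraMap (R := T) (A := Om) n)
    rwa [add_sub_cancel_right] at h2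
  have h2 : AlgebraicIndependent T ![c + algebraMap T Om n] := by
    rw [algebraicIndependent_unique_type_iff]
    exact hc'
  obtain ⟨σ, hσ⟩ := exists_algEquiv_of_indep h1 h2
  exact ⟨σ, hσ 0⟩

/-- An element with finite orbit is algebraic. -/
theorem isAlgebraic_of_finite_orbit [CharZero T] {c : Om}
    (h : (Set.range fun σ : Om ≃ₐ[T] Om => σ c).Finite) : IsAlgebraic T c := by
  by_contra hc
  have h1 : ∀ n : ℕ, ∃ σ : Om ≃ₐ[T] Om, σ c = c + algebraMap T Om n := fun n =>
    exists_algEquiv_add_of_transcendental hc n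
  choose τ hτ using h1
  have h2 : (Set.range fun n : ℕ => c + algebraMap T Om n).Finite := by
    apply h.subset
    rintro _ ⟨n, rfl⟩
    exact ⟨τ n, hτ n⟩
  have h3 : Function.Injective fun n : ℕ => c + algebraMap T Om n := by
    intro a b hab
    have h4 := add_left_cancel hab
    exact Nat.cast_injective ((algebraMap T Om).injective h4)
  exact Set.infinite_range_of_injective h3 h2

/-- The orbit of an algebraic element is finite. -/
theorem finite_orbit_of_isAlgebraic {c : Om} (h : IsAlgebraic T c) :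
    (Set.range fun σ : Om ≃ₐ[T] Om => σ c).Finite := by
  obtain ⟨p, hp, hpc⟩ := h
  apply (p.rootSet_finite Om).subset
  rintro _ ⟨σ, rfl⟩
  rw [Polynomial.mem_rootSet]
  refine ⟨hp, ?_⟩
  have h1 := Polynomial.aeval_algHom_apply (σ : Om →ₐ[T] Om) c p
  rw [hpc, map_zero] at h1
  exact h1

/-- Conjugate algebraic elements. -/
theorem exists_algEquiv_of_minpoly_eq {c c' : Om} (hc : IsAlgebraic T c)
    (h : minpoly T c = minpoly T c') : ∃ σ : Om ≃ₐ[T] Om, σ c = c' := by
  have hint : IsIntegral T c := hc.isIntegral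
  have : Algebra.IsAlgebraic T (IntermediateField.adjoin T {c}) :=
    IntermediateField.isAlgebraic_adjoin_simple hint
  have hroot : Polynomial.aeval c' (minpoly T c) = 0 := by rw [h]; exact minpoly.aeval T c'
  let f2 : IntermediateField.adjoin T {c} →ₐ[T] Om :=
    (IntermediateField.algHomAdjoinIntegralEquiv T hint).symm ⟨c', by
      rw [Polynomial.mem_aroots]
      exact ⟨minpoly.ne_zero hint, hroot⟩⟩
  obtain ⟨σ, hσ⟩ := exists_algEquiv_of_algebraic (IntermediateField.adjoin T {c}).val f2
  refine ⟨σ, ?_⟩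
  have h1 := hσ (IntermediateField.AdjoinSimple.gen T c)
  have h2 : f2 (IntermediateField.AdjoinSimple.gen T c) = c' :=
    IntermediateField.algHomAdjoinIntegralEquiv_symm_apply_gen T hint _
  rw [h2] at h1
  simpa using h1

/-- The fixed field of all automorphisms. -/
theorem mem_range_of_fixed_g72 [CharZero T] {c : Om} (h : ∀ σ : Om ≃ₐ[T] Om, σ c = c) :
    ∃ t : T, algebraMap T Om t = c := by
  have halg : IsAlgebraic T c := by
    apply isAlgebraic_of_finite_orbit
    apply (Set.finite_singleton c).subset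
    rintro _ ⟨σ, rfl⟩
    exact h σ
  have hint : IsIntegral T c := halg.isIntegral
  -- all roots of the minimal polynomial equal c
  have hroots : ∀ d ∈ (minpoly T c).aroots Om, d = c := by
    intro d hd
    rw [Polynomial.mem_aroots] at hd
    have h1 : minpoly T c = minpoly T d :=
      minpoly.eq_of_irreducible_of_monic (minpoly.irreducible hint) hd.2 (minpoly.monic hint)
    obtain ⟨σ, hσ⟩ := exists_algEquiv_of_minpoly_eq halg h1
    rw [← hσ]
    exact h σ
  have hsep : (minpoly T c).Separable := (minpoly.irreducible hint).separable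
  have hnodup : ((minpoly T c).aroots Om).Nodup := Polynomial.nodup_aroots_iff_of_splits
    (minpoly.ne_zero hint) (IsAlgClosed.splits _) |>.2 hsep
  have hcard : (minpoly T c).natDegree = ((minpoly T c).aroots Om).card := by
    rw [← Polynomial.natDegree_map (algebraMap T Om)]
    exact (IsAlgClosed.splits _).natDegree_eq_card_roots
  have hle : ((minpoly T c).aroots Om).card ≤ 1 := by
    classical
    rw [← Multiset.toFinset_card_of_nodup hnodup]
    apply (Finset.card_le_card (t := {c}) _).trans (Finset.card_singleton c).le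
    intro d hd
    rw [Finset.mem_singleton]
    exact hroots d (Multiset.mem_toFinset.1 hd)
  have h1 : (minpoly T c).natDegree = 1 := by
    have := minpoly.natDegree_pos hint
    omega
  exact minpoly.natDegree_eq_one_iff.1 h1

end fixed

end SF
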