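import Pool.Agent.Helper386.D5V.Helper18_Step_Conj
import Pool.Agent.Helper386.D5V.Helper740_D5_Special
import Pool.Agent.Helper386.D5V.Helper862_SFB

/-! STEP: the merge theorem. -/

set_option autoImplicit false
set_option linter.all false
set_option linter.overlappingInstances false

open Module FF SF

namespace Step

section Aux

variable {F Ω : Type} [Field F] [Field Ω] [Algebra F Ω]

theorem isAlgClosed_of_closed [IsAlgClosed Ω] {K : IntermediateField F Ω} (hK : Closed K) :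
    IsAlgClosed K.toSubfield := by
  apply IsAlgClosed.of_exists_root
  intro p hp hirr
  let i : K.toSubfield →+* Ω := K.toSubfield.subtype
  have hdeg : (p.map i).degree ≠ 0 := by
    rw [Polynomial.degree_map]
    exact (Polynomial.degree_pos_of_irreducible hirr).ne'
  obtain ⟨r, hr⟩ := IsAlgClosed.exists_root (p.map i) hdeg
  have hr' : Polynomial.aeval r (show Polynomial K from p) = 0 := by
    rw [Polynomial.IsRoot, Polynomial.eval_map] at hr
    exact hr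
  have halg : IsAlgebraic K r := ⟨p, hp.ne_zero, hr'⟩
  have hmem := hK r halg
  refine ⟨⟨r, hmem⟩, ?_⟩
  have h1 : i (Polynomial.eval ⟨r, hmem⟩ p) = 0 := by
    rw [← Polynomial.eval₂_hom]
    rw [Polynomial.IsRoot, Polynomial.eval_map] at hr
    exact hr
  exact i.injective (by rw [h1, map_zero])

theorem ind_base {ι : Type*} {Λ : Subfield Ω} (hΛ : ∀ c, algebraMap F Ω c ∈ Λ) {u : ι → Ω}
    (hu : AlgebraicIndependent Λ u) : AlgebraicIndependent F u := by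
  let f : F →+* Λ := (algebraMap F Ω).codRestrict Λ hΛ
  exact AlgebraicIndependent.of_ringHom_of_comp_eq (g := RingHom.id Ω) (f := f)
    (by simpa using hu) f.injective (by ext; rfl)

end Aux

section Lagrange

/-- the norm of the Lagrange resolvents -/
theorem lagrange {M : Type*} [Field M] [CharZero M] (w B b h0 h1 h2 : M) (hw : w ^ 2 + w + 1 = 0)
    (hB : B ≠ 0) (hb : B ^ 3 = b) :
    N3 b ((h0 + h1 + h2) / 3) ((h0 + w ^ 2 * h1 + w * h2) / (3 * B))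
      ((h0 + w * h1 + w ^ 2 * h2) / (3 * B ^ 2)) = h0 * h1 * h2 := by
  subst hb
  set u := (h0 + h1 + h2) / 3 with hu
  set v := (h0 + w ^ 2 * h1 + w * h2) / 3 with hv
  set t := (h0 + w * h1 + w ^ 2 * h2) / 3 with ht
  have e1 : (h0 + w ^ 2 * h1 + w * h2) / (3 * B) = v / B := by
    rw [hv]; field_simp
  have e2 : (h0 + w * h1 + w ^ 2 * h2) / (3 * B ^ 2) = t / B ^ 2 := by
    rw [ht]; field_simp
  rw [e1, e2]
  have e3 : N3 (B ^ 3) u (v / B) (t / B ^ 2) = u ^ 3 + v ^ 3 + t ^ 3 - 3 * u * v * t := by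
    unfold N3
    field_simp
  rw [e3]
  have hw3 : w ^ 3 = 1 := by linear_combination (w - 1) * hw
  have f0 : h0 = u + v + t := by
    rw [hu, hv, ht]
    linear_combination (-(h1 + h2) / 3) * hw
  have f1 : h1 = u + w * v + w ^ 2 * t := by
    rw [hu, hv, ht]
    field_simp
    linear_combination (-h0 - h2 * (w ^ 2 - w + 1)) * hw + (-2 * h1) * hw3
  have f2 : h2 = u + w ^ 2 * v + w * t := by
    rw [hu, hv, ht]
    field_simp
    linear_combination (-h0 - h1 * (w ^ 2 - w + 1)) * hw + (-2 * h2) * hw3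
  have f12 : (u + w * v + w ^ 2 * t) * (u + w ^ 2 * v + w * t) =
      u ^ 2 + v ^ 2 + t ^ 2 - u * v - u * t - v * t := by
    linear_combination (v ^ 2 + t ^ 2) * hw3 + (u * v + u * t + (w ^ 2 - w + 1) * v * t) * hw
  have g : h0 * h1 * h2 = h0 * ((u + w * v + w ^ 2 * t) * (u + w ^ 2 * v + w * t)) := by
    rw [← f1, ← f2]; ring
  rw [g, f12, f0]
  ring

end Lagrange

section Merge

variable {F Ω L M : Type} [Field F] [Field Ω] [Algebra F Ω] [Field L] [Algebra F L]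
    [Field M] [Algebra Ω M] [Algebra L M] [IsAlgClosed Ω] [CharZero Ω] [CharZero F] [IsFF F L]
    [IsFF Ω M] (m : Model F Ω L M)

theorem exists_cocycle {z : F} (hz : IsPrimitiveRoot z 3) {β : Ω} {b : F} (hb : b ≠ 0)
    (hβ : β ^ 3 = algebraMap F Ω b) :
    ∃ c : (Ω ≃ₐ[F] Ω) → ZMod 3, ∀ σ, σ β = algebraMap F Ω (zp z (c σ)) * β := by
  have hβ0 : β ≠ 0 := by
    rintro rfl
    rw [zero_pow (by norm_num)] at hβ
    apply hb
    apply (algebraMap F Ω).injective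
    rw [← hβ, map_zero]
  have h : ∀ σ : Ω ≃ₐ[F] Ω, ∃ j : ZMod 3, σ β = algebraMap F Ω (zp z j) * β := by
    intro σ
    have h1 : (σ β / β) ^ 3 = 1 := by
      rw [div_pow, ← map_pow, hβ, AlgEquiv.commutes, div_self]
      intro h0
      rw [h0] at hβ
      exact hβ0 (pow_eq_zero_iff (by norm_num) |>.1 hβ)
    have hz' : IsPrimitiveRoot (algebraMap F Ω z) 3 := hz.map_of_injective (algebraMap F Ω).injective
    obtain ⟨j, hj⟩ := exists_zp hz' h1
    refine ⟨j, ?_⟩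
    rw [div_eq_iff hβ0] at hj
    rw [hj]
    unfold zp
    rw [map_pow]
  choose c hc using h
  exact ⟨c, hc⟩

/-- the Lagrange resolvents of a solution -/
noncomputable def res (z : F) (β : Ω) (h : ZMod 3 → M) (i : ℕ) : M :=
  (1 / 3) * ∑ j : ZMod 3, (algebraMap Ω M (algebraMap F Ω (zp z j) * β))⁻¹ ^ i * h j

theorem act_res {z : F} (hz : z ^ 3 = 1) {β : Ω} {c : ZMod 3} {σ : Ω ≃ₐ[F] Ω}
    (hc : σ β = algebraMap F Ω (zp z c) * β) {h h' : ZMod 3 → M}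
    (hh : ∀ j, m.act σ (h j) = h' (j + c)) (i : ℕ) :
    m.act σ (res z β h i) = res z β h' i := by
  unfold res
  rw [map_mul, map_sum]
  congr 1
  · rw [map_div₀, map_one]
    congr 1
    exact map_ofNat (m.act σ) 3
  · conv_rhs => rw [← Equiv.sum_comp (Equiv.addRight c)]
    refine Finset.sum_congr rfl fun j _ => ?_
    rw [map_mul, map_pow, map_inv₀, m.act_const, hh, map_mul, AlgEquiv.commutes, hc,
      Equiv.coe_addRight, zp_add hz, map_mul (algebraMap F Ω), mul_assoc]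

theorem res_norm {z : F} (hz : IsPrimitiveRoot z 3) {β : Ω} (hβ0 : β ≠ 0) {b : F}
    (hβ : β ^ 3 = algebraMap F Ω b) (h : ZMod 3 → M) :
    N3 (algebraMap Ω M (algebraMap F Ω b)) (res z β h 0) (res z β h 1) (res z β h 2) =
      h 0 * h 1 * h 2 := by
  have hMchar : CharZero M := charZero_of_injective_algebraMap (algebraMap Ω M).injective
  set w : M := algebraMap Ω M (algebraMap F Ω z) with hw
  set B : M := algebraMap Ω M β with hB
  have hB0 : B ≠ 0 := by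
    rw [hB]
    exact (map_ne_zero _).2 hβ0
  have hz1 : z ^ 2 + z + 1 = 0 := by
    have h1 := hz.geom_sum_eq_zero (by norm_num)
    simp only [Finset.sum_range_succ, Finset.sum_range_zero, pow_zero, pow_one, zero_add] at h1
    linear_combination h1
  have hw1 : w ^ 2 + w + 1 = 0 := by
    rw [hw, ← map_pow, ← map_pow, ← map_add, ← map_add, ← map_one (algebraMap Ω M),
      ← map_one (algebraMap F Ω), ← map_add, ← map_add, hz1, map_zero, map_zero]
  have hw3 : w ^ 3 = 1 := by linear_combination (w - 1) * hw1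
  have hw0 : w ≠ 0 := by
    intro h0
    rw [h0] at hw3
    norm_num at hw3
  have hb : B ^ 3 = algebraMap Ω M (algebraMap F Ω b) := by
    rw [hB, ← map_pow, hβ]
  have hzp : ∀ j : ZMod 3, algebraMap Ω M (algebraMap F Ω (zp z j) * β) = w ^ j.val * B := by
    intro j
    unfold zp
    rw [map_mul, map_pow, map_pow]
  have e : ∀ i, res z β h i = (1 / 3) * ((B⁻¹) ^ i * h 0 + ((w * B)⁻¹) ^ i * h 1 +
      ((w ^ 2 * B)⁻¹) ^ i * h 2) := by
    intro i
    unfold res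
    have h3 : ∀ f : ZMod 3 → M, ∑ j : ZMod 3, f j = f 0 + f 1 + f 2 := fun f => Fin.sum_univ_three f
    rw [h3]
    simp only [hzp]
    have v0 : (0 : ZMod 3).val = 0 := rfl
    have v1 : (1 : ZMod 3).val = 1 := rfl
    have v2 : (2 : ZMod 3).val = 2 := rfl
    rw [v0, v1, v2, pow_zero, pow_one, one_mul]
  rw [← lagrange w B _ (h 0) (h 1) (h 2) hw1 hB0 hb]
  have e0 : res z β h 0 = (h 0 + h 1 + h 2) / 3 := by
    rw [e]; simp only [pow_zero]; ring
  have e1 : res z β h 1 = (h 0 + w ^ 2 * h 1 + w * h 2) / (3 * B) := by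
    rw [e]
    simp only [pow_one]
    field_simp
    linear_combination (-(w * h 1) - h 2) * hw3
  have e2 : res z β h 2 = (h 0 + w * h 1 + w ^ 2 * h 2) / (3 * B ^ 2) := by
    rw [e]
    field_simp
    linear_combination (-(w ^ 2 * h 1) - h 2 * (w ^ 3 + 1)) * hw3
  rw [e0, e1, e2]

theorem merge [Countable F] [Uncountable Ω] (ξ : L) (hξ : Transcendental F ξ)
    (z x a b : F) (hz : IsPrimitiveRoot z 3) (hx : x ≠ 0) (ha : a ≠ 0) (hb : b ≠ 0)
    (E1 E2 : IntermediateField F Ω)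
    (hE1 : ∃ c ∈ E1, c ^ 3 = algebraMap F Ω (b / a)) (hE2 : ∃ c ∈ E2, c ^ 3 = algebraMap F Ω (a * b))
    (big1 : ∀ Λ : Subfield Ω, Countable Λ → ∃ c ∈ E1, Transcendental Λ c)
    (big2 : ∀ Λ : Subfield Ω, Countable Λ → ∃ c ∈ E2, Transcendental Λ c)
    (g0 g1 g2 : L) (hg : N3 (algebraMap F L a) g0 g1 g2 = algebraMap F L x)
    (α : Ω) (hα : α ^ 3 = algebraMap F Ω a) (d : ℤ) (hd0 : 0 < d)
    (hd : d = ddeg (DD (Ω := Ω) (M := M) (cj α g0 g1 g2) (cj (algebraMap F Ω z * α) g0 g1 g2)))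
    (Z1 : ∀ Λ : Subfield Ω, Countable Λ → ∀ t : ℕ, ∃ Z : Finset (Place Ω M), (Z.card : ℤ) = t * d ∧
        (∀ σ : Ω ≃ₐ[F] Ω, (∀ e ∈ E1, σ e = e) → ∀ P ∈ Z, m.actP σ P ∈ Z) ∧
        (∀ P ∈ Z, P.Reg (algebraMap L M ξ)) ∧
        AlgebraicIndependent Λ (fun P : Z => val P.1 (algebraMap L M ξ)))
    (Z2 : ∀ Λ : Subfield Ω, Countable Λ → ∀ t : ℕ, ∃ Z : Finset (Place Ω M), (Z.card : ℤ) = t * d ∧
        (∀ σ : Ω ≃ₐ[F] Ω, (∀ e ∈ E2, σ e = e) → ∀ P ∈ Z, m.actP σ P ∈ Z) ∧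
        (∀ P ∈ Z, P.Reg (algebraMap L M ξ)) ∧
        AlgebraicIndependent Λ (fun P : Z => val P.1 (algebraMap L M ξ))) :
    ∃ (τ : Ω ≃ₐ[F] Ω) (H0 H1 H2 : M),
      N3 (algebraMap Ω M (algebraMap F Ω b)) H0 H1 H2 = algebraMap Ω M (algebraMap F Ω x) ∧
      (∀ σ : Ω ≃ₐ[F] Ω, (∀ e ∈ E1, σ e = e) → m.act σ H0 = H0 ∧ m.act σ H1 = H1 ∧ m.act σ H2 = H2) ∧
      (∀ σ : Ω ≃ₐ[F] Ω, (∀ e ∈ E2, σ e = e) → m.act σ (m.act τ H0) = m.act τ H0 ∧
        m.act σ (m.act τ H1) = m.act τ H1 ∧ m.act σ (m.act τ H2) = m.act τ H2) := by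
  have hz3 : z ^ 3 = 1 := hz.pow_eq_one
  obtain ⟨β, hβ⟩ := IsAlgClosed.exists_pow_nat_eq (algebraMap F Ω b) (n := 3) (by norm_num)
  have hβ0 : β ≠ 0 := by
    rintro rfl
    rw [zero_pow (by norm_num)] at hβ
    apply hb
    apply (algebraMap F Ω).injective
    rw [← hβ, map_zero]
  have hβF : β ∈ cl F (∅ : Set Ω) := by
    apply closed_cl
    refine ⟨Polynomial.X ^ 3 - Polynomial.C (algebraMap F (cl F (∅ : Set Ω)) b), ?_, ?_⟩
    · exact Polynomial.X_pow_sub_C_ne_zero (by norm_num) _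
    · simp only [map_sub, map_pow, Polynomial.aeval_X, Polynomial.aeval_C, hβ]
      rw [← IsScalarTower.algebraMap_apply, sub_self]
  obtain ⟨c, hc⟩ := exists_cocycle (F := F) (Ω := Ω) hz hb hβ
  obtain ⟨r1, -, -, hs1, A1, h10, h1p, h1E, h1F, h1A0, h1deg, h1div, h1AE, h1AF⟩ :=
    Pool.Agent.Helper740.Special.special m z x a b hz hx ha hb E1 (Or.inl hE1) g0 g1 g2 hg α hα β hβ c hc d hd
  obtain ⟨r2, -, -, hs2, A2, h20, h2p, h2E, h2F, h2A0, h2deg, h2div, h2AE, h2AF⟩ :=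
    Pool.Agent.Helper740.Special.special m z x a b hz hx ha hb E2 (Or.inr hE2) g0 g1 g2 hg α hα β hβ c hc d hd
  obtain ⟨γ, -, hγ, -⟩ := riemann Ω M
  let t : ℕ := (γ + 1).toNat
  have ht : γ < t * d := by
    have h1 : γ + 1 ≤ t := Int.self_le_toNat _
    have h2 : (t : ℤ) * 1 ≤ t * d := mul_le_mul_of_nonneg_left (by omega) (by positivity)
    omega
  let e : ℕ := (t * d).toNat
  have he : (e : ℤ) = t * d := Int.toNat_of_nonneg (by positivity)
  let Λ : Subfield Ω := (⊥ : IntermediateField F Ω).toSubfield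
  have hΛF : ∀ c, algebraMap F Ω c ∈ Λ := fun c => (⊥ : IntermediateField F Ω).algebraMap_mem c
  have hΛc : Countable Λ := by
    have h1 : (Set.range (algebraMap F Ω)).Countable := Set.countable_range _
    have h2 : ((⊥ : IntermediateField F Ω) : Set Ω).Countable := by
      rw [IntermediateField.coe_bot]; exact h1
    exact h2.to_subtype
  obtain ⟨W1, hW1c, hW1E, hW1r, hW1i⟩ := Z1 Λ hΛc (t + r1)
  obtain ⟨W2, hW2c, hW2E, hW2r, hW2i⟩ := Z2 Λ hΛc (t + r2)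
  have hell1 : 0 < ell (pts (fun P : W1 => P.1) - A1 0) := by
    have h1 := hγ (pts (fun P : W1 => P.1) - A1 0)
    rw [ddeg_sub, Pool.Agent.Helper740.Rank.ddeg_pts, Fintype.card_coe, hW1c, h1deg] at h1
    push_cast at h1
    have : ((t : ℤ) + r1) * d - r1 * d = t * d := by ring
    omega
  have hell2 : 0 < ell (pts (fun P : W2 => P.1) - A2 0) := by
    have h1 := hγ (pts (fun P : W2 => P.1) - A2 0)
    rw [ddeg_sub, Pool.Agent.Helper740.Rank.ddeg_pts, Fintype.card_coe, hW2c, h2deg] at h1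
    push_cast at h1
    have : ((t : ℤ) + r2) * d - r2 * d = t * d := by ring
    omega
  obtain ⟨h1, q1, G1, hh1⟩ := side m ξ hξ β hβ0 hβF z hz c hc E1 big1 hs1 h10 h1E h1F A1 h1A0 h1div
    h1AE h1AF W1 hW1E hW1r (ind_base hΛF hW1i) hell1 e (by
      rw [hW1c, h1deg, he]; push_cast; ring)
  obtain ⟨h2, q2, G2, hh2⟩ := side m ξ hξ β hβ0 hβF z hz c hc E2 big2 hs2 h20 h2E h2F A2 h2A0 h2div
    h2AE h2AF W2 hW2E hW2r (ind_base hΛF hW2i) hell2 e (by
      rw [hW2c, h2deg, he]; push_cast; ring)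
  rw [h1p] at G1
  rw [h2p] at G2
  have hKF : ∀ c, algebraMap F Ω c ∈ (cl F (∅ : Set Ω)).toSubfield :=
    fun c => (cl F (∅ : Set Ω)).algebraMap_mem c
  have hcount : Countable (cl F (∅ : Set Ω)) := countable_cl Set.countable_empty
  obtain ⟨τ₁, hτ₁, hq⟩ := SF.generic_conj m ξ hξ (cl F (∅ : Set Ω)).toSubfield hKF hcount
    (isAlgClosed_of_closed (closed_cl _)) e q1 q2 G1.reg G2.reg (ind_cl_empty G1.ind)
    (ind_cl_empty G2.ind)
  obtain ⟨τ, hτ, hτh⟩ := conj m ξ hξ (fun σ => by rw [m.act_const, AlgEquiv.commutes]) G1 G2 τ₁ hτ₁ hq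
  have hcτ : τ β = algebraMap F Ω (zp z 0) * β := by
    rw [zp_zero, map_one, one_mul]
    exact hτ β hβF
  have hτres : ∀ i, m.act τ (res z β h1 i) = res z β h2 i := by
    intro i
    apply act_res m hz3 hcτ
    intro j
    rw [add_zero]
    exact hτh j
  refine ⟨τ, res z β h1 0, res z β h1 1, res z β h1 2, ?_, ?_, ?_⟩
  · rw [res_norm hz hβ0 hβ, G1.prod]
  · intro σ hσ
    exact ⟨act_res m hz3 (hc σ) (hh1 σ hσ) 0, act_res m hz3 (hc σ) (hh1 σ hσ) 1,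
      act_res m hz3 (hc σ) (hh1 σ hσ) 2⟩
  · intro σ hσ
    rw [hτres, hτres, hτres]
    exact ⟨act_res m hz3 (hc σ) (hh2 σ hσ) 0, act_res m hz3 (hc σ) (hh2 σ hσ) 1,
      act_res m hz3 (hc σ) (hh2 σ hσ) 2⟩

end Merge

end Step

/-- The merge theorem in the form of the interface. -/
theorem SF.merge {F Ω L M : Type} [Field F] [Field Ω] [Algebra F Ω] [Field L] [Algebra F L]
    [Field M] [Algebra Ω M] [Algebra L M] [IsAlgClosed Ω] [CharZero Ω] [Countable F] [Uncountable Ω]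
    [IsFF F L] [IsFF Ω M] (m : Model F Ω L M) (ξ : L) (hξ : Transcendental F ξ)
    (z x a b : F) (hz : IsPrimitiveRoot z 3) (hx : x ≠ 0) (ha : a ≠ 0) (hb : b ≠ 0)
    (E1 E2 : IntermediateField F Ω)
    (hE1 : ∃ c ∈ E1, c ^ 3 = algebraMap F Ω (b / a)) (hE2 : ∃ c ∈ E2, c ^ 3 = algebraMap F Ω (a * b))
    (big1 : ∀ Λ : Subfield Ω, Countable Λ → ∃ c ∈ E1, Transcendental Λ c)
    (big2 : ∀ Λ : Subfield Ω, Countable Λ → ∃ c ∈ E2, Transcendental Λ c)
    (g0 g1 g2 : L) (hg : N3 (algebraMap F L a) g0 g1 g2 = algebraMap F L x)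
    (α : Ω) (hα : α ^ 3 = algebraMap F Ω a) (d : ℤ) (hd0 : 0 < d)
    (hd : d = ddeg (DD (Ω := Ω) (M := M) (cj α g0 g1 g2) (cj (algebraMap F Ω z * α) g0 g1 g2)))
    (Z1 : ∀ Λ : Subfield Ω, Countable Λ → ∀ t : ℕ, ∃ Z : Finset (Place Ω M), (Z.card : ℤ) = t * d ∧
        (∀ σ : Ω ≃ₐ[F] Ω, (∀ e ∈ E1, σ e = e) → ∀ P ∈ Z, m.actP σ P ∈ Z) ∧
        (∀ P ∈ Z, P.Reg (algebraMap L M ξ)) ∧
        AlgebraicIndependent Λ (fun P : Z => val P.1 (algebraMap L M ξ)))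
    (Z2 : ∀ Λ : Subfield Ω, Countable Λ → ∀ t : ℕ, ∃ Z : Finset (Place Ω M), (Z.card : ℤ) = t * d ∧
        (∀ σ : Ω ≃ₐ[F] Ω, (∀ e ∈ E2, σ e = e) → ∀ P ∈ Z, m.actP σ P ∈ Z) ∧
        (∀ P ∈ Z, P.Reg (algebraMap L M ξ)) ∧
        AlgebraicIndependent Λ (fun P : Z => val P.1 (algebraMap L M ξ))) :
    ∃ (τ : Ω ≃ₐ[F] Ω) (H0 H1 H2 : M),
      N3 (algebraMap Ω M (algebraMap F Ω b)) H0 H1 H2 = algebraMap Ω M (algebraMap F Ω x) ∧
      (∀ σ : Ω ≃ₐ[F] Ω, (∀ e ∈ E1, σ e = e) → m.act σ H0 = H0 ∧ m.act σ H1 = H1 ∧ m.act σ H2 = H2) ∧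
      (∀ σ : Ω ≃ₐ[F] Ω, (∀ e ∈ E2, σ e = e) → m.act σ (m.act τ H0) = m.act τ H0 ∧
        m.act σ (m.act τ H1) = m.act τ H1 ∧ m.act σ (m.act τ H2) = m.act τ H2) := by
  have hF : CharZero F := by
    refine ⟨fun i j hij => ?_⟩
    have := congrArg (algebraMap F Ω) hij
    simpa using this
  exact Step.merge m ξ hξ z x a b hz hx ha hb E1 E2 hE1 hE2 big1 big2 g0 g1 g2 hg α hα d hd0 hd Z1 Z2
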