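import Pool.Agent.Helper386.D5V.Helper740_D5_RankPlace

/-! The rank counts CLAIM 1 and CLAIM 2. -/

set_option autoImplicit false
set_option linter.all false
set_option linter.overlappingInstances false

open Module FF SF Step

namespace Pool.Agent.Helper740.Rank

variable {F Ω L M : Type} [Field F] [Field Ω] [Algebra F Ω] [Field L] [Algebra F L]
    [Field M] [Algebra Ω M] [Algebra L M] [IsAlgClosed Ω] [CharZero Ω] [CharZero F] [IsFF F L]
    [IsFF Ω M] (m : Model F Ω L M) (ξ : L) (hξ : Transcendental F ξ)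

omit [IsAlgClosed Ω] [CharZero Ω] [CharZero F] [IsFF F L] [IsFF Ω M] in
theorem fixed_of_coord {K : IntermediateField F Ω} {ι : Type*} [Fintype ι] {W : Submodule Ω M}
    (b : Basis ι Ω W) (hb : ∀ σ : Ω ≃ₐ[F] Ω, Fx K σ → ∀ j, m.act σ (b j : M) = b j) (c : Ω) (f : W)
    (hf : ∀ j, c * b.repr f j ∈ K) (σ : Ω ≃ₐ[F] Ω) (hσ : Fx K σ) :
    m.act σ (c • (f : M)) = c • (f : M) := by
  have h1 := congrArg (fun g : W => c • (g : M)) (b.sum_repr f)
  simp only [Submodule.coe_sum, Submodule.coe_smul, Finset.smul_sum, smul_smul] at h1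
  rw [← h1, map_sum]
  apply Finset.sum_congr rfl
  intro j _
  rw [act_smul, hb σ hσ, hσ _ (hf j)]

include hξ in
theorem claim1 (A : Place Ω M →₀ ℤ) (hA0 : 0 ≤ A)
    (hA : ∀ P ∈ A.support, ∀ σ : Ω ≃ₐ[F] Ω, Fx (cl F (∅ : Set Ω)) σ → m.actP σ P = P)
    (Z : Finset (Place Ω M)) (hZreg : ∀ P ∈ Z, P.Reg (algebraMap L M ξ))
    (hZ : AlgebraicIndependent F (fun P : Z => val P.1 (algebraMap L M ξ)))
    (K : IntermediateField F Ω)
    (hK : K = cl F (Set.range fun P : Z => val P.1 (algebraMap L M ξ)))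
    (l : ℕ) (b : Basis (Fin l) Ω (LL (pts (fun P : Z => P.1) - A)))
    (hb : ∀ σ, Fx K σ → ∀ j, m.act σ (b j : M) = b j)
    (f0 : LL (pts (fun P : Z => P.1) - A))
    (hv : AlgebraicIndependent K (fun k : Fin l => b.repr f0 k)) (k0 : Fin l)
    (hf0 : (f0 : M) ≠ 0)
    (e : ℕ) (q : Fin e → Place Ω M)
    (hq : divisor Ω (f0 : M) + pts (fun P : Z => P.1) - A = pts q) :
    (∀ i, (q i).Reg (algebraMap L M ξ)) ∧
      AlgebraicIndependent F (fun i => val (q i) (algebraMap L M ξ)) := by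
  classical
  let y : Fin e → Ω := fun i => if (q i).Reg (algebraMap L M ξ) then val (q i) (algebraMap L M ξ) else 0
  let K' := cl F (Set.range y)
  have hK'c : Closed K' := closed_cl _
  have hK0 : cl F (∅ : Set Ω) ≤ K' := cl_mono (Set.empty_subset _)
  have hqf : ∀ σ, Fx K' σ → ∀ i, m.actP σ (q i) = q i := by
    intro σ hσ i
    refine place_fixed_of_val m ξ hξ hK'c ?_ hσ
    intro h
    have h1 : y i = val (q i) (algebraMap L M ξ) := if_pos h
    rw [← h1]
    exact subset_cl _ ⟨i, rfl⟩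
  have hAf : ∀ σ, Fx K' σ → ∀ P, A (m.actP σ P) = A P := by
    intro σ hσ P
    exact supp_fixed m A σ (fun P hP => hA P hP σ (hσ.mono hK0)) P
  let D : Place Ω M →₀ ℤ := pts q + A
  have hDf : ∀ σ, Fx K' σ → ∀ P, D (m.actP σ P) = D P := by
    intro σ hσ P
    simp only [D, Finsupp.add_apply]
    rw [hAf σ hσ, pts_fixed m q σ (hqf σ hσ)]
  obtain ⟨c, hc⟩ := exists_fixed_basis m (Fx K') D hDf
  have hinv : (f0 : M)⁻¹ ∈ LL D := by
    rw [mem_LL' (inv_ne_zero hf0), divisor_inv]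
    have h1 : -divisor Ω (f0 : M) + D = pts (fun P : Z => P.1) := by
      simp only [D, ← hq]
      abel
    rw [h1]
    exact pts_nonneg _
  let g0 : LL D := ⟨(f0 : M)⁻¹, hinv⟩
  have hs0 : ∃ s0, c.repr g0 s0 ≠ 0 := by
    by_contra h
    push Not at h
    have h1 : g0 = 0 := by
      apply c.repr.injective
      ext s
      simpa using h s
    have h2 : (f0 : M)⁻¹ = 0 := congrArg Subtype.val h1
    exact inv_ne_zero hf0 h2
  obtain ⟨s0, hs0⟩ := hs0
  let u : {s // s ≠ s0} → Ω := fun s => c.repr g0 s / c.repr g0 s0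
  let w : Fin e ⊕ {s // s ≠ s0} → Ω := Sum.elim y u
  let K'' := cl F (Set.range w)
  have hK''c : Closed K'' := closed_cl _
  have hyw : Set.range y ⊆ Set.range w := by
    rintro _ ⟨i, rfl⟩
    exact ⟨Sum.inl i, rfl⟩
  have hK'K'' : K' ≤ K'' := cl_mono hyw
  have huK'' : ∀ s, (c.repr g0 s0)⁻¹ * c.repr g0 s ∈ K'' := by
    intro s
    by_cases hs : s = s0
    · rw [hs, inv_mul_cancel₀ hs0]; exact one_mem _
    · rw [mul_comm, ← div_eq_mul_inv]
      exact subset_cl _ ⟨Sum.inr ⟨s, hs⟩, rfl⟩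
  -- the function `f`
  have hff : ∀ σ, Fx K'' σ → m.act σ ((c.repr g0 s0)⁻¹ • (f0 : M)⁻¹) = (c.repr g0 s0)⁻¹ • (f0 : M)⁻¹ := by
    intro σ hσ
    exact fixed_of_coord m c (fun σ hσ => hc σ (hσ.mono hK'K'')) _ g0 huK'' σ hσ
  have hff' : ∀ σ, Fx K'' σ → m.act σ ((c.repr g0 s0) • (f0 : M)) = (c.repr g0 s0) • (f0 : M) := by
    intro σ hσ
    have h1 := congrArg (fun t => t⁻¹) (hff σ hσ)
    simp only [← map_inv₀] at h1
    rw [smul_inv₀, inv_inv, inv_inv] at h1
    exact h1
  -- `Z` is stable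
  have hZs : ∀ σ, Fx K'' σ → ∀ P, pts (fun P : Z => P.1) (m.actP σ P) = pts (fun P : Z => P.1) P := by
    intro σ hσ P
    have h1 : pts (fun P : Z => P.1) =
        pts q + A + divisor Ω ((c.repr g0 s0)⁻¹ • (f0 : M)⁻¹) := by
      rw [divisor_smul (inv_ne_zero hs0), divisor_inv, ← hq]
      abel
    rw [h1]
    simp only [Finsupp.add_apply]
    have h2 := divisor_act m σ ((c.repr g0 s0)⁻¹ • (f0 : M)⁻¹) P
    rw [hff σ hσ] at h2
    rw [h2, hAf σ (hσ.mono hK'K''), pts_fixed m q σ (hqf σ (hσ.mono hK'K''))]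
  have hZm : ∀ σ, Fx K'' σ → ∀ P ∈ Z, m.actP σ P ∈ Z := by
    intro σ hσ P hP
    apply mem_of_pts
    rw [hZs σ hσ]
    have := pts_pos (fun P : Z => P.1) ⟨P, hP⟩
    have h2 : pts (fun P : Z => P.1) P = pts (fun P : Z => P.1) (⟨P, hP⟩ : Z).1 := rfl
    omega
  have hzK : ∀ P ∈ Z, val P (algebraMap L M ξ) ∈ K'' := by
    intro P hP
    apply mem_of_finite_orbit hK''c
    refine ((Z.finite_toSet).image (fun Q => val Q (algebraMap L M ξ))).subset ?_
    rintro _ ⟨σ, hσ, rfl⟩
    exact ⟨m.actP σ P, hZm σ hσ P hP, val_act m ξ σ P (hZreg P hP)⟩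
  have hKK'' : K ≤ K'' := by
    rw [hK]
    apply cl_le hK''c
    rintro _ ⟨P, rfl⟩
    exact hzK P.1 P.2
  have hdk : ∀ k, c.repr g0 s0 * b.repr f0 k ∈ K'' := by
    intro k
    have h1 := coord_mem m b (K := K'') (fun σ hσ => hb σ (hσ.mono hKK'')) (c.repr g0 s0 • f0)
      (fun σ hσ => by
        rw [Submodule.coe_smul]
        exact hff' σ hσ) k
    simpa using h1
  have hak0 : b.repr f0 k0 ≠ 0 := hv.ne_zero k0
  have hratio : ∀ k, b.repr f0 k / b.repr f0 k0 ∈ K'' := by
    intro k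
    have h1 := div_mem (hdk k) (hdk k0)
    rwa [mul_div_mul_left _ _ hs0] at h1
  -- the big independent family
  have hbig : AlgebraicIndependent F (Sum.elim (fun k : {k // k ≠ k0} => b.repr f0 k / b.repr f0 k0)
      (fun P : Z => val P.1 (algebraMap L M ξ))) := by
    apply ind_tower (K := K) hZ
    · intro P
      rw [hK]
      exact subset_cl _ ⟨P, rfl⟩
    · exact ratio_ind hv k0
  have hdeg : (e : ℤ) = Z.card - ddeg A := by
    have h1 := congrArg ddeg hq
    rw [ddeg_sub, ddeg_add, ddeg_divisor, ddeg_pts, ddeg_pts, Fintype.card_coe, Fintype.card_fin] at h1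
    omega
  have hN : (finrank Ω (LL D) : ℤ) ≤ l + ddeg A := by
    have h1 : D = pts (fun P : Z => P.1) + divisor Ω (f0 : M) := by
      simp only [D, ← hq]; abel
    have h2 : ell D = ell (pts (fun P : Z => P.1)) := by
      rw [h1, ell_add_divisor _ hf0]
    have h3 : (pts (fun P : Z => P.1)) - A ≤ pts (fun P : Z => P.1) := by
      intro P
      have := hA0 P
      simp only [Finsupp.sub_apply, Finsupp.coe_zero, Pi.zero_apply] at this ⊢
      omega
    have h4 := ell_le h3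
    have h5 : ell (pts (fun P : Z => P.1) - A) = l := by
      unfold ell
      rw [finrank_eq_card_basis b, Fintype.card_fin]
    rw [ddeg_sub, h5, ← h2] at h4
    unfold ell at h4
    omega
  have hw : AlgebraicIndependent F w := by
    apply span_ind hbig
    · intro i
      have h1 : Sum.elim (fun k : {k // k ≠ k0} => b.repr f0 k / b.repr f0 k0)
          (fun P : Z => val P.1 (algebraMap L M ξ)) i ∈ K'' := by
        rcases i with k | P
        · exact hratio k
        · exact hzK P.1 P.2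
      exact mem_cl.1 h1
    · rw [Fintype.card_sum, Fintype.card_sum, Fintype.card_subtype_compl, Fintype.card_subtype_eq,
        Fintype.card_subtype_compl, Fintype.card_subtype_eq, Fintype.card_fin, Fintype.card_fin,
        Fintype.card_fin, Fintype.card_coe]
      have h1 : 0 < l := k0.pos
      have h2 : 0 < finrank Ω (LL D) := s0.pos
      omega
  have hy : AlgebraicIndependent F y := hw.comp Sum.inl Sum.inl_injective
  have hreg : ∀ i, (q i).Reg (algebraMap L M ξ) := by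
    intro i
    by_contra h
    have h1 : y i = 0 := if_neg h
    exact hy.ne_zero i h1
  refine ⟨hreg, ?_⟩
  have h2 : (fun i => val (q i) (algebraMap L M ξ)) = y := by
    funext i
    exact (if_pos (hreg i)).symm
  rw [h2]
  exact hy

include hξ in
theorem claim2 (A : Place Ω M →₀ ℤ) (hA0 : 0 ≤ A)
    (Z : Finset (Place Ω M)) (hZreg : ∀ P ∈ Z, P.Reg (algebraMap L M ξ))
    (K : IntermediateField F Ω)
    (hK : K = cl F (Set.range fun P : Z => val P.1 (algebraMap L M ξ)))
    (l : ℕ) (b : Basis (Fin l) Ω (LL (pts (fun P : Z => P.1) - A)))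
    (hb : ∀ σ, Fx K σ → ∀ j, m.act σ (b j : M) = b j)
    (v : Fin 3 → LL (pts (fun P : Z => P.1) - A))
    (hv : AlgebraicIndependent K (fun p : Fin 3 × Fin l => b.repr (v p.1) p.2))
    (hf0 : (v 0 : M) ≠ 0)
    (e : ℕ) (q : Fin e → Place Ω M) (hreg : ∀ i, (q i).Reg (algebraMap L M ξ))
    (hq : divisor Ω (v 0 : M) + pts (fun P : Z => P.1) - A = pts q)
    (h1 : (v 1 : M) / v 0 ∈ LL (pts q)) (h2 : (v 2 : M) / v 0 ∈ LL (pts q))
    (K' : IntermediateField F Ω)
    (hK' : K' = cl F (Set.range fun i => val (q i) (algebraMap L M ξ)))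
    (N : ℕ) (b' : Basis (Fin N) Ω (LL (pts q)))
    (hb' : ∀ σ, Fx K' σ → ∀ j, m.act σ (b' j : M) = b' j) :
    AlgebraicIndependent K' (fun p : Bool × Fin N =>
      b'.repr (if p.1 then ⟨(v 1 : M) / v 0, h1⟩ else ⟨(v 2 : M) / v 0, h2⟩) p.2) := by
  classical
  let K0 := cl F ((K : Set Ω) ∪ Set.range (fun k : Fin l => b.repr (v 0) k))
  have hK0c : Closed K0 := closed_cl _
  have hKK0 : K ≤ K0 := fun x hx => subset_cl _ (Or.inl hx)
  have ha0 : ∀ k, b.repr (v 0) k ∈ K0 := fun k => subset_cl _ (Or.inr ⟨k, rfl⟩)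
  have hind : AlgebraicIndependent K0 (fun p : Bool × Fin l => b.repr (if p.1 then v 1 else v 2) p.2) := by
    apply ind_cl
    let r : (Bool × Fin l) ⊕ Fin l → Fin 3 × Fin l :=
      Sum.elim (fun p => (if p.1 then 1 else 2, p.2)) (fun k => (0, k))
    have hr : Function.Injective r := by
      rintro (⟨b1, k1⟩ | k1) (⟨b2, k2⟩ | k2) h
      · cases b1 <;> cases b2 <;> simp_all [r]
      · cases b1 <;> simp_all [r]
      · cases b2 <;> simp_all [r]
      · simp_all [r]
    have h3 := hv.comp r hr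
    convert h3 using 1
    funext x
    rcases x with ⟨b1, k1⟩ | k1
    · cases b1 <;> rfl
    · rfl
  have hv0 : ∀ σ, Fx K0 σ → m.act σ (v 0 : M) = v 0 := by
    intro σ hσ
    have h3 := fixed_of_coord m b (K := K0) (fun σ hσ => hb σ (hσ.mono hKK0)) 1 (v 0)
      (fun j => by rw [one_mul]; exact ha0 j) σ hσ
    rwa [one_smul] at h3
  have hqf : ∀ σ, Fx K0 σ → ∀ i, m.actP σ (q i) = q i := by
    intro σ hσ i
    by_cases h0 : (q i).ord (v 0 : M) = 0
    · have h3 : (q i) ∈ Z := by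
        apply mem_of_pts
        have h4 := pts_pos q i
        rw [← hq] at h4
        simp only [Finsupp.sub_apply, Finsupp.add_apply, divisor_apply, h0] at h4
        have h5 := hA0 (q i)
        simp only [Finsupp.coe_zero, Pi.zero_apply] at h5
        omega
      refine place_fixed_of_val m ξ hξ hK0c ?_ hσ
      intro _
      apply hKK0
      rw [hK]
      exact subset_cl _ ⟨⟨q i, h3⟩, rfl⟩
    · exact place_fixed_of_fun m hK0c hv0 h0 hσ
  have hK'K0 : K' ≤ K0 := by
    rw [hK']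
    apply cl_le hK0c
    rintro _ ⟨i, rfl⟩
    apply mem_of_fix
    intro σ hσ
    have h3 := val_act m ξ σ (q i) (hreg i)
    rw [hqf σ hσ i] at h3
    exact h3.symm
  -- multiplication by `v 0`
  have hmul : ∀ g ∈ LL (pts q), g * (v 0 : M) ∈ LL (pts (fun P : Z => P.1) - A) := by
    intro g hg
    by_cases hg0 : g = 0
    · rw [hg0, zero_mul]; exact zero_mem _
    rw [mem_LL' hg0] at hg
    rw [mem_LL' (mul_ne_zero hg0 hf0), divisor_mul hg0 hf0]
    refine hg.trans (le_of_eq ?_)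
    rw [← hq]; abel
  let H : Bool → LL (pts q) := fun t => if t then ⟨(v 1 : M) / v 0, h1⟩ else ⟨(v 2 : M) / v 0, h2⟩
  let V : Bool → LL (pts (fun P : Z => P.1) - A) := fun t => if t then v 1 else v 2
  have hHV : ∀ t, (H t : M) * (v 0 : M) = V t := by
    intro t
    cases t
    · simp only [H, V, Bool.false_eq_true, if_false]
      exact div_mul_cancel₀ _ hf0
    · simp only [H, V, if_true]
      exact div_mul_cancel₀ _ hf0
  let W : Fin N → LL (pts (fun P : Z => P.1) - A) := fun s => ⟨(b' s : M) * v 0, hmul _ (b' s).2⟩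
  have hW : ∀ s k, b.repr (W s) k ∈ K0 := by
    intro s k
    apply coord_mem m b (K := K0) (fun σ hσ => hb σ (hσ.mono hKK0))
    intro σ hσ
    simp only [W]
    rw [map_mul, hb' σ (hσ.mono hK'K0), hv0 σ hσ]
  have hVsum : ∀ t, V t = ∑ s, b'.repr (H t) s • W s := by
    intro t
    apply Subtype.ext
    rw [← hHV t]
    have h3 := congrArg (fun g : LL (pts q) => (g : M) * (v 0 : M)) (b'.sum_repr (H t))
    simp only [Submodule.coe_sum, Submodule.coe_smul, Finset.sum_mul, smul_mul_assoc] at h3 ⊢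
    rw [← h3]
  have hcoord : ∀ t k, b.repr (V t) k = ∑ s, b'.repr (H t) s * b.repr (W s) k := by
    intro t k
    conv_lhs => rw [hVsum t]
    rw [map_sum, Finsupp.finsetSum_apply]
    apply Finset.sum_congr rfl
    intro s _
    rw [map_smul, Finsupp.smul_apply, smul_eq_mul]
  apply ind_mono hK'K0
  change AlgebraicIndependent K0 (fun p : Bool × Fin N => b'.repr (H p.1) p.2)
  apply span_ind (u := fun p : Bool × Fin l => b.repr (V p.1) p.2) hind
  · rintro ⟨t, k⟩
    have h3 : b.repr (V t) k ∈ IntermediateField.adjoin K0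
        (Set.range fun p : Bool × Fin N => b'.repr (H p.1) p.2) := by
      rw [hcoord]
      apply sum_mem
      intro s _
      apply mul_mem
      · exact IntermediateField.subset_adjoin _ _ ⟨(t, s), rfl⟩
      · exact IntermediateField.algebraMap_mem _ (⟨_, hW s k⟩ : K0)
    exact isAlgebraic_algebraMap (⟨_, h3⟩ : IntermediateField.adjoin K0
        (Set.range fun p : Bool × Fin N => b'.repr (H p.1) p.2))
  · have h3 : (N : ℤ) = l := by
      have h4 : ell (pts q) = N := by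
        unfold ell
        rw [finrank_eq_card_basis b', Fintype.card_fin]
      have h5 : ell (pts (fun P : Z => P.1) - A) = l := by
        unfold ell
        rw [finrank_eq_card_basis b, Fintype.card_fin]
      rw [← h4, ← h5, ← hq]
      have h6 : divisor Ω (v 0 : M) + pts (fun P : Z => P.1) - A =
          (pts (fun P : Z => P.1) - A) + divisor Ω (v 0 : M) := by abel
      rw [h6, ell_add_divisor _ hf0]
    have h4 : N = l := by exact_mod_cast h3
    rw [h4]

include hξ in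
theorem rank_count
    (A : Place Ω M →₀ ℤ) (hA0 : 0 ≤ A)
    (hA : ∀ P ∈ A.support, ∀ σ : Ω ≃ₐ[F] Ω, Fx (cl F (∅ : Set Ω)) σ → m.actP σ P = P)
    (Z : Finset (Place Ω M)) (hZreg : ∀ P ∈ Z, P.Reg (algebraMap L M ξ))
    (hZ : AlgebraicIndependent F (fun P : Z => val P.1 (algebraMap L M ξ)))
    (K : IntermediateField F Ω)
    (hK : K = cl F (Set.range fun P : Z => val P.1 (algebraMap L M ξ)))
    (l : ℕ) (hl : 0 < l) (b : Basis (Fin l) Ω (LL (pts (fun P : Z => P.1) - A)))
    (hb : ∀ σ, Fx K σ → ∀ j, m.act σ (b j : M) = b j)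
    (v : Fin 3 → LL (pts (fun P : Z => P.1) - A))
    (hv : AlgebraicIndependent K (fun p : Fin 3 × Fin l => b.repr (v p.1) p.2)) :
    (v 0 : M) ≠ 0 ∧
    ∃ (e : ℕ) (q : Fin e → Place Ω M), (e : ℤ) = Z.card - ddeg A ∧
      (∀ i, (q i).Reg (algebraMap L M ξ)) ∧
      AlgebraicIndependent F (fun i => val (q i) (algebraMap L M ξ)) ∧
      divisor Ω (v 0 : M) + pts (fun P : Z => P.1) - A = pts q ∧
      ∀ (h1 : (v 1 : M) / v 0 ∈ LL (pts q)) (h2 : (v 2 : M) / v 0 ∈ LL (pts q))
        (K' : IntermediateField F Ω)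
        (hK' : K' = cl F (Set.range fun i => val (q i) (algebraMap L M ξ)))
        (N : ℕ) (b' : Basis (Fin N) Ω (LL (pts q)))
        (hb' : ∀ σ, Fx K' σ → ∀ j, m.act σ (b' j : M) = b' j),
        AlgebraicIndependent K' (fun p : Bool × Fin N =>
          b'.repr (if p.1 then ⟨(v 1 : M) / v 0, h1⟩ else ⟨(v 2 : M) / v 0, h2⟩) p.2) := by
  classical
  have hv0 : AlgebraicIndependent K (fun k : Fin l => b.repr (v 0) k) :=
    hv.comp (fun k => ((0 : Fin 3), k)) (fun a b h => (Prod.ext_iff.1 h).2)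
  have hf0 : (v 0 : M) ≠ 0 := by
    intro h
    have h1 : v 0 = 0 := Subtype.ext h
    apply hv0.ne_zero ⟨0, hl⟩
    change b.repr (v 0) _ = 0
    rw [h1, map_zero]; rfl
  refine ⟨hf0, ?_⟩
  have hD : 0 ≤ divisor Ω (v 0 : M) + pts (fun P : Z => P.1) - A := by
    have h1 := (mem_LL' hf0).1 (v 0).2
    rwa [← add_sub_assoc] at h1
  obtain ⟨e, q, hq⟩ := exists_pts hD
  have hdeg : (e : ℤ) = Z.card - ddeg A := by
    have h1 := congrArg ddeg hq
    rw [ddeg_sub, ddeg_add, ddeg_divisor, ddeg_pts, ddeg_pts, Fintype.card_coe, Fintype.card_fin] at h1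
    omega
  obtain ⟨hreg, hind⟩ := claim1 m ξ hξ A hA0 hA Z hZreg hZ K hK l b hb (v 0) hv0 ⟨0, hl⟩ hf0 e q hq
  refine ⟨e, q, hdeg, hreg, hind, hq, ?_⟩
  intro h1 h2 K' hK' N b' hb'
  exact claim2 m ξ hξ A hA0 Z hZreg K hK l b hb v hv hf0 e q hreg hq h1 h2 K' hK' N b' hb'

end Pool.Agent.Helper740.Rank
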