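import Pool.Agent.Helper386.D5V.Helper18_Step_Side
import Pool.Agent.Helper386.D5V.Helper740_D5_Rank

/-! STEP: generic solutions. -/

set_option autoImplicit false
set_option linter.all false
set_option linter.overlappingInstances false

open Module FF SF

namespace Step

variable {F Ω L M : Type} [Field F] [Field Ω] [Algebra F Ω] [Field L] [Algebra F L]
    [Field M] [Algebra Ω M] [Algebra L M] [IsAlgClosed Ω] [CharZero Ω] [CharZero F] [IsFF F L]
    [IsFF Ω M] (m : Model F Ω L M) (ξ : L)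

/-- A generic solution of degree `e` of the norm equation. -/
structure GenSol (e : ℕ) (x : M) (h : ZMod 3 → M) (q : Fin e → Place Ω M) : Prop where
  ne : ∀ j, h j ≠ 0
  prod : h 0 * h 1 * h 2 = x
  reg : ∀ i, (q i).Reg (algebraMap L M ξ)
  ind : AlgebraicIndependent F (fun i => val (q i) (algebraMap L M ξ))
  mem1 : h 0 ∈ LL (pts q)
  mem2 : h 0 * h 1 ∈ LL (pts q)
  gen : ∀ (N : ℕ) (b' : Basis (Fin N) Ω (LL (pts q))),
    (∀ σ, Fx (cl F (Set.range fun i => val (q i) (algebraMap L M ξ))) σ →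
      ∀ j, m.act σ (b' j : M) = b' j) →
    AlgebraicIndependent (cl F (Set.range fun i => val (q i) (algebraMap L M ξ)))
      (fun p : Bool × Fin N => b'.repr (if p.1 then ⟨h 0, mem1⟩ else ⟨h 0 * h 1, mem2⟩) p.2)

theorem side [Countable F] [Uncountable Ω] (hξ : Transcendental F ξ)
    (β : Ω) (hβ0 : β ≠ 0) (hβF : β ∈ cl F (∅ : Set Ω)) (z : F)
    (hz : IsPrimitiveRoot z 3) (c : (Ω ≃ₐ[F] Ω) → ZMod 3)
    (hc : ∀ σ, σ β = algebraMap F Ω (zp z (c σ)) * β)
    (E : IntermediateField F Ω)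
    (big : ∀ Λ : Subfield Ω, Countable Λ → ∃ c ∈ E, Transcendental Λ c)
    (hs : ZMod 3 → M) (hs0 : ∀ j, hs j ≠ 0)
    (hsE : ∀ σ, Fx E σ → ∀ j, m.act σ (hs j) = hs (j + c σ))
    (hsF : ∀ σ, Fx (cl F (∅ : Set Ω)) σ → ∀ j, m.act σ (hs j) = hs j)
    (A : ZMod 3 → (Place Ω M →₀ ℤ)) (hA0 : 0 ≤ A 0)
    (hdiv : ∀ j, divisor Ω (hs j) = A j - A (j + 1))
    (hAE : ∀ σ, Fx E σ → ∀ j P, A (j + c σ) (m.actP σ P) = A j P)
    (hAF : ∀ j, ∀ P ∈ (A j).support, ∀ σ : Ω ≃ₐ[F] Ω, Fx (cl F (∅ : Set Ω)) σ → m.actP σ P = P)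
    (Z : Finset (Place Ω M)) (hZE : ∀ σ : Ω ≃ₐ[F] Ω, Fx E σ → ∀ P ∈ Z, m.actP σ P ∈ Z)
    (hZreg : ∀ P ∈ Z, P.Reg (algebraMap L M ξ))
    (hZ : AlgebraicIndependent F (fun P : Z => val P.1 (algebraMap L M ξ)))
    (hell : 0 < ell (pts (fun P : Z => P.1) - A 0)) (e : ℕ) (hecard : (e : ℤ) = Z.card - ddeg (A 0)) :
    ∃ (h : ZMod 3 → M) (q : Fin e → Place Ω M), GenSol m ξ e (hs 0 * hs 1 * hs 2) h q ∧
      ∀ σ, Fx E σ → ∀ j, m.act σ (h j) = h (j + c σ) := by
  classical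
  set K := cl F (Set.range fun P : Z => val P.1 (algebraMap L M ξ)) with hK
  have hKc : Closed K := closed_cl _
  have hKcount : Countable K := countable_cl (Set.countable_range _)
  have hKF := cl_empty_le K hKc
  have hZfix : ∀ σ, Fx K σ → ∀ P ∈ Z, m.actP σ P = P := by
    intro σ hσ P hP
    refine place_fixed_of_val m ξ hξ hKc (fun _ => ?_) hσ
    exact subset_cl _ ⟨⟨P, hP⟩, rfl⟩
  have hZDE : ∀ σ, Fx E σ → ∀ P, pts (fun P : Z => P.1) (m.actP σ P) = pts (fun P : Z => P.1) P := by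
    intro σ hσ P
    rw [pts_finset_apply, pts_finset_apply]
    have := stable_iff m (S := (Z : Set (Place Ω M))) (fun σ hσ P hP => hZE σ hσ P hP) hσ P
    simp only [Finset.mem_coe] at this
    simp only [this]
  have hZDK : ∀ σ, Fx K σ → ∀ P, pts (fun P : Z => P.1) (m.actP σ P) = pts (fun P : Z => P.1) P := by
    intro σ hσ P
    rw [pts_finset_apply, pts_finset_apply]
    have := stable_iff m (S := (Z : Set (Place Ω M)))
      (fun σ hσ P hP => by rw [hZfix σ hσ P hP]; exact hP) hσ P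
    simp only [Finset.mem_coe] at this
    simp only [this]
  obtain ⟨b, hb⟩ := exists_fixed_basis m (fun σ => Fx K σ) (pts (fun P : Z => P.1) - A 0) (by
    intro σ hσ P
    rw [Finsupp.sub_apply, Finsupp.sub_apply, hZDK σ hσ, supp_fixed m (A 0) (hAF 0) (hσ.mono hKF)])
  obtain ⟨w, hwmem, hwE, v, hv0, hv1, hv2, hind⟩ := side_gen m β hβ0 hβF z hz c hc E big hs hs0
    hsF A hdiv hAE hAF K hKc hKcount _ hZDE hZDK _ b hb
  have hl : 0 < finrank Ω (LL (pts (fun P : Z => P.1) - A 0)) := by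
    unfold ell at hell
    exact_mod_cast hell
  obtain ⟨hvne, e', q, he', hreg, hqind, hqdiv, hgen⟩ :=
    Pool.Agent.Helper740.Rank.rank_count m ξ hξ (A 0) hA0 (hAF 0) Z hZreg
    hZ K rfl _ hl b hb v hind
  have hee : e' = e := by
    have : (e' : ℤ) = e := by rw [he', hecard]
    exact_mod_cast this
  subst hee
  have hvj : ∀ j : ZMod 3, (v j : M) ≠ 0 := by
    intro j hj
    have h1 : v j = 0 := Subtype.ext hj
    have h2 := hind.ne_zero (j, ⟨0, hl⟩)
    apply h2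
    show b.repr (v j) ⟨0, hl⟩ = 0
    rw [h1, map_zero]
    rfl
  have hw0 : ∀ j, w j ≠ 0 := by
    have hcases : ∀ j : ZMod 3, j = 0 ∨ j = 1 ∨ j = 2 := by decide
    intro j
    rcases hcases j with rfl | rfl | rfl
    · rw [← hv0]; exact hvj 0
    · have := hvj 1
      rw [hv1] at this
      exact right_ne_zero_of_mul this
    · have := hvj 2
      rw [hv2] at this
      exact right_ne_zero_of_mul this
  let h : ZMod 3 → M := fun j => hs j * w (j + 1) / w j
  have h01 : h 0 = (v 1 : M) / v 0 := by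
    show hs 0 * w (0 + 1) / w 0 = _
    rw [hv0, hv1, zero_add]
  have h012 : h 0 * h 1 = (v 2 : M) / v 0 := by
    show (hs 0 * w (0 + 1) / w 0) * (hs 1 * w (1 + 1) / w 1) = _
    rw [hv0, hv2, zero_add]
    have h11 : (1 + 1 : ZMod 3) = 2 := by decide
    rw [h11]
    have := hw0 0
    have := hw0 1
    field_simp
  have hmem : ∀ j : ZMod 3, (v j : M) / v 0 ∈ LL (pts q) := by
    intro j
    have hne : (v (0 : ZMod 3) : M) ≠ 0 := hvj 0
    have h1 := mul_mem_LL (inv_ne_zero hne) (v j).2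
    rw [divisor_inv] at h1
    rw [div_eq_mul_inv, mul_comm]
    have h2 : pts (fun P : Z => P.1) - A 0 - -divisor Ω (v (0 : ZMod 3) : M) = pts q := by
      have h3 : divisor Ω (v (0 : ZMod 3) : M) + pts (fun P : Z => P.1) - A 0 = pts q := hqdiv
      rw [← h3]; abel
    rwa [← h2]
  refine ⟨h, q, ⟨?_, ?_, hreg, hqind, ?_, ?_, ?_⟩, ?_⟩
  · intro j
    exact div_ne_zero (mul_ne_zero (hs0 j) (hw0 _)) (hw0 _)
  · show (hs 0 * w (0 + 1) / w 0) * (hs 1 * w (1 + 1) / w 1) * (hs 2 * w (2 + 1) / w 2) = _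
    have h11 : (1 + 1 : ZMod 3) = 2 := by decide
    have h21 : (2 + 1 : ZMod 3) = 0 := by decide
    rw [h11, h21, zero_add]
    have := hw0 0
    have := hw0 1
    have := hw0 2
    field_simp
  · rw [h01]; exact hmem 1
  · rw [h012]; exact hmem 2
  · intro N b' hb'
    have h1 := hgen (hmem 1) (hmem 2) _ rfl N b' hb'
    have e1 : ∀ hh : h 0 ∈ LL (pts q), (⟨h 0, hh⟩ : LL (pts q)) = ⟨(v 1 : M) / v 0, hmem 1⟩ :=
      fun _ => Subtype.ext h01
    have e2 : ∀ hh : h 0 * h 1 ∈ LL (pts q), (⟨h 0 * h 1, hh⟩ : LL (pts q)) =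
        ⟨(v 2 : M) / v 0, hmem 2⟩ := fun _ => Subtype.ext h012
    rw [e1, e2]
    exact h1
  · intro σ hσ j
    show m.act σ (hs j * w (j + 1) / w j) = hs (j + c σ) * w (j + c σ + 1) / w (j + c σ)
    rw [map_div₀, map_mul, hsE σ hσ, hwE σ hσ, hwE σ hσ]
    have : j + 1 + c σ = j + c σ + 1 := by ring
    rw [this]

end Step
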