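import Pool.Agent.Helper386.D5V.Helper18_Step_Fixed

/-! STEP: twisted descent and generic elements. -/

set_option autoImplicit false
set_option linter.all false
set_option linter.overlappingInstances false

open Module FF SF

namespace Step

section Big

variable {F Ω : Type} [Field F] [Field Ω] [Algebra F Ω]

theorem exists_generic_big (E : IntermediateField F Ω)
    (big : ∀ Λ : Subfield Ω, Countable Λ → ∃ c ∈ E, Transcendental Λ c)
    (K : IntermediateField F Ω) [Countable K] [Countable F] (ι : Type) [Finite ι] :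
    ∃ e : ι → Ω, (∀ i, e i ∈ E) ∧ AlgebraicIndependent K e := by
  induction ι using Finite.induction_empty_option with
  | of_equiv f h =>
    obtain ⟨e, h1, h2⟩ := h
    refine ⟨e ∘ f.symm, fun i => h1 _, ?_⟩
    exact h2.comp _ f.symm.injective
  | h_empty =>
    refine ⟨fun i => i.elim, fun i => i.elim, ?_⟩
    rw [algebraicIndependent_empty_type_iff]
    exact (algebraMap K Ω).injective
  | h_option h =>
    obtain ⟨e, h1, h2⟩ := h
    have h5 : Countable (cl F ((K : Set Ω) ∪ Set.range e)) :=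
      countable_cl ((Set.countable_coe_iff.1 ‹_›).union (Set.countable_range e))
    obtain ⟨x, hxE, hx⟩ := big (cl F ((K : Set Ω) ∪ Set.range e)).toSubfield h5
    refine ⟨fun o => o.elim x e, ?_, ?_⟩
    · rintro (_ | i)
      · exact hxE
      · exact h1 i
    · rw [h2.option_iff_transcendental]
      have h7 : Transcendental (IntermediateField.adjoin K (Set.range e)) x := by
        apply transcendental_of_notMem
        intro hmem
        apply hx
        exact isAlgebraic_algebraMap
          (⟨x, hmem⟩ : (cl F ((K : Set Ω) ∪ Set.range e)).toSubfield)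
      rw [IntermediateField.transcendental_adjoin_iff] at h7
      exact h7

end Big

section Zp

variable {F : Type*} [Field F]

/-- powers of a cube root of unity, indexed by `ZMod 3` -/
def zp (z : F) (j : ZMod 3) : F := z ^ j.val

theorem zp_add {z : F} (hz : z ^ 3 = 1) (i j : ZMod 3) : zp z (i + j) = zp z i * zp z j := by
  unfold zp
  rw [← pow_add, ZMod.val_add]
  conv_rhs => rw [← Nat.div_add_mod (i.val + j.val) 3]
  rw [pow_add, pow_mul, hz, one_pow, one_mul]

theorem zp_zero {z : F} : zp z 0 = 1 := by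
  unfold zp
  simp

theorem zp_inj {z : F} (hz : IsPrimitiveRoot z 3) {i j : ZMod 3} (h : zp z i = zp z j) : i = j := by
  unfold zp at h
  have := hz.pow_inj (ZMod.val_lt i) (ZMod.val_lt j) h
  exact ZMod.val_injective 3 this

theorem zp_ne_zero {z : F} (hz : z ^ 3 = 1) (j : ZMod 3) : zp z j ≠ 0 := by
  unfold zp
  apply pow_ne_zero
  intro h
  rw [h] at hz
  norm_num at hz

theorem exists_zp {z : F} (hz : IsPrimitiveRoot z 3) {u : F} (hu : u ^ 3 = 1) :
    ∃ j : ZMod 3, u = zp z j := by
  obtain ⟨i, hi, h⟩ := hz.eq_pow_of_pow_eq_one hu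
  refine ⟨(i : ZMod 3), ?_⟩
  unfold zp
  rw [ZMod.val_natCast_of_lt hi, h]

end Zp

section TW

variable {F Ω L M : Type} [Field F] [Field Ω] [Algebra F Ω] [Field L] [Algebra F L]
    [Field M] [Algebra Ω M] [Algebra L M] [CharZero Ω] [IsFF F L]
    [IsFF Ω M] (m : Model F Ω L M)

/-- the product of three Riemann-Roch spaces -/
def VV (D : ZMod 3 → (Place Ω M →₀ ℤ)) : Submodule Ω (ZMod 3 → M) :=
  Submodule.pi Set.univ (fun j => LL (D j))

theorem mem_VV {D : ZMod 3 → (Place Ω M →₀ ℤ)} {w : ZMod 3 → M} : w ∈ VV D ↔ ∀ j, w j ∈ LL (D j) := by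
  unfold VV
  rw [Submodule.mem_pi]
  simp

instance (D : ZMod 3 → (Place Ω M →₀ ℤ)) : FiniteDimensional Ω (VV D) := by
  let f : VV D →ₗ[Ω] (∀ j, LL (D j)) :=
    { toFun := fun w j => ⟨w.1 j, mem_VV.1 w.2 j⟩
      map_add' := fun _ _ => rfl
      map_smul' := fun _ _ => rfl }
  apply FiniteDimensional.of_injective f
  intro w w' h
  apply Subtype.ext
  funext j
  exact congrArg Subtype.val (congrFun h j)

theorem tw_descent (β : ZMod 3 → Ω) (hβ : Function.Injective β) (c : (Ω ≃ₐ[F] Ω) → ZMod 3)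
    (hc : ∀ σ j, σ (β j) = β (j + c σ)) (H : (Ω ≃ₐ[F] Ω) → Prop)
    (D : ZMod 3 → (Place Ω M →₀ ℤ))
    (hD : ∀ σ, H σ → ∀ j P, D (j + c σ) (m.actP σ P) = D j P) :
    ∃ B : Basis (Fin (finrank Ω (VV D))) Ω (VV D), ∀ σ, H σ → ∀ s j,
      m.act σ ((B s : ZMod 3 → M) j) = (B s : ZMod 3 → M) (j + c σ) := by
  obtain ⟨ξ, hξ⟩ := IsFF.exists_transcendental (k := F) (K := L)
  obtain ⟨ι, lam, h1, h2⟩ := exists_functionals m hξ
  let mu : ι × Fin 3 → ((ZMod 3 → M) →ₗ[Ω] Ω) := fun p =>
    ∑ j : ZMod 3, (β j ^ (p.2 : ℕ)) • ((lam p.1) ∘ₗ (LinearMap.proj j))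
  have hmu : ∀ p w, mu p w = ∑ j : ZMod 3, β j ^ (p.2 : ℕ) * lam p.1 (w j) := by
    intro p w
    simp [mu, LinearMap.sum_apply]
  obtain ⟨B, hB⟩ := SF.descent (H := {σ : Ω ≃ₐ[F] Ω // H σ}) (fun σ => (σ.1 : Ω →+* Ω))
    (fun σ w => fun j => m.act σ.1 (w (j - c σ.1))) mu (by
      intro p σ w
      rw [hmu, hmu, map_sum]
      rw [← Equiv.sum_comp (Equiv.addRight (c σ.1))]
      refine Finset.sum_congr rfl fun j _ => ?_
      rw [Equiv.coe_addRight, add_sub_cancel_right, h1, ← hc σ.1, map_mul, map_pow]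
      rfl) (by
      intro w hw
      have h3 : ∀ i, ∀ j, lam i (w j) = 0 := by
        intro i
        have h4 : (fun j : Fin 3 => lam i (w j)) = 0 := by
          apply Matrix.eq_zero_of_forall_pow_sum_mul_pow_eq_zero (f := fun j : Fin 3 => β j) hβ
          intro n
          have h5 := hw (i, n)
          rw [hmu] at h5
          rw [← h5]
          refine Finset.sum_congr rfl fun j _ => ?_
          rw [mul_comm]
        intro j
        exact congrFun h4 j
      funext j
      exact h2 _ (fun i => h3 i j)) (VV D) (by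
      intro σ w hw
      rw [mem_VV] at hw ⊢
      intro j
      apply act_mem_LL m (D := D (j - c σ.1)) _ (hw _)
      intro P
      have := hD σ.1 σ.2 (j - c σ.1) P
      rwa [sub_add_cancel] at this)
  refine ⟨B, ?_⟩
  intro σ hσ s j
  have h3 := congrFun (hB s ⟨σ, hσ⟩) (j + c σ)
  simp only [add_sub_cancel_right] at h3
  exact h3

end TW

end Step
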