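import Pool.Agent.Helper386.D5V.Helper386_FF_Gauss

/-! The fundamental identity over the Gauss place. -/

set_option autoImplicit false
set_option linter.all false
set_option linter.overlappingInstances false

open Module FF

attribute [-instance] HahnSeries.powerSeriesAlgebra

namespace FF

section dvr
variable {k K : Type*} [Field k] [Field K] [Algebra k K] (P : Place k K)

theorem Place.irreducible_O {t : K} (h : P.Reg t) (ht : P.ord t = 1) : Irreducible (⟨t, h⟩ : P.O) := by
  have ht0 : t ≠ 0 := by rintro rfl; rw [P.ord_zero] at ht; omega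
  constructor
  · intro h'
    have := (P.isUnit_O_iff (f := t) (Or.inr (by omega))).1 h'
    omega
  · rintro ⟨a, ha⟩ ⟨b, hb⟩ hab
    have hab' : t = a * b := congrArg Subtype.val hab
    have ha0 : a ≠ 0 := by rintro rfl; rw [zero_mul] at hab'; exact ht0 hab'
    have hb0 : b ≠ 0 := by rintro rfl; rw [mul_zero] at hab'; exact ht0 hab'
    have h1 := P.ord_mul ha0 hb0
    rw [← hab', ht] at h1
    have h2 := (P.reg_iff ha0).1 ha
    have h3 := (P.reg_iff hb0).1 hb
    rw [P.isUnit_O_iff ha, P.isUnit_O_iff hb]
    by_cases h : P.ord a = 0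
    · left; exact ⟨ha0, h⟩
    · right; exact ⟨hb0, by omega⟩

end dvr

section
variable {k : Type} [Field k] {L3 : Type} [Field L3] [Algebra (RR k) L3] [Algebra k L3]
  [IsScalarTower k (RR k) L3]

/-- `w` lies over the `y`-adic place. -/
structure OverY (w : Place k L3) : Prop where
  reg : ∀ f : OO k, w.Reg (ioO k L3 f)
  pos : 0 < w.ord (algebraMap (RR k) L3 (SF.yv k))

theorem ioO_C (c : k) : ioO k L3 (PowerSeries.C c) = algebraMap k L3 c := by
  rw [IsScalarTower.algebraMap_apply k (RR k) L3]
  unfold ioO
  rw [RingHom.comp_apply]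
  congr 1
  rw [HahnSeries.algebraMap_apply]
  exact PowerSeries.coe_C c

theorem OverY.red_ioO {w : Place k L3} (h : OverY w) (f : OO k) :
    w.red (ioO k L3 f) = algebraMap k w.RF (PowerSeries.constantCoeff f) := by
  obtain ⟨g, hg⟩ : PowerSeries.X ∣ f - PowerSeries.C (PowerSeries.constantCoeff f) := by
    rw [PowerSeries.X_dvd_iff]; simp
  have hf : f = PowerSeries.C (PowerSeries.constantCoeff f) + PowerSeries.X * g := by
    rw [← hg]; ring
  have hy : w.Reg (algebraMap (RR k) L3 (SF.yv k)) := Or.inr h.pos.le
  have hy0 : w.red (algebraMap (RR k) L3 (SF.yv k)) = 0 := (w.red_eq_zero_iff hy).2 (Or.inr h.pos)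
  conv_lhs => rw [hf]
  rw [map_add, map_mul, ioO_X, ioO_C, w.red_add (w.reg_const _) (w.reg_mul hy (h.reg g)),
    w.red_mul hy (h.reg g), hy0, zero_mul, add_zero]
  rfl

theorem OverY.reg_evO {w : Place k L3} (h : OverY w) {u : L3} (hu : w.Reg u) (b : Polynomial (OO k)) :
    w.Reg (evO u b) := by
  induction b using Polynomial.induction_on' with
  | add p q hp hq => rw [map_add]; exact w.reg_add hp hq
  | monomial n a =>
    have : evO u (Polynomial.monomial n a) = ioO k L3 a * u ^ n := by
      simp [evO]
    rw [this]
    apply w.reg_mul (h.reg a)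
    clear this
    induction n with
    | zero => rw [pow_zero]; exact w.reg_one
    | succ n ih => rw [pow_succ]; exact w.reg_mul ih hu

theorem OverY.red_evO {w : Place k L3} (h : OverY w) {u : L3} (hu : w.Reg u) (b : Polynomial (OO k)) :
    w.red (evO u b) = Polynomial.aeval (w.red u) (b.map (PowerSeries.constantCoeff (R := k))) := by
  have h1 : (w.redHom (evO u) (h.reg_evO hu)) =
      ((Polynomial.aeval (w.red u)).toRingHom.comp
        (Polynomial.mapRingHom (PowerSeries.constantCoeff (R := k)))) := by
    ext a
    · simp only [RingHom.comp_apply]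
      rw [Place.redHom_apply]
      have : evO u (Polynomial.C a) = ioO k L3 a := by simp [evO]
      rw [this, h.red_ioO]
      simp
    · rw [Place.redHom_apply]
      have : evO (k := k) u Polynomial.X = u := by simp [evO]
      rw [this]
      simp
  exact congrArg (fun f => f b) h1

/-- places at which `u` reduces to a transcendental element -/
structure GoodU (w : Place k L3) (u : L3) : Prop where
  ov : OverY w
  reg : w.Reg u
  tr : Transcendental k (w.red u)

variable [CharZero k] [IsFF (RR k) L3]

theorem gauss_sum (u : L3) (hu : Transcendental (RR k) u) :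
    ∃ S : Finset (Place k L3), (∀ w, w ∈ S ↔ GoodU w u) ∧ (∀ w ∈ S, IsFF k w.RF) ∧
      ∑ w ∈ S, (w.ord (algebraMap (RR k) L3 (SF.yv k))).toNat *
        finrank (IntermediateField.adjoin k {w.red u}) w.RF =
        finrank (IntermediateField.adjoin (RR k) {u}) L3 := by
  have hcz : CharZero (RR k) := charZero_of_injective_algebraMap (algebraMap k (RR k)).injective
  have hcl : CharZero L3 := charZero_of_injective_algebraMap (algebraMap (RR k) L3).injective
  let K0 := IntermediateField.adjoin (RR k) {u}
  let u0 : K0 := IntermediateField.AdjoinSimple.gen (RR k) u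
  have hu0 : Transcendental (RR k) u0 := by
    intro h
    apply hu
    exact h.algebraMap (A := L3)
  have htop : IntermediateField.adjoin (RR k) {u0} = ⊤ := by
    apply IntermediateField.lift_injective K0
    rw [IntermediateField.lift_adjoin, IntermediateField.lift_top, Set.image_singleton]
    rfl
  have itow : IsScalarTower k K0 L3 := IsScalarTower.of_algebraMap_eq (fun c => rfl)
  obtain ⟨G, hG1, hG2⟩ := exists_gauss u0 hu0 htop
  have hfin : FiniteDimensional K0 L3 := IsFF.finite hu
  have hDVR := G.isDVR
  letI i1 : Algebra k G.O := ((algebraMap k K0).codRestrict G.O G.reg_const).toAlgebra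
  letI i2 : Algebra G.O L3 := ((algebraMap K0 L3).comp G.O.subtype).toAlgebra
  have i3 : IsScalarTower G.O K0 L3 := IsScalarTower.of_algebraMap_eq (fun _ => rfl)
  have i4 : IsScalarTower k G.O L3 := IsScalarTower.of_algebraMap_eq (fun c => by
    change algebraMap k L3 c = algebraMap K0 L3 (algebraMap k K0 c)
    rw [← IsScalarTower.algebraMap_apply k K0 L3])
  have hyreg : G.Reg (algebraMap (RR k) K0 (SF.yv k)) := Or.inr (by rw [hG1]; norm_num)
  let π : G.O := ⟨algebraMap (RR k) K0 (SF.yv k), hyreg⟩
  have hirr : Irreducible π := G.irreducible_O hyreg hG1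
  have hmax : (Ideal.span {π}).IsMaximal := PrincipalIdealRing.isMaximal_of_irreducible hirr
  have hcz0 : CharZero K0 := charZero_of_injective_algebraMap (algebraMap (RR k) K0).injective
  obtain ⟨S, hS1, hS2, hS3⟩ := fundamental (k := k) (A := G.O) (L := L3) K0 π hirr.ne_zero hmax
  have hGev : ∀ b : Polynomial (OO k), G.Reg (evO u0 b) := by
    intro b
    by_cases hb : b = 0
    · left; rw [hb, map_zero]
    obtain ⟨m, b', rfl, hb'⟩ := exists_primitive b hb
    rw [map_mul, map_pow]
    have : evO u0 (Polynomial.C (PowerSeries.X : OO k)) = algebraMap (RR k) K0 (SF.yv k) := by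
      rw [← ioO_X]; simp [evO]
    rw [this]
    right
    have hy0 : algebraMap (RR k) K0 (SF.yv k) ≠ 0 := by
      intro h; rw [h, G.ord_zero] at hG1; omega
    rw [G.ord_mul (pow_ne_zero _ hy0) (hG2 b' hb').1, (hG2 b' hb').2, G.ord_pow, hG1]
    omega
  have hevmap : ∀ b : Polynomial (OO k), algebraMap K0 L3 (evO u0 b) = evO u b := by
    intro b
    rw [evO_eq, evO_eq]
    exact (Polynomial.aeval_algebraMap_apply L3 u0 _).symm
  have hfy : algebraMap G.O L3 π = algebraMap (RR k) L3 (SF.yv k) := by
    change algebraMap K0 L3 (algebraMap (RR k) K0 (SF.yv k)) = _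
    rw [← IsScalarTower.algebraMap_apply (RR k) K0 L3]
  have hgood : ∀ w : Place k L3, w ∈ S ↔ GoodU w u := by
    intro w
    rw [hS1, hfy]
    constructor
    · rintro ⟨h1, h2⟩
      have hev : ∀ b : Polynomial (OO k), w.Reg (evO u b) := by
        intro b
        rw [← hevmap]
        exact h1 ⟨evO u0 b, hGev b⟩
      have hO : OverY w := by
        refine ⟨fun f => ?_, h2⟩
        have := hev (Polynomial.C f)
        simpa [evO] using this
      have hregu : w.Reg u := by
        have := hev Polynomial.X
        simpa [evO] using this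
      refine ⟨hO, hregu, ?_⟩
      rw [transcendental_iff]
      intro p hp
      by_contra hp0
      let b : Polynomial (OO k) := p.map PowerSeries.C
      have hb : b.map (PowerSeries.constantCoeff (R := k)) = p := by
        simp only [b, Polynomial.map_map]
        have : (PowerSeries.constantCoeff (R := k)).comp PowerSeries.C = RingHom.id k := by
          ext; simp
        rw [this, Polynomial.map_id]
      have h3 := hG2 b (by rw [hb]; exact hp0)
      have h4 : w.red (evO u b) = 0 := by
        rw [hO.red_evO hregu, hb, hp]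
      rw [w.red_eq_zero_iff (hev b)] at h4
      have h5 : evO u b ≠ 0 := by
        rw [← hevmap]; simpa using h3.1
      have h6 : 0 < w.ord (evO u b) := h4.resolve_left h5
      have h7 : G.Reg (evO u0 b)⁻¹ := Or.inr (by rw [G.ord_inv, h3.2]; simp)
      have h8 := h1 ⟨_, h7⟩
      have h9 : algebraMap G.O L3 ⟨_, h7⟩ = (evO u b)⁻¹ := by
        change algebraMap K0 L3 (evO u0 b)⁻¹ = _
        rw [map_inv₀, hevmap]
      rw [h9, w.reg_iff (inv_ne_zero h5), w.ord_inv] at h8
      omega
    · intro h
      refine ⟨?_, h.ov.pos⟩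
      rintro ⟨f, hf⟩
      change w.Reg (algebraMap K0 L3 f)
      by_cases hf0 : f = 0
      · left; rw [hf0, map_zero]
      obtain ⟨n, b, c, hb, hc, rfl⟩ := exists_decomp u0 hu0 htop f hf0
      have hy0 : algebraMap (RR k) K0 (SF.yv k) ≠ 0 := by
        intro h; rw [h, G.ord_zero] at hG1; omega
      have hn : 0 ≤ n := by
        have := (G.reg_iff hf0).1 hf
        rw [G.ord_mul (zpow_ne_zero _ hy0) (div_ne_zero (hG2 b hb).1 (hG2 c hc).1), G.ord_zpow, hG1,
          G.ord_div (hG2 b hb).1 (hG2 c hc).1, (hG2 b hb).2, (hG2 c hc).2] at this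
        omega
      have hc1 : w.red (evO u c) ≠ 0 := by
        rw [h.ov.red_evO h.reg]
        intro h0
        exact hc (transcendental_iff.1 h.tr _ h0)
      have hc2 : evO u c ≠ 0 := by
        rw [← hevmap]; simpa using (hG2 c hc).1
      have hb2 : evO u b ≠ 0 := by
        rw [← hevmap]; simpa using (hG2 b hb).1
      have hc3 : w.ord (evO u c) = 0 := by
        rw [Ne, w.red_eq_zero_iff (h.ov.reg_evO h.reg c)] at hc1
        push Not at hc1
        have := (w.reg_iff hc2).1 (h.ov.reg_evO h.reg c)
        omega
      have hb3 := (w.reg_iff hb2).1 (h.ov.reg_evO h.reg b)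
      have hyL : algebraMap (RR k) L3 (SF.yv k) ≠ 0 := by
        intro h'; have := h.ov.pos; rw [h', w.ord_zero] at this; omega
      right
      rw [map_mul, map_zpow₀, map_div₀, hevmap, hevmap, ← IsScalarTower.algebraMap_apply (RR k) K0 L3,
        w.ord_mul (zpow_ne_zero _ hyL) (div_ne_zero hb2 hc2), w.ord_zpow, w.ord_div hb2 hc2, hc3, sub_zero]
      have := h.ov.pos
      positivity
  have hrel : ∀ w ∈ S, w.relf G.O = finrank (IntermediateField.adjoin k {w.red u}) w.RF := by
    intro w hw
    have hg := (hgood w).1 hw
    have hw1 := (hS1 w).1 hw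
    have hcl : Subfield.closure (Set.range fun a : G.O => w.red (algebraMap G.O L3 a)) =
        (IntermediateField.adjoin k {w.red u}).toSubfield := by
      apply le_antisymm
      · rw [Subfield.closure_le]
        rintro _ ⟨⟨f, hf⟩, rfl⟩
        change w.red (algebraMap K0 L3 f) ∈ IntermediateField.adjoin k {w.red u}
        by_cases hf0 : f = 0
        · rw [hf0, map_zero, w.red_zero]; exact zero_mem _
        obtain ⟨n, b, c, hb, hc, rfl⟩ := exists_decomp u0 hu0 htop f hf0
        have hy0 : algebraMap (RR k) K0 (SF.yv k) ≠ 0 := by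
          intro h; rw [h, G.ord_zero] at hG1; omega
        have hn : 0 ≤ n := by
          have := (G.reg_iff hf0).1 hf
          rw [G.ord_mul (zpow_ne_zero _ hy0) (div_ne_zero (hG2 b hb).1 (hG2 c hc).1), G.ord_zpow, hG1,
            G.ord_div (hG2 b hb).1 (hG2 c hc).1, (hG2 b hb).2, (hG2 c hc).2] at this
          omega
        have hc1 : w.red (evO u c) ≠ 0 := by
          rw [hg.ov.red_evO hg.reg]
          intro h0
          exact hc (transcendental_iff.1 hg.tr _ h0)
        have hc2 : evO u c ≠ 0 := by
          rw [← hevmap]; simpa using (hG2 c hc).1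
        have hb2 : evO u b ≠ 0 := by
          rw [← hevmap]; simpa using (hG2 b hb).1
        have hc3 : w.ord (evO u c) = 0 := by
          rw [Ne, w.red_eq_zero_iff (hg.ov.reg_evO hg.reg c)] at hc1
          push Not at hc1
          have := (w.reg_iff hc2).1 (hg.ov.reg_evO hg.reg c)
          omega
        have hq : w.Reg (evO u b / evO u c) := by
          right
          rw [w.ord_div hb2 hc2, hc3, sub_zero]
          exact (w.reg_iff hb2).1 (hg.ov.reg_evO hg.reg b)
        have hqr : w.red (evO u b / evO u c) = w.red (evO u b) / w.red (evO u c) := by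
          rw [eq_div_iff hc1, ← w.red_mul hq (hg.ov.reg_evO hg.reg c), div_mul_cancel₀ _ hc2]
        rw [map_mul, map_zpow₀, map_div₀, hevmap, hevmap, ← IsScalarTower.algebraMap_apply (RR k) K0 L3]
        obtain ⟨n, rfl⟩ := Int.eq_ofNat_of_zero_le hn
        rw [zpow_natCast]
        have hyr : w.Reg (algebraMap (RR k) L3 (SF.yv k)) := Or.inr hg.ov.pos.le
        have hyr0 : w.red (algebraMap (RR k) L3 (SF.yv k)) = 0 := (w.red_eq_zero_iff hyr).2 (Or.inr hg.ov.pos)
        have hyn : w.Reg (algebraMap (RR k) L3 (SF.yv k) ^ n) := by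
          right; rw [w.ord_pow]; have := hg.ov.pos; positivity
        rw [w.red_mul hyn hq, w.red_pow hyr, hyr0, hqr]
        apply mul_mem
        · exact pow_mem (zero_mem _) _
        · apply div_mem
          · rw [hg.ov.red_evO hg.reg]
            exact IntermediateField.algebra_adjoin_le_adjoin _ _ (Polynomial.aeval_mem_adjoin_singleton _ _)
          · rw [hg.ov.red_evO hg.reg]
            exact IntermediateField.algebra_adjoin_le_adjoin _ _ (Polynomial.aeval_mem_adjoin_singleton _ _)
      · intro c hc
        have hc' : c ∈ IntermediateField.adjoin k {w.red u} := hc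
        rw [IntermediateField.mem_adjoin_simple_iff] at hc'
        obtain ⟨r, s, rfl⟩ := hc'
        have hu1 : w.red u ∈ Subfield.closure (Set.range fun a : G.O => w.red (algebraMap G.O L3 a)) := by
          apply Subfield.subset_closure
          have hx : G.Reg u0 := by
            have := hGev Polynomial.X
            simpa [evO] using this
          exact ⟨⟨u0, hx⟩, rfl⟩
        have hk : ∀ c : k, algebraMap k w.RF c ∈ Subfield.closure (Set.range fun a : G.O => w.red (algebraMap G.O L3 a)) := by
          intro c
          apply Subfield.subset_closure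
          refine ⟨algebraMap k G.O c, ?_⟩
          change w.red (algebraMap G.O L3 (algebraMap k G.O c)) = _
          rw [← IsScalarTower.algebraMap_apply k G.O L3]; rfl
        have hp : ∀ p : Polynomial k, Polynomial.aeval (w.red u) p ∈ Subfield.closure (Set.range fun a : G.O => w.red (algebraMap G.O L3 a)) := by
          intro p
          rw [Polynomial.aeval_eq_sum_range]
          apply sum_mem
          intro i _
          rw [Algebra.smul_def]
          exact mul_mem (hk _) (pow_mem hu1 _)
        exact div_mem (hp r) (hp s)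
    unfold Place.relf
    rw [hcl]
    rfl
  refine ⟨S, hgood, ?_, ?_⟩
  · intro w hw
    have h1 := hS2 w hw
    rw [hrel w hw] at h1
    exact IsFF.of_finite ((hgood w).1 hw).tr (FiniteDimensional.of_finrank_pos h1)
  · rw [← hS3]
    refine Finset.sum_congr rfl fun w hw => ?_
    rw [hrel w hw, hfy]

end

end FF
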