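import Pool.Agent.Helper386.D5V.Helper386_FF_Loc1

/-! Degrees of vectors over function fields. -/

set_option autoImplicit false
set_option linter.all false
set_option linter.overlappingInstances false

open Module FF

namespace FF

section
variable {k κ : Type*} [Field k] [Field κ] [Algebra k κ]

/-- `f` vanishes to order at least `n`. -/
def Place.Ge (P : Place k κ) (n : ℤ) (f : κ) : Prop := f = 0 ∨ n ≤ P.ord f

theorem Place.Ge.add {P : Place k κ} {n : ℤ} {f g : κ} (hf : P.Ge n f) (hg : P.Ge n g) : P.Ge n (f + g) := by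
  by_cases h1 : f = 0
  · rwa [h1, zero_add]
  by_cases h2 : g = 0
  · rwa [h2, add_zero]
  by_cases h3 : f + g = 0
  · exact Or.inl h3
  · right
    exact (le_min (hf.resolve_left h1) (hg.resolve_left h2)).trans (P.ord_add h1 h2 h3)

theorem Place.Ge.mul {P : Place k κ} {n m : ℤ} {f g : κ} (hf : P.Ge n f) (hg : P.Ge m g) : P.Ge (n + m) (f * g) := by
  by_cases h1 : f = 0
  · left; rw [h1, zero_mul]
  by_cases h2 : g = 0
  · left; rw [h2, mul_zero]
  right
  rw [P.ord_mul h1 h2]
  exact add_le_add (hf.resolve_left h1) (hg.resolve_left h2)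

theorem Place.Ge.const {P : Place k κ} (c : k) : P.Ge 0 (algebraMap k κ c) := by
  by_cases h : c = 0
  · left; simp [h]
  · right; rw [P.ord_const h]

theorem Place.Ge.const_mul {P : Place k κ} {n : ℤ} {f : κ} (hf : P.Ge n f) (c : k) :
    P.Ge n (algebraMap k κ c * f) := by
  have := (Place.Ge.const (P := P) c).mul hf
  rwa [zero_add] at this

theorem Place.Ge.neg {P : Place k κ} {n : ℤ} {f : κ} (hf : P.Ge n f) : P.Ge n (-f) := by
  rcases hf with h | h
  · left; rw [h, neg_zero]
  · right; rwa [P.ord_neg]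

theorem Place.Ge.sub {P : Place k κ} {n : ℤ} {f g : κ} (hf : P.Ge n f) (hg : P.Ge n g) : P.Ge n (f - g) := by
  rw [sub_eq_add_neg]; exact hf.add hg.neg

/-- `n` is the minimal order at `P` of the entries of `V`. -/
def IsMin (P : Place k κ) (V : Fin 3 → κ) (n : ℤ) : Prop :=
  (∀ j, P.Ge n (V j)) ∧ ∃ j, V j ≠ 0 ∧ P.ord (V j) = n

theorem IsMin.unique {P : Place k κ} {V : Fin 3 → κ} {n m : ℤ} (h1 : IsMin P V n) (h2 : IsMin P V m) :
    n = m := by
  obtain ⟨i, hi0, hi⟩ := h1.2
  obtain ⟨j, hj0, hj⟩ := h2.2
  have := (h1.1 j).resolve_left hj0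
  have := (h2.1 i).resolve_left hi0
  omega

theorem exists_isMin (P : Place k κ) {V : Fin 3 → κ} (hV : ∃ j, V j ≠ 0) : ∃ n, IsMin P V n := by
  classical
  have hne : (Finset.univ.filter (fun j => V j ≠ 0)).Nonempty := by
    obtain ⟨j, hj⟩ := hV
    exact ⟨j, by simp [hj]⟩
  obtain ⟨j, hj, hmin⟩ := Finset.exists_min_image _ (fun j => P.ord (V j)) hne
  rw [Finset.mem_filter] at hj
  refine ⟨P.ord (V j), ?_, j, hj.2, rfl⟩
  intro i
  by_cases hi : V i = 0
  · exact Or.inl hi
  · right; exact hmin i (by simp [hi])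

theorem IsMin.smul {P : Place k κ} {V : Fin 3 → κ} {n : ℤ} (h : IsMin P V n) {f : κ} (hf : f ≠ 0) :
    IsMin P (fun j => f * V j) (P.ord f + n) := by
  constructor
  · intro j
    rcases h.1 j with h0 | h1
    · left; simp [h0]
    · by_cases h0 : V j = 0
      · left; simp [h0]
      · right; rw [P.ord_mul hf h0]; omega
  · obtain ⟨j, hj0, hj⟩ := h.2
    exact ⟨j, mul_ne_zero hf hj0, by rw [P.ord_mul hf hj0, hj]⟩

/-- the twisted cyclic shift -/
def Phi (x : κ) (V : Fin 3 → κ) : Fin 3 → κ := ![V 1, V 2, x * V 0]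

theorem IsMin.phi {P : Place k κ} {V : Fin 3 → κ} {n : ℤ} (h : IsMin P V n) {x : κ} (hx : x ≠ 0)
    (hx0 : P.ord x = 0) : IsMin P (Phi x V) n := by
  have h0 : P.Ge n (x * V 0) := by
    have h' : P.Ge 0 x := Or.inr hx0.ge
    have := h'.mul (h.1 0)
    rwa [zero_add] at this
  constructor
  · intro j
    fin_cases j
    · exact h.1 1
    · exact h.1 2
    · exact h0
  · obtain ⟨j, hj0, hj⟩ := h.2
    fin_cases j
    · refine ⟨2, mul_ne_zero hx hj0, ?_⟩
      have h1 := P.ord_mul hx hj0
      rw [hx0, zero_add] at h1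
      exact h1.trans hj
    · exact ⟨0, hj0, hj⟩
    · exact ⟨1, hj0, hj⟩

section div
variable [CharZero k] [IsFF k κ]

open Classical in
/-- minus the minimal divisor of a vector -/
noncomputable def md (k : Type*) {κ : Type*} [Field k] [Field κ] [Algebra k κ] [CharZero k] [IsFF k κ]
    (V : Fin 3 → κ) : Place k κ →₀ ℤ :=
  Finsupp.ofSupportFinite (fun P => if h : ∃ n, IsMin P V n then - h.choose else 0) (by
    have h1 : (⋃ j, {P : Place k κ | P.ord (V j) ≠ 0}).Finite :=
      Set.finite_iUnion (fun j => finite_support (V j))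
    refine h1.subset ?_
    intro P hP
    rw [Function.mem_support] at hP
    by_cases h : ∃ n, IsMin P V n
    · rw [dif_pos h] at hP
      obtain ⟨j, hj0, hj⟩ := h.choose_spec.2
      rw [Set.mem_iUnion]
      refine ⟨j, ?_⟩
      simp only [Set.mem_setOf_eq]
      rw [hj]
      omega
    · rw [dif_neg h] at hP; exact absurd rfl hP)

theorem md_spec {V : Fin 3 → κ} (hV : ∃ j, V j ≠ 0) (P : Place k κ) : IsMin P V (- md k V P) := by
  have h := exists_isMin P hV
  have : md k V P = - h.choose := dif_pos h
  rw [this, neg_neg]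
  exact h.choose_spec

theorem md_eq {V : Fin 3 → κ} {P : Place k κ} {n : ℤ} (h : IsMin P V n) : md k V P = - n := by
  obtain ⟨j, hj, -⟩ := h.2
  have := (md_spec ⟨j, hj⟩ P).unique h
  omega

theorem md_smul {V : Fin 3 → κ} (hV : ∃ j, V j ≠ 0) {f : κ} (hf : f ≠ 0) :
    md k (fun j => f * V j) = md k V - divisor k f := by
  ext P
  rw [md_eq ((md_spec hV P).smul hf), Finsupp.sub_apply, divisor_apply]
  ring

theorem ddeg_md_smul {V : Fin 3 → κ} (hV : ∃ j, V j ≠ 0) {f : κ} (hf : f ≠ 0) :
    ddeg (md k (fun j => f * V j)) = ddeg (md k V) := by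
  rw [md_smul hV hf, ddeg_sub, ddeg_divisor, sub_zero]

theorem md_phi {V : Fin 3 → κ} (hV : ∃ j, V j ≠ 0) {x : k} (hx : x ≠ 0) :
    md k (Phi (algebraMap k κ x) V) = md k V := by
  ext P
  rw [md_eq ((md_spec hV P).phi (by simpa using hx) (P.ord_const hx)), neg_neg]

open Classical in
theorem ddeg_md_eq {V : Fin 3 → κ} (hV : ∃ j, V j ≠ 0) (p1 p2 : k)
    (H : ∀ P : Place k κ, V 0 ≠ 0 → P.ord (V 0) = - md k V P →
      P.Ge (- md k V P + 1) (V 1 - algebraMap k κ p1 * V 0) →
      P.Ge (- md k V P + 1) (V 2 - algebraMap k κ p2 * V 0) → False)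
    (hab : ¬ (V 1 - algebraMap k κ p1 * V 0 = 0 ∧ V 2 - algebraMap k κ p2 * V 0 = 0)) :
    ddeg (md k V) = if Transcendental k ((V 1 - algebraMap k κ p1 * V 0) / (V 2 - algebraMap k κ p2 * V 0))
      then (finrank (IntermediateField.adjoin k
        {(V 1 - algebraMap k κ p1 * V 0) / (V 2 - algebraMap k κ p2 * V 0)}) κ : ℤ) else 0 := by
  set a := V 1 - algebraMap k κ p1 * V 0 with ha
  set b := V 2 - algebraMap k κ p2 * V 0 with hb
  have h1 : ∀ P : Place k κ, P.Ge (- md k V P) a ∧ P.Ge (- md k V P) b := by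
    intro P
    have h := (md_spec hV P).1
    exact ⟨(h 1).sub ((h 0).const_mul p1), (h 2).sub ((h 0).const_mul p2)⟩
  have h2 : ∀ P : Place k κ, (a ≠ 0 ∧ P.ord a = - md k V P) ∨ (b ≠ 0 ∧ P.ord b = - md k V P) := by
    intro P
    by_contra hc
    push Not at hc
    have ha1 : P.Ge (- md k V P + 1) a := by
      rcases (h1 P).1 with h | h
      · exact Or.inl h
      · by_cases h0 : a = 0
        · exact Or.inl h0
        · right; have := hc.1 h0; omega
    have hb1 : P.Ge (- md k V P + 1) b := by
      rcases (h1 P).2 with h | h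
      · exact Or.inl h
      · by_cases h0 : b = 0
        · exact Or.inl h0
        · right; have := hc.2 h0; omega
    -- V 0 has minimal order
    have hmin := md_spec hV P
    have h0 : V 0 ≠ 0 ∧ P.ord (V 0) = - md k V P := by
      by_contra hc0
      have hV0 : P.Ge (- md k V P + 1) (V 0) := by
        by_cases h0 : V 0 = 0
        · exact Or.inl h0
        · right
          have := (hmin.1 0).resolve_left h0
          have h3 : P.ord (V 0) ≠ - md k V P := fun h => hc0 ⟨h0, h⟩
          omega
      have hV1 : P.Ge (- md k V P + 1) (V 1) := by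
        have : V 1 = a + algebraMap k κ p1 * V 0 := by rw [ha]; ring
        rw [this]; exact ha1.add (hV0.const_mul p1)
      have hV2 : P.Ge (- md k V P + 1) (V 2) := by
        have : V 2 = b + algebraMap k κ p2 * V 0 := by rw [hb]; ring
        rw [this]; exact hb1.add (hV0.const_mul p2)
      obtain ⟨j, hj0, hj⟩ := hmin.2
      fin_cases j
      · have := hV0.resolve_left hj0; simp only [Fin.zero_eta, Fin.isValue] at hj; omega
      · have := hV1.resolve_left hj0; simp only [Fin.mk_one, Fin.isValue] at hj; omega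
      · have := hV2.resolve_left hj0; simp only [Fin.reduceFinMk, Fin.isValue] at hj; omega
    exact H P h0.1 h0.2 ha1 hb1
  by_cases hb0 : b = 0
  · have ha0 : a ≠ 0 := fun h => hab ⟨h, hb0⟩
    have h3 : md k V = - divisor k a := by
      ext P
      rw [Finsupp.neg_apply, divisor_apply]
      rcases h2 P with h | h
      · omega
      · exact absurd hb0 h.1
    have h4 : ¬ Transcendental k (a / b) := by
      rw [hb0, div_zero]; intro h; exact h isAlgebraic_zero
    rw [if_neg h4, h3, ddeg_neg, ddeg_divisor, neg_zero]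
  by_cases ha0 : a = 0
  · have h3 : md k V = - divisor k b := by
      ext P
      rw [Finsupp.neg_apply, divisor_apply]
      rcases h2 P with h | h
      · exact absurd ha0 h.1
      · omega
    have h4 : ¬ Transcendental k (a / b) := by
      rw [ha0, zero_div]; intro h; exact h isAlgebraic_zero
    rw [if_neg h4, h3, ddeg_neg, ddeg_divisor, neg_zero]
  have h3 : md k V = - divisor k b + polar (a / b) := by
    ext P
    rw [Finsupp.add_apply, Finsupp.neg_apply, divisor_apply, polar_apply, P.ord_div ha0 hb0]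
    have h4 := (h1 P).1.resolve_left ha0
    have h5 := (h1 P).2.resolve_left hb0
    rcases h2 P with h | h
    · rw [max_def]; split_ifs <;> omega
    · rw [max_def]; split_ifs <;> omega
  rw [h3, ddeg_add, ddeg_neg, ddeg_divisor, neg_zero, zero_add]
  split_ifs with h4
  · exact ddeg_polar h4
  · have h5 : IsAlgebraic k (a / b) := by
      by_contra hc; exact h4 hc
    have h6 : polar (k := k) (a / b) = 0 := by
      ext P
      rw [polar_apply, P.ord_eq_zero_of_isAlgebraic (div_ne_zero ha0 hb0) h5]
      simp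
    rw [h6, ddeg_zero]

theorem ddeg_md_nonneg {V : Fin 3 → κ} (hV : ∃ j, V j ≠ 0) : 0 ≤ ddeg (md k V) := by
  obtain ⟨j, hj⟩ := hV
  have h1 : - divisor k (V j) ≤ md k V := by
    intro P
    rw [Finsupp.neg_apply, divisor_apply]
    have := ((md_spec ⟨j, hj⟩ P).1 j).resolve_left hj
    omega
  have := ddeg_mono h1
  rw [ddeg_neg, ddeg_divisor] at this
  omega

end div
end

/-! Sums over orbits of a map of order three. -/

theorem dvd_sum_orbits {α : Type*} [DecidableEq α] (σ : α → α) (h3 : ∀ a, σ (σ (σ a)) = a) (N : ℤ) (f : α → ℤ)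
    (hf : ∀ a, f (σ a) = f a) : ∀ (n : ℕ) (S : Finset α), S.card = n → (∀ a ∈ S, σ a ∈ S) →
    (∀ a ∈ S, σ a = a → N ∣ f a) → (∀ a ∈ S, σ a ≠ a → N ∣ 3 * f a) → N ∣ ∑ a ∈ S, f a := by
  intro n
  induction n using Nat.strong_induction_on with
  | _ n ih =>
    intro S hn hS h1 h2
    rcases S.eq_empty_or_nonempty with rfl | ⟨a, ha⟩
    · simp
    by_cases haf : σ a = a
    · have hS' : ∀ b ∈ S.erase a, σ b ∈ S.erase a := by
        intro b hb
        rw [Finset.mem_erase] at hb ⊢
        refine ⟨?_, hS b hb.2⟩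
        intro h
        apply hb.1
        have := h3 b
        rw [h, haf, haf] at this
        exact this.symm
      have := ih (S.erase a).card (by rw [← hn]; exact Finset.card_erase_lt_of_mem ha) (S.erase a) rfl hS'
        (fun b hb => h1 b (Finset.mem_of_mem_erase hb)) (fun b hb => h2 b (Finset.mem_of_mem_erase hb))
      rw [← Finset.add_sum_erase S f ha]
      exact dvd_add (h1 a ha haf) this
    · let T : Finset α := {a, σ a, σ (σ a)}
      have hd1 : a ≠ σ a := fun h => haf h.symm
      have hd2 : a ≠ σ (σ a) := by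
        intro h
        apply haf
        have := h3 a
        rw [← h] at this
        exact this
      have hd3 : σ a ≠ σ (σ a) := by
        intro h
        apply haf
        have e1 : σ (σ (σ a)) = σ (σ a) := congrArg σ h.symm
        rw [h3 a] at e1
        rw [← h] at e1
        exact e1.symm
      have hT : T ⊆ S := by
        intro b hb
        simp only [T, Finset.mem_insert, Finset.mem_singleton] at hb
        rcases hb with rfl | rfl | rfl
        · exact ha
        · exact hS _ ha
        · exact hS _ (hS _ ha)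
      have hsum : ∑ b ∈ T, f b = 3 * f a := by
        rw [Finset.sum_insert (by simp [hd1, hd2]), Finset.sum_insert (by simp [hd3]), Finset.sum_singleton,
          hf, hf, hf]
        ring
      have hS' : ∀ b ∈ S \ T, σ b ∈ S \ T := by
        intro b hb
        rw [Finset.mem_sdiff] at hb ⊢
        refine ⟨hS b hb.1, ?_⟩
        intro h
        apply hb.2
        simp only [T, Finset.mem_insert, Finset.mem_singleton] at h ⊢
        rcases h with h | h | h
        · right; right; rw [← h, h3]
        · left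
          have := congrArg σ (congrArg σ h)
          rw [h3, h3] at this; exact this
        · right; left
          have := congrArg σ (congrArg σ h)
          rw [h3, h3] at this; exact this
      have hcard : (S \ T).card < n := by
        rw [← hn]
        apply Finset.card_lt_card
        rw [Finset.ssubset_iff_of_subset Finset.sdiff_subset]
        exact ⟨a, ha, by simp [T]⟩
      have := ih _ hcard (S \ T) rfl hS' (fun b hb => h1 b (Finset.mem_sdiff.1 hb).1)
        (fun b hb => h2 b (Finset.mem_sdiff.1 hb).1)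
      rw [← Finset.sum_sdiff hT]
      apply dvd_add this
      rw [hsum]
      exact h2 a ha haf

end FF
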