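import Pool.Agent.Helper386.D5V.Helper386_FF_Loc5

/-! Key lemma: residue degrees are degrees of the reduced vectors. -/

set_option autoImplicit false
set_option linter.all false
set_option linter.overlappingInstances false

open Module FF

attribute [-instance] HahnSeries.powerSeriesAlgebra

namespace FF

section
variable {k κ : Type*} [Field k] [Field κ] [Algebra k κ]

theorem Place.red_eval (P : Place k κ) {c : Fin 2 → κ} (hc : ∀ i, P.Reg (c i)) (W : MvPolynomial (Fin 2) k) :
    P.red (MvPolynomial.eval₂ (algebraMap k κ) c W) =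
      MvPolynomial.eval₂ (algebraMap k P.RF) (fun i => P.red (c i)) W := by
  let φ : MvPolynomial (Fin 2) k →+* κ := MvPolynomial.eval₂Hom (algebraMap k κ) c
  have hφC : ∀ a, φ (MvPolynomial.C a) = algebraMap k κ a := fun a => MvPolynomial.eval₂_C _ _ a
  have hφX : ∀ i, φ (MvPolynomial.X i) = c i := fun i => MvPolynomial.eval₂_X _ _ i
  have hreg : ∀ q, P.Reg (φ q) := by
    intro q
    induction q using MvPolynomial.induction_on with
    | C a => rw [hφC]; exact P.reg_const a
    | add p q hp hq => rw [map_add]; exact P.reg_add hp hq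
    | mul_X p i hp =>
      rw [map_mul, hφX]
      exact P.reg_mul hp (hc i)
  let ψ : MvPolynomial (Fin 2) k →+* P.RF := MvPolynomial.eval₂Hom (algebraMap k P.RF) (fun i => P.red (c i))
  have hψC : ∀ a, ψ (MvPolynomial.C a) = algebraMap k P.RF a := fun a => MvPolynomial.eval₂_C _ _ a
  have hψX : ∀ i, ψ (MvPolynomial.X i) = P.red (c i) := fun i => MvPolynomial.eval₂_X _ _ i
  have hh : (P.redHom φ hreg) = ψ := by
    apply MvPolynomial.ringHom_ext
    · intro a
      have e1 : (P.redHom φ hreg) (MvPolynomial.C a) = P.red (φ (MvPolynomial.C a)) := rfl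
      rw [e1, hφC, hψC]; rfl
    · intro i
      have e1 : (P.redHom φ hreg) (MvPolynomial.X i) = P.red (φ (MvPolynomial.X i)) := rfl
      rw [e1, hφX, hψX]
  have h3 : (P.redHom φ hreg) W = ψ W := by rw [hh]
  exact h3

theorem eval₂_const_ne {W : MvPolynomial (Fin 2) k} {p : Fin 2 → k} (hp : MvPolynomial.eval p W ≠ 0) :
    MvPolynomial.eval₂ (algebraMap k κ) (fun i => algebraMap k κ (p i)) W ≠ 0 := by
  have h1 : MvPolynomial.eval₂ (algebraMap k κ) (fun i => algebraMap k κ (p i)) W = algebraMap k κ (MvPolynomial.eval p W) := by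
    rw [← MvPolynomial.eval₂_id, MvPolynomial.hom_eval₂]
    rfl
  rw [h1]
  simpa using hp

end

section
variable {k : Type} [Field k] {L3 : Type} [Field L3] [Algebra (RR k) L3] [Algebra k L3]
  [IsScalarTower k (RR k) L3] [CharZero k]

theorem key (w : Place k L3) (hw : OverY w) [IsFF k w.RF] (g g' : L3) (W : MvPolynomial (Fin 2) k)
    (hW : w.Reg g → w.Reg (g * g') → MvPolynomial.eval₂ (algebraMap k w.RF) ![w.red g, w.red (g * g')] W = 0)
    (p : Fin 2 → k) (hp : MvPolynomial.eval p W ≠ 0) (hB : g * g' - algebraMap k L3 (p 1) ≠ 0) :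
    (GoodU w ((g - algebraMap k L3 (p 0)) / (g * g' - algebraMap k L3 (p 1))) →
      dl w (Xv g g') = finrank (IntermediateField.adjoin k
        {w.red ((g - algebraMap k L3 (p 0)) / (g * g' - algebraMap k L3 (p 1)))}) w.RF) ∧
    (dl w (Xv g g') ≠ 0 → GoodU w ((g - algebraMap k L3 (p 0)) / (g * g' - algebraMap k L3 (p 1)))) := by
  obtain ⟨f, hf, hmin⟩ := isMin_exists_scale w (X := Xv g g') ⟨0, by simp [Xv]⟩
  set V := rv w f (Xv g g') with hV
  have hVne : ∃ j, V j ≠ 0 := rv_ne hf hmin
  have hr0 : w.Reg (f * 1) := reg_scaled hf hmin 0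
  have hr1 : w.Reg (f * g) := reg_scaled hf hmin 1
  have hr2 : w.Reg (f * (g * g')) := reg_scaled hf hmin 2
  have hV0 : V 0 = w.red (f * 1) := rfl
  have hV1 : V 1 = w.red (f * g) := rfl
  have hV2 : V 2 = w.red (f * (g * g')) := rfl
  set A := g - algebraMap k L3 (p 0) with hA
  set B := g * g' - algebraMap k L3 (p 1) with hBd
  have hrA : w.Reg (f * A) := by
    have : f * A = f * g - algebraMap k L3 (p 0) * (f * 1) := by rw [hA]; ring
    rw [this, sub_eq_add_neg]
    exact w.reg_add hr1 (w.reg_neg (w.reg_mul (w.reg_const _) hr0))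
  have hrB : w.Reg (f * B) := by
    have : f * B = f * (g * g') - algebraMap k L3 (p 1) * (f * 1) := by rw [hBd]; ring
    rw [this, sub_eq_add_neg]
    exact w.reg_add hr2 (w.reg_neg (w.reg_mul (w.reg_const _) hr0))
  have ha : V 1 - algebraMap k w.RF (p 0) * V 0 = w.red (f * A) := by
    have : f * A = f * g - algebraMap k L3 (p 0) * (f * 1) := by rw [hA]; ring
    rw [this, w.red_sub hr1 (w.reg_mul (w.reg_const _) hr0), w.red_mul (w.reg_const _) hr0, hV0, hV1]
    rfl
  have hb : V 2 - algebraMap k w.RF (p 1) * V 0 = w.red (f * B) := by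
    have : f * B = f * (g * g') - algebraMap k L3 (p 1) * (f * 1) := by rw [hBd]; ring
    rw [this, w.red_sub hr2 (w.reg_mul (w.reg_const _) hr0), w.red_mul (w.reg_const _) hr0, hV0, hV2]
    rfl
  -- relation in terms of V
  have hrel : V 0 ≠ 0 → MvPolynomial.eval₂ (algebraMap k w.RF) ![V 1 / V 0, V 2 / V 0] W = 0 := by
    intro h0
    have hof : w.ord f = 0 := by
      by_contra hne
      have h1 : 0 ≤ w.ord (f * 1) := (w.reg_iff (by simpa using hf)).1 hr0
      rw [mul_one] at h1
      apply h0
      rw [hV0, mul_one, w.red_eq_zero_iff (by rw [← mul_one f]; exact hr0)]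
      right; omega
    have hrf : w.Reg f := Or.inr hof.ge
    have hrg : w.Reg g := by
      rcases hmin.1 1 with h | h
      · exact Or.inl h
      · right; have : - w.ord f ≤ w.ord g := h; omega
    have hrg' : w.Reg (g * g') := by
      rcases hmin.1 2 with h | h
      · exact Or.inl h
      · right; have : - w.ord f ≤ w.ord (g * g') := h; omega
    have h2 := hW hrg hrg'
    have e1 : V 1 / V 0 = w.red g := by
      rw [div_eq_iff h0, hV0, hV1, mul_one, w.red_mul hrf hrg, mul_comm]
    have e2 : V 2 / V 0 = w.red (g * g') := by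
      rw [div_eq_iff h0, hV0, hV2, mul_one, w.red_mul hrf hrg', mul_comm]
    rw [e1, e2]; exact h2
  have hab : ¬ (V 1 - algebraMap k w.RF (p 0) * V 0 = 0 ∧ V 2 - algebraMap k w.RF (p 1) * V 0 = 0) := by
    rintro ⟨h1, h2⟩
    have h0 : V 0 ≠ 0 := by
      intro h0
      rw [h0, mul_zero, sub_zero] at h1 h2
      obtain ⟨j, hj⟩ := hVne
      fin_cases j
      · exact hj h0
      · exact hj h1
      · exact hj h2
    have h3 := hrel h0
    apply eval₂_const_ne (κ := w.RF) hp
    have e1 : V 1 / V 0 = algebraMap k w.RF (p 0) := by rw [div_eq_iff h0]; exact sub_eq_zero.1 h1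
    have e2 : V 2 / V 0 = algebraMap k w.RF (p 1) := by rw [div_eq_iff h0]; exact sub_eq_zero.1 h2
    rw [e1, e2] at h3
    convert h3 using 2
    funext i
    fin_cases i <;> rfl
  have hdd := ddeg_md_eq hVne (p 0) (p 1) (by
    intro P h0 hord hGa hGb
    have h3 := hrel h0
    have g1 : P.Ge 1 (V 1 / V 0 - algebraMap k w.RF (p 0)) := by
      have e : V 1 / V 0 - algebraMap k w.RF (p 0) = (V 1 - algebraMap k w.RF (p 0) * V 0) * (V 0)⁻¹ := by
        field_simp
      rw [e]
      have h4 : P.Ge (md k V P) (V 0)⁻¹ := by right; rw [P.ord_inv, hord]; omega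
      have := hGa.mul h4
      rwa [show - md k V P + 1 + md k V P = 1 by ring] at this
    have g2 : P.Ge 1 (V 2 / V 0 - algebraMap k w.RF (p 1)) := by
      have e : V 2 / V 0 - algebraMap k w.RF (p 1) = (V 2 - algebraMap k w.RF (p 1) * V 0) * (V 0)⁻¹ := by
        field_simp
      rw [e]
      have h4 : P.Ge (md k V P) (V 0)⁻¹ := by right; rw [P.ord_inv, hord]; omega
      have := hGb.mul h4
      rwa [show - md k V P + 1 + md k V P = 1 by ring] at this
    have gen : ∀ (c : w.RF) (q : k), P.Ge 1 (c - algebraMap k w.RF q) → P.Reg c ∧ P.red c = algebraMap k P.RF q := by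
      intro c q hc
      have hr : P.Reg (c - algebraMap k w.RF q) := by
        rcases hc with h | h
        · exact Or.inl h
        · right; omega
      have hcr : P.Reg c := by
        have : c = (c - algebraMap k w.RF q) + algebraMap k w.RF q := by ring
        rw [this]; exact P.reg_add hr (P.reg_const q)
      refine ⟨hcr, ?_⟩
      have h5 : P.red (c - algebraMap k w.RF q) = 0 := by
        rw [P.red_eq_zero_iff hr]
        rcases hc with h | h
        · exact Or.inl h
        · right; omega
      rw [P.red_sub hcr (P.reg_const q), sub_eq_zero] at h5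
      exact h5
    obtain ⟨r1, v1⟩ := gen _ _ g1
    obtain ⟨r2, v2⟩ := gen _ _ g2
    have h6 := P.red_eval (c := ![V 1 / V 0, V 2 / V 0]) (by intro i; fin_cases i; exacts [r1, r2]) W
    rw [h3, P.red_zero] at h6
    apply eval₂_const_ne (κ := P.RF) hp
    rw [eq_comm] at h6
    convert h6 using 2
    funext i
    fin_cases i
    · exact v1.symm
    · exact v2.symm) hab
  rw [ha, hb] at hdd hab
  have hdl : dl w (Xv g g') = ddeg (md k V) := dl_eq hf hmin
  have hfB : f * B ≠ 0 := mul_ne_zero hf hB
  have hmulu : A / B * (f * B) = f * A := by field_simp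
  constructor
  · intro hG
    have hu0 : A / B ≠ 0 := by
      intro h
      have := hG.tr
      rw [h, w.red_zero] at this
      exact this isAlgebraic_zero
    have hA0 : A ≠ 0 := by intro h; rw [h, zero_div] at hu0; exact hu0 rfl
    have hfA : f * A ≠ 0 := mul_ne_zero hf hA0
    have hru : w.red (A / B) ≠ 0 := by
      intro h
      have := hG.tr
      rw [h] at this
      exact this isAlgebraic_zero
    have hou : w.ord (A / B) = 0 := by
      have h1 := (w.reg_iff hu0).1 hG.reg
      by_contra hne
      apply hru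
      rw [w.red_eq_zero_iff hG.reg]
      right; omega
    have hoo : w.ord (f * A) = w.ord (f * B) := by
      rw [← hmulu, w.ord_mul hu0 hfB, hou, zero_add]
    have hbne : w.red (f * B) ≠ 0 := by
      intro h
      have h1 := (w.red_eq_zero_iff hrB).1 h
      apply hab
      refine ⟨?_, h⟩
      rw [w.red_eq_zero_iff hrA]
      right
      rw [hoo]
      exact h1.resolve_left hfB
    have hredu : w.red (f * A) / w.red (f * B) = w.red (A / B) := by
      rw [div_eq_iff hbne, ← w.red_mul hG.reg hrB, hmulu]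
    rw [hredu, if_pos hG.tr] at hdd
    rw [hdl, hdd]
  · intro hne
    rw [hdl, hdd] at hne
    have htr : Transcendental k (w.red (f * A) / w.red (f * B)) := by
      by_contra hc
      rw [if_neg hc] at hne
      exact hne rfl
    have hbne : w.red (f * B) ≠ 0 := by
      intro h; rw [h, div_zero] at htr; exact htr isAlgebraic_zero
    have hane : w.red (f * A) ≠ 0 := by
      intro h; rw [h, zero_div] at htr; exact htr isAlgebraic_zero
    have hfA : f * A ≠ 0 := by intro h; rw [h, w.red_zero] at hane; exact hane rfl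
    have hoB : w.ord (f * B) = 0 := by
      have h1 := (w.reg_iff hfB).1 hrB
      by_contra hc
      apply hbne; rw [w.red_eq_zero_iff hrB]; right; omega
    have hoA : w.ord (f * A) = 0 := by
      have h1 := (w.reg_iff hfA).1 hrA
      by_contra hc
      apply hane; rw [w.red_eq_zero_iff hrA]; right; omega
    have hA0 : A ≠ 0 := right_ne_zero_of_mul hfA
    have hu0 : A / B ≠ 0 := div_ne_zero hA0 hB
    have hou : w.ord (A / B) = 0 := by
      have h1 : w.ord (f * A) = w.ord (A / B) + w.ord (f * B) := by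
        rw [← hmulu, w.ord_mul hu0 hfB]
      omega
    have hregu : w.Reg (A / B) := Or.inr hou.ge
    refine ⟨hw, hregu, ?_⟩
    have hredu : w.red (f * A) / w.red (f * B) = w.red (A / B) := by
      rw [div_eq_iff hbne, ← w.red_mul hregu hrB, hmulu]
    rw [← hredu]; exact htr

/-- the degree of the reduced vector is invariant under the twisted automorphism -/
theorem dl_comp (w : Place k L3) [IsFF k w.RF] (s : L3 ≃ₐ[k] L3) (g : L3) (x : k) (hx : x ≠ 0)
    (hg : g * s g * s (s g) = algebraMap k L3 x) :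
    IsFF k (w.comp s).RF ∧ dl (w.comp s) (Xv g (s g)) = dl w (Xv g (s g)) := by
  let ι : (w.comp s).RF ≃ₐ[k] w.RF := resIso (w.comp s) w s (fun _ => rfl)
  haveI : IsFF k (w.comp s).RF := IsFF.transport ι.symm
  refine ⟨inferInstance, ?_⟩
  have hxL : algebraMap k L3 x ≠ 0 := by simpa using hx
  have hg0 : g ≠ 0 := by rintro rfl; rw [zero_mul, zero_mul] at hg; exact hxL hg.symm
  obtain ⟨f, hf, hmin⟩ := isMin_exists_scale (w.comp s) (X := Xv g (s g)) ⟨0, by simp [Xv]⟩
  have hsX : ∀ j, s (Xv g (s g) j) = g⁻¹ * Phi (algebraMap k L3 x) (Xv g (s g)) j := by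
    intro j
    fin_cases j
    · change s 1 = g⁻¹ * g
      rw [map_one, inv_mul_cancel₀ hg0]
    · change s g = g⁻¹ * (g * s g)
      field_simp
    · change s (g * s g) = g⁻¹ * (algebraMap k L3 x * 1)
      rw [← hg, map_mul]; field_simp
  let f1 : L3 := s f * g⁻¹
  have hsf : s f ≠ 0 := by simpa using hf
  have hf1 : f1 ≠ 0 := mul_ne_zero hsf (inv_ne_zero hg0)
  have hmin1 : IsMin w (fun j => s (Xv g (s g) j)) (- w.ord (s f)) := by
    have := (isMin_pull' w s (Xv g (s g)) (- (w.comp s).ord f)).1 hmin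
    exact this
  obtain ⟨n, hn⟩ := exists_isMin w (V := Xv g (s g)) ⟨0, by simp [Xv]⟩
  have hn1 : IsMin w (Phi (algebraMap k L3 x) (Xv g (s g))) n := hn.phi hxL (w.ord_const hx)
  have hn2 : IsMin w (fun j => s (Xv g (s g) j)) (w.ord g⁻¹ + n) := by
    have := hn1.smul (inv_ne_zero hg0)
    have e : (fun j => s (Xv g (s g) j)) = (fun j => g⁻¹ * Phi (algebraMap k L3 x) (Xv g (s g)) j) := funext hsX
    rw [e]; exact this
  have hn3 := hmin1.unique hn2
  have hminf1 : IsMin w (Xv g (s g)) (- w.ord f1) := by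
    have : - w.ord f1 = n := by
      simp only [f1]
      rw [w.ord_mul hsf (inv_ne_zero hg0)]
      omega
    rw [this]; exact hn
  rw [dl_eq hf hmin, dl_eq hf1 hminf1, ddeg_md_pull ι (rv_ne hf hmin)]
  have e : (fun j => ι (rv (w.comp s) f (Xv g (s g)) j)) =
      Phi (algebraMap k w.RF x) (rv w f1 (Xv g (s g))) := by
    funext j
    have h1 : ι (rv (w.comp s) f (Xv g (s g)) j) = w.red (s (f * Xv g (s g) j)) :=
      resIso_red (w.comp s) w s (fun _ => rfl) (reg_scaled hf hmin j)
    rw [h1, map_mul, hsX, ← mul_assoc]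
    fin_cases j
    · rfl
    · rfl
    · change w.red (s f * g⁻¹ * (algebraMap k L3 x * 1)) = algebraMap k w.RF x * w.red (f1 * 1)
      have hh : w.Reg (f1 * 1) := reg_scaled hf1 hminf1 0
      rw [Place.algebraMap_RF, ← w.red_mul (w.reg_const x) hh]
      congr 1
      simp only [f1]; ring
  rw [e, md_phi (rv_ne hf1 hminf1) hx]

end
end FF
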