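import Pool.Agent.Helper386.D5V.Helper386_FF_Loc6

/-! Divisibility on cyclic cubic extensions of function fields. -/

set_option autoImplicit false
set_option linter.all false
set_option linter.overlappingInstances false

open Module FF

namespace FF

section
variable {k K K' : Type*} [Field k] [Field K] [Field K'] [Algebra k K] [Algebra k K'] [Algebra K K']
  [IsScalarTower k K K']

theorem exists_over_alg [Algebra.IsAlgebraic K K'] (w : Place k K') :
    ∃ (e : ℕ) (w0 : Place k K), Over w w0 e := by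
  apply exists_over
  by_contra hc
  push Not at hc
  let w' : Place K K' :=
    { ord := w.ord
      ord_zero := w.ord_zero
      ord_mul := w.ord_mul
      ord_add := w.ord_add
      ord_const := fun {c} _ => hc c
      surj := w.surj }
  obtain ⟨t, ht0, ht⟩ := w'.surj
  have := w'.ord_eq_zero_of_isAlgebraic ht0 (Algebra.IsAlgebraic.isAlgebraic t)
  omega

theorem Over.deg_eq {w : Place k K'} {w0 : Place k K} {e : ℕ} (h : Over w w0 e)
    (hs : Function.Surjective h.resMap) : w.deg = w0.deg :=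
  ((AlgEquiv.ofBijective h.resMap ⟨h.resMap.toRingHom.injective, hs⟩).toLinearEquiv.finrank_eq).symm

theorem Over.deg_eq_mul {w : Place k K'} {w0 : Place k K} {e : ℕ} (h : Over w w0 e) (n : ℕ)
    (hn : @finrank w0.RF w.RF _ _ h.resMap.toRingHom.toAlgebra.toModule = n) : w.deg = w0.deg * n := by
  letI : Algebra w0.RF w.RF := h.resMap.toRingHom.toAlgebra
  haveI : IsScalarTower k w0.RF w.RF := IsScalarTower.of_algebraMap_eq (fun c => (h.resMap.commutes c).symm)
  unfold Place.deg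
  rw [← Module.finrank_mul_finrank k w0.RF w.RF]
  congr 1

/-- an automorphism fixing `K` acts trivially on the residue field if the latter comes from `K` -/
theorem Over.root_eq_one {w : Place k K'} {w0 : Place k K} {e : ℕ} (h : Over w w0 e)
    (hs : Function.Surjective h.resMap) (s : K' ≃ₐ[k] K') (hfix : ∀ f : K, s (algebraMap K K' f) = algebraMap K K' f)
    (hw : w.comp s = w) (r : K') (hr0 : r ≠ 0) (hr : w.ord r = 0) (ζ : k)
    (hsr : s r = algebraMap k K' ζ * r) : ζ = 1 := by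
  have hord : ∀ f, w.ord (s f) = w.ord f := by
    intro f
    rw [← w.comp_ord s, hw]
  have hreg : w.Reg r := Or.inr hr.ge
  have h1 := resIso_red w w s hord hreg
  obtain ⟨c0, hc0⟩ := hs (w.red r)
  obtain ⟨f0, hf0, rfl⟩ := w0.red_surjective c0
  rw [h.resMap_red hf0] at hc0
  have h2 := resIso_red w w s hord (h.reg.2 hf0)
  rw [hfix, hc0] at h2
  rw [h2, hsr, w.red_mul (w.reg_const ζ) hreg] at h1
  have h3 : w.red r ≠ 0 := w.red_ne_zero hr0 hr
  have h4 : w.red (algebraMap k K' ζ) = 1 := by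
    apply mul_right_cancel₀ h3
    rw [one_mul, ← h1]
  have h5 : algebraMap k w.RF ζ = algebraMap k w.RF 1 := by rw [map_one]; exact h4
  exact (algebraMap k w.RF).injective h5

end

section
variable {k κ : Type*} [Field k] [Field κ] [Algebra k κ] [CharZero k] [IsFF k κ]

/-- the vector `(1, g, g s(g))` -/
def Yv (g g' : κ) : Fin 3 → κ := ![1, g, g * g']

theorem md_comp (s : κ ≃ₐ[k] κ) (g : κ) (x : k) (hx : x ≠ 0) (hg : g * s g * s (s g) = algebraMap k κ x)
    (P : Place k κ) : P.ord g = md k (Yv g (s g)) (P.comp s) - md k (Yv g (s g)) P := by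
  have hxL : algebraMap k κ x ≠ 0 := by simpa using hx
  have hg0 : g ≠ 0 := by rintro rfl; rw [zero_mul, zero_mul] at hg; exact hxL hg.symm
  have hV : ∃ j, Yv g (s g) j ≠ 0 := ⟨0, by simp [Yv]⟩
  have h1 : IsMin (P.pull s) (Yv g (s g)) (- md k (Yv g (s g)) (P.comp s)) := md_spec hV (P.comp s)
  rw [isMin_pull] at h1
  have h2 := h1.smul hg0
  have h3 : (fun j => g * s (Yv g (s g) j)) = Phi (algebraMap k κ x) (Yv g (s g)) := by
    funext j
    fin_cases j
    · change g * s 1 = g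
      rw [map_one, mul_one]
    · rfl
    · change g * s (g * s g) = algebraMap k κ x * 1
      rw [← hg, map_mul]; ring
  rw [h3] at h2
  have h4 := (md_spec hV P).phi hxL (P.ord_const hx)
  have := h2.unique h4
  omega

theorem three_dvd_ddeg_Yv (s : κ ≃ₐ[k] κ) (hs : ∀ f, s (s (s f)) = f) (g : κ) (x : k)
    (hx : ¬ ∃ b : k, b ^ 3 = x) (hg : g * s g * s (s g) = algebraMap k κ x) :
    (3 : ℤ) ∣ ddeg (md k (Yv g (s g))) := by
  have hx0 : x ≠ 0 := by rintro rfl; exact hx ⟨0, by norm_num⟩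
  exact three_dvd_ddeg s hs g x hx hg _ (md_comp s g x hx0 hg)

end

section
variable {k κ0 κ : Type*} [Field k] [Field κ0] [Field κ] [Algebra k κ0] [Algebra k κ] [Algebra κ0 κ]
  [IsScalarTower k κ0 κ] [CharZero k] [IsFF k κ]

theorem caseI_B (z x : k) (hz : IsPrimitiveRoot z 3) (hx : x ≠ 0) (s : κ ≃ₐ[k] κ)
    (hs : ∀ f, s (s (s f)) = f) (hfix : ∀ f, s f = f ↔ f ∈ Set.range (algebraMap κ0 κ))
    (r : κ) (η : κ0) (hr0 : r ≠ 0) (hr : r ^ 3 = algebraMap κ0 κ η) (ζ : k) (hζ : ζ ≠ 1)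
    (hsr : s r = algebraMap k κ ζ * r) (g : κ) (hg : g * s g * s (s g) = algebraMap k κ x)
    (c : κ0) (hc : c ^ 3 = algebraMap k κ0 x) (m : ℤ) (hm : 3 ∣ m) (J : ℕ) (hJ : ∃ j, J = 3 ^ j)
    (H1 : ∀ p : Place k κ0, (J : ℤ) ∣ m * p.deg) (H2 : ∀ p : Place k κ0, (J : ℤ) ∣ p.ord η * p.deg) :
    (3 * J : ℤ) ∣ m * ddeg (md k (Yv g (s g))) := by
  classical
  have hxL : algebraMap k κ x ≠ 0 := by simpa using hx
  have hg0 : g ≠ 0 := by rintro rfl; rw [zero_mul, zero_mul] at hg; exact hxL hg.symm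
  have hne : ∃ f, s f ≠ f := by
    refine ⟨r, fun h => hζ ?_⟩
    rw [hsr] at h
    have h1 : algebraMap k κ ζ * r = 1 * r := by rw [h, one_mul]
    have h2 := mul_right_cancel₀ hr0 h1
    exact (algebraMap k κ).injective (by rw [h2, map_one])
  have hn : finrank κ0 κ = 3 := finrank_eq_three s hs hfix hne
  have hfd : FiniteDimensional κ0 κ := FiniteDimensional.of_finrank_pos (by omega)
  -- linear form
  obtain ⟨lam, hlam3, hl⟩ : ∃ lam : κ0, lam ^ 3 = algebraMap k κ0 x ∧
      1 + (algebraMap κ0 κ lam)⁻¹ * g + (algebraMap κ0 κ lam)⁻¹ ^ 2 * (g * s g) ≠ 0 := by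
    by_contra hcon
    push Not at hcon
    let Z : κ0 := algebraMap k κ0 z
    have hZ : IsPrimitiveRoot Z 3 := hz.map_of_injective (algebraMap k κ0).injective
    have hZ3 : Z ^ 3 = 1 := hZ.pow_eq_one
    have hZsum : 1 + Z + Z ^ 2 = 0 := by
      have h1 := hZ.geom_sum_eq_zero (by norm_num)
      simpa [Finset.sum_range_succ] using h1
    have hc0 : c ≠ 0 := by
      rintro rfl
      have : algebraMap k κ0 x ≠ 0 := by simpa using hx
      exact this (by rw [← hc]; norm_num)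
    have hZ0 : Z ≠ 0 := by
      intro h
      rw [h] at hZ3; norm_num at hZ3
    have e0 := hcon c hc
    have e1 := hcon (Z * c) (by rw [mul_pow, hZ3, one_mul, hc])
    have e2 := hcon (Z ^ 2 * c) (by rw [mul_pow, ← pow_mul, mul_comm 2 3, pow_mul, hZ3, one_pow, one_mul, hc])
    let C := algebraMap κ0 κ c
    let Y := algebraMap κ0 κ Z
    have hC0 : C ≠ 0 := by simpa [C] using hc0
    have hY0 : Y ≠ 0 := by simpa [Y] using hZ0
    have hY3 : Y ^ 3 = 1 := by simp only [Y]; rw [← map_pow, hZ3, map_one]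
    have hYsum : 1 + Y + Y ^ 2 = 0 := by
      simp only [Y]; rw [← map_pow, ← map_one (algebraMap κ0 κ), ← map_add, ← map_add, hZsum, map_zero]
    have hYi : Y⁻¹ = Y ^ 2 := by
      apply inv_eq_of_mul_eq_one_right
      rw [← hY3]; ring
    rw [map_mul, mul_inv] at e1
    rw [map_mul, mul_inv, map_pow] at e2
    change 1 + (Y⁻¹ * C⁻¹) * g + (Y⁻¹ * C⁻¹) ^ 2 * (g * s g) = 0 at e1
    change 1 + ((Y ^ 2)⁻¹ * C⁻¹) * g + ((Y ^ 2)⁻¹ * C⁻¹) ^ 2 * (g * s g) = 0 at e2
    change 1 + C⁻¹ * g + C⁻¹ ^ 2 * (g * s g) = 0 at e0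
    rw [← inv_pow, hYi] at e2
    rw [hYi] at e1
    have h3 : (3 : κ) = 0 := by
      linear_combination e0 + e1 + e2 - (C⁻¹ * g + C⁻¹ ^ 2 * (g * s g)) * hYsum
        - (C⁻¹ * g * Y + C⁻¹ ^ 2 * (g * s g) * (Y + Y ^ 2 * (Y ^ 3 + 1))) * hY3
    have : CharZero κ := charZero_of_injective_algebraMap (algebraMap k κ).injective
    exact three_ne_zero h3
  set l : κ := 1 + (algebraMap κ0 κ lam)⁻¹ * g + (algebraMap κ0 κ lam)⁻¹ ^ 2 * (g * s g) with hldef
  let Λ := algebraMap κ0 κ lam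
  have hΛ3 : Λ ^ 3 = algebraMap k κ x := by
    simp only [Λ]
    rw [← map_pow, hlam3, ← IsScalarTower.algebraMap_apply]
  have hΛ0 : Λ ≠ 0 := by
    intro h
    rw [h] at hΛ3
    exact hxL (by rw [← hΛ3]; norm_num)
  have hsΛ : s Λ = Λ := (hfix Λ).2 ⟨lam, rfl⟩
  have hsl : g * s l = Λ * l := by
    have h1 : s l = 1 + Λ⁻¹ * s g + Λ⁻¹ ^ 2 * (s g * s (s g)) := by
      rw [hldef]
      simp only [map_add, map_mul, map_pow, map_inv₀, map_one]
      rw [hsΛ]
    rw [h1, hldef]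
    have h2 : g * (1 + Λ⁻¹ * s g + Λ⁻¹ ^ 2 * (s g * s (s g))) =
        g + Λ⁻¹ * (g * s g) + Λ⁻¹ ^ 2 * (g * s g * s (s g)) := by ring
    rw [h2, hg, ← hΛ3]
    change _ = Λ * (1 + Λ⁻¹ * g + Λ⁻¹ ^ 2 * (g * s g))
    field_simp
    ring
  have hordΛ : ∀ P : Place k κ, P.ord Λ = 0 := by
    intro P
    have h1 := P.ord_pow Λ 3
    rw [hΛ3, P.ord_const hx] at h1
    omega
  -- the invariant divisor
  let D' : Place k κ →₀ ℤ := md k (Yv g (s g)) + divisor k l
  have hD' : ∀ P : Place k κ, D' (P.comp s) = D' P := by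
    intro P
    have h1 := md_comp s g x hx hg P
    have h2 : P.ord (g * s l) = P.ord (Λ * l) := by rw [hsl]
    rw [P.ord_mul hg0 (by simpa using hl), P.ord_mul hΛ0 hl, hordΛ P] at h2
    simp only [D', Finsupp.add_apply, divisor_apply, Place.comp_ord]
    omega
  have hdD' : ddeg D' = ddeg (md k (Yv g (s g))) := by
    simp only [D', ddeg_add, ddeg_divisor, add_zero]
  rw [← hdD']
  unfold ddeg
  rw [Finsupp.sum, Finset.mul_sum]
  have hdegc : ∀ P : Place k κ, (P.comp s).deg = P.deg := fun P => P.deg_pull s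
  have hJ3 : ∀ p : Place k κ0, ¬ (3 : ℤ) ∣ p.ord η → (J : ℤ) ∣ p.deg := by
    intro p hp
    obtain ⟨j, rfl⟩ := hJ
    have h1 : IsCoprime ((3 ^ j : ℕ) : ℤ) (p.ord η) := by
      push_cast
      apply IsCoprime.pow_left
      exact (Int.prime_three.coprime_iff_not_dvd).2 hp
    exact h1.dvd_of_dvd_mul_left (H2 p)
  apply dvd_sum_orbits (fun P : Place k κ => P.comp s) _ _ (fun P => m * (D' P * P.deg)) _ _ _ rfl
  · intro P hP
    rw [Finsupp.mem_support_iff] at hP ⊢
    rwa [hD']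
  · -- fixed places
    intro P _ hPs
    obtain ⟨e, p0, ho⟩ := exists_over_alg (K := κ0) P
    have hcc := (cyclic_cubic s hs hfix hne P p0 e ho).2 hPs
    rcases hcc with ⟨he, hsurj⟩ | ⟨he, hf3⟩
    · have hd := ho.deg_eq hsurj
      have h3 : ¬ (3 : ℤ) ∣ p0.ord η := by
        rintro ⟨q, hq⟩
        have h4 : P.ord r = p0.ord η := by
          have h5 := P.ord_pow r 3
          rw [hr, ho.2, he] at h5
          push_cast at h5
          omega
        obtain ⟨t, ht0, ht⟩ := p0.surj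
        have ht0' : algebraMap κ0 κ t ≠ 0 := by simpa using ht0
        have h6 : P.ord (r * algebraMap κ0 κ t ^ (-q)) = 0 := by
          rw [P.ord_mul hr0 (zpow_ne_zero _ ht0'), P.ord_zpow, ho.2, ht, he, h4, hq]
          push_cast; ring
        apply hζ
        refine ho.root_eq_one hsurj s (fun f => (hfix _).2 ⟨f, rfl⟩) hPs (r * algebraMap κ0 κ t ^ (-q))
          (mul_ne_zero hr0 (zpow_ne_zero _ ht0')) h6 ζ ?_
        rw [map_mul, map_zpow₀, (hfix _).2 ⟨t, rfl⟩, hsr]; ring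
      have h7 := hJ3 p0 h3
      have h8 : (3 * J : ℤ) ∣ m * p0.deg := mul_dvd_mul hm h7
      have h9 : m * (D' P * P.deg) = (m * p0.deg) * D' P := by rw [hd]; ring
      rw [h9]; exact h8.mul_right _
    · have hd := ho.deg_eq_mul 3 hf3
      have h8 : m * (D' P * P.deg) = 3 * (m * p0.deg) * D' P := by rw [hd]; push_cast; ring
      rw [h8]
      exact (mul_dvd_mul_left 3 (H1 p0)).mul_right _
  · intro P _ hPs
    obtain ⟨e, p0, ho⟩ := exists_over_alg (K := κ0) P
    have hcc := (cyclic_cubic s hs hfix hne P p0 e ho).1 hPs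
    have hd := ho.deg_eq hcc.2
    have h8 : 3 * (m * (D' P * P.deg)) = 3 * (m * p0.deg) * D' P := by rw [hd]; ring
    rw [h8]
    exact (mul_dvd_mul_left 3 (H1 p0)).mul_right _
  · intro P
    ext f
    change P.ord (s (s (s f))) = P.ord f
    rw [hs]
  · intro P
    change m * (D' (P.comp s) * (P.comp s).deg) = _
    rw [hD', hdegc]

end

end FF
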