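import Pool.Agent.Helper386.D5V.SF_Model

/-! Statements of the point lemmas as propositions. -/

set_option autoImplicit false
set_option linter.all false
set_option linter.overlappingInstances false

open Module FF TensorProduct

namespace SF

/-- Point lemma, case II -/
def PLStmtII : Prop := ∀ (k : Type) [Field k] [CharZero k] (z x : k) (hk : IsK k z x)
    (L : Type) [Field L] [Algebra (LaurentSeries k) L] [Algebra k L] [IsScalarTower k (LaurentSeries k) L]
    [IsFF (LaurentSeries k) L] (w : Place k L) [IsFF k w.RF]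
    (hw : 0 < w.ord (algebraMap (LaurentSeries k) L (yv k)))
    (hx : ¬ ∃ c : w.RF, c ^ 3 = algebraMap k w.RF x) (s : Finset L),
    ∃ (Ψ : Type) (_ : Field Ψ) (_ : Algebra (LaurentSeries k) Ψ),
      FiniteDimensional (LaurentSeries k) Ψ ∧
      (finrank (LaurentSeries k) Ψ : ℤ) = w.ord (algebraMap (LaurentSeries k) L (yv k)) ∧
      Nonempty (Algebra.adjoin (LaurentSeries k) (s : Set L) →ₐ[LaurentSeries k] Ψ)

/-- Point lemma, case I: flags -/
def PLStmtI : Prop := ∀ (k : Type) [Field k] [CharZero k]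
    (L : Type) [Field L] [Algebra (LaurentSeries k) L] [Algebra k L] [IsScalarTower k (LaurentSeries k) L]
    [IsFF (LaurentSeries k) L] (w : Place k L) (m0 : ℤ)
    (hw : w.ord (algebraMap (LaurentSeries k) L (yv k)) = m0) (hm0 : 0 < m0) [IsFF k w.RF]
    (π : L) (hπ : w.ord π = 1) (p : Place k w.RF) (n0 : ℤ)
    (hn0 : p.ord (w.red (algebraMap (LaurentSeries k) L (yv k) / π ^ m0)) = n0) (s : Finset L),
    ∃ A : ℤ, ∀ a : ℤ, A ≤ a → ∃ (Ψ : Type) (_ : Field Ψ) (_ : Algebra (LaurentSeries k) Ψ),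
      FiniteDimensional (LaurentSeries k) Ψ ∧
      (finrank (LaurentSeries k) Ψ : ℤ) = (a * m0 + n0) * p.deg ∧
      Nonempty (Algebra.adjoin (LaurentSeries k) (s : Set L) →ₐ[LaurentSeries k] Ψ)

end SF
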