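import Pool.Agent.Helper386.D5V.Helper399_FF4b

/-! FF4: places in cyclic cubic extensions. -/

set_option autoImplicit false
set_option linter.all false
set_option linter.overlappingInstances false

open Module FF

namespace FF

section
variable {k K K' : Type*} [Field k] [Field K] [Field K'] [Algebra k K] [Algebra k K'] [Algebra K K']
  [IsScalarTower k K K']

/-- The finite set of places over `w0`. -/
theorem exists_places_over [CharZero k] [FiniteDimensional K K'] (w0 : Place k K) :
    ∃ (S : Finset (Place k K')) (T : Place k K' → ℕ),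
      (∀ w e, Over w w0 e → w ∈ S) ∧
      (∀ w ∈ S, ∃ (e : ℕ) (h : Over w w0 e),
        T w = e * @finrank w0.RF w.RF _ _ h.resMap.toRingHom.toAlgebra.toModule ∧ 0 < T w) ∧
      ∑ w ∈ S, T w = finrank K K' := by
  classical
  obtain ⟨t, ht0, ht⟩ := w0.surj
  have htr : w0.Reg t := Or.inr (by omega)
  have : IsDiscreteValuationRing w0.O := w0.isDVR
  have : CharZero K := charZero_of_injective_algebraMap (algebraMap k K).injective
  let iA : Algebra w0.O K' := ((algebraMap K K').comp w0.O.subtype).toAlgebra
  let ik : Algebra k w0.O := ((algebraMap k K).codRestrict w0.O (fun c => w0.reg_const c)).toAlgebra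
  have : IsScalarTower w0.O K K' := IsScalarTower.of_algebraMap_eq fun _ => rfl
  have : IsScalarTower k w0.O K' := IsScalarTower.of_algebraMap_eq fun c => by
    rw [IsScalarTower.algebraMap_apply k K K']
    rfl
  have hirr : (⟨t, htr⟩ : w0.O) ≠ 0 := fun h => ht0 (congrArg Subtype.val h)
  have hmax : (Ideal.span {(⟨t, htr⟩ : w0.O)}).IsMaximal := by
    have h1 : Ideal.span {(⟨t, htr⟩ : w0.O)} = IsLocalRing.maximalIdeal w0.O := by
      apply le_antisymm
      · rw [Ideal.span_le, Set.singleton_subset_iff]
        show (⟨t, htr⟩ : w0.O) ∈ IsLocalRing.maximalIdeal w0.O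
        rw [IsLocalRing.mem_maximalIdeal, mem_nonunits_iff, w0.isUnit_O_iff htr]
        rintro ⟨_, h⟩
        omega
      · rintro ⟨f, hf⟩ hm
        rw [IsLocalRing.mem_maximalIdeal, mem_nonunits_iff, w0.isUnit_O_iff hf] at hm
        rw [Ideal.mem_span_singleton]
        by_cases hf0 : f = 0
        · exact ⟨0, Subtype.ext (by simp [hf0])⟩
        · have h2 := (w0.reg_iff hf0).1 hf
          have h3 : w0.ord f ≠ 0 := fun h => hm ⟨hf0, h⟩
          have h4 : w0.Reg (f / t) := by
            right
            rw [w0.ord_div hf0 ht0, ht]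
            omega
          refine ⟨⟨f / t, h4⟩, Subtype.ext ?_⟩
          show f = t * (f / t)
          field_simp
    rw [h1]
    infer_instance
  obtain ⟨S, hS, hpos, hsum⟩ := fundamental (k := k) (A := w0.O) (L := K') K
    (⟨t, htr⟩ : w0.O) hirr hmax
  refine ⟨S, fun w => (w.ord (algebraMap w0.O K' ⟨t, htr⟩)).toNat * w.relf w0.O, ?_, ?_, hsum⟩
  · intro w e h
    rw [hS]
    refine ⟨fun a => ?_, ?_⟩
    · exact h.reg.2 a.2
    · have h1 : w.ord (algebraMap w0.O K' ⟨t, htr⟩) = e * w0.ord t := h.2 t
      rw [h1, ht]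
      have := h.1
      omega
  · intro w hw
    have h1 := (hS w).1 hw
    have h2 : Over w w0 (w.ord (algebraMap K K' t)).toNat :=
      over_of_reg w w0 t ht0 ht (fun f hf => h1.1 ⟨f, hf⟩) h1.2
    refine ⟨_, h2, ?_, ?_⟩
    · rw [← relf_eq h2]
      rfl
    · exact Nat.mul_pos h2.1 (hpos w hw)

theorem Over.unique {w : Place k K'} {w0 : Place k K} {e e' : ℕ} (h : Over w w0 e)
    (h' : Over w w0 e') : e = e' := by
  obtain ⟨t, ht0, ht⟩ := w0.surj
  have h1 := h.2 t
  have h2 := h'.2 t
  rw [ht] at h1 h2
  omega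

theorem cyclic_cubic [CharZero k] (s : K' ≃ₐ[k] K') (hs : ∀ f, s (s (s f)) = f)
    (hfix : ∀ f, s f = f ↔ f ∈ Set.range (algebraMap K K')) (hne : ∃ f, s f ≠ f)
    (w : Place k K') (w0 : Place k K) (e : ℕ) (h : Over w w0 e) :
    (w.comp s ≠ w → e = 1 ∧ Function.Surjective h.resMap) ∧
    (w.comp s = w → (e = 3 ∧ Function.Surjective h.resMap) ∨
      (e = 1 ∧ @finrank w0.RF w.RF _ _ h.resMap.toRingHom.toAlgebra.toModule = 3)) := by
  classical
  have hn : finrank K K' = 3 := finrank_eq_three s hs hfix hne
  have : FiniteDimensional K K' := FiniteDimensional.of_finrank_pos (by omega)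
  obtain ⟨S, T, hS, hT, hsum⟩ := exists_places_over (K' := K') w0
  rw [hn] at hsum
  have hsK : ∀ c : K, s (algebraMap K K' c) = algebraMap K K' c := fun c => (hfix _).2 ⟨c, rfl⟩
  have hcompO : ∀ (v : Place k K') (e' : ℕ), Over v w0 e' → Over (v.comp s) w0 e' := by
    intro v e' hv
    refine ⟨hv.1, fun f => ?_⟩
    rw [v.comp_ord, hsK]
    exact hv.2 f
  have hcompS : ∀ v ∈ S, v.comp s ∈ S := by
    intro v hv
    obtain ⟨e', hv', _⟩ := hT v hv
    exact hS _ e' (hcompO v e' hv')
  have hcomp3 : ∀ v : Place k K', ((v.comp s).comp s).comp s = v := by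
    intro v
    ext f
    show v.ord (s (s (s f))) = v.ord f
    rw [hs]
  have hTw : ∀ (v : Place k K') (e' : ℕ) (hv : Over v w0 e'),
      T v = e' * @finrank w0.RF v.RF _ _ hv.resMap.toRingHom.toAlgebra.toModule ∧ 0 < T v := by
    intro v e' hv
    obtain ⟨e'', hv', h1, h2⟩ := hT v (hS v e' hv)
    have he : e'' = e' := hv'.unique hv
    subst he
    exact ⟨h1, h2⟩
  have hle : ∀ S' : Finset (Place k K'), S' ⊆ S → ∑ v ∈ S', T v ≤ 3 := by
    intro S' hS'
    rw [← hsum]
    exact Finset.sum_le_sum_of_subset hS'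
  -- fixed places have T at least 2
  have htwo : ∀ v ∈ S, v.comp s = v → 2 ≤ T v := by
    intro v hv hfixv
    obtain ⟨e', hv', h1, h2⟩ := hT v hv
    by_contra hlt
    have h3 : T v = 1 := by omega
    rw [h3] at h1
    have h4 : e' = 1 := Nat.eq_one_of_mul_eq_one_right h1.symm
    have h5 : @finrank w0.RF v.RF _ _ hv'.resMap.toRingHom.toAlgebra.toModule = 1 :=
      Nat.eq_one_of_mul_eq_one_left h1.symm
    have h6 := resMap_surjective_of_finrank hv' h5
    obtain ⟨t, ht0, ht⟩ := w0.surj
    obtain ⟨f, hf⟩ := hne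
    apply hf
    refine trivial_of_approx v s hfixv (algebraMap K K').range ?_ (algebraMap K K' t) ⟨t, rfl⟩
      ((map_ne_zero _).2 ht0) ?_ ?_ f
    · rintro _ ⟨c, rfl⟩
      exact hsK c
    · rw [hv'.2, ht, h4]; norm_num
    · intro g hg
      obtain ⟨c, hc⟩ := h6 (v.red g)
      obtain ⟨c', hc', rfl⟩ := w0.red_surjective c
      refine ⟨algebraMap K K' c', ⟨c', rfl⟩, hv'.reg.2 hc', ?_⟩
      rw [← hc, hv'.resMap_red hc']
  obtain ⟨hTw1, hTw2⟩ := hTw w e h
  have hwS : w ∈ S := hS w e h
  refine ⟨?_, ?_⟩
  · intro hne'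
    -- three distinct places
    have hd1 : (w.comp s).comp s ≠ w := by
      intro h1
      have h2 := hcomp3 w
      rw [h1] at h2
      exact hne' h2
    have hd2 : (w.comp s).comp s ≠ w.comp s := by
      intro h1
      have h2 := hcomp3 w
      rw [h1, h1] at h2
      exact hne' h2
    have h1 : ({w, w.comp s, (w.comp s).comp s} : Finset (Place k K')) ⊆ S := by
      intro v hv
      simp only [Finset.mem_insert, Finset.mem_singleton] at hv
      rcases hv with rfl | rfl | rfl
      · exact hwS
      · exact hcompS _ hwS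
      · exact hcompS _ (hcompS _ hwS)
    have h2 := hle _ h1
    rw [Finset.sum_insert (by
        simp only [Finset.mem_insert, Finset.mem_singleton, not_or]
        exact ⟨fun h => hne' h.symm, fun h => hd1 h.symm⟩),
      Finset.sum_insert (by
        simp only [Finset.mem_singleton]
        exact fun h => hd2 h.symm), Finset.sum_singleton] at h2
    have h3 := (hTw _ e (hcompO w e h)).2
    have h4 := (hTw _ e (hcompO _ e (hcompO w e h))).2
    have h5 : T w = 1 := by omega
    rw [h5] at hTw1
    exact ⟨Nat.eq_one_of_mul_eq_one_right hTw1.symm,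
      resMap_surjective_of_finrank h (Nat.eq_one_of_mul_eq_one_left hTw1.symm)⟩
  · intro hfixw
    have h1 : T w = 3 := by
      have h2 := htwo w hwS hfixw
      have h3 : ∑ v ∈ S.erase w, T v + T w = 3 := by
        rw [Finset.sum_erase_add _ _ hwS, hsum]
      by_contra h4
      have h5 : ∑ v ∈ S.erase w, T v = 1 := by omega
      obtain ⟨v, hv⟩ : (S.erase w).Nonempty := by
        rw [Finset.nonempty_iff_ne_empty]
        intro h6
        rw [h6, Finset.sum_empty] at h5
        omega
      have hvw : v ≠ w := Finset.ne_of_mem_erase hv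
      have hvS : v ∈ S := Finset.mem_of_mem_erase hv
      have hTv : T v ≤ 1 := by
        rw [← h5]
        exact Finset.single_le_sum (f := T) (fun _ _ => Nat.zero_le _) hv
      by_cases hfv : v.comp s = v
      · have := htwo v hvS hfv
        omega
      · have hvs : v.comp s ≠ w := by
          intro h6
          apply hvw
          have h7 := hcomp3 v
          rw [h6, hfixw, hfixw] at h7
          exact h7.symm
        have h8 : ({v, v.comp s} : Finset (Place k K')) ⊆ S.erase w := by
          intro u hu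
          simp only [Finset.mem_insert, Finset.mem_singleton] at hu
          rcases hu with rfl | rfl
          · exact hv
          · exact Finset.mem_erase.2 ⟨hvs, hcompS _ hvS⟩
        have h9 := Finset.sum_le_sum_of_subset (f := T) h8
        rw [Finset.sum_insert (by
          simp only [Finset.mem_singleton]
          exact fun h => hfv h.symm), Finset.sum_singleton, h5] at h9
        obtain ⟨e1, _, _, hp1⟩ := hT v hvS
        obtain ⟨e2, _, _, hp2⟩ := hT _ (hcompS v hvS)
        omega
    rw [h1] at hTw1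
    have h2 : e ∣ 3 := ⟨_, hTw1⟩
    rcases (Nat.dvd_prime Nat.prime_three).1 h2 with he | he
    · right
      refine ⟨he, ?_⟩
      have h5 : ∀ N : ℕ, 3 = e * N → N = 3 := by
        intro N hN
        rw [he] at hN
        omega
      exact h5 _ hTw1
    · left
      refine ⟨he, resMap_surjective_of_finrank h ?_⟩
      have h5 : ∀ N : ℕ, 3 = e * N → N = 1 := by
        intro N hN
        rw [he] at hN
        omega
      exact h5 _ hTw1

end

end FF
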