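import Pool.Agent.Helper386.D5V.Helper386_FF_Riemann
import Pool.Agent.Helper386.D5V.Helper399_FF4
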