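import Pool.Agent.Helper386.D5V.Helper386_LOC_Stubs

/-! The transfer: preliminary constructions. -/

set_option autoImplicit false
set_option linter.all false
set_option linter.overlappingInstances false

open Module FF

attribute [-instance] HahnSeries.powerSeriesAlgebra

namespace FFT

section
variable {R M : Type*} [Field R] [Field M] [Algebra R M]

theorem adjoin_union_adjoin (T : Set M) (w : M) :
    IntermediateField.adjoin R ((IntermediateField.adjoin R T : Set M) ∪ {w}) =
      IntermediateField.adjoin R (T ∪ {w}) := by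
  apply le_antisymm
  · rw [IntermediateField.adjoin_le_iff]
    rintro f (hf | hf)
    · exact IntermediateField.adjoin.mono R T (T ∪ {w}) Set.subset_union_left hf
    · exact IntermediateField.subset_adjoin R _ (Or.inr hf)
  · rw [IntermediateField.adjoin_le_iff]
    rintro f (hf | hf)
    · exact IntermediateField.subset_adjoin R _ (Or.inl (IntermediateField.subset_adjoin R T hf))
    · exact IntermediateField.subset_adjoin R _ (Or.inr hf)

/-- restriction of an automorphism of order three -/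
theorem exists_restrict (L3 : IntermediateField R M) (θ : M →ₐ[R] M) (h : ∀ f ∈ L3, θ f ∈ L3)
    (h3 : ∀ f ∈ L3, θ (θ (θ f)) = f) : ∃ s : L3 ≃ₐ[R] L3, ∀ f : L3, (s f : M) = θ f := by
  let f0 : L3 →ₐ[R] L3 := (θ.comp L3.val).codRestrict L3.toSubalgebra (fun f => h f f.2)
  have hf0 : ∀ f : L3, (f0 f : M) = θ f := fun f => rfl
  have hbij : Function.Bijective f0 := by
    refine ⟨f0.injective, fun f => ⟨f0 (f0 f), ?_⟩⟩
    apply Subtype.ext
    rw [hf0, hf0, hf0, h3 f f.2]
  exact ⟨AlgEquiv.ofBijective f0 hbij, fun f => rfl⟩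

/-- the fixed field -/
def fixF {L3 : Type*} [Field L3] [Algebra R L3] (s : L3 ≃ₐ[R] L3) : IntermediateField R L3 where
  carrier := {f | s f = f}
  mul_mem' := by
    intro a b ha hb
    change s (a * b) = a * b
    rw [map_mul, show s a = a from ha, show s b = b from hb]
  one_mem' := map_one s
  add_mem' := by
    intro a b ha hb
    change s (a + b) = a + b
    rw [map_add, show s a = a from ha, show s b = b from hb]
  zero_mem' := map_zero s
  algebraMap_mem' := fun c => s.commutes c
  inv_mem' := by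
    intro a ha
    change s a⁻¹ = a⁻¹
    rw [map_inv₀, show s a = a from ha]

theorem mem_fixF {L3 : Type*} [Field L3] [Algebra R L3] (s : L3 ≃ₐ[R] L3) (f : L3) : f ∈ fixF s ↔ s f = f := Iff.rfl

/-- transport of a point along an injective algebra map -/
theorem hom_transport {A B Ψ : Type*} [CommRing A] [CommRing B] [CommRing Ψ] [Algebra R A] [Algebra R B] [Algebra R Ψ]
    (ι : A →ₐ[R] B) (hι : Function.Injective ι) (c : Set A) (S : Set B) (hS : S ⊆ ι '' c)
    (φ : Algebra.adjoin R c →ₐ[R] Ψ) : Nonempty (Algebra.adjoin R S →ₐ[R] Ψ) := by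
  let e : Algebra.adjoin R c ≃ₐ[R] (Algebra.adjoin R c).map ι := Subalgebra.equivMapOfInjective _ ι hι
  have h1 : Algebra.adjoin R S ≤ (Algebra.adjoin R c).map ι := by
    rw [AlgHom.map_adjoin]
    exact Algebra.adjoin_mono hS
  exact ⟨(φ.comp (e.symm : _ →ₐ[R] Algebra.adjoin R c)).comp (Subalgebra.inclusion h1)⟩

theorem hom_transport' {A B Ψ : Type*} [CommRing A] [CommRing B] [CommRing Ψ] [Algebra R A] [Algebra R B] [Algebra R Ψ]
    (ι : A →ₐ[R] B) (c : Set A) (S : Set B) (hS : ι '' c ⊆ S)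
    (φ : Algebra.adjoin R S →ₐ[R] Ψ) : Nonempty (Algebra.adjoin R c →ₐ[R] Ψ) := by
  have h1 : (Algebra.adjoin R c).map ι ≤ Algebra.adjoin R S := by
    rw [AlgHom.map_adjoin]
    exact Algebra.adjoin_mono hS
  have h2 : ∀ a : Algebra.adjoin R c, ι a ∈ Algebra.adjoin R S := fun a => h1 ⟨a, a.2, rfl⟩
  let ψ : Algebra.adjoin R c →ₐ[R] Algebra.adjoin R S :=
    (ι.comp (Algebra.adjoin R c).val).codRestrict (Algebra.adjoin R S) h2
  exact ⟨φ.comp ψ⟩

end

/-- the minimal degree of a point -/
theorem exists_min (E N : Type) [Field E] [Field N] [Algebra E N] (s : Finset N)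
    (hpow : ∀ (E' : Type) [Field E'] [Algebra E E'], FiniteDimensional E E' → ∃ j, finrank E E' = 3 ^ j) :
    ∃ i : ℕ, (∃ (E' : Type) (_ : Field E') (_ : Algebra E E'), FiniteDimensional E E' ∧ finrank E E' = 3 ^ i ∧
      Nonempty (Algebra.adjoin E (s : Set N) →ₐ[E] E')) ∧
      ∀ (E' : Type) [Field E'] [Algebra E E'], FiniteDimensional E E' →
        Nonempty (Algebra.adjoin E (s : Set N) →ₐ[E] E') → 3 ^ i ∣ finrank E E' := by
  classical
  let Q : ℕ → Prop := fun i => ∃ (E' : Type) (_ : Field E') (_ : Algebra E E'), FiniteDimensional E E' ∧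
    finrank E E' = 3 ^ i ∧ Nonempty (Algebra.adjoin E (s : Set N) →ₐ[E] E')
  have hex : ∃ i, Q i := by
    obtain ⟨E', i1, i2, h1, h2⟩ := exists_pt E N s
    obtain ⟨j, hj⟩ := hpow E' h1
    exact ⟨j, E', i1, i2, h1, hj, h2⟩
  refine ⟨Nat.find hex, Nat.find_spec hex, ?_⟩
  intro E' _ _ h1 h2
  obtain ⟨j, hj⟩ := hpow E' h1
  rw [hj]
  apply pow_dvd_pow
  exact Nat.find_min' hex ⟨E', inferInstance, inferInstance, h1, hj, h2⟩

end FFT
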