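import Pool.Agent.Helper386.D5V.Helper807_PL_PLI
import Pool.Agent.Helper386.D5V.SF_PLStmt

set_option autoImplicit false
set_option linter.all false
set_option linter.overlappingInstances false

namespace SF

theorem plStmtII : PLStmtII := by
  intro k _ _ z x hk L _ _ _ _ _ w _ hw hx s
  exact PL_II k z x hk L w hw hx s

theorem plStmtI : PLStmtI := by
  intro k _ _ L _ _ _ _ _ w m0 hw hm0 _ π hπ p n0 hn0 s
  exact PL_I k L w m0 hw hm0 π hπ p n0 hn0 s

end SF
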