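import Pool.Agent.Helper386.D5V.SF_Model

/-! The algebraic closure of the base field in a function field is finite. -/

set_option autoImplicit false
set_option linter.all false
set_option linter.overlappingInstances false

open Module FF Polynomial
open IntermediateField

namespace SF

theorem finite_algClosure (F L : Type) [Field F] [Field L] [Algebra F L] [IsFF F L] :
    FiniteDimensional F (algebraicClosure F L) := by
  classical
  obtain ⟨ξ, hξ⟩ := IsFF.exists_transcendental (k := F) (K := L)
  have hfin := IsFF.finite hξ
  let A := algebraicClosure F L
  have hA : Transcendental A ξ := by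
    intro h
    exact hξ (h.restrictScalars F)
  have key : ∀ s : Finset A, LinearIndependent F (fun i : s => (i : A)) →
      s.card ≤ finrank F⟮ξ⟯ L := by
    intro s hs
    have h1 : LinearIndependent F⟮ξ⟯ (fun i : s => ((i : A) : L)) := by
      open scoped algebraAdjoinAdjoin in
      rw [← LinearIndependent.iff_fractionRing (Algebra.adjoin F {ξ}) F⟮ξ⟯]
      rw [linearIndependent_iff']
      intro t g hg
      have hlift : ∀ a : Algebra.adjoin F {ξ}, ∃ r : F[X], aeval ξ r = (a : L) := by
        intro a
        have h2 : (a : L) ∈ (aeval (R := F) ξ).range := by
          rw [← Algebra.adjoin_singleton_eq_range_aeval]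
          exact a.2
        obtain ⟨r, hr⟩ := h2
        exact ⟨r, hr⟩
      choose r hr using hlift
      let P : A[X] := ∑ i ∈ t, C (i : A) * (r (g i)).map (algebraMap F A)
      have hP : aeval ξ P = 0 := by
        simp only [P, map_sum, map_mul, aeval_C, aeval_map_algebraMap]
        rw [← hg]
        apply Finset.sum_congr rfl
        intro i _
        rw [hr, Algebra.smul_def, mul_comm]
        rfl
      have hP0 : P = 0 := (transcendental_iff.1 hA) P hP
      intro i hi
      have h3 : ∀ k, (r (g i)).coeff k = 0 := by
        intro k
        have h4 := congrArg (fun Q : A[X] => Q.coeff k) hP0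
        simp only [P, finsetSum_coeff, coeff_C_mul, coeff_map, coeff_zero] at h4
        have h5 := (linearIndependent_iff'.1 hs) t (fun i => (r (g i)).coeff k) (by
          rw [← h4]
          apply Finset.sum_congr rfl
          intro j _
          rw [Algebra.smul_def, mul_comm])
        exact h5 i hi
      have h6 : r (g i) = 0 := by ext k; simpa using h3 k
      have h7 := hr (g i)
      rw [h6, map_zero] at h7
      exact Subtype.ext h7.symm
    have := h1.fintype_card_le_finrank
    simpa using this
  have h2 : Module.rank F A ≤ (finrank F⟮ξ⟯ L : ℕ) := rank_le key
  apply Module.rank_lt_aleph0_iff.1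
  exact h2.trans_lt (Cardinal.natCast_lt_aleph0)

end SF
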