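import Pool.Agent.Helper386.D5V.Helper740_D5_Top2
import Pool.Agent.Helper386.D5V.Helper379_SFGP

/-! S02124 from LOC. -/

set_option autoImplicit false
set_option linter.all false
set_option linter.overlappingInstances false

open Polynomial Module FF SF TensorProduct Pool.Agent.Helper51.SFinal

namespace Pool.Agent.Helper740.C3

theorem gp : GPStmt := by
  intro k _ _ z x hk E _ _ _ hE Ω L M _ _ _ _ _ _ _ _ _ _ _ _ m ξ hξ d hLOC
  exact SF.GP k z x hk E hE Ω L M m ξ hξ d hLOC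

theorem S02124_of_LOC (hLOC : LOCStmt) :
    ¬ (∀ (K : Type) [Field K] (D₁ D₂ : Type) [DivisionRing D₁] [DivisionRing D₂]
    [Algebra K D₁] [Algebra K D₂],
    Algebra.IsCentral K D₁ → Algebra.IsCentral K D₂ →
    Module.finrank K D₁ = 9 → Module.finrank K D₂ = 9 →
    (∀ (L : Type) [Field L] [Algebra K L], Algebra.trdeg K L ≤ 1 →
      (Nonempty ((L ⊗[K] D₁) ≃ₐ[L] Matrix (Fin 3) (Fin 3) L) ↔
       Nonempty ((L ⊗[K] D₂) ≃ₐ[L] Matrix (Fin 3) (Fin 3) L))) →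
    Nonempty (D₂ ≃ₐ[K] D₁) ∨ Nonempty (D₂ ≃ₐ[K] D₁ᵐᵒᵖ)) :=
  S02124_of_LOC_GP hLOC gp

end Pool.Agent.Helper740.C3
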