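import Pool.Agent.Helper386.D5V.Helper386_LOC_E
import Pool.Agent.Helper386.D5V.Helper740_D5_Top3
import Pool.Agent.Helper386.D5V.Helper399_ModKE

/-! The local theorem in the form needed for the assembly. -/

set_option autoImplicit false
set_option linter.all false

open Module FF

namespace FFT

theorem locStmt : Pool.Agent.Helper740.C3.LOCStmt := by
  intro k _ _ z x hk E _ _ _ hE Ω L M _ _ _ _ _ _ _ _ _ _ _ _ m a ha α hα ζ hζ g0 g1 g2 hg s
  exact FFT.LOC k z x hk E hE hE.not_cube Ω L M m a ha α hα ζ hζ g0 g1 g2 hg s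

end FFT
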