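import Mathlib

/-!
Degrees in constant field extensions (pieces T3, T4 of the LOC transfer).
-/

namespace FFT

open Module IntermediateField

open scoped IntermediateField.algebraAdjoinAdjoin in
/-- If the products `u ^ j * b i` are independent over `Om`, the `b i` are independent
over `Om(u)`. -/
theorem indep_core {Om M : Type*} [Field Om] [Field M] [Algebra Om M] (u : M) {ι : Type*}
    (b : ι → M) (h : LinearIndependent Om (fun p : ℕ × ι => u ^ p.1 * b p.2)) :
    LinearIndependent (IntermediateField.adjoin Om {u}) b := by
  classical
  rw [← LinearIndependent.iff_fractionRing (R := Algebra.adjoin Om {u})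
    (K := IntermediateField.adjoin Om {u})]
  rw [linearIndependent_iff']
  intro s g hg i hi
  have hp : ∀ x : Algebra.adjoin Om {u}, ∃ p : Polynomial Om, Polynomial.aeval u p = (x : M) := by
    rintro ⟨x, hx⟩
    rw [Algebra.adjoin_singleton_eq_range_aeval] at hx
    exact hx
  choose p' hp' using hp
  set p : ι → Polynomial Om := fun i => p' (g i) with hpdef
  have hp : ∀ i, Polynomial.aeval u (p i) = (g i : M) := fun i => hp' (g i)
  set N := s.sup (fun i => (p i).natDegree) + 1 with hN
  have hlt : ∀ i ∈ s, (p i).natDegree < N := fun i hi =>
    Nat.lt_succ_of_le (Finset.le_sup (f := fun i => (p i).natDegree) hi)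
  have h1 : ∑ q ∈ Finset.range N ×ˢ s, (p q.2).coeff q.1 • (u ^ q.1 * b q.2) = 0 := by
    rw [Finset.sum_product_right, ← hg]
    refine Finset.sum_congr rfl fun i hi => ?_
    have h2 : (g i • b i : M) = (g i : M) * b i := rfl
    rw [h2, ← hp i, Polynomial.aeval_eq_sum_range' (hlt i hi), Finset.sum_mul]
    refine Finset.sum_congr rfl fun j _ => ?_
    rw [smul_mul_assoc]
  have h3 := linearIndependent_iff'.1 h (Finset.range N ×ˢ s) (fun q => (p q.2).coeff q.1) h1
  have h4 : p i = 0 := by
    ext j
    by_cases hj : j < N
    · simpa using h3 (j, i) (by simp [hj, hi])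
    · simpa using Polynomial.coeff_eq_zero_of_natDegree_lt
        (lt_of_lt_of_le (hlt i hi) (not_lt.1 hj))
  have h5 : (g i : M) = 0 := by rw [← hp i, h4, map_zero]
  exact_mod_cast h5

/-- The powers of a transcendental element are independent. -/
theorem indep_pow {F L : Type*} [Field F] [Field L] [Algebra F L] (u : L)
    (hu : Transcendental F u) : LinearIndependent F (fun n : ℕ => u ^ n) := by
  have h := (Polynomial.basisMonomials F).linearIndependent
  have h2 := h.map' (Polynomial.aeval u : Polynomial F →ₐ[F] L).toLinearMap
    (LinearMap.ker_eq_bot.2 (transcendental_iff_injective.1 hu))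
  have h3 : (⇑(Polynomial.aeval u : Polynomial F →ₐ[F] L).toLinearMap ∘
      ⇑(Polynomial.basisMonomials F)) = fun n : ℕ => u ^ n := by
    funext n
    simp
  rwa [h3] at h2

/-- A ring spanned by finitely many elements is a field. -/
theorem span_core {K M : Type*} [Field K] [Field M] [Algebra K M] (A : Submonoid M)
    {ι : Type*} [Finite ι] (b : ι → M)
    (hA : ∀ x ∈ A, x ∈ Submodule.span K (Set.range b)) (hb : ∀ i, b i ∈ A) :
    Subalgebra.toSubmodule (IntermediateField.adjoin K (A : Set M)).toSubalgebra =
      Submodule.span K (Set.range b) := by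
  have h1 : Subalgebra.toSubmodule (Algebra.adjoin K (A : Set M)) =
      Submodule.span K (Set.range b) := by
    rw [Algebra.adjoin_eq_span, Submonoid.closure_eq]
    apply le_antisymm
    · exact Submodule.span_le.2 hA
    · exact Submodule.span_mono (by rintro _ ⟨i, rfl⟩; exact hb i)
  have h2 : FiniteDimensional K (Algebra.adjoin K (A : Set M)) := by
    have : FiniteDimensional K (Submodule.span K (Set.range b)) :=
      FiniteDimensional.span_of_finite K (Set.finite_range b)
    exact LinearEquiv.finiteDimensional (LinearEquiv.ofEq _ _ h1).symm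
  rw [IntermediateField.adjoin_toSubalgebra_of_isAlgebraic, h1]
  intro x hx
  have h3 : IsAlgebraic K (⟨x, Algebra.subset_adjoin hx⟩ : Algebra.adjoin K (A : Set M)) :=
    Algebra.IsAlgebraic.isAlgebraic _
  exact h3.algHom (Algebra.adjoin K (A : Set M)).val

/-- T3: the degree over `F(u)` does not change in a linearly disjoint constant extension. -/
theorem finrank_lift {F Om L M : Type*} [Field F] [Field Om] [Algebra F Om] [Field L]
    [Algebra F L] [Field M] [Algebra Om M] [Algebra L M] [Algebra F M] [IsScalarTower F Om M]
    [IsScalarTower F L M]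
    (indep : ∀ {ι : Type} (v : ι → L), LinearIndependent F v →
      LinearIndependent Om (fun i => algebraMap L M (v i)))
    (gen : Subfield.closure (Set.range (algebraMap Om M) ∪ Set.range (algebraMap L M)) = ⊤)
    (u : L) (hu : Transcendental F u)
    (hfin : FiniteDimensional (IntermediateField.adjoin F {u}) L) :
    finrank (IntermediateField.adjoin Om {algebraMap L M u}) M =
      finrank (IntermediateField.adjoin F {u}) L := by
  set u' := algebraMap L M u with hu'
  set K := IntermediateField.adjoin Om {u'} with hK
  set K0 := IntermediateField.adjoin F {u} with hK0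
  let b := Module.finBasis K0 L
  have huK0 : u ∈ K0 := IntermediateField.mem_adjoin_simple_self F u
  have h1 : LinearIndependent F (fun n : ℕ => (⟨u, huK0⟩ : K0) ^ n) := by
    refine indep_pow _ ?_
    intro h
    exact hu (h.algHom K0.val)
  have h2 := linearIndependent_smul h1 b.linearIndependent
  have h3 := indep _ h2
  have h4 : LinearIndependent K (fun i => algebraMap L M (b i)) := by
    refine indep_core u' _ ?_
    convert h3 using 2 with p
    have h5 : ((⟨u, huK0⟩ : K0) ^ p.1 • b p.2 : L) = u ^ p.1 * b p.2 := by
      rw [Algebra.smul_def]; rfl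
    rw [h5, map_mul, map_pow]
  -- the map F(u) → Om(u')
  have hmap : ∀ a : K0, algebraMap L M (a : L) ∈ K := by
    intro a
    have h5 : K0 ≤ (K.restrictScalars F).comap (IsScalarTower.toAlgHom F L M) := by
      rw [hK0, IntermediateField.adjoin_le_iff]
      rintro x hx
      rw [Set.mem_singleton_iff] at hx
      subst hx
      exact IntermediateField.mem_adjoin_simple_self Om u'
    exact h5 a.2
  -- spanning
  have hA : ∀ x ∈ (algebraMap L M).range.toSubmonoid,
      x ∈ Submodule.span K (Set.range fun i => algebraMap L M (b i)) := by
    rintro _ ⟨l, rfl⟩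
    rw [← b.sum_repr l, map_sum]
    refine Submodule.sum_mem _ fun i _ => ?_
    have h5 : algebraMap L M (b.repr l i • b i) =
        (⟨algebraMap L M (b.repr l i : L), hmap _⟩ : K) • algebraMap L M (b i) := by
      rw [Algebra.smul_def, map_mul, Algebra.smul_def]; rfl
    rw [h5]
    exact Submodule.smul_mem _ _ (Submodule.subset_span ⟨i, rfl⟩)
  have h5 := span_core (K := K) (algebraMap L M).range.toSubmonoid
    (fun i => algebraMap L M (b i)) hA (fun i => ⟨b i, rfl⟩)
  have h6 : IntermediateField.adjoin K
      (((algebraMap L M).range.toSubmonoid : Submonoid M) : Set M) = ⊤ := by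
    rw [eq_top_iff]
    intro x _
    have h7 : x ∈ Subfield.closure (Set.range (algebraMap Om M) ∪ Set.range (algebraMap L M)) := by
      rw [gen]; trivial
    have h8 : Subfield.closure (Set.range (algebraMap Om M) ∪ Set.range (algebraMap L M)) ≤
        (IntermediateField.adjoin K
          (((algebraMap L M).range.toSubmonoid : Submonoid M) : Set M)).toSubfield := by
      rw [Subfield.closure_le]
      rintro y (⟨y, rfl⟩ | ⟨y, rfl⟩)
      · have := (IntermediateField.adjoin K
          (((algebraMap L M).range.toSubmonoid : Submonoid M) : Set M)).algebraMap_mem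
            (algebraMap Om K y)
        exact this
      · exact IntermediateField.subset_adjoin _ _ ⟨y, rfl⟩
    exact h8 h7
  have h7 : (⊤ : Submodule K M) ≤ Submodule.span K (Set.range fun i => algebraMap L M (b i)) := by
    rw [← h5, h6]
    intro x _
    trivial
  have B := Module.Basis.mk h4 h7
  rw [Module.finrank_eq_card_basis B, Fintype.card_fin]

/-- T4 -/
theorem finrank_adjoin_transc {F M : Type*} [Field F] [Field M] [Algebra F M]
    (F' : IntermediateField F M) [FiniteDimensional F F'] (u : M) (hu : Transcendental F' u) :
    finrank (IntermediateField.adjoin F {u}) M =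
      finrank F F' * finrank (IntermediateField.adjoin F' {u}) M := by
  set K := IntermediateField.adjoin F {u} with hK
  let e := Module.finBasis F F'
  have h1 : LinearIndependent F' (fun n : ℕ => u ^ n) := indep_pow u hu
  have h2 := linearIndependent_smul e.linearIndependent h1
  have h3 : LinearIndependent K (fun i => (e i : M)) := by
    refine indep_core u _ ?_
    rw [← linearIndependent_equiv' (.prodComm ..)
      (g := fun p => e p.1 • u ^ p.2) ?_]
    · exact h2
    · funext p
      simp [Algebra.smul_def, mul_comm]
  have hA : ∀ x ∈ F'.toSubfield.toSubring.toSubmonoid,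
      x ∈ Submodule.span K (Set.range fun i => (e i : M)) := by
    intro x hx
    have hx' : x ∈ F' := hx
    have h4 := e.sum_repr ⟨x, hx'⟩
    have h5 : x = ∑ i, (e.repr ⟨x, hx'⟩ i) • (e i : M) := by
      have := congrArg (fun y : F' => (y : M)) h4
      simp only [AddSubmonoidClass.coe_finsetSum] at this
      exact this.symm
    rw [h5]
    refine Submodule.sum_mem _ fun i _ => ?_
    rw [← IsScalarTower.algebraMap_smul K]
    exact Submodule.smul_mem _ _ (Submodule.subset_span ⟨i, rfl⟩)
  have h5 := span_core (K := K) F'.toSubfield.toSubring.toSubmonoid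
    (fun i => (e i : M)) hA (fun i => (e i).2)
  set E1 := IntermediateField.adjoin K ((F'.toSubfield.toSubring.toSubmonoid : Submonoid M) : Set M)
    with hE1
  have h6 : finrank K E1 = finrank F F' := by
    have h7 : finrank K E1 = finrank K (Submodule.span K (Set.range fun i => (e i : M))) := by
      rw [← h5]
      rfl
    rw [h7, finrank_span_eq_card h3]
    simp
  have h8 : ∀ x : M, x ∈ E1 ↔ x ∈ IntermediateField.adjoin F' {u} := by
    intro x
    constructor
    · intro hx
      have h9 : E1.toSubfield ≤ (IntermediateField.adjoin F' {u}).toSubfield := by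
        rw [hE1, IntermediateField.adjoin_toSubfield, Subfield.closure_le]
        rintro y (⟨y, rfl⟩ | hy)
        · have h10 : K ≤ (IntermediateField.adjoin F' {u}).restrictScalars F := by
            rw [hK, IntermediateField.adjoin_le_iff]
            rintro z hz
            rw [Set.mem_singleton_iff] at hz
            subst hz
            exact IntermediateField.mem_adjoin_simple_self F' z
          exact h10 y.2
        · exact (IntermediateField.adjoin F' {u}).algebraMap_mem (⟨y, hy⟩ : F')
      exact h9 hx
    · intro hx
      have h9 : (IntermediateField.adjoin F' {u}).toSubfield ≤ E1.toSubfield := by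
        rw [IntermediateField.adjoin_toSubfield, Subfield.closure_le]
        rintro y (⟨y, rfl⟩ | hy)
        · exact IntermediateField.subset_adjoin _ _ y.2
        · rw [Set.mem_singleton_iff] at hy
          subst hy
          exact E1.algebraMap_mem (⟨y, IntermediateField.mem_adjoin_simple_self F y⟩ : K)
      exact h9 hx
  have h9 : finrank E1 M = finrank (IntermediateField.adjoin F' {u}) M := by
    let φ : E1 ≃+* IntermediateField.adjoin F' {u} :=
      { toFun := fun x => ⟨x, (h8 _).1 x.2⟩
        invFun := fun x => ⟨x, (h8 _).2 x.2⟩
        left_inv := fun x => rfl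
        right_inv := fun x => rfl
        map_mul' := fun x y => rfl
        map_add' := fun x y => rfl }
    refine Algebra.finrank_eq_of_equiv_equiv φ (RingEquiv.refl M) ?_
    ext x
    rfl
  rw [← h6, ← h9, Module.finrank_mul_finrank]

end FFT
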