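import Mathlib

/-! T2: the HJ lemma. -/

set_option autoImplicit false
set_option linter.all false
set_option linter.overlappingInstances false

open Module Polynomial

namespace FFT

/-- the extension property (helper51) -/
def ExtStmt : Prop :=
  ∀ {R E M : Type} [Field R] [CharZero R] [Field E] [Algebra R E] [Field M] [Algebra R M]
  [Algebra E M] [IsScalarTower R E M] [Algebra.IsAlgebraic R E] (L : IntermediateField R M)
  (S : Finset M) (hS : ∀ t ∈ S, t ∈ L) (θ : E) (hθS : algebraMap E M θ ∈ S)
  (hθ : ∀ f ∈ L, IsAlgebraic R f → f ∈ IntermediateField.adjoin R {algebraMap E M θ})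
  (E1 : Type) [Field E1] [Algebra E E1] [Algebra R E1] [IsScalarTower R E E1]
  (φ1 : Algebra.adjoin R (S : Set M) →ₐ[R] E1)
  (hφ : φ1 ⟨algebraMap E M θ, Algebra.subset_adjoin hθS⟩ = algebraMap E E1 θ),
  Nonempty (Algebra.adjoin E (S : Set M) →ₐ[E] E1)

theorem dvd_natDegree_of_irreducible {E : Type*} [Field E] (I : ℕ) (f : E[X])
    (h : ∀ q : E[X], Irreducible q → q ∣ f → I ∣ q.natDegree) (hf : f ≠ 0) : I ∣ f.natDegree := by
  induction f using WfDvdMonoid.induction_on_irreducible with
  | zero => exact absurd rfl hf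
  | unit u hu => rw [natDegree_eq_zero_of_isUnit hu]; exact dvd_zero _
  | mul a i ha hi ih =>
    rw [natDegree_mul hi.ne_zero ha]
    apply dvd_add
    · exact h i hi (dvd_mul_right _ _)
    · exact ih (fun q hq hqa => h q hq (hqa.mul_left _)) ha

theorem HJ_lemma_of (ext : ExtStmt) {R E M : Type} [Field R] [CharZero R] [Field E] [Algebra R E]
    [Field M] [Algebra R M] [Algebra E M]
    [IsScalarTower R E M] [Algebra.IsAlgebraic R E] (L : IntermediateField R M) (S : Finset M)
    (hS : ∀ t ∈ S, t ∈ L) (θ : E) (hθS : algebraMap E M θ ∈ S)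
    (hθ : ∀ f ∈ L, IsAlgebraic R f → f ∈ IntermediateField.adjoin R {algebraMap E M θ}) (I : ℕ)
    (hI : ∀ (E' : Type) [Field E'] [Algebra E E'], FiniteDimensional E E' →
      Nonempty (Algebra.adjoin E (S : Set M) →ₐ[E] E') → I ∣ finrank E E')
    (Ψ : Type) [Field Ψ] [Algebra R Ψ] (hΨ : FiniteDimensional R Ψ)
    (φ : Algebra.adjoin R (S : Set M) →ₐ[R] Ψ) :
    finrank R (IntermediateField.adjoin R {θ}) * I ∣ finrank R Ψ := by
  classical
  have hθint : IsIntegral R θ := (Algebra.IsAlgebraic.isAlgebraic θ).isIntegral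
  let θS : Algebra.adjoin R (S : Set M) := ⟨algebraMap E M θ, Algebra.subset_adjoin hθS⟩
  let K := IntermediateField.adjoin R {θ}
  have hroot : φ θS ∈ (minpoly R θ).aroots Ψ := by
    rw [mem_aroots]
    refine ⟨minpoly.ne_zero hθint, ?_⟩
    rw [aeval_algHom_apply]
    have h1 : aeval θS (minpoly R θ) = 0 := by
      apply Subtype.val_injective
      have h2 : ((aeval θS (minpoly R θ) : Algebra.adjoin R (S : Set M)) : M) =
          aeval (algebraMap E M θ) (minpoly R θ) := by
        exact (aeval_algHom_apply (Algebra.adjoin R (S : Set M)).val θS (minpoly R θ)).symm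
      rw [h2, aeval_algebraMap_apply, minpoly.aeval, map_zero]
      rfl
    rw [h1, map_zero]
  let κ : K →ₐ[R] Ψ := (IntermediateField.algHomAdjoinIntegralEquiv R hθint).symm ⟨φ θS, hroot⟩
  have hκ : κ (IntermediateField.AdjoinSimple.gen R θ) = φ θS :=
    IntermediateField.algHomAdjoinIntegralEquiv_symm_apply_gen R hθint ⟨φ θS, hroot⟩
  letI : Algebra K Ψ := κ.toRingHom.toAlgebra
  haveI : IsScalarTower R K Ψ := IsScalarTower.of_algebraMap_eq (fun c => (κ.commutes c).symm)
  haveI : FiniteDimensional K Ψ := FiniteDimensional.right R K Ψ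
  have hmul : finrank R K * finrank K Ψ = finrank R Ψ := finrank_mul_finrank R K Ψ
  rw [← hmul]
  apply mul_dvd_mul_left
  -- primitive element
  haveI : CharZero K := charZero_of_injective_algebraMap (algebraMap R K).injective
  let pb : PowerBasis K Ψ := Field.powerBasisOfFiniteOfSeparable K Ψ
  rw [pb.finrank, ← pb.natDegree_minpoly, ← natDegree_map (algebraMap K E)]
  apply dvd_natDegree_of_irreducible
  · intro q hq hqf
    haveI : Fact (Irreducible q) := ⟨hq⟩
    let E1 := AdjoinRoot q
    haveI : IsScalarTower R E E1 := inferInstance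
    haveI : IsScalarTower K E E1 := inferInstance
    haveI : IsScalarTower R K E1 := inferInstance
    have hfin : FiniteDimensional E E1 := (AdjoinRoot.powerBasis hq.ne_zero).finite
    have hdeg : finrank E E1 = q.natDegree := by
      rw [(AdjoinRoot.powerBasis hq.ne_zero).finrank, AdjoinRoot.powerBasis_dim]
    have hr : aeval (AdjoinRoot.root q) (minpoly K pb.gen) = 0 := by
      obtain ⟨w, hw⟩ := hqf
      rw [aeval_def]
      have h1 : (minpoly K pb.gen).eval₂ (algebraMap K E1) (AdjoinRoot.root q) =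
          ((minpoly K pb.gen).map (algebraMap K E)).eval₂ (algebraMap E E1) (AdjoinRoot.root q) := by
        rw [eval₂_map]; rfl
      rw [h1, hw, eval₂_mul]
      have h2 : q.eval₂ (algebraMap E E1) (AdjoinRoot.root q) = 0 := AdjoinRoot.eval₂_root q
      rw [h2, zero_mul]
    let lf : Ψ →ₐ[K] E1 := pb.lift (AdjoinRoot.root q) hr
    rw [← hdeg]
    apply hI E1 hfin
    refine ext L S hS θ hθS hθ E1 ((lf.restrictScalars R).comp φ) ?_
    change lf (φ θS) = _
    rw [← hκ]
    have h3 : κ (IntermediateField.AdjoinSimple.gen R θ) =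
        algebraMap K Ψ (IntermediateField.AdjoinSimple.gen R θ) := rfl
    rw [h3, AlgHom.commutes]
    rfl
  · rw [Polynomial.map_ne_zero_iff (algebraMap K E).injective]
    exact minpoly.ne_zero (Algebra.IsIntegral.isIntegral _)

end FFT
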