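import Mathlib

set_option autoImplicit false
set_option linter.all false

open Module

namespace FFT

/-- the general step: `F1` inside the image of `E`, where `y` is not a cube -/
theorem finrank_adjoin_cube_aux {R E M : Type*} [Field R] [Field E] [Field M] [Algebra R E] [Algebra R M] [Algebra E M]
    [IsScalarTower R E M] (y : R) (hy : ¬ ∃ c : E, c ^ 3 = algebraMap R E y) (w : M) (hw : w ^ 3 = algebraMap R M y)
    (F1 : IntermediateField R M) (hF1 : ∀ f ∈ F1, ∃ e : E, algebraMap E M e = f) :
    finrank R ((IntermediateField.adjoin F1 {w}).restrictScalars R) = 3 * finrank R F1 := by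
  have hint : IsIntegral F1 w := by
    have h1 : IsIntegral F1 (w ^ 3) := by
      rw [hw, IsScalarTower.algebraMap_apply R F1 M]
      exact isIntegral_algebraMap
    exact IsIntegral.of_pow (by norm_num) h1
  have hnc : ∀ b : F1, b ^ 3 ≠ algebraMap R F1 y := by
    intro b hb
    obtain ⟨e, he⟩ := hF1 b b.2
    apply hy
    refine ⟨e, (algebraMap E M).injective ?_⟩
    rw [map_pow, he, ← IsScalarTower.algebraMap_apply]
    have := congrArg (algebraMap F1 M) hb
    rw [map_pow, ← IsScalarTower.algebraMap_apply] at this
    exact this
  have hirr : Irreducible (Polynomial.X ^ 3 - Polynomial.C (algebraMap R F1 y)) :=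
    X_pow_sub_C_irreducible_of_prime Nat.prime_three hnc
  have hmin : Polynomial.X ^ 3 - Polynomial.C (algebraMap R F1 y) = minpoly F1 w := by
    apply minpoly.eq_of_irreducible_of_monic hirr
    · rw [map_sub, map_pow, Polynomial.aeval_X, Polynomial.aeval_C, ← IsScalarTower.algebraMap_apply, hw, sub_self]
    · exact Polynomial.monic_X_pow_sub_C _ (by norm_num)
  have h1 : finrank F1 (IntermediateField.adjoin F1 {w}) = 3 := by
    rw [IntermediateField.adjoin.finrank hint, ← hmin]
    exact Polynomial.natDegree_X_pow_sub_C
  have h2 := Module.finrank_mul_finrank R F1 (IntermediateField.adjoin F1 {w})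
  rw [h1] at h2
  change finrank R (IntermediateField.adjoin F1 {w}) = _
  rw [← h2, mul_comm]

theorem finrank_adjoin_cube {R E M : Type*} [Field R] [Field E] [Field M] [Algebra R E] [Algebra R M] [Algebra E M]
    [IsScalarTower R E M] (y : R) (hy : ¬ ∃ c : E, c ^ 3 = algebraMap R E y) (w : M) (hw : w ^ 3 = algebraMap R M y)
    (θ : E) (hθ : IsAlgebraic R θ) :
    finrank R (IntermediateField.adjoin R {algebraMap E M θ, w}) = 3 * finrank R (IntermediateField.adjoin R {θ}) ∧
      finrank R (IntermediateField.adjoin R {w}) = 3 := by
  constructor
  · let φ : E →ₐ[R] M := IsScalarTower.toAlgHom R E M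
    have hmap : (IntermediateField.adjoin R {θ}).map φ = IntermediateField.adjoin R {algebraMap E M θ} := by
      rw [IntermediateField.adjoin_map, Set.image_singleton]
      rfl
    have h1 := finrank_adjoin_cube_aux (E := E) y hy w hw (IntermediateField.adjoin R {algebraMap E M θ}) (by
      intro f hf
      rw [← hmap] at hf
      obtain ⟨e, -, he⟩ := hf
      exact ⟨e, he⟩)
    have h2 : (IntermediateField.adjoin (IntermediateField.adjoin R {algebraMap E M θ}) {w}).restrictScalars R =
        IntermediateField.adjoin R {algebraMap E M θ, w} := by
      rw [IntermediateField.adjoin_adjoin_left]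
      congr 1
    have h3 : finrank R (IntermediateField.adjoin R {algebraMap E M θ}) =
        finrank R (IntermediateField.adjoin R {θ}) := by
      rw [← hmap]
      exact (IntermediateField.equivMap (IntermediateField.adjoin R {θ}) φ).toLinearEquiv.finrank_eq.symm
    rw [← h2, h1, h3]
  · have h1 := finrank_adjoin_cube_aux (E := E) y hy w hw (⊥ : IntermediateField R M) (by
      intro f hf
      obtain ⟨r, hr⟩ := IntermediateField.mem_bot.1 hf
      exact ⟨algebraMap R E r, by rw [← IsScalarTower.algebraMap_apply, hr]⟩)
    have h2 : (IntermediateField.adjoin (⊥ : IntermediateField R M) {w}).restrictScalars R =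
        IntermediateField.adjoin R {w} := by
      apply le_antisymm
      · intro x hx
        have h3 : (IntermediateField.adjoin (⊥ : IntermediateField R M) {w}) ≤
            IntermediateField.extendScalars (F := (⊥ : IntermediateField R M)) (E := IntermediateField.adjoin R {w}) bot_le := by
          rw [IntermediateField.adjoin_le_iff]
          intro x hx
          rw [Set.mem_singleton_iff] at hx
          rw [hx]
          exact IntermediateField.subset_adjoin R {w} (Set.mem_singleton _)
        exact h3 hx
      · rw [IntermediateField.adjoin_le_iff]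
        intro x hx
        exact IntermediateField.subset_adjoin (⊥ : IntermediateField R M) {w} hx
    rw [← h2, h1, IntermediateField.finrank_bot, mul_one]

end FFT
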