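import Mathlib

set_option autoImplicit false
set_option linter.all false

namespace FFT

theorem dvd_of_three (n d i : ℕ) (hn : 0 < n) (h : 3 ^ (padicValNat 3 n + i) ∣ n * d) : 3 ^ i ∣ d := by
  haveI : Fact (Nat.Prime 3) := ⟨Nat.prime_three⟩
  rcases Nat.eq_zero_or_pos d with rfl | hd
  · exact dvd_zero _
  · rw [padicValNat_dvd_iff_le (by positivity)] at h ⊢
    · rw [padicValNat.mul hn.ne' hd.ne'] at h
      omega
    all_goals positivity

theorem dvd_of_three' (n i : ℕ) (q : ℕ) : 3 ^ (padicValNat 3 n + i) ∣ n * 3 ^ i * q := by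
  have h1 : 3 ^ padicValNat 3 n ∣ n := pow_padicValNat_dvd
  rw [pow_add]
  exact (mul_dvd_mul h1 dvd_rfl).trans (Dvd.intro _ rfl)

end FFT
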