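import Pool.Agent.Helper386.D5V.Helper386_LOC_A
import Pool.Agent.Helper386.D5V.Helper379_LOC_LinDisj
import Pool.Agent.Helper386.D5V.Helper51_LOC_HJ
import Pool.Agent.Helper386.D5V.Helper399_LOC_T34
import Pool.Agent.Helper386.D5V.Helper18_LOC_T5
import Pool.Agent.Helper386.D5V.Helper807_LOC_A1
import Pool.Agent.Helper386.D5V.Helper807_LOC_A3
import Pool.Agent.Helper386.D5V.Helper807_LOC_A6

set_option autoImplicit false

namespace FFT

theorem three_dvd_mul (n i : ℕ) : 3 ^ (padicValNat 3 n + i) ∣ n * 3 ^ i := by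
  have := dvd_of_three' n i 1
  rwa [mul_one] at this

end FFT
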