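import Pool.Agent.Helper386.D5V.SF_Defs

/-! Norm values of cubic Kummer extensions: group structure and descent along extensions of
degree prime to 3. -/

set_option autoImplicit false

namespace SF

open Polynomial

section ring
variable {R : Type*} [CommRing R]

theorem N3_mul (a g0 g1 g2 h0 h1 h2 : R) :
    N3 a (g0 * h0 + a * (g1 * h2 + g2 * h1)) (g0 * h1 + g1 * h0 + a * (g2 * h2))
      (g0 * h2 + g1 * h1 + g2 * h0) = N3 a g0 g1 g2 * N3 a h0 h1 h2 := by
  unfold N3; ring

theorem N3_smul (a c g0 g1 g2 : R) :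
    N3 a (c * g0) (c * g1) (c * g2) = c ^ 3 * N3 a g0 g1 g2 := by
  unfold N3; ring

theorem N3_map {S : Type*} [CommRing S] (f : R →+* S) (a g0 g1 g2 : R) :
    f (N3 a g0 g1 g2) = N3 (f a) (f g0) (f g1) (f g2) := by
  unfold N3; simp [map_ofNat]

end ring

section field
variable {L : Type*} [Field L]

theorem Sp.mul {a x y : L} (hx : Sp L a x) (hy : Sp L a y) : Sp L a (x * y) := by
  obtain ⟨g0, g1, g2, hg⟩ := hx
  obtain ⟨h0, h1, h2, hh⟩ := hy
  exact ⟨_, _, _, (N3_mul a g0 g1 g2 h0 h1 h2).trans (by rw [hg, hh])⟩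

theorem Sp.one (a : L) : Sp L a 1 := ⟨1, 0, 0, by unfold N3; ring⟩

theorem Sp.pow {a x : L} (hx : Sp L a x) (n : ℕ) : Sp L a (x ^ n) := by
  induction n with
  | zero => simpa using Sp.one a
  | succ n ih => rw [pow_succ]; exact ih.mul hx

theorem Sp.cube (a c : L) : Sp L a (c ^ 3) := ⟨c, 0, 0, by unfold N3; ring⟩

theorem Sp.zero (a : L) : Sp L a 0 := ⟨0, 0, 0, by unfold N3; ring⟩

/-- dividing by a cube -/
theorem Sp.of_mul_cube {a x c : L} (hc : c ≠ 0) (h : Sp L a (x * c ^ 3)) : Sp L a x := by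
  have h1 := h.mul (Sp.cube a c⁻¹)
  have h2 : x * c ^ 3 * c⁻¹ ^ 3 = x := by field_simp
  rwa [h2] at h1

/-- descent for powers prime to 3 -/
theorem Sp.of_pow {a x : L} {m : ℕ} (hm : Nat.Coprime m 3) (h : Sp L a (x ^ m)) : Sp L a x := by
  by_cases hx : x = 0
  · subst hx; exact Sp.zero a
  · -- m * s = 3 * u + 1
    have : ∃ s u : ℕ, m * s = 3 * u + 1 := by
      have h3 : m % 3 = 1 ∨ m % 3 = 2 := by
        have h0 : m % 3 ≠ 0 := by
          intro h0
          have : 3 ∣ m := Nat.dvd_of_mod_eq_zero h0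
          have h4 := Nat.Coprime.eq_one_of_dvd hm.symm this
          omega
        omega
      rcases h3 with h3 | h3
      · exact ⟨1, m / 3, by omega⟩
      · exact ⟨2, (2 * m - 1) / 3, by omega⟩
    obtain ⟨s, u, hsu⟩ := this
    have h1 := h.pow s
    rw [← pow_mul, hsu] at h1
    have h2 : x ^ (3 * u + 1) = x * (x ^ u) ^ 3 := by ring
    rw [h2] at h1
    exact h1.of_mul_cube (pow_ne_zero _ hx)

/-- If `a` is a nonzero cube, everything is a norm. -/
theorem Sp.of_cube {a r : L} (h3 : (3 : L) ≠ 0) (hr : r ≠ 0) (ha : a = r ^ 3) (x : L) :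
    Sp L a x := by
  subst ha
  refine ⟨(x + 2) / 3, (x - 1) / (3 * r), (x - 1) / (3 * r ^ 2), ?_⟩
  unfold N3
  field_simp
  ring

/-- functoriality -/
theorem Sp.map {L' : Type*} [Field L'] (f : L →+* L') {a x : L} (h : Sp L a x) :
    Sp L' (f a) (f x) := by
  obtain ⟨g0, g1, g2, hg⟩ := h
  exact ⟨f g0, f g1, f g2, by rw [← N3_map, hg]⟩

end field

/-- The companion matrix of `X^3 - a`. -/
def cmat {R : Type*} [CommRing R] (a : R) : Matrix (Fin 3) (Fin 3) R :=
  !![0, 0, a; 1, 0, 0; 0, 1, 0]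

theorem cmat_sq {R : Type*} [CommRing R] (a : R) :
    cmat a ^ 2 = !![0, a, 0; 0, 0, a; 1, 0, 0] := by
  rw [pow_two, cmat]
  ext i j
  fin_cases i <;> fin_cases j <;> simp [Matrix.mul_apply, Fin.sum_univ_three]

theorem cmat_cube {R : Type*} [CommRing R] (a : R) :
    cmat a ^ 3 = a • (1 : Matrix (Fin 3) (Fin 3) R) := by
  rw [pow_succ, cmat_sq, cmat]
  ext i j
  fin_cases i <;> fin_cases j <;> simp [Matrix.mul_apply, Fin.sum_univ_three]

theorem det_cmat {R : Type*} [CommRing R] (a g0 g1 g2 : R) :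
    (g0 • (1 : Matrix (Fin 3) (Fin 3) R) + g1 • cmat a + g2 • cmat a ^ 2).det =
      N3 a g0 g1 g2 := by
  rw [cmat_sq, cmat, Matrix.det_fin_three]
  simp [N3]
  ring

/-- Reduction of a polynomial modulo `X^3 - a`, on determinants. -/
theorem det_aeval_cmat {L : Type*} [Field L] (a : L) (p : L[X]) :
    ∃ h0 h1 h2 : L, (aeval (cmat a) p).det = N3 a h0 h1 h2 := by
  have hmonic : (X ^ 3 - C a : L[X]).Monic := monic_X_pow_sub_C a (by norm_num)
  have hdeg : (p %ₘ (X ^ 3 - C a)).natDegree < 3 := by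
    have h1 := natDegree_modByMonic_lt p hmonic (by
      intro h
      have := congrArg natDegree h
      rw [natDegree_X_pow_sub_C, natDegree_one] at this
      omega)
    rwa [natDegree_X_pow_sub_C] at h1
  have h1 : aeval (cmat a) p = aeval (cmat a) (p %ₘ (X ^ 3 - C a)) := by
    conv_lhs => rw [← modByMonic_add_div p (X ^ 3 - C a)]
    rw [map_add, map_mul]
    have : aeval (cmat a) (X ^ 3 - C a : L[X]) = 0 := by
      rw [map_sub, map_pow, aeval_X, aeval_C, cmat_cube, Algebra.algebraMap_eq_smul_one, sub_self]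
    rw [this, zero_mul, add_zero]
  refine ⟨(p %ₘ (X ^ 3 - C a)).coeff 0, (p %ₘ (X ^ 3 - C a)).coeff 1,
    (p %ₘ (X ^ 3 - C a)).coeff 2, ?_⟩
  rw [h1, ← det_cmat]
  congr 1
  conv_lhs => rw [aeval_eq_sum_range' hdeg]
  simp [Finset.sum_range_succ]

/-- Descent along an extension of degree prime to 3. -/
theorem Sp.descend {L L' : Type*} [Field L] [Field L'] [Algebra L L'] [FiniteDimensional L L']
    (hm : Nat.Coprime (Module.finrank L L') 3) {a x : L}
    (h : Sp L' (algebraMap L L' a) (algebraMap L L' x)) : Sp L a x := by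
  classical
  obtain ⟨g0, g1, g2, hg⟩ := h
  apply Sp.of_pow hm
  let b := Module.finBasis L L'
  let n := Module.finrank L L'
  let f : L' →+* Matrix (Fin n) (Fin n) L := (Algebra.leftMulMatrix b).toRingHom
  let f' : L[X] →+* Matrix (Fin 3) (Fin 3) L := (aeval (cmat a)).toRingHom
  let M : Matrix (Fin 3) (Fin 3) L' := g0 • (1 : Matrix (Fin 3) (Fin 3) L') +
    g1 • cmat (algebraMap L L' a) + g2 • cmat (algebraMap L L' a) ^ 2
  let M' : Matrix (Fin n) (Fin n) L[X] := Matrix.of fun i j =>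
    C (f g0 i j) + C (f g1 i j) * X + C (f g2 i j) * X ^ 2
  have h1 : (f M.det).det = x ^ n := by
    rw [det_cmat, hg]
    have : f (algebraMap L L' x) = x • (1 : Matrix (Fin n) (Fin n) L) := by
      show (Algebra.leftMulMatrix b) (algebraMap L L' x) = _
      rw [AlgHom.commutes, Algebra.algebraMap_eq_smul_one]
    rw [this, Matrix.det_smul, Matrix.det_one, mul_one, Fintype.card_fin]
  have h2 : (f M.det).det = (f' M'.det).det := by
    rw [Matrix.det_det, Matrix.det_det]
    rw [← Matrix.det_reindex_self (Equiv.prodComm (Fin 3) (Fin n))]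
    congr 1
    ext ⟨i, s⟩ ⟨j, t⟩
    have hf : ∀ (c : L) (g : L'), f (g * algebraMap L L' c) i j = c * f g i j := by
      intro c g
      have : f (g * algebraMap L L' c) = c • f g := by
        show (Algebra.leftMulMatrix b) _ = _
        rw [mul_comm, ← Algebra.smul_def, map_smul]
        rfl
      rw [this]; rfl
    have hC : ∀ (c : L), f' (C c) = c • (1 : Matrix (Fin 3) (Fin 3) L) := by
      intro c
      show (aeval (cmat a)) (C c) = _
      rw [aeval_C, Algebra.algebraMap_eq_smul_one]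
    have hX : f' X = cmat a := by
      show (aeval (cmat a)) X = _
      rw [aeval_X]
    have hone : (1 : Matrix (Fin 3) (Fin 3) L') s t =
        algebraMap L L' ((1 : Matrix (Fin 3) (Fin 3) L) s t) := by
      rw [Matrix.one_apply, Matrix.one_apply]
      split_ifs <;> simp
    have hc1 : cmat (algebraMap L L' a) s t = algebraMap L L' (cmat a s t) := by
      fin_cases s <;> fin_cases t <;> simp [cmat]
    have hc2 : (cmat (algebraMap L L' a) ^ 2) s t = algebraMap L L' ((cmat a ^ 2) s t) := by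
      rw [cmat_sq, cmat_sq]
      fin_cases s <;> fin_cases t <;> simp
    have hl : f (M s t) i j = (1 : Matrix (Fin 3) (Fin 3) L) s t * f g0 i j +
        cmat a s t * f g1 i j + (cmat a ^ 2) s t * f g2 i j := by
      have : M s t = g0 * algebraMap L L' ((1 : Matrix (Fin 3) (Fin 3) L) s t) +
          g1 * algebraMap L L' (cmat a s t) + g2 * algebraMap L L' ((cmat a ^ 2) s t) := by
        rw [← hone, ← hc1, ← hc2]; rfl
      rw [this, map_add, map_add, Matrix.add_apply, Matrix.add_apply, hf, hf, hf]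
    have hr : f' (M' i j) s t = (1 : Matrix (Fin 3) (Fin 3) L) s t * f g0 i j +
        cmat a s t * f g1 i j + (cmat a ^ 2) s t * f g2 i j := by
      have : M' i j = C (f g0 i j) + C (f g1 i j) * X + C (f g2 i j) * X ^ 2 := rfl
      rw [this, map_add, map_add, map_mul, map_mul, map_pow, hX, hC, hC, hC, smul_mul_assoc,
        smul_mul_assoc, one_mul, one_mul, Matrix.add_apply, Matrix.add_apply, Matrix.smul_apply,
        Matrix.smul_apply, Matrix.smul_apply, smul_eq_mul, smul_eq_mul, smul_eq_mul]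
      ring
    exact hl.trans hr.symm
  have h3 := det_aeval_cmat a M'.det
  obtain ⟨e0, e1, e2, he⟩ := h3
  exact ⟨e0, e1, e2, by rw [← he]; exact h2.symm.trans h1⟩

end SF
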