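import Pool.Agent.Helper386.D5V.H399_FieldK3
import Pool.Agent.Helper386.D5V.SF_Defs

/-! MODULE K: the field `k`. -/

set_option autoImplicit false

namespace SF

/-- There is a field `k` of characteristic `0` with a primitive cube root of unity `z` and an
element `x` which is not a cube, existentially closed in every extension in which `x` is not
a cube. -/
theorem exists_k : ∃ (k : Type) (_ : Field k) (_ : CharZero k) (z x : k),
    IsPrimitiveRoot z 3 ∧ (¬ ∃ c : k, c ^ 3 = x) ∧
    ∀ (κ : Type) [Field κ] [Algebra k κ], (¬ ∃ c : κ, c ^ 3 = algebraMap k κ x) →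
      ∀ s : Finset κ, Nonempty (Algebra.adjoin k (s : Set κ) →ₐ[k] k) := by
  obtain ⟨k, _, _, z, x, _, hz, hx, hec⟩ := Pool.Agent.H399.FieldK.exists_fieldK.{0}
  refine ⟨k, inferInstance, inferInstance, z, x, hz, ?_, ?_⟩
  · rintro ⟨c, hc⟩
    exact hx c hc
  · intro κ _ _ hκ s
    exact hec κ (fun r hr => hκ ⟨r, hr⟩) (Algebra.adjoin k (s : Set κ)) ⟨s, rfl⟩

end SF
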