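import Pool.Agent.Helper386.D5V.Helper386_FF_Fund

/-! Places over places (definitions of helper386, docs 319). -/

set_option autoImplicit false
set_option linter.all false
set_option linter.overlappingInstances false

open Module FF

namespace FF

section
variable {k K K' : Type*} [Field k] [Field K] [Field K'] [Algebra k K] [Algebra k K'] [Algebra K K']
  [IsScalarTower k K K']

/-- `w` lies over `w0` with ramification index `e`. -/
def Over (w : Place k K') (w0 : Place k K) (e : ℕ) : Prop :=
  0 < e ∧ ∀ f : K, w.ord (algebraMap K K' f) = e * w0.ord f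

theorem Over.reg {w : Place k K'} {w0 : Place k K} {e : ℕ} (h : Over w w0 e) {f : K} :
    w.Reg (algebraMap K K' f) ↔ w0.Reg f := by
  unfold Place.Reg
  rw [h.2 f]
  have : (0 : ℤ) < e := by exact_mod_cast h.1
  simp [mul_nonneg_iff_of_pos_left this]

/-- the map of residue fields -/
noncomputable def Over.resMap {w : Place k K'} {w0 : Place k K} {e : ℕ} (h : Over w w0 e) :
    w0.RF →ₐ[k] w.RF :=
  let φ : w0.O →+* w.O := ((algebraMap K K').comp w0.O.subtype).codRestrict w.O (fun f => h.reg.2 f.2)
  have hφ : IsLocalHom φ := by
    constructor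
    intro a ha
    have h1 := (w.isUnit_O_iff (f := algebraMap K K' a.1) (h.reg.2 a.2)).1 ha
    refine (w0.isUnit_O_iff a.2).2 ⟨fun h0 => h1.1 (by rw [h0, map_zero]), ?_⟩
    have h2 := h1.2
    rw [h.2] at h2
    rcases mul_eq_zero.1 h2 with h3 | h3
    · have := h.1; omega
    · exact h3
  { toRingHom := IsLocalRing.ResidueField.map φ
    commutes' := fun c => by
      change IsLocalRing.ResidueField.map φ (w0.red (algebraMap k K c)) = w.red (algebraMap k K' c)
      rw [w0.red_of_reg (w0.reg_const c), w.red_of_reg (w.reg_const c)]
      change IsLocalRing.ResidueField.map φ (IsLocalRing.residue _ _) = IsLocalRing.residue _ _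
      rw [IsLocalRing.ResidueField.map_residue]
      congr 1
      apply Subtype.ext
      change algebraMap K K' (algebraMap k K c) = _
      rw [← IsScalarTower.algebraMap_apply k K K'] }

theorem Over.resMap_red {w : Place k K'} {w0 : Place k K} {e : ℕ} (h : Over w w0 e) {f : K}
    (hf : w0.Reg f) : h.resMap (w0.red f) = w.red (algebraMap K K' f) := by
  rw [w0.red_of_reg hf, w.red_of_reg (h.reg.2 hf)]
  rfl

/-- composition of a place with an automorphism -/
noncomputable def Place.comp (w : Place k K') (s : K' ≃ₐ[k] K') : Place k K' where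
  ord f := w.ord (s f)
  ord_zero := by rw [map_zero, w.ord_zero]
  ord_mul := by
    intro f g hf hg
    rw [map_mul, w.ord_mul (by simpa using hf) (by simpa using hg)]
  ord_add := by
    intro f g hf hg hfg
    rw [map_add]
    exact w.ord_add (by simpa using hf) (by simpa using hg)
      (by rw [← map_add]; exact (map_ne_zero_iff _ s.injective).2 hfg)
  ord_const := by intro c hc; rw [AlgEquiv.commutes, w.ord_const hc]
  surj := by
    obtain ⟨t, h0, ht⟩ := w.surj
    exact ⟨s.symm t, by simpa using h0, by simpa using ht⟩

theorem Place.comp_ord (w : Place k K') (s : K' ≃ₐ[k] K') (f : K') : (w.comp s).ord f = w.ord (s f) := rfl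


end

end FF
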