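import Mathlib
import Pool.Agent.Helper386.D5V.Helper51_Alg3b
import Pool.Agent.Helper386.D5V.SF_Defs

/-!
# MODULE ALG of the counterexample for MP_d5741c_al
-/

open scoped TensorProduct

noncomputable section

namespace Pool.Agent.Helper51.Alg3

open Pool.Agent.Helper51.SymbolDefs Pool.Agent.Helper51.CompositeDegree

theorem sp_iff {L : Type*} [Field L] (a x : L) : SF.Sp L a x ↔ Sp a x := Iff.rfl

/-- two cubic symbol algebras over the same field split by the same extensions of transcendence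
degree at most one, but not isomorphic or opposite -/
theorem alg_main (F : Type) [Field F] (z x a b : F) (hz3 : IsPrimitiveRoot z 3)
    (hx : x ≠ 0) (ha : a ≠ 0) (hb : b ≠ 0)
    (h1 : ¬ SF.Sp F a x) (h2 : ¬ SF.Sp F b x) (h3 : ¬ SF.Sp F (a * b) x) (h4 : ¬ SF.Sp F (b / a) x)
    (hL : ∀ (L : Type) [Field L] [Algebra F L], Algebra.trdeg F L ≤ 1 →
      (SF.Sp L (algebraMap F L a) (algebraMap F L x) ↔ SF.Sp L (algebraMap F L b) (algebraMap F L x))) :
    ¬ (∀ (K : Type) [Field K] (D₁ D₂ : Type) [DivisionRing D₁] [DivisionRing D₂]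
    [Algebra K D₁] [Algebra K D₂],
    Algebra.IsCentral K D₁ → Algebra.IsCentral K D₂ →
    Module.finrank K D₁ = 9 → Module.finrank K D₂ = 9 →
    (∀ (L : Type) [Field L] [Algebra K L], Algebra.trdeg K L ≤ 1 →
      (Nonempty ((L ⊗[K] D₁) ≃ₐ[L] Matrix (Fin 3) (Fin 3) L) ↔
       Nonempty ((L ⊗[K] D₂) ≃ₐ[L] Matrix (Fin 3) (Fin 3) L))) →
    Nonempty (D₂ ≃ₐ[K] D₁) ∨ Nonempty (D₂ ≃ₐ[K] D₁ᵐᵒᵖ)) := by
  intro H
  letI : DivisionRing (D3 z x a) := divD3 hz3 hx ha h1
  letI : DivisionRing (D3 z x b) := divD3 hz3 hx hb h2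
  rcases H F (D3 z x a) (D3 z x b) (central_D3 hz3 hx ha) (central_D3 hz3 hx hb)
    (finrank_D3 hz3 hx ha) (finrank_D3 hz3 hx hb) (by
      intro L _ _ hT
      exact (split_iff hz3 hx ha L).trans ((hL L hT).trans (split_iff hz3 hx hb L).symm)) with h | h
  · obtain ⟨e⟩ := h
    apply h4
    have h5 := Sp.of_iso hz3 (finrank_D3 hz3 hx ha) hx ha hb (gu F 3 z x a) (gv F 3 z x a)
      (e (gu F 3 z x b)) (e (gv F 3 z x b)) gu_pow gv_pow gu_gv
      (by rw [← map_pow, gu_pow, AlgEquiv.commutes]) (by rw [← map_pow, gv_pow, AlgEquiv.commutes])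
      (by rw [← map_mul, gu_gv, map_smul, map_mul])
    have hzr := z_rel hz3
    have h30 := three_ne_zero_of_root hz3
    have e1 : Sp x (a * b ^ 2) := Sp.symm h30 hzr hx h5
    have e2 : Sp x (b / a) := by
      have e3 := e1.inv.mul (Sp.cube x b)
      have e4 : (a * b ^ 2)⁻¹ * b ^ 3 = b / a := by field_simp
      rwa [e4] at e3
    exact Sp.symm h30 hzr (div_ne_zero hb ha) e2
  · obtain ⟨e⟩ := h
    apply h3
    have hop : ∀ w : D3 z x b, MulOpposite.unop (e w) ^ 3 = MulOpposite.unop (e (w ^ 3)) := by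
      intro w; rw [map_pow]; rfl
    exact Sp.of_op hz3 (finrank_D3 hz3 hx ha) hx ha hb (gu F 3 z x a) (gv F 3 z x a)
      (MulOpposite.unop (e (gu F 3 z x b))) (MulOpposite.unop (e (gv F 3 z x b))) gu_pow gv_pow gu_gv
      (by rw [hop, gu_pow, AlgEquiv.commutes]; rfl) (by rw [hop, gv_pow, AlgEquiv.commutes]; rfl)
      (by rw [← MulOpposite.unop_mul, ← MulOpposite.unop_mul, ← map_mul, gu_gv, map_smul, map_mul]; rfl)

end Pool.Agent.Helper51.Alg3
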