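import Mathlib

/-! Extension of homomorphisms by linear disjointness (LOC transfer, T2). -/

set_option autoImplicit false
set_option linter.all false

open TensorProduct Module

namespace FFT

/-- If `A ⊆ M` is an `R0`-subalgebra, `E → M` a field over the field `R0`, such that `R0`-independent families in `A`
remain `E`-independent, then an `R0`-algebra homomorphism `A → E'` to an `E`-algebra extends to the `E`-algebra
generated by `A`. -/
theorem ext_hom51_aux {R0 E M : Type*} [Field R0] [Field E] [Field M] [Algebra R0 E] [Algebra R0 M] [Algebra E M]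
    [IsScalarTower R0 E M] (A : Subalgebra R0 M)
    (hA : ∀ (v : Basis.ofVectorSpaceIndex R0 A → M), (∀ i, v i ∈ A) → LinearIndependent R0 v → LinearIndependent E v)
    (E' : Type*) [Field E'] [Algebra E E'] [Algebra R0 E'] [IsScalarTower R0 E E']
    (φ : A →ₐ[R0] E') (S : Set M) (hS : S ⊆ A) :
    ∃ ψ : Algebra.adjoin E S →ₐ[E] E', ∀ (t : M) (h : t ∈ S), ψ ⟨t, Algebra.subset_adjoin h⟩ = φ ⟨t, hS h⟩ := by
  classical
  let F : E ⊗[R0] A →ₐ[E] M := Algebra.TensorProduct.lift (Algebra.ofId E M) (A.val) (fun _ _ => Commute.all _ _)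
  let G : E ⊗[R0] A →ₐ[E] E' := Algebra.TensorProduct.lift (Algebra.ofId E E') φ (fun _ _ => Commute.all _ _)
  let b := Basis.ofVectorSpace R0 A
  let bE : Basis _ E (E ⊗[R0] A) := b.baseChange E
  have hFb : ∀ i, F (bE i) = (b i : M) := by
    intro i
    simp [F, bE]
  have hinj : Function.Injective F := by
    have h1 : LinearIndependent E (fun i => (b i : M)) := by
      apply hA
      · intro i; exact (b i).2
      · have := b.linearIndependent.map' A.val.toLinearMap (LinearMap.ker_eq_bot_of_injective Subtype.val_injective)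
        exact this
    have h2 : F.toLinearMap = bE.constr ℕ (fun i => (b i : M)) := by
      apply bE.ext
      intro i
      rw [Basis.constr_basis]
      exact hFb i
    rw [injective_iff_map_eq_zero]
    intro t ht
    have h3 : Finsupp.linearCombination E (fun i => (b i : M)) (bE.repr t) = 0 := by
      rw [Finsupp.linearCombination_apply, ← Basis.constr_apply (S := ℕ), ← h2]
      exact ht
    have h4 : bE.repr t = 0 := (linearIndependent_iff.1 h1) _ h3
    exact bE.repr.map_eq_zero_iff.1 h4
  -- the inverse on the range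
  let e : (E ⊗[R0] A) ≃ₐ[E] F.range := AlgEquiv.ofInjective F hinj
  have hle : Algebra.adjoin E S ≤ F.range := by
    apply Algebra.adjoin_le
    intro t ht
    refine ⟨1 ⊗ₜ ⟨t, hS ht⟩, ?_⟩
    simp [F]
  refine ⟨(G.comp (e.symm : F.range →ₐ[E] (E ⊗[R0] A))).comp (Subalgebra.inclusion hle), ?_⟩
  intro t ht
  have h1 : e (1 ⊗ₜ ⟨t, hS ht⟩) = ⟨t, hle (Algebra.subset_adjoin ht)⟩ := by
    apply Subtype.ext
    simp [e, F]
  have h2 : e.symm ⟨t, hle (Algebra.subset_adjoin ht)⟩ = 1 ⊗ₜ ⟨t, hS ht⟩ := by
    rw [← h1, AlgEquiv.symm_apply_apply]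
  show G (e.symm ⟨t, hle (Algebra.subset_adjoin ht)⟩) = _
  rw [h2]
  simp [G]


universe u1 u2 u3

theorem ext_hom51 {R : Type u1} {E : Type u2} {M : Type u3} [Field R] [CharZero R] [Field E] [Algebra R E] [Field M]
    [Algebra R M] [Algebra E M]
    [IsScalarTower R E M] [Algebra.IsAlgebraic R E] (L : IntermediateField R M) (S : Set M) (hS : ∀ t ∈ S, t ∈ L)
    (θ : E) (hθS : algebraMap E M θ ∈ S)
    (hLD : ∀ {ι : Type u3} (v : ι → M), (∀ i, v i ∈ L) →
      LinearIndependent (IntermediateField.adjoin R {algebraMap E M θ}) v → LinearIndependent E v)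
    (E' : Type*) [Field E'] [Algebra E E'] [Algebra R E'] [IsScalarTower R E E']
    (φ : Algebra.adjoin R S →ₐ[R] E')
    (hφ : φ ⟨algebraMap E M θ, Algebra.subset_adjoin hθS⟩ = algebraMap E E' θ) :
    ∃ ψ : Algebra.adjoin E S →ₐ[E] E', ∀ (t : M) (h : t ∈ S),
      ψ ⟨t, Algebra.subset_adjoin h⟩ = φ ⟨t, Algebra.subset_adjoin h⟩ := by
  classical
  let R0 : IntermediateField R E := IntermediateField.adjoin R {θ}
  have hθR : IsIntegral R θ := (Algebra.IsAlgebraic.isAlgebraic (R := R) θ).isIntegral
  have hR0 : R0.toSubalgebra = Algebra.adjoin R {θ} :=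
    IntermediateField.adjoin_simple_toSubalgebra_of_isAlgebraic hθR.isAlgebraic
  have key : ∀ r : E, r ∈ R0 → ∃ h : algebraMap E M r ∈ Algebra.adjoin R S,
      φ ⟨algebraMap E M r, h⟩ = algebraMap E E' r := by
    intro r hr
    have hr1 : r ∈ Algebra.adjoin R {θ} := by rw [← hR0]; exact hr
    induction hr1 using Algebra.adjoin_induction with
    | mem x hx =>
      rw [Set.mem_singleton_iff] at hx
      subst hx
      exact ⟨Algebra.subset_adjoin hθS, hφ⟩
    | algebraMap r =>
      have e1 : algebraMap E M (algebraMap R E r) = algebraMap R M r := (IsScalarTower.algebraMap_apply R E M r).symm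
      have e2 : algebraMap E E' (algebraMap R E r) = algebraMap R E' r := (IsScalarTower.algebraMap_apply R E E' r).symm
      refine ⟨by rw [e1]; exact Subalgebra.algebraMap_mem _ r, ?_⟩
      rw [e2, ← AlgHom.commutes φ r]
      congr 1
      exact Subtype.ext e1
    | add x y hx hy ihx ihy =>
      obtain ⟨h1, h2⟩ := ihx (by show x ∈ R0.toSubalgebra; rw [hR0]; exact hx)
      obtain ⟨h3, h4⟩ := ihy (by show y ∈ R0.toSubalgebra; rw [hR0]; exact hy)
      refine ⟨by rw [map_add]; exact add_mem h1 h3, ?_⟩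
      have e1 : φ ⟨algebraMap E M (x + y), by rw [map_add]; exact add_mem h1 h3⟩ =
          φ (⟨algebraMap E M x, h1⟩ + ⟨algebraMap E M y, h3⟩) := congrArg φ (Subtype.ext (map_add _ _ _))
      rw [e1, map_add φ, h2, h4]
      exact (map_add (algebraMap E E') x y).symm
    | mul x y hx hy ihx ihy =>
      obtain ⟨h1, h2⟩ := ihx (by show x ∈ R0.toSubalgebra; rw [hR0]; exact hx)
      obtain ⟨h3, h4⟩ := ihy (by show y ∈ R0.toSubalgebra; rw [hR0]; exact hy)
      refine ⟨by rw [map_mul]; exact mul_mem h1 h3, ?_⟩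
      have e1 : φ ⟨algebraMap E M (x * y), by rw [map_mul]; exact mul_mem h1 h3⟩ =
          φ (⟨algebraMap E M x, h1⟩ * ⟨algebraMap E M y, h3⟩) := congrArg φ (Subtype.ext (map_mul _ _ _))
      rw [e1, map_mul φ, h2, h4]
      exact (map_mul (algebraMap E E') x y).symm
  let A : Subalgebra R0 M :=
    { (Algebra.adjoin R S).toSubsemiring with
      algebraMap_mem' := fun r => (key r.1 r.2).1 }
  haveI : IsScalarTower R0 E E' := IsScalarTower.of_algebraMap_eq (fun _ => rfl)
  haveI : IsScalarTower R0 E M := IsScalarTower.of_algebraMap_eq (fun _ => rfl)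
  let φ' : A →ₐ[R0] E' :=
    { toFun := fun a => φ ⟨a.1, a.2⟩
      map_one' := map_one φ
      map_mul' := fun a b => map_mul φ ⟨a.1, a.2⟩ ⟨b.1, b.2⟩
      map_zero' := map_zero φ
      map_add' := fun a b => map_add φ ⟨a.1, a.2⟩ ⟨b.1, b.2⟩
      commutes' := fun r => (key r.1 r.2).2 }
  have hAL : ∀ t ∈ A, t ∈ L := by
    intro t ht
    have h1 : Algebra.adjoin R S ≤ L.toSubalgebra := Algebra.adjoin_le (fun x hx => hS x hx)
    exact h1 ht
  obtain ⟨ψ, hψ⟩ := ext_hom51_aux (R0 := R0) (E := E) (M := M) A (by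
    intro v hv hi
    apply hLD v (fun i => hAL _ (hv i))
    -- convert the scalars
    have hmap : ∀ r : M, r ∈ IntermediateField.adjoin R {algebraMap E M θ} → ∃ r' : R0, algebraMap R0 M r' = r := by
      intro r hr
      have h1 : IntermediateField.adjoin R {algebraMap E M θ} = R0.map (IsScalarTower.toAlgHom R E M) := by
        rw [IntermediateField.adjoin_map, Set.image_singleton]
        rfl
      rw [h1] at hr
      obtain ⟨r', hr', rfl⟩ := hr
      exact ⟨⟨r', hr'⟩, rfl⟩
    choose g hg using hmap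
    have h2 := hi.map_of_injective_injective (R' := IntermediateField.adjoin R {algebraMap E M θ}) (M' := M)
      (fun r => g r.1 r.2) (AddMonoidHom.id M) (by
        intro r hr
        have := hg r.1 r.2
        rw [hr, map_zero] at this
        exact Subtype.ext this.symm) (fun m hm => hm) (by
        intro r m
        show g r.1 r.2 • m = r • m
        rw [Algebra.smul_def, hg r.1 r.2]
        rfl)
    exact h2) E' φ' S (fun x hx => Algebra.subset_adjoin hx)
  exact ⟨ψ, hψ⟩

end FFT
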