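import Mathlib
import Pool.Agent.Helper386.D5V.SF_Defs
import Pool.Agent.Helper386.D5V.Helper379_SFGal

/-! The finite step (C2) of blueprint v2 (copy of `Pool/Agent/Helper379/SFC2.lean` by helper379 in another
namespace, to avoid a name clash). -/

set_option autoImplicit false

open Cardinal Polynomial

namespace Pool.Agent.Helper51.C2

open SF

section Tools

variable {Ω : Type} [Field Ω]

theorem countable_subfieldClosure (s : Set Ω) (hs : s.Countable) :
    Countable (Subfield.closure s) := by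
  rw [← Cardinal.mk_le_aleph0_iff]
  refine (Subfield.cardinalMk_closure_le_max s).trans ?_
  rw [max_le_iff]
  exact ⟨hs.le_aleph0, le_rfl⟩

/-- Generic elements inside a large subfield. -/
theorem exists_generic [IsAlgClosed Ω] [Uncountable Ω] (K : Subfield Ω) [Countable K]
    (E : Subfield Ω) (hE : Algebra.IsAlgebraic E Ω) (ι : Type) [Countable ι] :
    ∃ v : ι → Ω, (∀ i, v i ∈ E) ∧ AlgebraicIndependent K v := by
  have halg : Algebra.IsAlgebraic (Algebra.adjoin K (E : Set Ω)) Ω := by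
    constructor
    intro x
    obtain ⟨p, hp0, hp⟩ := hE.isAlgebraic x
    let f : E →+* Algebra.adjoin K (E : Set Ω) :=
      { toFun := fun a => ⟨a, Algebra.subset_adjoin a.2⟩
        map_one' := rfl
        map_zero' := rfl
        map_mul' := fun _ _ => rfl
        map_add' := fun _ _ => rfl }
    have hf : Function.Injective f := by
      intro a b hab
      exact Subtype.ext (congrArg (fun t : Algebra.adjoin K (E : Set Ω) => (t : Ω)) hab)
    refine ⟨p.map f, (Polynomial.map_ne_zero_iff hf).2 hp0, ?_⟩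
    rw [Polynomial.aeval_def, Polynomial.eval₂_map]
    exact hp
  obtain ⟨t, htE, ht⟩ := exists_isTranscendenceBasis_subset (R := K) (E : Set Ω)
  have hΩ : ℵ₀ < #Ω := Cardinal.aleph0_lt_mk
  have h1 : #Ω = #t := by
    have := IsAlgClosed.cardinal_eq_cardinal_transcendence_basis_of_aleph0_lt _ ht
      (Cardinal.mk_le_aleph0) hΩ
    simpa using this
  have h2 : Cardinal.lift #ι ≤ Cardinal.lift #t := by
    rw [← h1]
    refine le_trans ?_ (Cardinal.lift_le.2 hΩ.le)
    simp [Cardinal.mk_le_aleph0]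
  obtain ⟨emb⟩ := Cardinal.lift_mk_le'.1 h2
  refine ⟨fun i => ((emb i : t) : Ω), fun i => htE (emb i).2, ?_⟩
  exact ht.1.comp emb emb.injective

/-- A finite family of at most as many elements generating an independent family is
independent. -/
theorem algInd_of_card_le {K ι κ : Type} [Field K] [Algebra K Ω] [Finite ι] [Finite κ]
    (u : ι → Ω) (v : κ → Ω) (hv : AlgebraicIndependent K v) (hcard : Nat.card ι ≤ Nat.card κ)
    (h : ∀ i, v i ∈ Algebra.adjoin K (Set.range u)) : AlgebraicIndependent K u := by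
  classical
  let A := Algebra.adjoin K (Set.range u)
  let u' : ι → A := fun i => ⟨u i, Algebra.subset_adjoin ⟨i, rfl⟩⟩
  let v' : κ → A := fun i => ⟨v i, h i⟩
  have hv' : AlgebraicIndependent K v' := by
    have : AlgebraicIndependent K (A.val ∘ v') := hv
    exact this.of_comp _
  have htop : Algebra.adjoin K (Set.range u') = ⊤ := by
    have h1 : Set.range u' = Subtype.val ⁻¹' (Set.range u) := by
      ext a
      constructor
      · rintro ⟨i, rfl⟩
        exact ⟨i, rfl⟩
      · rintro ⟨i, hi⟩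
        exact ⟨i, Subtype.ext hi⟩
    rw [h1]
    exact Algebra.adjoin_adjoin_coe_preimage
  have halg : Algebra.IsAlgebraic (Algebra.adjoin K (Set.range u')) A := by
    constructor
    intro a
    have ha : a ∈ Algebra.adjoin K (Set.range u') := by rw [htop]; trivial
    have := isAlgebraic_algebraMap (R := Algebra.adjoin K (Set.range u')) (A := A)
      (⟨a, ha⟩ : Algebra.adjoin K (Set.range u'))
    exact this
  have hle : #ι ≤ Algebra.trdeg K A := by
    refine le_trans ?_ hv'.cardinalMk_le_trdeg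
    rw [← Nat.cast_card, ← Nat.cast_card]
    exact_mod_cast hcard
  have := Algebra.IsAlgebraic.isTranscendenceBasis_of_le_trdeg_of_finite K u' hle
  exact this.1.map' (f := A.val) Subtype.val_injective

end Tools

section Val

variable {Ω : Type} [Field Ω]

/-- Value of a triple of polynomials at the point `(r, y)`. -/
noncomputable def val (g : Fin 3 → Polynomial Ω) (r y : Ω) : Ω :=
  (g 0).eval r + (g 1).eval r * y + (g 2).eval r * y ^ 2

theorem N3_eq_prod {z c y g0 g1 g2 : Ω} (hz : z ^ 2 + z + 1 = 0) (hy : y ^ 3 = c) :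
    N3 c g0 g1 g2 = (g0 + g1 * y + g2 * y ^ 2) * (g0 + g1 * (z * y) + g2 * (z * y) ^ 2) *
      (g0 + g1 * (z ^ 2 * y) + g2 * (z ^ 2 * y) ^ 2) := by
  have hz3 : z ^ 3 = 1 := by linear_combination (z - 1) * hz
  have hz' : z ^ 2 = - z - 1 := by linear_combination hz
  subst hy
  unfold N3
  have e1 : (z * y) ^ 2 = (- z - 1) * y ^ 2 := by rw [mul_pow, hz']
  have e2 : (z ^ 2 * y) ^ 2 = z * y ^ 2 := by
    have : z ^ 4 = z := by linear_combination z * hz3
    linear_combination y ^ 2 * this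
  rw [e1, e2, hz']
  linear_combination (g0 * y ^ 2 * g1 ^ 2 - 2 * g0 * y ^ 3 * g1 * g2 + g0 * y ^ 4 * g2 ^ 2 +
    y ^ 3 * g1 ^ 3 - y ^ 4 * g1 ^ 2 * g2 - y ^ 5 * g1 * g2 ^ 2 + y ^ 6 * g2 ^ 3) * hz

theorem fourier0 {z y a b c : Ω} (hz : z ^ 2 + z + 1 = 0) :
    (a + b * y + c * y ^ 2) + (a + b * (z * y) + c * (z * y) ^ 2) +
      (a + b * (z ^ 2 * y) + c * (z ^ 2 * y) ^ 2) = 3 * a := by
  linear_combination (b * y + c * y ^ 2 * (z ^ 2 - z + 1)) * hz

/-- The recovery of the coefficients from the values. -/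
noncomputable def rec (y z : Ω) (H : Ω → Ω) : Fin 3 → Ω :=
  ![(H y + H (z * y) + H (z ^ 2 * y)) / 3,
    (H y + z ^ 2 * H (z * y) + z * H (z ^ 2 * y)) / (3 * y),
    (H y + z * H (z * y) + z ^ 2 * H (z ^ 2 * y)) / (3 * y ^ 2)]

theorem rec_val {z y : Ω} (hz : z ^ 2 + z + 1 = 0) (h3 : (3 : Ω) ≠ 0) (hy : y ≠ 0)
    (g : Fin 3 → Polynomial Ω) (r : Ω) (k : Fin 3) :
    rec y z (val g r) k = (g k).eval r := by
  have hz3 : z ^ 3 = 1 := by linear_combination (z - 1) * hz
  fin_cases k
  · simp only [rec, val]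
    simp
    field_simp
    linear_combination (eval r (g 1) * y + eval r (g 2) * y ^ 2 * (z ^ 2 - z + 1)) * hz
  · simp only [rec, val]
    simp
    field_simp
    linear_combination (eval r (g 0) + 2 * (z - 1) * eval r (g 1) * y +
      eval r (g 2) * y ^ 2 * (1 + (z - 1) * (z + z ^ 2))) * hz
  · simp only [rec, val]
    simp
    field_simp
    linear_combination (eval r (g 0) + (1 - z + z ^ 2) * eval r (g 1) * y +
      eval r (g 2) * y ^ 2 * ((z - 1) * (1 + z ^ 3 + 1))) * hz

theorem val_rec {z y : Ω} (hz : z ^ 2 + z + 1 = 0) (h3 : (3 : Ω) ≠ 0) (hy : y ≠ 0)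
    (H : Ω → Ω) {t : Ω} (ht : t = y ∨ t = z * y ∨ t = z ^ 2 * y) :
    rec y z H 0 + rec y z H 1 * t + rec y z H 2 * t ^ 2 = H t := by
  have hz3 : z ^ 3 = 1 := by linear_combination (z - 1) * hz
  rcases ht with rfl | rfl | rfl
  · simp only [rec]
    simp
    field_simp
    linear_combination (H (z * t) + H (z ^ 2 * t)) * hz
  · simp only [rec]
    simp
    field_simp
    set a := H y
    set b := H (z * y)
    set c := H (z ^ 2 * y)
    linear_combination (a + 2 * (z - 1) * b + c * (1 - z + z ^ 2)) * hz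
  · simp only [rec]
    simp
    field_simp
    set a := H y
    set b := H (z * y)
    set c := H (z ^ 2 * y)
    linear_combination (a * (1 - z + z ^ 2) + b * (1 + (z - 1) * (z + z ^ 2)) +
      c * (z - 1) * (1 + z ^ 3 + 1)) * hz

theorem rec_mul {z y : Ω} (hz : z ^ 2 + z + 1 = 0) (h3 : (3 : Ω) ≠ 0) (hy : y ≠ 0)
    (H : Ω → Ω) : rec (z * y) z H = rec y z H := by
  have hz3 : z ^ 3 = 1 := by linear_combination (z - 1) * hz
  have hz0 : z ≠ 0 := by
    rintro rfl
    simp at hz3
  have e1 : z * (z * y) = z ^ 2 * y := by ring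
  have e2 : z ^ 2 * (z * y) = y := by linear_combination y * hz3
  funext k
  fin_cases k
  · simp only [rec, e1, e2]
    simp
    ring
  · simp only [rec, e1, e2]
    simp
    field_simp
    linear_combination (- H (z * y)) * hz3
  · simp only [rec, e1, e2]
    simp
    field_simp
    linear_combination (- H (z * y) - z * H (z ^ 2 * y)) * hz3

theorem rec_eq_of_cube {z y y' : Ω} (hz : z ^ 2 + z + 1 = 0) (h3 : (3 : Ω) ≠ 0) (hy : y ≠ 0)
    (H : Ω → Ω) (h : y' ^ 3 = y ^ 3) : rec y' z H = rec y z H := by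
  have hz3 : z ^ 3 = 1 := by linear_combination (z - 1) * hz
  have hz0 : z ≠ 0 := by
    rintro rfl
    simp at hz3
  have h1 : (y' - y) * ((y' - z * y) * (y' - z ^ 2 * y)) = 0 := by
    linear_combination h + (- y' ^ 2 * y + y' * y ^ 2 * z - y ^ 3 * (z - 1)) * hz
  rcases mul_eq_zero.1 h1 with h2 | h2
  · rw [sub_eq_zero.1 h2]
  rcases mul_eq_zero.1 h2 with h2 | h2
  · rw [sub_eq_zero.1 h2, rec_mul hz h3 hy]
  · have : y' = z * (z * y) := by rw [sub_eq_zero.1 h2]; ring
    rw [this, rec_mul hz h3 (mul_ne_zero hz0 hy), rec_mul hz h3 hy]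

theorem map_rec {z y : Ω} (σ : Ω →+* Ω) (hσz : σ z = z) (H H' : Ω → Ω)
    (h : ∀ t, (t = y ∨ t = z * y ∨ t = z ^ 2 * y) → H' (σ t) = σ (H t)) (k : Fin 3) :
    σ (rec y z H k) = rec (σ y) z H' k := by
  have e0 := h y (Or.inl rfl)
  have e1 := h (z * y) (Or.inr (Or.inl rfl))
  have e2 := h (z ^ 2 * y) (Or.inr (Or.inr rfl))
  rw [map_mul, hσz] at e1
  rw [map_mul, map_pow, hσz] at e2
  have e3 : σ 3 = 3 := map_ofNat σ 3
  fin_cases k
  · simp [rec, e0, e1, e2, e3]
  · simp [rec, hσz, e0, e1, e2, e3]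
  · simp [rec, hσz, e0, e1, e2, e3]

end Val

section Poly

variable {Ω : Type} [Field Ω]

theorem mem_of_lifts {K : Subfield Ω} {p : Polynomial Ω} (h : p ∈ lifts K.subtype) (n : ℕ) :
    p.coeff n ∈ K := by
  rw [lifts_iff_coeff_lifts] at h
  obtain ⟨a, ha⟩ := h n
  rw [← ha]
  exact a.2

theorem lifts_of_mem {K : Subfield Ω} {p : Polynomial Ω} (h : ∀ n, p.coeff n ∈ K) :
    p ∈ lifts K.subtype := by
  rw [lifts_iff_coeff_lifts]
  intro n
  exact ⟨⟨_, h n⟩, rfl⟩

theorem eval_mem {K : Subfield Ω} {p : Polynomial Ω} (h : ∀ n, p.coeff n ∈ K) {r : Ω}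
    (hr : r ∈ K) : p.eval r ∈ K := by
  rw [eval_eq_sum_range]
  exact sum_mem fun i _ => mul_mem (h i) (pow_mem hr i)

theorem basis_coeff_mem [DecidableEq Ω] {K : Subfield Ω} {R : Finset Ω} (hR : ∀ r ∈ R, r ∈ K)
    {r : Ω} (hr : r ∈ R) (n : ℕ) : (Lagrange.basis R id r).coeff n ∈ K := by
  apply mem_of_lifts
  unfold Lagrange.basis
  apply prod_mem
  intro j hj
  have hjK : j ∈ K := hR j (Finset.mem_of_mem_erase hj)
  apply lifts_of_mem
  intro m
  unfold Lagrange.basisDivisor
  rw [coeff_C_mul, coeff_sub, coeff_X, coeff_C]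
  refine mul_mem (inv_mem (sub_mem (hR r hr) hjK)) (sub_mem ?_ ?_)
  · split_ifs
    · exact one_mem _
    · exact zero_mem _
  · split_ifs
    · exact hjK
    · exact zero_mem _

theorem map_eval_of_fixed {p : Polynomial Ω} (σ : Ω →+* Ω) (h : ∀ n, σ (p.coeff n) = p.coeff n)
    (r : Ω) : p.eval (σ r) = σ (p.eval r) := by
  have : p.map σ = p := by
    ext n
    rw [coeff_map, h]
  conv_lhs => rw [← this]
  rw [eval_map, eval₂_at_apply]

end Poly

section Main

variable {Ω : Type} [Field Ω]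

theorem countable_coeffs (g : Fin 3 → Polynomial Ω) :
    (⋃ k, Set.range (g k).coeff).Countable :=
  Set.countable_iUnion fun _ => Set.countable_range _

theorem c2a [CharZero Ω] [IsAlgClosed Ω] [Uncountable Ω] (S E : Subfield Ω) [Countable S]
    (hE : Algebra.IsAlgebraic E Ω) (R : Finset Ω) (hRS : ∀ r ∈ R, r ∈ S)
    (hRE : ∀ n, (∏ r ∈ R, (X - C r)).coeff n ∈ E) {z y c x : Ω} (hz : z ^ 2 + z + 1 = 0)
    (hzS : z ∈ S) (hzE : z ∈ E) (hyS : y ∈ S) (hy : y ^ 3 = c) (hcE : c ∈ E) (hy0 : y ≠ 0)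
    (hx0 : x ≠ 0) (g : Fin 3 → Polynomial Ω) (hg : ∀ k n, (g k).coeff n ∈ E)
    (hgx : ∀ r ∈ R, N3 c ((g 0).eval r) ((g 1).eval r) ((g 2).eval r) = x) :
    ∃ G : Fin 3 → Polynomial Ω, (∀ k, (G k).degree < R.card) ∧ (∀ k n, (G k).coeff n ∈ E) ∧
      (∀ r ∈ R, N3 c ((G 0).eval r) ((G 1).eval r) ((G 2).eval r) = x) ∧
      AlgebraicIndependent S (fun p : R × Fin 2 => val G p.1 (z ^ (p.2 : ℕ) * y)) := by
  classical
  have hz3 : z ^ 3 = 1 := by linear_combination (z - 1) * hz
  have hz0 : z ≠ 0 := by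
    rintro rfl
    simp at hz3
  have h3 : (3 : Ω) ≠ 0 := by norm_num
  -- the countable field of definition
  let K : Subfield Ω := Subfield.closure ((S : Set Ω) ∪ ⋃ k, Set.range (g k).coeff)
  have hKc : Countable K := by
    apply countable_subfieldClosure
    apply Set.Countable.union
    · exact Set.to_countable _
    · exact countable_coeffs g
  have hSK : S ≤ K := fun a ha => Subfield.subset_closure (Or.inl ha)
  have hgK : ∀ k n, (g k).coeff n ∈ K := fun k n =>
    Subfield.subset_closure (Or.inr (Set.mem_iUnion.2 ⟨k, ⟨n, rfl⟩⟩))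
  have hgv : ∀ r ∈ K, ∀ t ∈ K, val g r t ∈ K := by
    intro r hr t ht
    unfold val
    exact add_mem (add_mem (eval_mem (hgK 0) hr) (mul_mem (eval_mem (hgK 1) hr) ht))
      (mul_mem (eval_mem (hgK 2) hr) (pow_mem ht 2))
  have hzK := hSK hzS
  have hyK := hSK hyS
  have hRK : ∀ r ∈ R, r ∈ K := fun r hr => hSK (hRS r hr)
  -- the generic triple
  obtain ⟨v, hvE, hv⟩ := exists_generic K E hE (Fin 3 × Fin R.card)
  let w : Fin 3 → Polynomial Ω := fun k => ∑ l : Fin R.card, C (v (k, l)) * X ^ (l : ℕ)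
  have hwdeg : ∀ k, (w k).degree < R.card := fun k => degree_sum_fin_lt _
  have hwcoeff : ∀ k (l : Fin R.card), (w k).coeff l = v (k, l) := by
    intro k l
    simp only [w, finsetSum_coeff, coeff_C_mul, coeff_X_pow]
    rw [Finset.sum_eq_single l]
    · simp
    · intro b _ hb
      rw [if_neg, mul_zero]
      intro h
      exact hb (Fin.ext h.symm)
    · intro h
      exact absurd (Finset.mem_univ l) h
  have hwE : ∀ k n, (w k).coeff n ∈ E := by
    intro k n
    simp only [w, finsetSum_coeff, coeff_C_mul, coeff_X_pow]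
    apply sum_mem
    intro l _
    refine mul_mem (hvE _) ?_
    split_ifs
    · exact one_mem _
    · exact zero_mem _
  let W : Ω → Ω → Ω := fun r t => val w r t
  let u0 : R × Fin 3 → Ω := fun p => W p.1 (z ^ (p.2 : ℕ) * y)
  have hWu0 : ∀ (r : R) (t : Ω), (t = y ∨ t = z * y ∨ t = z ^ 2 * y) →
      W r t ∈ Set.range u0 := by
    intro r t ht
    rcases ht with rfl | rfl | rfl
    · exact ⟨(r, 0), by simp [u0]⟩
    · exact ⟨(r, 1), by simp [u0]⟩
    · exact ⟨(r, 2), by simp [u0]⟩
  have hu0 : AlgebraicIndependent K u0 := by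
    apply algInd_of_card_le u0 v hv
    · simp [mul_comm]
    · rintro ⟨k, l⟩
      have hKA : ∀ a ∈ K, a ∈ Algebra.adjoin K (Set.range u0) := fun a ha =>
        Subalgebra.algebraMap_mem (Algebra.adjoin K (Set.range u0)) (⟨a, ha⟩ : K)
      have hWA : ∀ (r : R) (t : Ω), (t = y ∨ t = z * y ∨ t = z ^ 2 * y) →
        W r t ∈ Algebra.adjoin K (Set.range u0) := fun r t ht =>
          Algebra.subset_adjoin (hWu0 r t ht)
      have hev : ∀ r ∈ R, (w k).eval r ∈ Algebra.adjoin K (Set.range u0) := by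
        intro r hr
        rw [← rec_val hz h3 hy0 w r k]
        have e0 := hWA ⟨r, hr⟩ y (Or.inl rfl)
        have e1 := hWA ⟨r, hr⟩ (z * y) (Or.inr (Or.inl rfl))
        have e2 := hWA ⟨r, hr⟩ (z ^ 2 * y) (Or.inr (Or.inr rfl))
        have e4 := hKA _ hzK
        have e5 := hKA _ (pow_mem hzK 2)
        have i3 : (3 : Ω)⁻¹ ∈ Algebra.adjoin K (Set.range u0) :=
          hKA _ (inv_mem (by exact_mod_cast (natCast_mem K 3)))
        have i4 : (3 * y)⁻¹ ∈ Algebra.adjoin K (Set.range u0) :=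
          hKA _ (inv_mem (mul_mem (by exact_mod_cast (natCast_mem K 3)) hyK))
        have i5 : (3 * y ^ 2)⁻¹ ∈ Algebra.adjoin K (Set.range u0) :=
          hKA _ (inv_mem (mul_mem (by exact_mod_cast (natCast_mem K 3)) (pow_mem hyK 2)))
        fin_cases k
        · simp only [rec, div_eq_mul_inv]
          exact mul_mem (add_mem (add_mem e0 e1) e2) i3
        · simp only [rec, div_eq_mul_inv]
          exact mul_mem (add_mem (add_mem e0 (mul_mem e5 e1)) (mul_mem e4 e2)) i4
        · simp only [rec, div_eq_mul_inv]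
          exact mul_mem (add_mem (add_mem e0 (mul_mem e4 e1)) (mul_mem e5 e2)) i5
      rw [← hwcoeff k l, Lagrange.eq_interpolate (f := w k) (s := R) (v := id)
        (Function.injective_id.injOn) (hwdeg k), Lagrange.interpolate_apply,
        finsetSum_coeff]
      apply sum_mem
      intro r hr
      rw [coeff_C_mul]
      exact mul_mem (hev r hr) (hKA _ (basis_coeff_mem hRK hr _))
  -- non-vanishing
  have hW0 : ∀ r ∈ R, ∀ t, (t = y ∨ t = z * y ∨ t = z ^ 2 * y) → W r t ≠ 0 := by
    intro r hr t ht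
    obtain ⟨p, hp⟩ := hWu0 ⟨r, hr⟩ t ht
    have : W r t = u0 p := hp.symm
    rw [this]
    exact hu0.ne_zero p
  have hprod : ∀ (g' : Fin 3 → Polynomial Ω) (r : Ω),
      N3 c ((g' 0).eval r) ((g' 1).eval r) ((g' 2).eval r) =
        val g' r y * val g' r (z * y) * val g' r (z ^ 2 * y) := by
    intro g' r
    exact N3_eq_prod hz hy
  have hg0 : ∀ r ∈ R, ∀ t, (t = y ∨ t = z * y ∨ t = z ^ 2 * y) → val g r t ≠ 0 := by
    intro r hr t ht h0
    have h1 := hprod g r
    rw [hgx r hr] at h1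
    apply hx0
    rw [h1]
    rcases ht with rfl | rfl | rfl <;> rw [h0] <;> ring
  let H : Ω → Ω → Ω := fun r t => val g r t * W r (z * t) / W r t
  let G : Fin 3 → Polynomial Ω := fun k => Lagrange.interpolate R id (fun r => rec y z (H r) k)
  have hGdeg : ∀ k, (G k).degree < R.card := fun k =>
    Lagrange.degree_interpolate_lt _ Function.injective_id.injOn
  have hGev : ∀ r ∈ R, ∀ k, (G k).eval r = rec y z (H r) k := by
    intro r hr k
    exact Lagrange.eval_interpolate_at_node _ Function.injective_id.injOn hr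
  have hGval : ∀ r ∈ R, ∀ t, (t = y ∨ t = z * y ∨ t = z ^ 2 * y) → val G r t = H r t := by
    intro r hr t ht
    unfold val
    rw [hGev r hr, hGev r hr, hGev r hr]
    exact val_rec hz h3 hy0 (H r) ht
  have e1 : z * (z * y) = z ^ 2 * y := by ring
  have e2 : z * (z ^ 2 * y) = y := by linear_combination y * hz3
  refine ⟨G, hGdeg, ?_, ?_, ?_⟩
  · -- coefficients in E
    intro k n
    have hfix : ∀ σ : Ω ≃ₐ[E] Ω, σ ((G k).coeff n) = (G k).coeff n := by
      intro σ
      let s : Ω →+* Ω := (σ : Ω ≃+* Ω)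
      have hs : ∀ a ∈ E, s a = a := fun a ha => σ.commutes (⟨a, ha⟩ : E)
      have hperm : ∀ r ∈ R, s r ∈ R := by
        intro r hr
        have h1 : (∏ r ∈ R, (X - C r)).eval (s r) = s ((∏ r ∈ R, (X - C r)).eval r) :=
          map_eval_of_fixed s (fun n => hs _ (hRE n)) r
        have h0 : (∏ r ∈ R, (X - C r)).eval r = 0 := by
          rw [eval_prod]
          exact Finset.prod_eq_zero hr (by simp)
        rw [h0, map_zero, eval_prod, Finset.prod_eq_zero_iff] at h1
        obtain ⟨r', hr', h2⟩ := h1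
        rw [eval_sub, eval_X, eval_C, sub_eq_zero] at h2
        rw [h2]
        exact hr'
      have hsurj : ∀ r' ∈ R, ∃ r ∈ R, s r = r' := by
        have hmap : Set.MapsTo s (R : Set Ω) (R : Set Ω) := hperm
        have hinj : Set.InjOn s (R : Set Ω) := s.injective.injOn
        intro r' hr'
        have := Finset.surjOn_of_injOn_of_card_le s hmap hinj le_rfl hr'
        obtain ⟨r, hr, h⟩ := this
        exact ⟨r, hr, h⟩
      have hmapG : (G k).map s = G k := by
        apply Polynomial.eq_of_degrees_lt_of_eval_finset_eq R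
        · exact (degree_map_le).trans_lt (hGdeg k)
        · exact hGdeg k
        · intro r' hr'
          obtain ⟨r, hr, rfl⟩ := hsurj r' hr'
          rw [eval_map, eval₂_at_apply, hGev r hr, hGev _ hr']
          have hHs : ∀ t, (t = y ∨ t = z * y ∨ t = z ^ 2 * y) → H (s r) (s t) = s (H r t) := by
            intro t _
            have hv1 : ∀ (g' : Fin 3 → Polynomial Ω), (∀ k n, (g' k).coeff n ∈ E) →
                ∀ a b, val g' (s a) (s b) = s (val g' a b) := by
              intro g' hg' a b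
              unfold val
              rw [map_eval_of_fixed s (fun n => hs _ (hg' 0 n)),
                map_eval_of_fixed s (fun n => hs _ (hg' 1 n)),
                map_eval_of_fixed s (fun n => hs _ (hg' 2 n))]
              simp only [map_add, map_mul, map_pow]
            have hv2 : val w (s r) (z * s t) = s (val w r (z * t)) := by
              have := hv1 w hwE r (z * t)
              rw [map_mul, hs z hzE] at this
              exact this
            show val g (s r) (s t) * val w (s r) (z * s t) / val w (s r) (s t) = _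
            rw [hv1 g hg, hv2, hv1 w hwE, ← map_mul, ← map_div₀]
          rw [map_rec s (hs z hzE) (H r) (H (s r)) hHs k]
          have hcube : (s y) ^ 3 = y ^ 3 := by
            rw [← map_pow, hy, hs c hcE]
          rw [rec_eq_of_cube hz h3 hy0 (H (s r)) hcube]
      have h5 : ((G k).map s).coeff n = (G k).coeff n := by rw [hmapG]
      rw [coeff_map] at h5
      exact h5
    obtain ⟨a, ha⟩ := mem_range_of_fixed (T := E) hfix
    rw [← ha]
    exact a.2
  · intro r hr
    rw [hprod, hGval r hr y (Or.inl rfl), hGval r hr (z * y) (Or.inr (Or.inl rfl)),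
      hGval r hr (z ^ 2 * y) (Or.inr (Or.inr rfl)), ← hgx r hr, hprod]
    have w0 := hW0 r hr y (Or.inl rfl)
    have w1 := hW0 r hr (z * y) (Or.inr (Or.inl rfl))
    have w2 := hW0 r hr (z ^ 2 * y) (Or.inr (Or.inr rfl))
    show val g r y * W r (z * y) / W r y * (val g r (z * y) * W r (z * (z * y)) / W r (z * y)) *
      (val g r (z ^ 2 * y) * W r (z * (z ^ 2 * y)) / W r (z ^ 2 * y)) = _
    rw [e1, e2]
    field_simp
  · -- independence
    let u : R × Fin 3 → Ω := fun p => if p.2 = 2 then W p.1 y else H p.1 (z ^ (p.2 : ℕ) * y)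
    have hu : AlgebraicIndependent K u := by
      apply algInd_of_card_le u u0 hu0 le_rfl
      rintro ⟨r, j⟩
      have hKA : ∀ a ∈ K, a ∈ Algebra.adjoin K (Set.range u) := fun a ha =>
        Subalgebra.algebraMap_mem (Algebra.adjoin K (Set.range u)) (⟨a, ha⟩ : K)
      have hA0 : H r y ∈ Algebra.adjoin K (Set.range u) :=
        Algebra.subset_adjoin ⟨(r, 0), by simp [u]⟩
      have hA1 : H r (z * y) ∈ Algebra.adjoin K (Set.range u) :=
        Algebra.subset_adjoin ⟨(r, 1), by simp [u]⟩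
      have hA2 : W r y ∈ Algebra.adjoin K (Set.range u) :=
        Algebra.subset_adjoin ⟨(r, 2), by simp [u]⟩
      have w0 := hW0 r r.2 y (Or.inl rfl)
      have w1 := hW0 r r.2 (z * y) (Or.inr (Or.inl rfl))
      have g0 := hg0 r r.2 y (Or.inl rfl)
      have g1 := hg0 r r.2 (z * y) (Or.inr (Or.inl rfl))
      have hB1 : W r (z * y) ∈ Algebra.adjoin K (Set.range u) := by
        have : W r (z * y) = H r y * W r y * (val g r y)⁻¹ := by
          show _ = val g r y * W r (z * y) / W r y * W r y * (val g r y)⁻¹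
          field_simp
        rw [this]
        exact mul_mem (mul_mem hA0 hA2) (hKA _ (inv_mem (hgv _ (hRK _ r.2) _ hyK)))
      have hB2 : W r (z ^ 2 * y) ∈ Algebra.adjoin K (Set.range u) := by
        have : W r (z ^ 2 * y) = H r (z * y) * W r (z * y) * (val g r (z * y))⁻¹ := by
          show _ = val g r (z * y) * W r (z * (z * y)) / W r (z * y) * W r (z * y) *
            (val g r (z * y))⁻¹
          rw [e1]
          field_simp
        rw [this]
        exact mul_mem (mul_mem hA1 hB1)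
          (hKA _ (inv_mem (hgv _ (hRK _ r.2) _ (mul_mem hzK hyK))))
      fin_cases j
      · simpa [u0] using hA2
      · simpa [u0] using hB1
      · simpa [u0] using hB2
    have hu' : AlgebraicIndependent K (fun p : R × Fin 2 => u (p.1, p.2.castSucc)) := by
      apply hu.comp
      intro p q hpq
      simp only [Prod.mk.injEq, Fin.castSucc_inj] at hpq
      exact Prod.ext hpq.1 hpq.2
    have hu'' : (fun p : R × Fin 2 => u (p.1, p.2.castSucc)) =
        (fun p : R × Fin 2 => val G p.1 (z ^ (p.2 : ℕ) * y)) := by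
      funext p
      obtain ⟨r, j⟩ := p
      fin_cases j
      · have := hGval r r.2 y (Or.inl rfl)
        simp [u, this]
      · have := hGval r r.2 (z * y) (Or.inr (Or.inl rfl))
        simp [u, this]
    rw [hu''] at hu'
    exact AlgebraicIndependent.of_ringHom_of_comp_eq (f := Subfield.inclusion hSK)
      (g := RingHom.id Ω) (by exact hu') (Subfield.inclusion hSK).injective rfl

theorem c2b [CharZero Ω] [IsAlgClosed Ω] [Uncountable Ω] (S E1 E2 : Subfield Ω) [Countable S]
    (hE1 : Algebra.IsAlgebraic E1 Ω) (hE2 : Algebra.IsAlgebraic E2 Ω)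
    (R : Finset Ω) (hRS : ∀ r ∈ R, r ∈ S)
    (hRE1 : ∀ n, (∏ r ∈ R, (X - C r)).coeff n ∈ E1)
    (hRE2 : ∀ n, (∏ r ∈ R, (X - C r)).coeff n ∈ E2) {z y c x : Ω} (hz : z ^ 2 + z + 1 = 0)
    (hzS : z ∈ S) (hzE1 : z ∈ E1) (hzE2 : z ∈ E2) (hyS : y ∈ S) (hy : y ^ 3 = c)
    (hcE1 : c ∈ E1) (hcE2 : c ∈ E2) (hy0 : y ≠ 0) (hx0 : x ≠ 0) (hxS : x ∈ S)
    (g h : Fin 3 → Polynomial Ω) (hg : ∀ k n, (g k).coeff n ∈ E1)
    (hh : ∀ k n, (h k).coeff n ∈ E2)
    (hgx : ∀ r ∈ R, N3 c ((g 0).eval r) ((g 1).eval r) ((g 2).eval r) = x)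
    (hhx : ∀ r ∈ R, N3 c ((h 0).eval r) ((h 1).eval r) ((h 2).eval r) = x) :
    ∃ (τ : Ω ≃ₐ[S] Ω) (G : Fin 3 → Polynomial Ω), (∀ k n, (G k).coeff n ∈ E1) ∧
      (∀ k n, τ ((G k).coeff n) ∈ E2) ∧
      (∀ r ∈ R, N3 c ((G 0).eval r) ((G 1).eval r) ((G 2).eval r) = x) := by
  classical
  have h3 : (3 : Ω) ≠ 0 := by norm_num
  obtain ⟨G, hGd, hGE, hGx, hGi⟩ := c2a S E1 hE1 R hRS hRE1 hz hzS hzE1 hyS hy hcE1 hy0 hx0
    g hg hgx
  obtain ⟨G', hGd', hGE', hGx', hGi'⟩ := c2a S E2 hE2 R hRS hRE2 hz hzS hzE2 hyS hy hcE2 hy0 hx0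
    h hh hhx
  obtain ⟨τ, hτ⟩ := exists_algEquiv_of_same_type (T := S)
    (fun p : R × Fin 2 => val G p.1 (z ^ (p.2 : ℕ) * y))
    (fun p : R × Fin 2 => val G' p.1 (z ^ (p.2 : ℕ) * y)) (by
      intro p
      constructor
      · intro hp
        rw [hGi.eq_zero_of_aeval_eq_zero p hp, map_zero]
      · intro hp
        rw [hGi'.eq_zero_of_aeval_eq_zero p hp, map_zero])
  have hS : ∀ a ∈ S, τ a = a := fun a ha => τ.commutes (⟨a, ha⟩ : S)
  have hprod : ∀ (g' : Fin 3 → Polynomial Ω) (r : Ω),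
      N3 c ((g' 0).eval r) ((g' 1).eval r) ((g' 2).eval r) =
        val g' r y * val g' r (z * y) * val g' r (z ^ 2 * y) := by
    intro g' r
    exact N3_eq_prod hz hy
  have hval : ∀ r ∈ R, ∀ t, (t = y ∨ t = z * y ∨ t = z ^ 2 * y) →
      val G' r t = τ (val G r t) := by
    intro r hr t ht
    have e0 : τ (val G r y) = val G' r y := by
      have := hτ (⟨r, hr⟩, 0)
      simpa using this
    have e1 : τ (val G r (z * y)) = val G' r (z * y) := by
      have := hτ (⟨r, hr⟩, 1)
      simpa using this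
    rcases ht with rfl | rfl | rfl
    · exact e0.symm
    · exact e1.symm
    · have p1 : val G r y * val G r (z * y) * val G r (z ^ 2 * y) = x := by
        rw [← hprod, hGx r hr]
      have p2 : val G' r y * val G' r (z * y) * val G' r (z ^ 2 * y) = x := by
        rw [← hprod, hGx' r hr]
      have p3 := congrArg τ p1
      rw [map_mul, map_mul, e0, e1, hS x hxS, ← p2] at p3
      have hne : val G' r y * val G' r (z * y) ≠ 0 := by
        intro h0
        rw [h0, zero_mul] at p2
        exact hx0 p2.symm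
      exact (mul_left_cancel₀ hne p3).symm
  refine ⟨τ, G, hGE, ?_, hGx⟩
  let s : Ω →+* Ω := (τ : Ω ≃+* Ω)
  have hsS : ∀ a ∈ S, s a = a := hS
  have hmap : ∀ k, (G k).map s = G' k := by
    intro k
    apply Polynomial.eq_of_degrees_lt_of_eval_finset_eq R
    · exact (degree_map_le).trans_lt (hGd k)
    · exact hGd' k
    · intro r hr
      have e : ((G k).map s).eval (s r) = s ((G k).eval r) := by
        rw [eval_map, eval₂_at_apply]
      rw [hsS r (hRS r hr)] at e
      rw [e, ← rec_val hz h3 hy0 G r k, ← rec_val hz h3 hy0 G' r k]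
      have := map_rec s (hsS z hzS) (val G r) (val G' r) (by
        intro t ht
        have htS : t ∈ S := by
          rcases ht with rfl | rfl | rfl
          · exact hyS
          · exact mul_mem hzS hyS
          · exact mul_mem (pow_mem hzS 2) hyS
        rw [hsS t htS]
        exact hval r hr t ht) k
      rw [hsS y hyS] at this
      exact this
  intro k n
  have e : ((G k).map s).coeff n = (G' k).coeff n := by rw [hmap k]
  rw [coeff_map] at e
  have e' : τ ((G k).coeff n) = (G' k).coeff n := e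
  rw [e']
  exact hGE' k n

/-- The finite step (C2). -/
theorem c2_step [CharZero Ω] [IsAlgClosed Ω] [Uncountable Ω] (F E1 E2 : Subfield Ω) [Countable F]
    (hF1 : F ≤ E1) (hF2 : F ≤ E2)
    (hE1 : Algebra.IsAlgebraic E1 Ω) (hE2 : Algebra.IsAlgebraic E2 Ω)
    (f : Polynomial Ω) (hf : ∀ n, f.coeff n ∈ F) (hsep : f.Separable)
    {z c x : Ω} (hz : z ^ 2 + z + 1 = 0) (hzF : z ∈ F) (hcF : c ∈ F) (hc0 : c ≠ 0)
    (hxF : x ∈ F) (hx0 : x ≠ 0)
    (g h : Fin 3 → Polynomial Ω) (hg : ∀ k n, (g k).coeff n ∈ E1)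
    (hh : ∀ k n, (h k).coeff n ∈ E2)
    (hgx : f ∣ N3 (C c) (g 0) (g 1) (g 2) - C x)
    (hhx : f ∣ N3 (C c) (h 0) (h 1) (h 2) - C x) :
    ∃ (τ : Ω ≃+* Ω) (G : Fin 3 → Polynomial Ω), (∀ a, IsAlgebraic F a → τ a = a) ∧
      (∀ k n, (G k).coeff n ∈ E1) ∧ (∀ k n, τ ((G k).coeff n) ∈ E2) ∧
      f ∣ N3 (C c) (G 0) (G 1) (G 2) - C x := by
  classical
  let S : Subfield Ω := (algebraicClosure F Ω).toSubfield
  have hSmem : ∀ a, IsAlgebraic F a → a ∈ S := fun a ha => mem_algebraicClosure_iff.2 ha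
  have hFS : ∀ a ∈ F, a ∈ S := fun a ha =>
    hSmem a (isAlgebraic_algebraMap (⟨a, ha⟩ : F))
  have hSc : Countable S := by
    have : Countable (algebraicClosure F Ω) := by
      rw [← Cardinal.mk_le_aleph0_iff]
      refine (Algebra.IsAlgebraic.cardinalMk_le_max F (algebraicClosure F Ω)).trans ?_
      rw [max_le_iff]
      exact ⟨Cardinal.mk_le_aleph0, le_rfl⟩
    exact this
  have hf0 : f ≠ 0 := hsep.ne_zero
  obtain ⟨y, hy⟩ : ∃ y : Ω, y ^ 3 = c := IsAlgClosed.exists_pow_nat_eq c (by norm_num)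
  have hy0 : y ≠ 0 := by
    rintro rfl
    apply hc0
    rw [← hy]
    simp
  have hyS : y ∈ S := by
    apply hSmem
    refine ⟨X ^ 3 - C (⟨c, hcF⟩ : F), ?_, ?_⟩
    · exact (monic_X_pow_sub_C _ (by norm_num)).ne_zero
    · rw [map_sub, map_pow, aeval_X, aeval_C, hy]
      exact sub_self c
  let R : Finset Ω := f.roots.toFinset
  have hRroot : ∀ r ∈ R, f.eval r = 0 := by
    intro r hr
    have := Multiset.mem_toFinset.1 hr
    exact (mem_roots hf0).1 this
  have hRS : ∀ r ∈ R, r ∈ S := by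
    intro r hr
    apply hSmem
    obtain ⟨p, hp⟩ := (mem_lifts f).1 (lifts_of_mem hf)
    refine ⟨p, ?_, ?_⟩
    · rintro rfl
      apply hf0
      rw [← hp]
      simp
    · have := hRroot r hr
      rw [← hp, eval_map] at this
      exact this
  have hnodup : f.roots.Nodup := nodup_roots hsep
  have hprod : C f.leadingCoeff * ∏ r ∈ R, (X - C r) = f := by
    have h1 := C_leadingCoeff_mul_prod_multiset_X_sub_C (p := f)
      (splits_iff_card_roots.1 (IsAlgClosed.splits f))
    have h2 : ∏ r ∈ R, (X - C r) = (f.roots.map fun a => X - C a).prod := by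
      show (R.val.map fun a => X - C a).prod = _
      rw [show R.val = f.roots from by
        simp only [R, Multiset.toFinset_val, Multiset.dedup_eq_self]
        exact hnodup]
    rw [h2]
    exact h1
  have hprod' : ∏ r ∈ R, (X - C r) = C f.leadingCoeff⁻¹ * f := by
    have : C f.leadingCoeff⁻¹ * (C f.leadingCoeff * ∏ r ∈ R, (X - C r)) =
        C f.leadingCoeff⁻¹ * f := by rw [hprod]
    rw [← this, ← mul_assoc, ← C_mul, inv_mul_cancel₀ (leadingCoeff_ne_zero.2 hf0), C_1, one_mul]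
  have hRF : ∀ n, (∏ r ∈ R, (X - C r)).coeff n ∈ F := by
    intro n
    rw [hprod', coeff_C_mul]
    exact mul_mem (inv_mem (hf _)) (hf n)
  have hdvd : ∀ P : Polynomial Ω, f ∣ P ↔ ∀ r ∈ R, P.eval r = 0 := by
    intro P
    constructor
    · rintro ⟨Q, rfl⟩ r hr
      rw [eval_mul, hRroot r hr, zero_mul]
    · intro hP
      rw [← hprod]
      apply (IsUnit.mul_left_dvd (isUnit_C.2 (isUnit_iff_ne_zero.2
        (leadingCoeff_ne_zero.2 hf0)))).2
      apply Finset.prod_dvd_of_coprime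
      · intro a _ b _ hab
        exact isCoprime_X_sub_C_of_isUnit_sub (isUnit_iff_ne_zero.2 (sub_ne_zero.2 hab))
      · intro r hr
        exact dvd_iff_isRoot.2 (hP r hr)
  have hN : ∀ (g' : Fin 3 → Polynomial Ω) (r : Ω),
      (N3 (C c) (g' 0) (g' 1) (g' 2) - C x).eval r =
        N3 c ((g' 0).eval r) ((g' 1).eval r) ((g' 2).eval r) - x := by
    intro g' r
    unfold N3
    simp
  rw [hdvd] at hgx hhx
  obtain ⟨τ, G, h1, h2, h4⟩ := c2b S E1 E2 hE1 hE2 R hRS (fun n => hF1 (hRF n))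
    (fun n => hF2 (hRF n)) hz (hFS z hzF) (hF1 hzF) (hF2 hzF) hyS hy (hF1 hcF) (hF2 hcF)
    hy0 hx0 (hFS x hxF) g h hg hh
    (fun r hr => by have := hgx r hr; rw [hN] at this; exact sub_eq_zero.1 this)
    (fun r hr => by have := hhx r hr; rw [hN] at this; exact sub_eq_zero.1 this)
  refine ⟨(τ : Ω ≃+* Ω), G, fun a ha => τ.commutes (⟨a, hSmem a ha⟩ : S), h1, h2, ?_⟩
  rw [hdvd]
  intro r hr
  rw [hN, h4 r hr, sub_self]

end Main

end Pool.Agent.Helper51.C2
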