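import Pool.Agent.Helper386.D5V.Helper51_SF_Union
import Pool.Agent.Helper386.D5V.Helper51_AlgMain

/-!
# The final deduction
-/

set_option autoImplicit false
set_option linter.all false

open Polynomial Cardinal
open scoped Polynomial.Bivariate TensorProduct

namespace Pool.Agent.Helper51.SFinal

open SF Pool.Agent.Helper51.C2 Pool.Agent.Helper740.RegExt

section CRT

variable {E : Type} [Field E] [CharZero E]

theorem N3_congr {R : Type*} [CommRing R] (p : R) {c g0 g1 g2 h0 h1 h2 : R} (e0 : p ∣ g0 - h0) (e1 : p ∣ g1 - h1)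
    (e2 : p ∣ g2 - h2) : p ∣ N3 c g0 g1 g2 - N3 c h0 h1 h2 := by
  obtain ⟨u0, hu0⟩ := e0
  obtain ⟨u1, hu1⟩ := e1
  obtain ⟨u2, hu2⟩ := e2
  have f0 : g0 = h0 + p * u0 := by linear_combination hu0
  have f1 : g1 = h1 + p * u1 := by linear_combination hu1
  have f2 : g2 = h2 + p * u2 := by linear_combination hu2
  refine ⟨(3 * h0 ^ 2 * u0 + 3 * h0 * p * u0 ^ 2 + p ^ 2 * u0 ^ 3)
    + c * (3 * h1 ^ 2 * u1 + 3 * h1 * p * u1 ^ 2 + p ^ 2 * u1 ^ 3)
    + c ^ 2 * (3 * h2 ^ 2 * u2 + 3 * h2 * p * u2 ^ 2 + p ^ 2 * u2 ^ 3)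
    - 3 * c * (u0 * h1 * h2 + h0 * u1 * h2 + h0 * h1 * u2 + p * (u0 * u1 * h2 + u0 * h1 * u2 + h0 * u1 * u2)
      + p ^ 2 * u0 * u1 * u2), ?_⟩
  rw [f0, f1, f2]
  simp only [N3]
  ring

/-- the finite precondition over `E` -/
theorem crt_lemma (c x : E)
    (sp : ∀ (E' : Type) [Field E'] [Algebra E E'], FiniteDimensional E E' → Module.finrank E E' ≠ 1 →
      Sp E' (algebraMap E E' c) (algebraMap E E' x)) :
    ∀ (n : ℕ) (f : E[X]), f.natDegree ≤ n → f ≠ 0 → f.Separable → (∀ r, f.eval r ≠ 0) →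
      ∃ g : Fin 3 → E[X], f ∣ N3 (C c) (g 0) (g 1) (g 2) - C x := by
  intro n
  induction n with
  | zero =>
    intro f hf hf0 _ _
    refine ⟨fun _ => 0, ?_⟩
    have h1 : f.natDegree = 0 := by omega
    have h2 : IsUnit f := by
      rw [eq_C_of_natDegree_eq_zero h1]
      apply isUnit_C.2
      apply IsUnit.mk0
      intro h3
      apply hf0
      rw [eq_C_of_natDegree_eq_zero h1, h3, C_0]
    exact h2.dvd
  | succ n ih =>
    intro f hf hf0 hsep hroot
    by_cases hu : IsUnit f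
    · exact ⟨fun _ => 0, hu.dvd⟩
    obtain ⟨p, hp, hpf⟩ := WfDvdMonoid.exists_irreducible_factor hu hf0
    obtain ⟨q, hq⟩ := hpf
    have hq0 : q ≠ 0 := by rintro rfl; exact hf0 (by rw [hq, mul_zero])
    have hp0 : p ≠ 0 := hp.ne_zero
    have hdp : 0 < p.natDegree := hp.natDegree_pos
    have hdeg : f.natDegree = p.natDegree + q.natDegree := by rw [hq, natDegree_mul hp0 hq0]
    have hcop : IsCoprime p q := by
      rw [hq] at hsep
      exact hsep.isCoprime
    have hsepq : q.Separable := by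
      rw [hq] at hsep
      exact hsep.of_mul_right
    obtain ⟨gq, hgq⟩ := ih q (by omega) hq0 hsepq (by
      intro r hr
      apply hroot r
      rw [hq, eval_mul, hr, mul_zero])
    -- the factor `p`
    haveI : Fact (Irreducible p) := ⟨hp⟩
    have hfin : FiniteDimensional E (AdjoinRoot p) := (AdjoinRoot.powerBasis hp0).finite
    have hrank : Module.finrank E (AdjoinRoot p) = p.natDegree := by
      rw [(AdjoinRoot.powerBasis hp0).finrank, AdjoinRoot.powerBasis_dim]
    have hne1 : Module.finrank E (AdjoinRoot p) ≠ 1 := by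
      rw [hrank]
      intro h1
      obtain ⟨r, hr⟩ := exists_root_of_degree_eq_one (by
        rw [degree_eq_natDegree hp0, h1]; rfl)
      apply hroot r
      rw [hq, eval_mul]
      have : p.eval r = 0 := hr
      rw [this, zero_mul]
    obtain ⟨γ0, γ1, γ2, hγ⟩ := sp (AdjoinRoot p) hfin hne1
    obtain ⟨g0, rfl⟩ := AdjoinRoot.mk_surjective γ0
    obtain ⟨g1, rfl⟩ := AdjoinRoot.mk_surjective γ1
    obtain ⟨g2, rfl⟩ := AdjoinRoot.mk_surjective γ2
    have hgp : p ∣ N3 (C c) g0 g1 g2 - C x := by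
      rw [← AdjoinRoot.mk_eq_zero, map_sub, ← N3_mapRing]
      change N3 ((AdjoinRoot.mk p) (C c)) _ _ _ - (AdjoinRoot.mk p) (C x) = 0
      rw [AdjoinRoot.mk_C, AdjoinRoot.mk_C]
      exact sub_eq_zero.2 hγ
    obtain ⟨u, v, huv⟩ := hcop
    let gp : Fin 3 → E[X] := ![g0, g1, g2]
    refine ⟨fun k => gp k * (v * q) + gq k * (u * p), ?_⟩
    have hk1 : ∀ k, p ∣ (gp k * (v * q) + gq k * (u * p)) - gp k := by
      intro k
      refine ⟨(gq k - gp k) * u, ?_⟩
      linear_combination gp k * huv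
    have hk2 : ∀ k, q ∣ (gp k * (v * q) + gq k * (u * p)) - gq k := by
      intro k
      refine ⟨(gp k - gq k) * v, ?_⟩
      linear_combination gq k * huv
    have hd1 := N3_congr p (c := C c) (hk1 0) (hk1 1) (hk1 2)
    have hd2 := N3_congr q (c := C c) (hk2 0) (hk2 1) (hk2 2)
    rw [hq]
    apply IsCoprime.mul_dvd ⟨u, v, huv⟩
    · have := dvd_add hd1 hgp
      have e : N3 (C c) (gp 0) (gp 1) (gp 2) = N3 (C c) g0 g1 g2 := rfl
      rw [e] at this
      convert this using 1
      ring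
    · have := dvd_add hd2 hgq
      convert this using 1
      ring

end CRT

section Ev

variable {K L : Type*} [Field K] [Field L] [Algebra K L]

theorem ev_mem_iff (ξ η : L) (htop : IntermediateField.adjoin K {ξ, η} = ⊤) (g : L) :
    ∃ P Q : K[X][Y], ev (algebraMap K L) ξ η Q ≠ 0 ∧
      g = ev (algebraMap K L) ξ η P / ev (algebraMap K L) ξ η Q := by
  have h1 : ∀ t ∈ Algebra.adjoin K ({ξ, η} : Set L), ∃ P : K[X][Y], ev (algebraMap K L) ξ η P = t := by
    intro t ht
    induction ht using Algebra.adjoin_induction with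
    | mem u hu =>
      rcases hu with rfl | hu
      · exact ⟨C X, by rw [ev_C]; simp⟩
      · rw [Set.mem_singleton_iff] at hu
        subst hu
        exact ⟨Y, by simp [ev]⟩
    | algebraMap r => exact ⟨C (C r), by rw [ev_C]; simp⟩
    | add u v _ _ hu hv =>
      obtain ⟨P, rfl⟩ := hu
      obtain ⟨Q, rfl⟩ := hv
      exact ⟨P + Q, map_add _ _ _⟩
    | mul u v _ _ hu hv =>
      obtain ⟨P, rfl⟩ := hu
      obtain ⟨Q, rfl⟩ := hv
      exact ⟨P * Q, map_mul _ _ _⟩
  have h2 : g ∈ IntermediateField.adjoin K ({ξ, η} : Set L) := by rw [htop]; trivial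
  rw [IntermediateField.mem_adjoin_iff_div] at h2
  obtain ⟨r, hr, s, hs, h⟩ := h2
  obtain ⟨P, rfl⟩ := h1 r hr
  obtain ⟨Q, rfl⟩ := h1 s hs
  by_cases hQ : ev (algebraMap K L) ξ η Q = 0
  · rw [hQ, div_zero] at h
    exact ⟨0, 1, by rw [map_one]; exact one_ne_zero, by rw [h]; simp⟩
  · exact ⟨P, Q, hQ, h⟩

end Ev

section Main

/-- the field theoretic core: two cubic symbols `(x, a)`, `(x, b)` with the same splitting fields of
transcendence degree at most one, generating different subgroups -/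
def Core : Prop := ∃ (K : Type) (_ : Field K) (_ : CharZero K) (z x a b : K), IsPrimitiveRoot z 3 ∧ x ≠ 0 ∧ a ≠ 0 ∧ b ≠ 0 ∧
  ¬ Sp K a x ∧ ¬ Sp K b x ∧ ¬ Sp K (a * b) x ∧ ¬ Sp K (b / a) x ∧
  ∀ (L : Type) [Field L] [Algebra K L], Algebra.trdeg K L ≤ 1 →
    (Sp L (algebraMap K L a) (algebraMap K L x) ↔ Sp L (algebraMap K L b) (algebraMap K L x))

variable {Om : Type} [Field Om] [CharZero Om] [IsAlgClosed Om] [Uncountable Om]

theorem final_deduction (E : Subfield Om) {z x y b : Om} (hzE : z ∈ E) (hxE : x ∈ E) (hyE : y ∈ E)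
    (hz : IsPrimitiveRoot z 3) (hx0 : x ≠ 0) (hy0 : y ≠ 0) (hb0 : b ≠ 0)
    (nsp : ¬ Sp E ⟨y, hyE⟩ ⟨x, hxE⟩)
    (sp : ∀ (E' : Type) [Field E'] [Algebra E E'], FiniteDimensional E E' → Module.finrank E E' ≠ 1 →
      Sp E' (algebraMap E E' ⟨y, hyE⟩) (algebraMap E E' ⟨x, hxE⟩))
    (hb1 : ∃ c ∈ E, b = y * c ^ 3) (T : Fin' E z x y b) : Core := by
  classical
  let K : Type := T.F
  let zK : K := ⟨z, T.hz⟩
  let xK : K := ⟨x, T.hx⟩
  let yK : K := ⟨y, T.hy⟩
  let bK : K := ⟨b, T.hb⟩
  haveI : CharZero K := T.F.subtype.charZero_iff T.F.subtype.injective |>.2 inferInstance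
  haveI : CharZero E := E.subtype.charZero_iff E.subtype.injective |>.2 inferInstance
  let zE : E := ⟨z, hzE⟩
  let xE : E := ⟨x, hxE⟩
  let yE : E := ⟨y, hyE⟩
  have hzK : IsPrimitiveRoot zK 3 := IsPrimitiveRoot.of_map_of_injective (f := T.F.subtype) hz
    T.F.subtype.injective
  have hzE' : IsPrimitiveRoot zE 3 := IsPrimitiveRoot.of_map_of_injective (f := E.subtype) hz
    E.subtype.injective
  have hxK0 : xK ≠ 0 := fun h => hx0 (congrArg Subtype.val h)
  have hyK0 : yK ≠ 0 := fun h => hy0 (congrArg Subtype.val h)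
  have hbK0 : bK ≠ 0 := fun h => hb0 (congrArg Subtype.val h)
  have hxE0 : xE ≠ 0 := fun h => hx0 (congrArg Subtype.val h)
  have hyE0 : yE ≠ 0 := fun h => hy0 (congrArg Subtype.val h)
  obtain ⟨c1, hc1E, hc1⟩ := hb1
  obtain ⟨c2, hc2E, hc2⟩ := T.i2b
  let c1E : E := ⟨c1, hc1E⟩
  let c2E : E := ⟨c2, hc2E⟩
  have hc10 : c1E ≠ 0 := by
    intro h; apply hb0; rw [hc1]
    have : c1 = 0 := congrArg Subtype.val h
    rw [this]; ring
  have hc20 : c2E ≠ 0 := by
    intro h
    have h1 : c2 = 0 := congrArg Subtype.val h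
    have h2 : T.i2 bK * y = 0 := by rw [hc2, h1]; ring
    rcases mul_eq_zero.1 h2 with h3 | h3
    · exact hbK0 ((map_eq_zero T.i2).1 h3)
    · exact hy0 h3
  let j1 : K →+* E := Subfield.inclusion T.le
  let j2 : K →+* E := T.i2.codRestrict E T.mem2
  have hj1x : j1 xK = xE := rfl
  have hj1y : j1 yK = yE := rfl
  have hj1b : j1 bK = yE * c1E ^ 3 := Subtype.ext hc1
  have hj2x : j2 xK = xE := Subtype.ext T.i2x
  have hj2y : j2 yK = yE := Subtype.ext T.i2y
  have hj2b : j2 bK * yE = c2E ^ 3 := Subtype.ext hc2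
  have h3E := Pool.Agent.Helper51.Alg3.three_ne_zero_of_root hzE'
  -- powers of `y`
  have hysq : ¬ Sp E (yE⁻¹ ^ 2) xE := by
    intro h
    apply nsp
    have h1 := (Sp_mul_cube_left hzE' (c := yE) (pow_ne_zero 2 (inv_ne_zero hyE0)) hyE0 hxE0).2 h
    have e : yE⁻¹ ^ 2 * yE ^ 3 = yE := by field_simp
    rwa [e] at h1
  have hysq' : ¬ Sp E (yE ^ 2) xE := by
    intro h
    apply hysq
    have h1 := Sp_inv_left hzE' (pow_ne_zero 2 hyE0) hxE0 h
    rwa [← inv_pow] at h1
  have n1 : ¬ Sp K yK xK := fun h => nsp (Sp_map j1 h)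
  have n2 : ¬ Sp K bK xK := by
    intro h
    have h1 := Sp_map j1 h
    rw [hj1b, hj1x, Sp_mul_cube_left hzE' hyE0 hc10 hxE0] at h1
    exact nsp h1
  have n3 : ¬ Sp K (yK * bK) xK := by
    intro h
    have h1 := Sp_map j1 h
    have e : j1 (yK * bK) = yE ^ 2 * c1E ^ 3 := by rw [map_mul, hj1b, hj1y]; ring
    rw [e, hj1x, Sp_mul_cube_left hzE' (pow_ne_zero 2 hyE0) hc10 hxE0] at h1
    exact hysq' h1
  have e2 : j2 (bK / yK) = yE⁻¹ ^ 2 * c2E ^ 3 := by
    rw [map_div₀, hj2y, ← hj2b]; field_simp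
  have n4 : ¬ Sp K (bK / yK) xK := by
    intro h
    have h1 := Sp_map j2 h
    rw [e2, hj2x, Sp_mul_cube_left hzE' (pow_ne_zero 2 (inv_ne_zero hyE0)) hc20 hxE0] at h1
    exact hysq h1
  -- splitting over proper finite extensions of `E`
  have spsq : ∀ (E' : Type) [Field E'] [Algebra E E'], FiniteDimensional E E' → Module.finrank E E' ≠ 1 →
      ∀ c : E, (∃ d : E, d ≠ 0 ∧ (c = yE ^ 2 * d ^ 3 ∨ c = yE⁻¹ ^ 2 * d ^ 3)) →
      Sp E' (algebraMap E E' c) (algebraMap E E' xE) := by
    intro E' _ _ hfin hne c hc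
    have h1 := sp E' hfin hne
    have hzE'' : IsPrimitiveRoot (algebraMap E E' zE) 3 := hzE'.map_of_injective (algebraMap E E').injective
    have hy' : algebraMap E E' yE ≠ 0 := by simpa using hyE0
    have hx' : algebraMap E E' xE ≠ 0 := by simpa using hxE0
    obtain ⟨d, hd0, hd⟩ := hc
    have hd' : algebraMap E E' d ≠ 0 := by simpa using hd0
    have h2 : Sp E' ((algebraMap E E' yE) ^ 2) (algebraMap E E' xE) := by
      have := Sp_mul_left hzE'' hy' hy' hx' h1 h1
      rwa [← pow_two] at this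
    rcases hd with rfl | rfl
    · rw [map_mul, map_pow, map_pow, Sp_mul_cube_left hzE'' (pow_ne_zero 2 hy') hd' hx']
      exact h2
    · rw [map_mul, map_pow, map_pow, map_inv₀,
        Sp_mul_cube_left hzE'' (pow_ne_zero 2 (inv_ne_zero hy')) hd' hx', inv_pow]
      exact Sp_inv_left hzE'' (pow_ne_zero 2 hy') hx' h2
  -- constants solve the equation when the parameter is a cube
  have hconst : ∀ (c : E), c ≠ 0 → ∃ g : Fin 3 → Om[X], (∀ k, CoefIn E (g k)) ∧
      ∀ f : Om[X], f ∣ N3 (C ((c : Om) ^ 3)) (g 0) (g 1) (g 2) - C x := by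
    intro c hc
    obtain ⟨g0, g1, g2, hg⟩ := Sp_of_cube h3E hc xE
    refine ⟨![C (g0 : Om), C (g1 : Om), C (g2 : Om)], ?_, ?_⟩
    · intro k n
      fin_cases k
      · change (C (g0 : Om)).coeff n ∈ E
        rw [coeff_C]; split_ifs; exacts [g0.2, zero_mem _]
      · change (C (g1 : Om)).coeff n ∈ E
        rw [coeff_C]; split_ifs; exacts [g1.2, zero_mem _]
      · change (C (g2 : Om)).coeff n ∈ E
        rw [coeff_C]; split_ifs; exacts [g2.2, zero_mem _]
    · intro f
      have h1 : N3 (C ((c : Om) ^ 3)) (C (g0 : Om)) (C (g1 : Om)) (C (g2 : Om)) = C x := by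
        rw [N3_mapRing]
        congr 1
        have := congrArg E.subtype hg
        rw [← N3_mapRing] at this
        simpa using this
      change f ∣ N3 (C ((c : Om) ^ 3)) (C (g0 : Om)) (C (g1 : Om)) (C (g2 : Om)) - C x
      rw [h1, sub_self]
      exact dvd_zero f
  -- factors without roots
  have hfac : ∀ (j : K →+* E) (f : K[X]), f.Separable → (¬ ∃ r ∈ E, (f.map (E.subtype.comp j)).eval r = 0) →
      ∀ c : E, (∃ d : E, d ≠ 0 ∧ (c = yE ^ 2 * d ^ 3 ∨ c = yE⁻¹ ^ 2 * d ^ 3)) →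
      ∃ g : Fin 3 → Om[X], (∀ k, CoefIn E (g k)) ∧
        f.map (E.subtype.comp j) ∣ N3 (C (c : Om)) (g 0) (g 1) (g 2) - C x := by
    intro j f hsep hno c hc
    obtain ⟨g, hg⟩ := crt_lemma c xE (fun E' _ _ hfin hne => spsq E' hfin hne c hc) _ (f.map j) le_rfl
      (by rw [Ne, Polynomial.map_eq_zero]; exact hsep.ne_zero) hsep.map (by
        intro r hr
        apply hno
        refine ⟨r, r.2, ?_⟩
        rw [← Polynomial.map_map]
        have : eval (E.subtype r) (Polynomial.map E.subtype (Polynomial.map j f)) =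
            E.subtype (eval r (Polynomial.map j f)) := by
          rw [eval_map, eval₂_at_apply]
        exact this.trans (by rw [hr, map_zero]))
    refine ⟨fun k => (g k).map E.subtype, fun k => coefIn_map E (g k), ?_⟩
    have h1 := _root_.map_dvd (mapRingHom E.subtype) hg
    rw [map_sub, ← N3_mapRing] at h1
    simp only [coe_mapRingHom, Polynomial.map_C, Polynomial.map_map] at h1
    exact h1
  have key : ∀ (L : Type) [Field L] [Algebra K L], Algebra.trdeg K L ≤ 1 → ∀ a b' : K,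
      (a = yK ∧ b' = bK ∨ a = bK ∧ b' = yK) →
      Sp L (algebraMap K L a) (algebraMap K L xK) → Sp L (algebraMap K L b') (algebraMap K L xK) := by
    intro L _ _ htr a b' hab ⟨g0, g1, g2, hg⟩
    have hzL : IsPrimitiveRoot (algebraMap K L zK) 3 := hzK.map_of_injective (algebraMap K L).injective
    have hxL : algebraMap K L xK ≠ 0 := by simpa using hxK0
    have hyL : algebraMap K L yK ≠ 0 := by simpa using hyK0
    have hbL : algebraMap K L bK ≠ 0 := by simpa using hbK0
    let L' : IntermediateField K L := IntermediateField.adjoin K ({g0, g1, g2} : Set L)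
    have hm0 : g0 ∈ L' := IntermediateField.subset_adjoin K _ (by simp)
    have hm1 : g1 ∈ L' := IntermediateField.subset_adjoin K _ (by simp)
    have hm2 : g2 ∈ L' := IntermediateField.subset_adjoin K _ (by simp)
    have hfg : ∃ s : Finset L', IntermediateField.adjoin K (s : Set L') = ⊤ := by
      refine ⟨{⟨g0, hm0⟩, ⟨g1, hm1⟩, ⟨g2, hm2⟩}, ?_⟩
      apply IntermediateField.lift_injective L'
      rw [IntermediateField.lift_adjoin, IntermediateField.lift_top]
      simp only [Finset.coe_insert, Finset.coe_singleton, Set.image_insert_eq, Set.image_singleton]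
      rfl
    have htr' : Algebra.trdeg K L' ≤ 1 :=
      (trdeg_le_of_injective L'.val L'.val.injective).trans htr
    have hSpL' : Sp L' (algebraMap K L' a) (algebraMap K L' xK) := by
      refine ⟨⟨g0, hm0⟩, ⟨g1, hm1⟩, ⟨g2, hm2⟩, ?_⟩
      apply (algebraMap L' L).injective
      rw [← N3_mapRing]
      exact hg
    suffices hmain : Sp L' (algebraMap K L' b') (algebraMap K L' xK) ∨
        Sp L' (algebraMap K L' (bK / yK)) (algebraMap K L' xK) ∨
        Sp L' (algebraMap K L' (yK * bK)) (algebraMap K L' xK) by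
      rcases hmain with h | h | h
      · exact Sp_map (algebraMap L' L) h
      · have h1 := Sp_map (algebraMap L' L) h
        have h2 : Sp L (algebraMap K L bK / algebraMap K L yK) (algebraMap K L xK) := by
          rw [← map_div₀]; exact h1
        have h3 := Sp_iff_of_div hzL hyL hbL hxL h2
        rcases hab with ⟨rfl, rfl⟩ | ⟨rfl, rfl⟩
        · exact h3.1 ⟨g0, g1, g2, hg⟩
        · exact h3.2 ⟨g0, g1, g2, hg⟩
      · have h1 := Sp_map (algebraMap L' L) h
        have h2 : Sp L (algebraMap K L yK * algebraMap K L bK) (algebraMap K L xK) := by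
          rw [← map_mul]; exact h1
        have h3 := Sp_iff_of_mul hzL hyL hbL hxL h2
        rcases hab with ⟨rfl, rfl⟩ | ⟨rfl, rfl⟩
        · exact h3.1 ⟨g0, g1, g2, hg⟩
        · exact h3.2 ⟨g0, g1, g2, hg⟩
    by_cases hac : AlgClosedIn K L'
    · left
      by_cases htriv : ∀ t : L', ∃ a : K, algebraMap K L' a = t
      · exfalso
        obtain ⟨γ0, γ1, γ2, hγ⟩ := hSpL'
        obtain ⟨r0, rfl⟩ := htriv γ0
        obtain ⟨r1, rfl⟩ := htriv γ1
        obtain ⟨r2, rfl⟩ := htriv γ2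
        rw [N3_mapRing] at hγ
        have h1 := (algebraMap K L').injective hγ
        rcases hab with ⟨rfl, rfl⟩ | ⟨rfl, rfl⟩
        · exact n1 ⟨r0, r1, r2, h1⟩
        · exact n2 ⟨r0, r1, r2, h1⟩
      · push Not at htriv
        obtain ⟨ξ, η, hξ, htop, G, hG⟩ := exists_xi_eta hac hfg htr' htriv
        obtain ⟨γ0, γ1, γ2, hγ⟩ := hSpL'
        obtain ⟨P0, Q0, hQ0, hγ0⟩ := ev_mem_iff ξ η htop γ0
        obtain ⟨P1, Q1, hQ1, hγ1⟩ := ev_mem_iff ξ η htop γ1
        obtain ⟨P2, Q2, hQ2, hγ2⟩ := ev_mem_iff ξ η htop γ2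
        let e : K[X][Y] →+* L' := ev (algebraMap K L') ξ η
        have heC : ∀ c : K, e (C (C c)) = algebraMap K L' c := by
          intro c
          change ev (algebraMap K L') ξ η (C (C c)) = _
          rw [ev_C, eval₂_C]
        have heq : e (N3 (C (C a)) (P0 * Q1 * Q2) (P1 * Q0 * Q2) (P2 * Q0 * Q1) -
            C (C xK) * (Q0 * Q1 * Q2) ^ 3) = 0 := by
          rw [map_sub, ← N3_mapRing, map_mul e (C (C xK)), map_pow, heC, heC, ← hγ, hγ0, hγ1, hγ2]
          have hQ0' : e Q0 ≠ 0 := hQ0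
          have hQ1' : e Q1 ≠ 0 := hQ1
          have hQ2' : e Q2 ≠ 0 := hQ2
          change N3 (algebraMap K L' a) (e (P0 * Q1 * Q2)) (e (P1 * Q0 * Q2)) (e (P2 * Q0 * Q1)) -
            N3 (algebraMap K L' a) (e P0 / e Q0) (e P1 / e Q1) (e P2 / e Q2) * (e (Q0 * Q1 * Q2)) ^ 3 = 0
          simp only [map_mul, N3]
          field_simp
          ring
        have hdvd : G ∣ _ := hG.dvd hac hξ _ heq
        obtain ⟨H0, H1, H2, q, hq0, hH⟩ := T.c3 a b' (by
            rcases hab with ⟨rfl, rfl⟩ | ⟨rfl, rfl⟩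
            · exact Or.inl ⟨rfl, rfl⟩
            · exact Or.inr ⟨rfl, rfl⟩) G _ _ _ _ (hG.irreducible_bc hac hξ T.F.subtype)
          (hG.natDegree_pos hξ) (by
            intro h
            obtain ⟨R, hR⟩ := h
            have h1 : e (Q0 * Q1 * Q2) = 0 := by
              rw [hR, map_mul]
              have : e G = 0 := hG.root
              rw [this, zero_mul]
            rw [map_mul, map_mul] at h1
            exact mul_ne_zero (mul_ne_zero hQ0 hQ1) hQ2 h1) hdvd
        have hqL : e (C q) ≠ 0 := ev_C_ne_zero hξ hq0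
        have h1 : N3 (algebraMap K L' b') (e H0) (e H1) (e H2) = algebraMap K L' xK * (e (C q)) ^ 3 := by
          obtain ⟨R, hR⟩ := hH
          have h2 := congrArg e hR
          rw [map_sub, map_mul, map_mul, map_pow, ← N3_mapRing, heC] at h2
          have h3 : e G = 0 := hG.root
          rw [h3, zero_mul] at h2
          have h4 : e (C (C (⟨x, T.hx⟩ : K))) = algebraMap K L' xK := heC _
          rw [h4] at h2
          exact sub_eq_zero.1 h2
        exact (Sp_mul_cube_right hqL).1 ⟨_, _, _, h1⟩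
    · right
      simp only [AlgClosedIn] at hac
      push Not at hac
      obtain ⟨t, ht, htK⟩ := hac
      let f : K[X] := minpoly K t
      have hirr : Irreducible f := minpoly.irreducible ht.isIntegral
      have hsep : f.Separable := hirr.separable
      have hnoroot : ¬ ∃ r : K, f.eval r = 0 := by
        rintro ⟨r, hr⟩
        have h1 : f.degree = 1 := degree_eq_one_of_irreducible_of_root hirr hr
        have h2 := minpoly.mem_range_of_degree_eq_one K t h1
        obtain ⟨a, ha⟩ := h2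
        exact htK a ha
      have hnot : ¬ ((∃ r ∈ E, (f.map T.F.subtype).eval r = 0) ∧ (∃ r ∈ E, (f.map T.i2).eval r = 0)) :=
        fun h => hnoroot (T.c1 f hirr h.1 h.2)
      have hfin : ∀ c : K, (∃ g : Fin 3 → K[X], f ∣ N3 (C c) (g 0) (g 1) (g 2) - C (⟨x, T.hx⟩ : K)) →
          Sp L' (algebraMap K L' c) (algebraMap K L' xK) := by
        rintro c ⟨g, R, hR⟩
        refine ⟨aeval t (g 0), aeval t (g 1), aeval t (g 2), ?_⟩
        have h1 := congrArg (aeval t : K[X] →ₐ[K] L').toRingHom hR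
        rw [map_sub, map_mul, ← N3_mapRing] at h1
        have h2 : (aeval t : K[X] →ₐ[K] L').toRingHom f = 0 := minpoly.aeval K t
        rw [h2, zero_mul] at h1
        have h3 : (aeval t : K[X] →ₐ[K] L').toRingHom (C c) = algebraMap K L' c := aeval_C t c
        have h4 : (aeval t : K[X] →ₐ[K] L').toRingHom (C (⟨x, T.hx⟩ : K)) = algebraMap K L' xK := aeval_C t _
        rw [h3, h4] at h1
        exact sub_eq_zero.1 h1
      have hs1 : E.subtype.comp j1 = T.F.subtype := rfl
      have hs2 : E.subtype.comp j2 = T.i2 := rfl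
      by_cases hr1 : ∃ r ∈ E, (f.map T.F.subtype).eval r = 0
      · -- no root of the second conjugate
        left
        have hr2 : ¬ ∃ r ∈ E, (f.map T.i2).eval r = 0 := fun h => hnot ⟨hr1, h⟩
        apply hfin
        apply T.c2 (bK / yK) (Or.inl rfl) f hsep
        · obtain ⟨g, hg1, hg2⟩ := hconst c1E hc10
          refine ⟨g, hg1, ?_⟩
          have e : ((bK / yK : K) : Om) = (c1E : Om) ^ 3 := by
            change b / y = c1 ^ 3
            rw [hc1]; field_simp
          rw [e]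
          exact hg2 _
        · obtain ⟨g, hg1, hg2⟩ := hfac j2 f hsep (by rw [hs2]; exact hr2) _ ⟨c2E, hc20, Or.inr e2⟩
          exact ⟨g, hg1, hg2⟩
      · right
        apply hfin
        apply T.c2 (yK * bK) (Or.inr rfl) f hsep
        · obtain ⟨g, hg1, hg2⟩ := hfac j1 f hsep (by rw [hs1]; exact hr1) (j1 (yK * bK)) ⟨c1E, hc10, Or.inl (by
            rw [map_mul, hj1b, hj1y]; ring)⟩
          exact ⟨g, hg1, hg2⟩
        · obtain ⟨g, hg1, hg2⟩ := hconst c2E hc20
          refine ⟨g, hg1, ?_⟩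
          have e : T.i2 (yK * bK) = (c2E : Om) ^ 3 := by
            rw [map_mul]
            have h1 : T.i2 yK = y := T.i2y
            rw [h1, mul_comm]
            exact hc2
          rw [e]
          exact hg2 _
  exact ⟨K, inferInstance, inferInstance, zK, xK, yK, bK, hzK, hxK0, hyK0, hbK0, n1, n2, n3, n4, (by
    intro L _ _ htr
    exact ⟨key L htr yK bK (Or.inl ⟨rfl, rfl⟩), key L htr bK yK (Or.inr ⟨rfl, rfl⟩)⟩)⟩

end Main

end Pool.Agent.Helper51.SFinal
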