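import Mathlib

/-!
# Abstract dovetailing lemma
-/

set_option autoImplicit false

namespace Pool.Agent.Helper51.SFinal

section

variable {P Task : Type*} [Preorder P]

/-- A bookkeeping lemma: every task which is applicable at some stage is solved at a later stage. -/
theorem dovetail (appl solved : P → Task → Prop) (hcount : ∀ s, {t | appl s t}.Countable)
    (happl : ∀ s s' t, s ≤ s' → appl s t → appl s' t)
    (step : ∀ s t, appl s t → ∃ s', s ≤ s' ∧ solved s' t) (s0 : P) :
    ∃ s : ℕ → P, s 0 = s0 ∧ Monotone s ∧ ∀ n t, appl (s n) t → ∃ m, n ≤ m ∧ solved (s m) t := by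
  classical
  have henum : ∀ s : P, ∃ e : ℕ → Option Task, ∀ t, appl s t → ∃ j, e j = some t := by
    intro s
    rcases Set.eq_empty_or_nonempty {t | appl s t} with h | h
    · refine ⟨fun _ => none, fun t ht => ?_⟩
      have : t ∈ ({t | appl s t} : Set Task) := ht
      rw [h] at this
      exact absurd this (Set.notMem_empty t)
    · obtain ⟨f, hf⟩ := (hcount s).exists_eq_range h
      refine ⟨fun j => some (f j), fun t ht => ?_⟩
      have : t ∈ Set.range f := by rw [← hf]; exact ht
      obtain ⟨j, hj⟩ := this
      exact ⟨j, congrArg some hj⟩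
  choose enum henum using henum
  have hnext : ∀ (n : ℕ) (h : ℕ → P), ∃ s', h n ≤ s' ∧
      ∀ t, enum (h (Nat.unpair n).1) (Nat.unpair n).2 = some t → appl (h n) t → solved s' t := by
    intro n h
    by_cases hc : ∃ t, enum (h (Nat.unpair n).1) (Nat.unpair n).2 = some t ∧ appl (h n) t
    · obtain ⟨t, ht, hat⟩ := hc
      obtain ⟨s', hs', hsol⟩ := step (h n) t hat
      refine ⟨s', hs', fun t' ht' _ => ?_⟩
      rw [ht] at ht'
      obtain rfl := Option.some.inj ht'
      exact hsol
    · exact ⟨h n, le_rfl, fun t ht hat => absurd ⟨t, ht, hat⟩ hc⟩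
  choose next hnext1 hnext2 using hnext
  let hist : ℕ → (ℕ → P) := fun n => Nat.rec (fun _ => s0) (fun n h => Function.update h (n + 1) (next n h)) n
  have hsucc : ∀ n, hist (n + 1) = Function.update (hist n) (n + 1) (next n (hist n)) := fun n => rfl
  let s : ℕ → P := fun n => hist n n
  have hh : ∀ m i, i ≤ m → hist m i = s i := by
    intro m
    induction m with
    | zero =>
      intro i hi
      obtain rfl : i = 0 := by omega
      rfl
    | succ m ih =>
      intro i hi
      by_cases him : i = m + 1
      · subst him; rfl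
      · rw [hsucc, Function.update_of_ne him]
        exact ih i (by omega)
  have hs : ∀ n, s (n + 1) = next n (hist n) := by
    intro n
    change hist (n + 1) (n + 1) = _
    rw [hsucc, Function.update_self]
  have hmono : Monotone s := monotone_nat_of_le_succ (fun n => by
    rw [hs]
    exact hnext1 n (hist n))
  refine ⟨s, rfl, hmono, ?_⟩
  intro i t hat
  obtain ⟨j, hj⟩ := henum _ t hat
  let n := Nat.pair i j
  have hin : i ≤ n := Nat.left_le_pair i j
  refine ⟨n + 1, by omega, ?_⟩
  rw [hs]
  apply hnext2
  · rw [Nat.unpair_pair, hh n i hin]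
    exact hj
  · exact happl _ _ t (hmono hin) hat

end

end Pool.Agent.Helper51.SFinal
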