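import Mathlib
import Pool.Agent.Helper386.D5V.Helper51_Alg3b
import Pool.Agent.Helper386.D5V.SF_Defs

/-!
# Facts (N1), (N2), (N3) about `SF.Sp`
-/

namespace SF

open Pool.Agent.Helper51.Alg3 (z_rel three_ne_zero_of_root)

variable {L : Type*} [Field L]

theorem Sp_self (a : L) : Sp L a a := Pool.Agent.Helper51.Alg3.Sp.self a

theorem Sp_one (a : L) : Sp L a 1 := Pool.Agent.Helper51.Alg3.Sp.one a

theorem Sp_cube (a c : L) : Sp L a (c ^ 3) := Pool.Agent.Helper51.Alg3.Sp.cube a c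

theorem Sp_mul_right {a x y : L} (hx : Sp L a x) (hy : Sp L a y) : Sp L a (x * y) :=
  Pool.Agent.Helper51.Alg3.Sp.mul hx hy

theorem Sp_inv_right {a x : L} (hx : Sp L a x) : Sp L a x⁻¹ := Pool.Agent.Helper51.Alg3.Sp.inv hx

theorem Sp_map {L' : Type*} [Field L'] (f : L →+* L') {a x : L} (h : Sp L a x) : Sp L' (f a) (f x) :=
  Pool.Agent.Helper51.Alg3.Sp.map f h

/-- if `a` is a cube then everything is a norm -/
theorem Sp_of_cube (h3 : (3 : L) ≠ 0) {c : L} (hc : c ≠ 0) (x : L) : Sp L (c ^ 3) x :=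
  Pool.Agent.Helper51.Alg3.Sp.of_cube h3 hc x

/-- **(N1)** symmetry -/
theorem Sp_symm {z : L} (hz : IsPrimitiveRoot z 3) {a x : L} (ha : a ≠ 0) (hx : x ≠ 0) : Sp L a x ↔ Sp L x a :=
  Pool.Agent.Helper51.Alg3.Sp.symm_iff (three_ne_zero_of_root hz) (z_rel hz) ha hx

/-- **(N2)** multiplicativity in the first variable -/
theorem Sp_mul_left {z : L} (hz : IsPrimitiveRoot z 3) {a b x : L} (ha : a ≠ 0) (hb : b ≠ 0) (hx : x ≠ 0)
    (h1 : Sp L a x) (h2 : Sp L b x) : Sp L (a * b) x :=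
  (Sp_symm hz (mul_ne_zero ha hb) hx).2 (Sp_mul_right ((Sp_symm hz ha hx).1 h1) ((Sp_symm hz hb hx).1 h2))

theorem Sp_inv_left {z : L} (hz : IsPrimitiveRoot z 3) {a x : L} (ha : a ≠ 0) (hx : x ≠ 0)
    (h1 : Sp L a x) : Sp L a⁻¹ x :=
  (Sp_symm hz (inv_ne_zero ha) hx).2 (Sp_inv_right ((Sp_symm hz ha hx).1 h1))

theorem Sp_inv_left_iff {z : L} (hz : IsPrimitiveRoot z 3) {a x : L} (ha : a ≠ 0) (hx : x ≠ 0) :
    Sp L a⁻¹ x ↔ Sp L a x :=
  ⟨fun h => by have := Sp_inv_left hz (inv_ne_zero ha) hx h; rwa [inv_inv] at this, Sp_inv_left hz ha hx⟩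

/-- if `b / a` is killed, the conditions for `a` and `b` agree -/
theorem Sp_iff_of_div {z : L} (hz : IsPrimitiveRoot z 3) {a b x : L} (ha : a ≠ 0) (hb : b ≠ 0) (hx : x ≠ 0)
    (h : Sp L (b / a) x) : Sp L a x ↔ Sp L b x := by
  constructor
  · intro h1
    have := Sp_mul_left hz (div_ne_zero hb ha) ha hx h h1
    rwa [div_mul_cancel₀ b ha] at this
  · intro h1
    have h2 := Sp_inv_left hz (div_ne_zero hb ha) hx h
    have := Sp_mul_left hz (inv_ne_zero (div_ne_zero hb ha)) hb hx h2 h1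
    have e : (b / a)⁻¹ * b = a := by field_simp
    rwa [e] at this

/-- if `a * b` is killed, the conditions for `a` and `b` agree -/
theorem Sp_iff_of_mul {z : L} (hz : IsPrimitiveRoot z 3) {a b x : L} (ha : a ≠ 0) (hb : b ≠ 0) (hx : x ≠ 0)
    (h : Sp L (a * b) x) : Sp L a x ↔ Sp L b x := by
  constructor
  · intro h1
    have h2 := Sp_inv_left hz ha hx h1
    have := Sp_mul_left hz (inv_ne_zero ha) (mul_ne_zero ha hb) hx h2 h
    have e : a⁻¹ * (a * b) = b := by field_simp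
    rwa [e] at this
  · intro h1
    have h2 := Sp_inv_left hz hb hx h1
    have := Sp_mul_left hz (inv_ne_zero hb) (mul_ne_zero ha hb) hx h2 h
    have e : b⁻¹ * (a * b) = a := by field_simp
    rwa [e] at this

/-- cubes in the first variable do not matter -/
theorem Sp_mul_cube_left {z : L} (hz : IsPrimitiveRoot z 3) {a c x : L} (ha : a ≠ 0) (hc : c ≠ 0) (hx : x ≠ 0) :
    Sp L (a * c ^ 3) x ↔ Sp L a x := by
  have h : Sp L (a / (a * c ^ 3)) x := by
    have e : a / (a * c ^ 3) = c⁻¹ ^ 3 := by field_simp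
    rw [e]
    exact Sp_of_cube (three_ne_zero_of_root hz) (inv_ne_zero hc) x
  exact Sp_iff_of_div hz (mul_ne_zero ha (pow_ne_zero _ hc)) ha hx h

/-- cubes in the second variable do not matter -/
theorem Sp_mul_cube_right {a c x : L} (hc : c ≠ 0) : Sp L a (x * c ^ 3) ↔ Sp L a x :=
  Pool.Agent.Helper51.Alg3.Sp.mul_cube_iff hc

/-- norms in the first variable (for fixed `x`) are killed -/
theorem Sp_norm_left {z : L} (hz : IsPrimitiveRoot z 3) {x g0 g1 g2 : L} (hx : x ≠ 0) (hn : N3 x g0 g1 g2 ≠ 0) :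
    Sp L (N3 x g0 g1 g2) x :=
  (Sp_symm hz hn hx).2 ⟨g0, g1, g2, rfl⟩

/-- **(N3)** descent along extensions of degree prime to `3` -/
theorem Sp_descent {K : Type} {K' : Type*} [Field K] [Field K'] [Algebra K K'] [FiniteDimensional K K']
    {z : K} (hz : IsPrimitiveRoot z 3) (hdeg : ¬ 3 ∣ Module.finrank K K') {a x : K} (ha : a ≠ 0) (hx : x ≠ 0)
    (h : Sp K' (algebraMap K K' a) (algebraMap K K' x)) : Sp K a x :=
  Pool.Agent.Helper51.Alg3.Sp.descent hz hdeg ha hx h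

end SF
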