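import Mathlib
set_option autoImplicit false
open Polynomial
open scoped Polynomial.Bivariate

namespace Pool.Agent.Helper740.RegExt

/-- Evaluation of a bivariate polynomial at `(x, y)` through the ring homomorphism `f`. -/
noncomputable def ev {F L : Type*} [CommRing F] [CommRing L] (f : F →+* L) (x y : L) :
    F[X][Y] →+* L :=
  eval₂RingHom (eval₂RingHom f x) y

/-- Base change of bivariate polynomials. -/
noncomputable def bc {F K : Type*} [CommRing F] [CommRing K] (f : F →+* K) :
    F[X][Y] →+* K[X][Y] := mapRingHom (mapRingHom f)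

@[simp] theorem bc_coeff {F K : Type*} [CommRing F] [CommRing K] (f : F →+* K)
    (P : F[X][Y]) (k i : ℕ) : ((bc f P).coeff k).coeff i = f ((P.coeff k).coeff i) := by
  simp [bc]

theorem ev_bc {F K L : Type*} [CommRing F] [CommRing K] [CommRing L] (f : F →+* K) (g : K →+* L)
    (x y : L) (P : F[X][Y]) : ev g x y (bc f P) = ev (g.comp f) x y P := by
  have : (ev g x y).comp (bc f) = ev (g.comp f) x y := by
    ext <;> simp [ev, bc]
  exact congrArg (fun h : F[X][Y] →+* L => h P) this

theorem bc_bc {F K L : Type*} [CommRing F] [CommRing K] [CommRing L] (f : F →+* K) (g : K →+* L)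
    (P : F[X][Y]) : bc g (bc f P) = bc (g.comp f) P := by
  ext k i
  simp

theorem ev_monomial {F L : Type*} [CommRing F] [CommRing L] (f : F →+* L) (x y : L)
    (k i : ℕ) (a : F) : ev f x y (monomial k (monomial i a)) = f a * x ^ i * y ^ k := by
  simp [ev, eval₂_monomial]

theorem ev_C {F L : Type*} [CommRing F] [CommRing L] (f : F →+* L) (x y : L)
    (p : F[X]) : ev f x y (C p) = p.eval₂ f x := by
  simp [ev]

theorem bc_injective {F K : Type*} [CommRing F] [CommRing K] (f : F →+* K)
    (hf : Function.Injective f) : Function.Injective (bc f) := by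
  intro P Q h
  ext k i
  apply hf
  rw [← bc_coeff, ← bc_coeff, h]

theorem natDegree_bc {F K : Type*} [Field F] [Field K] (f : F →+* K) (P : F[X][Y]) :
    (bc f P).natDegree = P.natDegree := by
  unfold bc
  rw [coe_mapRingHom]
  apply natDegree_map_eq_of_injective
  exact Polynomial.map_injective _ f.injective

section Units

variable {K : Type*} [Field K]

theorem isUnit_iff_CC (P : K[X][Y]) : IsUnit P ↔ ∃ c : K, c ≠ 0 ∧ P = C (C c) := by
  constructor
  · intro h
    obtain ⟨r, hr, hrP⟩ := Polynomial.isUnit_iff.1 h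
    obtain ⟨c, hc, hcr⟩ := Polynomial.isUnit_iff.1 hr
    exact ⟨c, hc.ne_zero, by rw [← hrP, ← hcr]⟩
  · rintro ⟨c, hc, rfl⟩
    exact ((isUnit_iff_ne_zero.2 hc).map C).map C

theorem exists_coeff_ne_zero_of_not_isUnit {P : K[X][Y]} (h0 : P ≠ 0) (h : ¬ IsUnit P) :
    ∃ k i : ℕ, (k, i) ≠ (0, 0) ∧ (P.coeff k).coeff i ≠ 0 := by
  by_contra hcon
  push Not at hcon
  apply h
  rw [isUnit_iff_CC]
  have hP : P = C (C ((P.coeff 0).coeff 0)) := by
    ext k i
    by_cases hki : (k, i) = (0, 0)
    · simp only [Prod.mk.injEq] at hki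
      rw [hki.1, hki.2]
      simp
    · rw [hcon k i hki]
      rw [coeff_C]
      split_ifs with hk
      · rw [coeff_C]
        split_ifs with hi
        · exact absurd (Prod.ext hk hi) hki
        · rfl
      · simp
  refine ⟨(P.coeff 0).coeff 0, ?_, hP⟩
  intro hc
  apply h0
  rw [hP, hc]; simp

theorem not_isUnit_of_coeff {P : K[X][Y]} {k i : ℕ} (hki : (k, i) ≠ (0, 0))
    (h : (P.coeff k).coeff i ≠ 0) : ¬ IsUnit P := by
  rw [isUnit_iff_CC]
  rintro ⟨c, _, rfl⟩
  apply h
  rw [coeff_C]
  split_ifs with hk
  · rw [coeff_C]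
    split_ifs with hi
    · exact absurd (Prod.ext hk hi) hki
    · rfl
  · simp

end Units

theorem isUnit_bc_iff {F K : Type*} [Field F] [Field K] (f : F →+* K) (P : F[X][Y]) :
    IsUnit (bc f P) ↔ IsUnit P := by
  constructor
  · intro h
    by_contra hP
    by_cases h0 : P = 0
    · rw [h0, map_zero] at h
      exact not_isUnit_zero h
    · obtain ⟨k, i, hki, hc⟩ := exists_coeff_ne_zero_of_not_isUnit h0 hP
      refine not_isUnit_of_coeff (P := bc f P) hki ?_ h
      rw [bc_coeff]
      exact (map_ne_zero f).2 hc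
  · exact fun h => h.map _

theorem irreducible_of_bc {F K : Type*} [Field F] [Field K] (f : F →+* K) {P : F[X][Y]}
    (h : Irreducible (bc f P)) : Irreducible P := by
  refine ⟨fun hu => h.not_isUnit (hu.map _), ?_⟩
  intro A B hAB
  have := h.isUnit_or_isUnit (a := bc f A) (b := bc f B) (by rw [hAB, map_mul])
  rwa [isUnit_bc_iff, isUnit_bc_iff] at this

/-- Nullstellensatz: a nontrivial finitely generated algebra over an algebraically closed field has
a rational point. -/
theorem exists_algHom_of_finiteType (K S : Type*) [Field K] [IsAlgClosed K] [CommRing S]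
    [Nontrivial S] [Algebra K S] [Algebra.FiniteType K S] : Nonempty (S →ₐ[K] K) := by
  obtain ⟨m, hm⟩ := Ideal.exists_maximal S
  let : Field (S ⧸ m) := Ideal.Quotient.field m
  have : Algebra.FiniteType K (S ⧸ m) :=
    Algebra.FiniteType.of_surjective (Ideal.Quotient.mkₐ K m)
      (Ideal.Quotient.mkₐ_surjective K m)
  have : Module.Finite K (S ⧸ m) := finite_of_finite_type_of_isJacobsonRing K (S ⧸ m)
  have hb : Function.Bijective (algebraMap K (S ⧸ m)) :=
    IsAlgClosed.algebraMap_bijective_of_isIntegral
  let e : K ≃ₐ[K] (S ⧸ m) := AlgEquiv.ofBijective (Algebra.ofId K (S ⧸ m)) hb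
  exact ⟨e.symm.toAlgHom.comp (Ideal.Quotient.mkₐ K m)⟩

theorem mem_range_bc {S K : Type*} [CommRing S] [CommRing K] (g : S →+* K) (A : K[X][Y])
    (h : ∀ k i, (A.coeff k).coeff i ∈ g.range) : ∃ A' : S[X][Y], bc g A' = A := by
  have h1 : ∀ k, A.coeff k ∈ (mapRingHom g).range := by
    intro k
    rw [Polynomial.mem_map_range]
    exact h k
  have h2 : A ∈ (mapRingHom (mapRingHom g)).range := by
    rw [Polynomial.mem_map_range]
    exact h1
  obtain ⟨A', hA'⟩ := h2
  exact ⟨A', hA'⟩

/-- Irreducibility over an algebraically closed field is preserved by every field extension. -/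
theorem irreducible_bc_of_isAlgClosed {K Ω : Type*} [Field K] [IsAlgClosed K] [Field Ω]
    (f : K →+* Ω) {G : K[X][Y]} (hG : Irreducible G) : Irreducible (bc f G) := by
  classical
  let : Algebra K Ω := f.toAlgebra
  refine ⟨fun hu => hG.not_isUnit ((isUnit_bc_iff f G).1 hu), ?_⟩
  intro A B hAB
  by_contra hcon
  push Not at hcon
  obtain ⟨hA, hB⟩ := hcon
  have hG0 : bc f G ≠ 0 := by
    intro h0
    apply hG.ne_zero
    apply bc_injective f f.injective
    rw [h0, map_zero]
  have hA0 : A ≠ 0 := by rintro rfl; apply hG0; rw [hAB, zero_mul]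
  have hB0 : B ≠ 0 := by rintro rfl; apply hG0; rw [hAB, mul_zero]
  obtain ⟨ka, ia, hkia, ha⟩ := exists_coeff_ne_zero_of_not_isUnit hA0 hA
  obtain ⟨kb, ib, hkib, hb⟩ := exists_coeff_ne_zero_of_not_isUnit hB0 hB
  -- the finitely generated subalgebra
  let cA : Finset Ω := A.support.biUnion fun k => (A.coeff k).support.image fun i => (A.coeff k).coeff i
  let cB : Finset Ω := B.support.biUnion fun k => (B.coeff k).support.image fun i => (B.coeff k).coeff i
  let T : Finset Ω := cA ∪ cB ∪ {((A.coeff ka).coeff ia)⁻¹, ((B.coeff kb).coeff ib)⁻¹}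
  let S : Subalgebra K Ω := Algebra.adjoin K (T : Set Ω)
  have : Algebra.FiniteType K S := by
    rw [← Subalgebra.fg_iff_finiteType]
    exact ⟨T, rfl⟩
  have hTS : ∀ x ∈ T, x ∈ S := fun x hx => Algebra.subset_adjoin hx
  have hAS : ∀ k i, (A.coeff k).coeff i ∈ S := by
    intro k i
    by_cases h0 : (A.coeff k).coeff i = 0
    · rw [h0]; exact S.zero_mem
    · apply hTS
      simp only [T, cA, Finset.mem_union, Finset.mem_biUnion, Finset.mem_image]
      left; left
      refine ⟨k, ?_, i, ?_, rfl⟩
      · rw [mem_support_iff]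
        intro h; rw [h] at h0; simp at h0
      · rw [mem_support_iff]; exact h0
  have hBS : ∀ k i, (B.coeff k).coeff i ∈ S := by
    intro k i
    by_cases h0 : (B.coeff k).coeff i = 0
    · rw [h0]; exact S.zero_mem
    · apply hTS
      simp only [T, cB, Finset.mem_union, Finset.mem_biUnion, Finset.mem_image]
      left; right
      refine ⟨k, ?_, i, ?_, rfl⟩
      · rw [mem_support_iff]
        intro h; rw [h] at h0; simp at h0
      · rw [mem_support_iff]; exact h0
  have hrange : ∀ x ∈ S, x ∈ (algebraMap S Ω).range := fun x hx => ⟨⟨x, hx⟩, rfl⟩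
  obtain ⟨A', hA'⟩ := mem_range_bc (algebraMap S Ω) A (fun k i => hrange _ (hAS k i))
  obtain ⟨B', hB'⟩ := mem_range_bc (algebraMap S Ω) B (fun k i => hrange _ (hBS k i))
  have hinj : Function.Injective (algebraMap S Ω) := Subtype.val_injective
  have hAB' : bc (algebraMap K S) G = A' * B' := by
    apply bc_injective _ hinj
    rw [map_mul, hA', hB', bc_bc, ← hAB]
    rfl
  obtain ⟨φ⟩ := exists_algHom_of_finiteType K S
  have hG' : G = bc φ.toRingHom A' * bc φ.toRingHom B' := by
    rw [← map_mul, ← hAB', bc_bc]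
    ext k i
    simp
  have hφA : ((bc φ.toRingHom A').coeff ka).coeff ia ≠ 0 := by
    rw [bc_coeff]
    have hinv : ((A.coeff ka).coeff ia)⁻¹ ∈ S := hTS _ (by simp [T])
    have h1 : (A'.coeff ka).coeff ia * ⟨_, hinv⟩ = (1 : S) := by
      apply hinj
      rw [map_mul, ← bc_coeff, hA', map_one]
      exact mul_inv_cancel₀ ha
    intro h0
    have h2 := congrArg φ h1
    rw [map_mul, map_one] at h2
    have h3 : φ ((A'.coeff ka).coeff ia) = 0 := h0
    rw [h3, zero_mul] at h2
    exact zero_ne_one h2
  have hφB : ((bc φ.toRingHom B').coeff kb).coeff ib ≠ 0 := by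
    rw [bc_coeff]
    have hinv : ((B.coeff kb).coeff ib)⁻¹ ∈ S := hTS _ (by simp [T])
    have h1 : (B'.coeff kb).coeff ib * ⟨_, hinv⟩ = (1 : S) := by
      apply hinj
      rw [map_mul, ← bc_coeff, hB', map_one]
      exact mul_inv_cancel₀ hb
    intro h0
    have h2 := congrArg φ h1
    rw [map_mul, map_one] at h2
    have h3 : φ ((B'.coeff kb).coeff ib) = 0 := h0
    rw [h3, zero_mul] at h2
    exact zero_ne_one h2
  rcases hG.isUnit_or_isUnit hG' with h | h
  · exact not_isUnit_of_coeff hkia hφA h
  · exact not_isUnit_of_coeff hkib hφB h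

section Main

variable {F L M : Type*} [Field F] [Field L] [Field M] [Algebra F L] [Algebra L M] [Algebra F M]
  [IsScalarTower F L M]

/-- `F` is algebraically closed in `L`. -/
def AlgClosedIn (F L : Type*) [Field F] [Field L] [Algebra F L] : Prop :=
  ∀ x : L, IsAlgebraic F x → ∃ a : F, algebraMap F L a = x

theorem natDegree_minpoly_of_algClosedIn (hac : AlgClosedIn F L) (α : M) (hα : IsIntegral F α) :
    (minpoly L α).natDegree = (minpoly F α).natDegree := by
  have hαL : IsIntegral L α := hα.tower_top
  have hdvd : minpoly L α ∣ (minpoly F α).map (algebraMap F L) :=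
    minpoly.dvd_map_of_isScalarTower F L α
  have hint : ∀ i, IsIntegral F ((minpoly L α).coeff i) :=
    fun i => isIntegral_coeff_of_dvd _ _ (minpoly.monic hα) (minpoly.monic hαL) hdvd i
  have hmem : minpoly L α ∈ Polynomial.lifts (algebraMap F L) := by
    rw [Polynomial.lifts_iff_coeff_lifts]
    intro i
    obtain ⟨a, ha⟩ := hac _ (hint i).isAlgebraic
    exact ⟨a, ha⟩
  obtain ⟨q, hq1, hq2, hq3⟩ := Polynomial.lifts_and_natDegree_eq_and_monic hmem
    (minpoly.monic hαL)
  have hroot : aeval α q = 0 := by
    have h1 : aeval α (q.map (algebraMap F L)) = 0 := by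
      rw [hq1]; exact minpoly.aeval L α
    rwa [aeval_map_algebraMap] at h1
  apply le_antisymm
  · have := Polynomial.natDegree_le_of_dvd hdvd
      (by
        have := (minpoly.monic hα).map (algebraMap F L)
        exact this.ne_zero)
    rwa [natDegree_map] at this
  · rw [← hq2]
    exact natDegree_le_of_dvd (minpoly.dvd F α hroot) hq3.ne_zero

/-- Linear disjointness from algebraic extensions: a family of `L` independent over `F` stays
independent over the algebraic elements of `M`. -/
theorem li_base [CharZero F] (hac : AlgClosedIn F L) {ι : Type*} {a : ι → L}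
    (ha : LinearIndependent F a) (s : Finset ι) (c : ι → M) (hc : ∀ i ∈ s, IsAlgebraic F (c i))
    (h0 : ∑ i ∈ s, c i * algebraMap L M (a i) = 0) : ∀ i ∈ s, c i = 0 := by
  classical
  let E : IntermediateField F M := IntermediateField.adjoin F ((s.image c : Finset M) : Set M)
  have hfin : FiniteDimensional F E := by
    apply IntermediateField.finiteDimensional_adjoin
    intro x hx
    simp only [Finset.coe_image, Set.mem_image, Finset.mem_coe] at hx
    obtain ⟨i, hi, rfl⟩ := hx
    exact (hc i hi).isIntegral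
  let pb := Field.powerBasisOfFiniteOfSeparable F E
  have hcE : ∀ i ∈ s, c i ∈ E := by
    intro i hi
    apply IntermediateField.subset_adjoin
    simp only [Finset.coe_image, Set.mem_image, Finset.mem_coe]
    exact ⟨i, hi, rfl⟩
  -- coordinates
  let r : ι → Fin pb.dim → F := fun i j => if hi : i ∈ s then pb.basis.repr ⟨c i, hcE i hi⟩ j else 0
  have hr : ∀ i ∈ s, c i = ∑ j, algebraMap F M (r i j) * (pb.gen : M) ^ (j : ℕ) := by
    intro i hi
    have h1 := pb.basis.sum_repr ⟨c i, hcE i hi⟩
    have h2 := congrArg (fun x : E => (x : M)) h1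
    simp only at h2
    rw [← h2]
    rw [AddSubmonoidClass.coe_finsetSum]
    apply Finset.sum_congr rfl
    intro j _
    simp only [r, dif_pos hi, PowerBasis.basis_eq_pow]
    rw [Algebra.smul_def]
    simp
  have hgenint : IsIntegral F (pb.gen : M) := by
    have := (Algebra.IsIntegral.isIntegral (R := F) (pb.gen : E))
    exact this.map E.val
  have hdeg : (minpoly L (pb.gen : M)).natDegree = pb.dim := by
    rw [natDegree_minpoly_of_algClosedIn hac _ hgenint, ← pb.natDegree_minpoly]
    congr 1
    exact minpoly.algebraMap_eq (B' := M) Subtype.val_injective pb.gen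
  have hli : LinearIndependent L fun j : Fin pb.dim => (pb.gen : M) ^ (j : ℕ) := by
    have := linearIndependent_pow (K := L) (pb.gen : M)
    rw [hdeg] at this
    exact this
  have hsum : ∑ j : Fin pb.dim, (∑ i ∈ s, r i j • a i : L) • ((pb.gen : M) ^ (j : ℕ)) = 0 := by
    rw [← h0]
    have h5 : ∑ i ∈ s, c i * algebraMap L M (a i) =
        ∑ i ∈ s, (∑ j, algebraMap F M (r i j) * (pb.gen : M) ^ (j : ℕ)) * algebraMap L M (a i) :=
      Finset.sum_congr rfl (fun i hi => by rw [← hr i hi])
    rw [h5]
    simp only [Finset.sum_mul, Finset.sum_smul]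
    rw [Finset.sum_comm]
    apply Finset.sum_congr rfl
    intro i _
    apply Finset.sum_congr rfl
    intro j _
    rw [Algebra.smul_def, Algebra.smul_def, map_mul, ← IsScalarTower.algebraMap_apply]
    ring
  have h3 := (Fintype.linearIndependent_iff.1 hli) _ hsum
  intro i hi
  rw [hr i hi]
  apply Finset.sum_eq_zero
  intro j _
  have h4 : r i j = 0 := (linearIndependent_iff'.1 ha) s (fun i => r i j) (h3 j) i hi
  rw [h4]; simp


/-- `G` is a minimal equation of `(ξ, η)` over `F`. -/
structure MinEq (F : Type*) {L : Type*} [Field F] [Field L] [Algebra F L] (ξ η : L)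
    (G : F[X][Y]) : Prop where
  ne_zero : G ≠ 0
  root : ev (algebraMap F L) ξ η G = 0
  min : ∀ H : F[X][Y], H ≠ 0 → ev (algebraMap F L) ξ η H = 0 → G.natDegree ≤ H.natDegree
  minlc : ∀ H : F[X][Y], H ≠ 0 → ev (algebraMap F L) ξ η H = 0 → H.natDegree = G.natDegree →
    G.leadingCoeff.natDegree ≤ H.leadingCoeff.natDegree

theorem exists_minEq (ξ η : L) (h : ∃ H : F[X][Y], H ≠ 0 ∧ ev (algebraMap F L) ξ η H = 0) :
    ∃ G : F[X][Y], MinEq F ξ η G := by
  classical
  have h1 : ∃ n, ∃ H : F[X][Y], H ≠ 0 ∧ ev (algebraMap F L) ξ η H = 0 ∧ H.natDegree = n := by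
    obtain ⟨H, h1, h2⟩ := h
    exact ⟨_, H, h1, h2, rfl⟩
  have h2 : ∃ m, ∃ H : F[X][Y], H ≠ 0 ∧ ev (algebraMap F L) ξ η H = 0 ∧
      H.natDegree = Nat.find h1 ∧ H.leadingCoeff.natDegree = m := by
    obtain ⟨H, a, b, c⟩ := Nat.find_spec h1
    exact ⟨_, H, a, b, c, rfl⟩
  obtain ⟨G, g1, g2, g3, g4⟩ := Nat.find_spec h2
  refine ⟨G, g1, g2, ?_, ?_⟩
  · intro H a b
    rw [g3]
    exact Nat.find_min' h1 ⟨H, a, b, rfl⟩
  · intro H a b c
    rw [g4]
    exact Nat.find_min' h2 ⟨H, a, b, by rw [c, g3], rfl⟩

variable {ξ η : L} {G : F[X][Y]}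

theorem ev_C_ne_zero (hξ : Transcendental F ξ) {r : F[X]} (hr : r ≠ 0) :
    ev (algebraMap F L) ξ η (C r) ≠ 0 := by
  rw [ev_C]
  intro h
  apply hr
  exact (transcendental_iff.1 hξ) r h

theorem MinEq.natDegree_pos (hG : MinEq F ξ η G) (hξ : Transcendental F ξ) : 0 < G.natDegree := by
  by_contra h
  push Not at h
  have h1 : G = C (G.coeff 0) := eq_C_of_natDegree_eq_zero (by lia)
  have h2 : G.coeff 0 ≠ 0 := by
    intro h0
    apply hG.ne_zero
    rw [h1, h0, C_0]
  have h3 := hG.root
  rw [h1] at h3
  exact ev_C_ne_zero hξ h2 h3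

theorem MinEq.isUnit_of_C_dvd (hG : MinEq F ξ η G) (hξ : Transcendental F ξ) {r : F[X]}
    (hr : C r ∣ G) : IsUnit r := by
  obtain ⟨G', hG'⟩ := hr
  have hr0 : r ≠ 0 := by
    rintro rfl
    apply hG.ne_zero
    rw [hG', C_0, zero_mul]
  have hG'0 : G' ≠ 0 := by
    rintro rfl
    apply hG.ne_zero
    rw [hG', mul_zero]
  have hroot : ev (algebraMap F L) ξ η G' = 0 := by
    have h1 := hG.root
    rw [hG', map_mul] at h1
    exact (mul_eq_zero.1 h1).resolve_left (ev_C_ne_zero hξ hr0)
  have hdeg : G'.natDegree = G.natDegree := by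
    rw [hG', natDegree_C_mul hr0]
  have h2 := hG.minlc G' hG'0 hroot hdeg
  have h3 : G.leadingCoeff = r * G'.leadingCoeff := by
    rw [hG', leadingCoeff_mul, leadingCoeff_C]
  rw [h3, natDegree_mul hr0 (leadingCoeff_ne_zero.2 hG'0)] at h2
  have h4 : r.natDegree = 0 := by lia
  rw [eq_C_of_natDegree_eq_zero h4] at hr0 ⊢
  exact (isUnit_iff_ne_zero.2 (fun h0 => hr0 (by rw [h0, C_0]))).map C

theorem MinEq.isUnit_of_C_dvd_bc (hG : MinEq F ξ η G) (hξ : Transcendental F ξ)
    {K : Type*} [Field K] (f : F →+* K) {b : K[X]} (hb : C b ∣ bc f G) : IsUnit b := by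
  have htop : Ideal.span (Set.range G.coeff) = ⊤ := by
    obtain ⟨r, hr⟩ := (IsPrincipalIdealRing.principal (Ideal.span (Set.range G.coeff))).principal
    have hr' : Ideal.span (Set.range G.coeff) = Ideal.span {r} := hr
    rw [hr', Ideal.span_singleton_eq_top]
    apply hG.isUnit_of_C_dvd hξ
    rw [C_dvd_iff_dvd_coeff]
    intro i
    rw [← Ideal.mem_span_singleton, ← hr']
    exact Ideal.subset_span ⟨i, rfl⟩
  have h1 : Ideal.map (mapRingHom f) (Ideal.span (Set.range G.coeff)) = ⊤ := by
    rw [htop, Ideal.map_top]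
  rw [Ideal.map_span] at h1
  have h2 : Ideal.span ((mapRingHom f) '' Set.range G.coeff) ≤ Ideal.span {b} := by
    rw [Ideal.span_le]
    rintro _ ⟨_, ⟨i, rfl⟩, rfl⟩
    rw [SetLike.mem_coe, Ideal.mem_span_singleton]
    have := (C_dvd_iff_dvd_coeff _ _).1 hb i
    simpa [bc] using this
  rw [h1, top_le_iff, Ideal.span_singleton_eq_top] at h2
  exact h2

theorem MinEq.linearIndependent (hG : MinEq F ξ η G) :
    LinearIndependent F (fun p : ℕ × Fin G.natDegree => ξ ^ p.1 * η ^ (p.2 : ℕ)) := by
  classical
  rw [linearIndependent_iff']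
  intro s g hsum p hp
  let P : F[X][Y] := ∑ q ∈ s, monomial (q.2 : ℕ) (monomial q.1 (g q))
  have hPev : ev (algebraMap F L) ξ η P = 0 := by
    rw [← hsum, map_sum]
    apply Finset.sum_congr rfl
    intro q _
    rw [ev_monomial, Algebra.smul_def, mul_assoc]
  have hPdeg : P.natDegree < G.natDegree := by
    apply lt_of_le_of_lt (b := G.natDegree - 1)
    · apply natDegree_sum_le_of_forall_le
      intro q _
      refine (natDegree_monomial_le _).trans ?_
      have := q.2.2
      lia
    · have := p.2.2
      lia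
  have hP0 : P = 0 := by
    by_contra hP
    have := hG.min P hP hPev
    lia
  have hc : (P.coeff p.2).coeff p.1 = g p := by
    simp only [P, finsetSum_coeff, coeff_monomial]
    rw [Finset.sum_eq_single p]
    · simp
    · intro q _ hqp
      split_ifs with h
      · rw [coeff_monomial, if_neg]
        intro h'
        apply hqp
        exact Prod.ext h' (Fin.ext h)
      · simp
    · intro h; exact absurd hp h
  rw [← hc, hP0]; simp

theorem MinEq.eq_zero_of_algebraic [CharZero F] (hac : AlgClosedIn F L) (hG : MinEq F ξ η G)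
    (A : M[X][Y]) (hA : ∀ k i, IsAlgebraic F ((A.coeff k).coeff i))
    (hdeg : A.natDegree < G.natDegree)
    (h0 : ev (RingHom.id M) (algebraMap L M ξ) (algebraMap L M η) A = 0) : A = 0 := by
  classical
  let N : ℕ := A.support.sup (fun k => (A.coeff k).natDegree)
  have hN : ∀ k, (A.coeff k).natDegree < N + 1 := by
    intro k
    by_cases hk : k ∈ A.support
    · exact Nat.lt_succ_of_le (Finset.le_sup (f := fun k => (A.coeff k).natDegree) hk)
    · rw [notMem_support_iff.1 hk]; simp
  let s : Finset (ℕ × Fin G.natDegree) := (Finset.range (N + 1)) ×ˢ Finset.univ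
  let c : ℕ × Fin G.natDegree → M := fun p => (A.coeff p.2).coeff p.1
  have hsum : ∑ p ∈ s, c p * algebraMap L M (ξ ^ p.1 * η ^ (p.2 : ℕ)) = 0 := by
    rw [← h0]
    simp only [ev, coe_eval₂RingHom]
    rw [eval₂_eq_sum_range' _ hdeg]
    simp only [s, Finset.sum_product_right]
    rw [Finset.sum_range]
    apply Finset.sum_congr rfl
    intro k _
    simp only [coe_eval₂RingHom]
    rw [eval₂_eq_sum_range' _ (hN k), Finset.sum_mul]
    apply Finset.sum_congr rfl
    intro i _
    simp only [c, map_mul, map_pow, RingHom.id_apply]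
    ring
  have h1 := li_base (M := M) hac hG.linearIndependent s c (fun p _ => hA _ _) hsum
  ext k i
  simp only [coeff_zero]
  by_cases hk : k < G.natDegree
  · by_cases hi : i < N + 1
    · exact h1 (i, ⟨k, hk⟩) (by simp [s, hi])
    · apply coeff_eq_zero_of_natDegree_lt
      have := hN k
      lia
  · have h2 : A.coeff k = 0 := coeff_eq_zero_of_natDegree_lt (by lia)
    rw [h2]
    simp

theorem MinEq.irreducible_bc_aux [CharZero F] (hac : AlgClosedIn F L) (hG : MinEq F ξ η G)
    (hξ : Transcendental F ξ) {K : Type*} [Field K] (f : F →+* K) (κ : K →+* M)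
    (hκ : κ.comp f = algebraMap F M) (hK : ∀ x, IsAlgebraic F (κ x)) :
    Irreducible (bc f G) := by
  have hpos := hG.natDegree_pos hξ
  have hGb0 : bc f G ≠ 0 := by
    intro h
    apply hG.ne_zero
    apply bc_injective f f.injective
    rw [h, map_zero]
  -- every factor of degree `< d` has nonzero value
  have key : ∀ A B : K[X][Y], bc f G = A * B →
      ev (RingHom.id M) (algebraMap L M ξ) (algebraMap L M η) (bc κ A) = 0 → IsUnit B := by
    intro A B hAB hA
    have hA0 : A ≠ 0 := by rintro rfl; exact hGb0 (by rw [hAB, zero_mul])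
    have hB0 : B ≠ 0 := by rintro rfl; exact hGb0 (by rw [hAB, mul_zero])
    have hdeg : G.natDegree = A.natDegree + B.natDegree := by
      rw [← natDegree_mul hA0 hB0, ← hAB, natDegree_bc]
    have hAd : G.natDegree ≤ A.natDegree := by
      by_contra hlt
      push Not at hlt
      apply hA0
      apply bc_injective κ κ.injective
      rw [map_zero]
      exact hG.eq_zero_of_algebraic hac (bc κ A) (fun k i => by rw [bc_coeff]; exact hK _)
        (by rw [natDegree_bc]; exact hlt) hA
    have hB1 : B.natDegree = 0 := by lia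
    have hBC : B = C (B.coeff 0) := eq_C_of_natDegree_eq_zero hB1
    have hd : C (B.coeff 0) ∣ bc f G := by
      rw [hAB, ← hBC]
      exact dvd_mul_left _ _
    rw [hBC]
    exact (hG.isUnit_of_C_dvd_bc hξ f hd).map C
  refine ⟨?_, ?_⟩
  · intro hu
    rw [isUnit_bc_iff, isUnit_iff_CC] at hu
    obtain ⟨c, _, hc⟩ := hu
    rw [hc, natDegree_C] at hpos
    exact lt_irrefl _ hpos
  · intro A B hAB
    have h0 : ev (RingHom.id M) (algebraMap L M ξ) (algebraMap L M η) (bc κ A) *
        ev (RingHom.id M) (algebraMap L M ξ) (algebraMap L M η) (bc κ B) = 0 := by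
      rw [← map_mul, ← map_mul, ← hAB, bc_bc, hκ, ev_bc, RingHom.id_comp]
      have h1 := congrArg (algebraMap L M) hG.root
      rw [map_zero] at h1
      rw [← h1]
      have h2 : (algebraMap L M).comp (ev (algebraMap F L) ξ η) =
          ev (algebraMap F M) (algebraMap L M ξ) (algebraMap L M η) := by
        ext a
        · simp [ev, ← IsScalarTower.algebraMap_apply]
        · simp [ev]
        · simp [ev]
      exact (congrArg (fun h : F[X][Y] →+* M => h G) h2).symm
    rcases mul_eq_zero.1 h0 with h | h
    · exact Or.inr (key A B hAB h)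
    · exact Or.inl (key B A (by rw [hAB, mul_comm]) h)

end Main

/-- **Absolute irreducibility.**  If `F` (char 0) is algebraically closed in `L`, `ξ` is
transcendental and `G` is a minimal equation of `(ξ, η)`, then `G` is irreducible over every
extension field of `F`. -/
theorem MinEq.irreducible_bc {F L : Type*} [Field F] [Field L] [Algebra F L] [CharZero F]
    (hac : AlgClosedIn F L) {ξ η : L} {G : F[X][Y]} (hG : MinEq F ξ η G)
    (hξ : Transcendental F ξ) {Ω : Type*} [Field Ω] (f : F →+* Ω) : Irreducible (bc f G) := by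
  let M := AlgebraicClosure L
  let K := algebraicClosure F M
  have h1 : Irreducible (bc (algebraMap F K) G) := by
    apply hG.irreducible_bc_aux (M := M) hac hξ (algebraMap F K) (algebraMap K M)
    · exact (IsScalarTower.algebraMap_eq F K M).symm
    · intro x
      exact (mem_algebraicClosure_iff.1 x.2)
  let Ω' := AlgebraicClosure Ω
  let : Algebra F Ω' := ((algebraMap Ω Ω').comp f).toAlgebra
  have hKalg : Algebra.IsAlgebraic F K := inferInstance
  let j : K →ₐ[F] Ω' := IsAlgClosed.lift
  have hKac : IsAlgClosed K := (algebraicClosure.isAlgClosure F M).isAlgClosed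
  have h2 : Irreducible (bc j.toRingHom (bc (algebraMap F K) G)) :=
    irreducible_bc_of_isAlgClosed j.toRingHom h1
  have h3 : bc j.toRingHom (bc (algebraMap F K) G) = bc (algebraMap Ω Ω') (bc f G) := by
    rw [bc_bc, bc_bc]
    congr 2
    exact j.comp_algebraMap
  rw [h3] at h2
  exact irreducible_of_bc _ h2

/-- The kernel of evaluation at `(ξ, η)` is generated by a minimal equation. -/
theorem MinEq.dvd {F L : Type*} [Field F] [Field L] [Algebra F L] [CharZero F]
    (hac : AlgClosedIn F L) {ξ η : L} {G : F[X][Y]} (hG : MinEq F ξ η G)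
    (hξ : Transcendental F ξ) (H : F[X][Y]) (hH : ev (algebraMap F L) ξ η H = 0) : G ∣ H := by
  have hirr : Irreducible G := by
    have := hG.irreducible_bc hac hξ (RingHom.id F)
    exact irreducible_of_bc _ this
  have hprime : Prime G := hirr.prime
  have hpos := hG.natDegree_pos hξ
  induction hn : H.natDegree using Nat.strong_induction_on generalizing H with
  | _ n ih =>
    by_cases hH0 : H = 0
    · rw [hH0]; exact dvd_zero _
    by_cases hlt : H.natDegree < G.natDegree
    · have := hG.min H hH0 hH
      lia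
    push Not at hlt
    let H1 : F[X][Y] := C G.leadingCoeff * H - C H.leadingCoeff * X ^ (H.natDegree - G.natDegree) * G
    have hH1 : ev (algebraMap F L) ξ η H1 = 0 := by
      simp only [H1, map_sub, map_mul, hH, hG.root, mul_zero, sub_zero]
    have hdvd : G ∣ C G.leadingCoeff * H := by
      have hH1dvd : G ∣ H1 := by
        by_cases h0 : H1 = 0
        · rw [h0]; exact dvd_zero _
        refine ih H1.natDegree ?_ H1 hH1 rfl
        have hlc : G.leadingCoeff ≠ 0 := leadingCoeff_ne_zero.2 hG.ne_zero
        have hlcH : H.leadingCoeff ≠ 0 := leadingCoeff_ne_zero.2 hH0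
        have hdeg1 : (C G.leadingCoeff * H).natDegree = H.natDegree := natDegree_C_mul hlc
        have hdeg2 : (C H.leadingCoeff * X ^ (H.natDegree - G.natDegree) * G).natDegree =
            H.natDegree := by
          rw [natDegree_mul, natDegree_C_mul hlcH, natDegree_X_pow]
          · lia
          · exact mul_ne_zero (by simpa using hH0) (pow_ne_zero _ X_ne_zero)
          · exact hG.ne_zero
        have hdlt : H1.degree < (C G.leadingCoeff * H).degree := by
          apply degree_sub_lt_left
          · rw [degree_eq_natDegree, degree_eq_natDegree, hdeg1, hdeg2]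
            · intro h; apply h0; simp only [H1]
              have h' := h
              exfalso
              have h2 : (C H.leadingCoeff * X ^ (H.natDegree - G.natDegree) * G) ≠ 0 :=
                mul_ne_zero (mul_ne_zero (by simpa using hH0) (pow_ne_zero _ X_ne_zero)) hG.ne_zero
              exact h2 h'
            · exact mul_ne_zero (by simpa using hG.ne_zero) hH0
          · exact mul_ne_zero (by simpa using hG.ne_zero) hH0
          · rw [leadingCoeff_mul, leadingCoeff_C, leadingCoeff_mul, leadingCoeff_mul,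
              leadingCoeff_C, leadingCoeff_X_pow, mul_one, mul_comm]
        rw [← hn, ← hdeg1]
        exact natDegree_lt_natDegree h0 hdlt
      have h2 : C G.leadingCoeff * H =
          H1 + C H.leadingCoeff * X ^ (H.natDegree - G.natDegree) * G := by
        simp only [H1]; ring
      rw [h2]
      exact dvd_add hH1dvd (dvd_mul_left _ _)
    rcases hprime.dvd_or_dvd hdvd with h | h
    · exfalso
      have h3 := natDegree_le_of_dvd h (by simpa using hG.ne_zero)
      rw [natDegree_C] at h3
      lia
    · exact h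

theorem adjoin_eq_top_of_top {F L : Type*} [Field F] [Field L] [Algebra F L]
    (K : IntermediateField F L) (s : Set L) (hs : IntermediateField.adjoin F s = ⊤) :
    IntermediateField.adjoin K s = ⊤ := by
  apply IntermediateField.restrictScalars_injective F
  rw [IntermediateField.restrictScalars_adjoin, IntermediateField.restrictScalars_top,
    ← top_le_iff, ← hs]
  exact IntermediateField.adjoin.mono _ _ _ Set.subset_union_right

theorem finiteDimensional_of_adjoin {K L : Type*} [Field K] [Field L] [Algebra K L]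
    [Algebra.IsAlgebraic K L] (s : Finset L) (hs : IntermediateField.adjoin K (s : Set L) = ⊤) :
    FiniteDimensional K L := by
  have h1 : FiniteDimensional K (IntermediateField.adjoin K (s : Set L)) := by
    apply IntermediateField.finiteDimensional_adjoin
    intro x _
    exact (Algebra.IsAlgebraic.isAlgebraic x).isIntegral
  rw [hs] at h1
  exact Module.Finite.equiv (IntermediateField.topEquiv (F := K) (E := L)).toLinearEquiv

/-- A finitely generated extension of transcendence degree `1` of a field algebraically closed in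
it is `F(ξ, η)` with `ξ` transcendental and a minimal equation. -/
theorem exists_xi_eta {F L : Type*} [Field F] [Field L] [Algebra F L] [CharZero F]
    (hac : AlgClosedIn F L) (hfg : ∃ s : Finset L, IntermediateField.adjoin F (s : Set L) = ⊤)
    (htr : Algebra.trdeg F L ≤ 1) (hne : ∃ x : L, ∀ a : F, algebraMap F L a ≠ x) :
    ∃ ξ η : L, Transcendental F ξ ∧ IntermediateField.adjoin F {ξ, η} = ⊤ ∧
      ∃ G : F[X][Y], MinEq F ξ η G := by
  classical
  obtain ⟨ξ, hξ⟩ := hne
  have htrans : Transcendental F ξ := by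
    intro halg
    obtain ⟨a, ha⟩ := hac ξ halg
    exact hξ a ha
  have hai : AlgebraicIndependent F (fun _ : Unit => ξ) := by
    rw [algebraicIndependent_unique_type_iff]
    exact htrans
  have htb : IsTranscendenceBasis F (fun _ : Unit => ξ) := by
    apply hai.isTranscendenceBasis_of_lift_trdeg_le_of_finite
    simpa using htr
  have halg : Algebra.IsAlgebraic (IntermediateField.adjoin F (Set.range fun _ : Unit => ξ)) L :=
    htb.isAlgebraic_field
  rw [Set.range_const] at halg
  obtain ⟨s, hs⟩ := hfg
  have hfin : FiniteDimensional (IntermediateField.adjoin F {ξ}) L :=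
    finiteDimensional_of_adjoin s (adjoin_eq_top_of_top _ _ hs)
  obtain ⟨η, hη⟩ := Field.exists_primitive_element (IntermediateField.adjoin F {ξ}) L
  have htop : IntermediateField.adjoin F {ξ, η} = ⊤ := by
    have h1 := IntermediateField.adjoin_simple_adjoin_simple F ξ η
    rw [← h1, hη]
    rfl
  refine ⟨ξ, η, htrans, htop, ?_⟩
  apply exists_minEq
  have halgA0 : Algebra.IsAlgebraic (Algebra.adjoin F (Set.range fun _ : Unit => ξ)) L :=
    htb.isAlgebraic
  rw [Set.range_const] at halgA0
  have halgA : IsAlgebraic (Algebra.adjoin F {ξ}) η := Algebra.IsAlgebraic.isAlgebraic η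
  obtain ⟨q, hq0, hq⟩ := halgA
  -- lift the coefficients
  have hlift : ∀ a : Algebra.adjoin F {ξ}, ∃ r : F[X], aeval ξ r = (a : L) := by
    intro a
    have h2 : (a : L) ∈ (aeval (R := F) ξ).range := by
      rw [← Algebra.adjoin_singleton_eq_range_aeval]
      exact a.2
    obtain ⟨r, hr⟩ := h2
    exact ⟨r, hr⟩
  choose r hr using hlift
  let H : F[X][Y] := ∑ k ∈ Finset.range (q.natDegree + 1), monomial k (r (q.coeff k))
  refine ⟨H, ?_, ?_⟩
  · intro hH
    apply hq0
    ext k
    by_cases hk : k ≤ q.natDegree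
    · have h1 : H.coeff k = r (q.coeff k) := by
        simp only [H, finsetSum_coeff, coeff_monomial]
        rw [Finset.sum_ite_eq']
        simp [Nat.lt_succ_of_le hk]
      rw [hH, coeff_zero] at h1
      have h2 := hr (q.coeff k)
      rw [← h1, map_zero] at h2
      rw [coeff_zero, ← h2]
      simp
    · rw [coeff_eq_zero_of_natDegree_lt (by lia)]
      simp
  · have h1 : ∀ a, (r a).eval₂ (algebraMap F L) ξ = (a : L) := fun a => hr a
    simp only [H, map_sum, ev, coe_eval₂RingHom, eval₂_monomial, h1]
    rw [aeval_eq_sum_range] at hq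
    rw [← hq]
    apply Finset.sum_congr rfl
    intro k _
    rw [Algebra.smul_def]
    rfl

end Pool.Agent.Helper740.RegExt
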