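import Pool.Agent.Helper386.D5V.Helper51_SF_C2
import Pool.Agent.Helper386.D5V.Helper379_SFGal
import Pool.Agent.Helper386.D5V.Helper740_D5_RegExt
import Pool.Agent.Helper386.D5V.Helper51_SF_Dovetail
import Pool.Agent.Helper386.D5V.Helper51_SpFacts

/-!
# The tower of countable fields (module FINAL of MP_d5741c_al)
-/

set_option autoImplicit false
set_option linter.all false

open Polynomial Cardinal
open scoped Polynomial.Bivariate

namespace Pool.Agent.Helper51.SFinal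

open SF Pool.Agent.Helper51.C2

theorem countable_poly (R : Type*) [Semiring R] [Countable R] : Countable R[X] := by
  rw [← Cardinal.mk_le_aleph0_iff]
  exact Polynomial.cardinalMk_le_max.trans (max_le Cardinal.mk_le_aleph0 le_rfl)

section Coef

variable {Om : Type} [Field Om]

/-- the coefficients of `p` lie in `F` -/
def CoefIn (F : Subfield Om) (p : Om[X]) : Prop := ∀ n, p.coeff n ∈ F

/-- the coefficients of `G` lie in `F` -/
def Coef2In (F : Subfield Om) (G : Om[X][Y]) : Prop := ∀ i j, (G.coeff i).coeff j ∈ F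

theorem CoefIn.exists_map {F : Subfield Om} {p : Om[X]} (h : CoefIn F p) :
    ∃ p' : F[X], p'.map F.subtype = p := by
  obtain ⟨p', hp'⟩ := (mem_lifts p).1 (lifts_of_mem h)
  exact ⟨p', hp'⟩

theorem coefIn_map (F : Subfield Om) (p : F[X]) : CoefIn F (p.map F.subtype) := by
  intro n
  rw [coeff_map]
  exact (p.coeff n).2

theorem countable_coefIn (F : Subfield Om) [Countable F] : {p : Om[X] | CoefIn F p}.Countable := by
  haveI := countable_poly F
  refine (Set.countable_range (fun p : F[X] => p.map F.subtype)).mono ?_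
  intro p hp
  exact CoefIn.exists_map hp

theorem Coef2In.exists_bc {F : Subfield Om} {G : Om[X][Y]} (h : Coef2In F G) :
    ∃ G' : F[X][Y], Pool.Agent.Helper740.RegExt.bc F.subtype G' = G :=
  Pool.Agent.Helper740.RegExt.mem_range_bc F.subtype G (fun i j => ⟨⟨_, h i j⟩, rfl⟩)

theorem coef2In_bc (F : Subfield Om) (G : F[X][Y]) :
    Coef2In F (Pool.Agent.Helper740.RegExt.bc F.subtype G) := by
  intro i j
  rw [Pool.Agent.Helper740.RegExt.bc_coeff]
  exact ((G.coeff i).coeff j).2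

theorem countable_coef2In (F : Subfield Om) [Countable F] : {p : Om[X][Y] | Coef2In F p}.Countable := by
  haveI := countable_poly F
  haveI := countable_poly F[X]
  refine (Set.countable_range (fun p : F[X][Y] => Pool.Agent.Helper740.RegExt.bc F.subtype p)).mono ?_
  intro p hp
  exact Coef2In.exists_bc hp

theorem CoefIn.mono {F F' : Subfield Om} (h : F ≤ F') {p : Om[X]} (hp : CoefIn F p) : CoefIn F' p :=
  fun n => h (hp n)

theorem Coef2In.mono {F F' : Subfield Om} (h : F ≤ F') {p : Om[X][Y]} (hp : Coef2In F p) : Coef2In F' p :=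
  fun i j => h (hp i j)

theorem map_eq_of_agree {F : Subfield Om} {σ σ' : Om →+* Om} (h : ∀ t ∈ F, σ' t = σ t) {p : Om[X]}
    (hp : CoefIn F p) : p.map σ' = p.map σ := by
  ext n
  rw [coeff_map, coeff_map, h _ (hp n)]

end Coef

section Hyp

variable {Om : Type} [Field Om]

/-- `a` and `y` or `a⁻¹` and `y` differ by a cube -/
def Rel (E : Subfield Om) (y a : Om) : Prop := ∃ c ∈ E, c ≠ 0 ∧ (a = y * c ^ 3 ∨ a * y = c ^ 3)

/-- the curve step -/
def C3Hyp (E : Subfield Om) (z x y : Om) : Prop :=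
  ∀ (F : Subfield Om) (θ : Om ≃+* Om), Countable F → F ≤ E → (∀ t ∈ F, θ t ∈ E) →
   z ∈ F → x ∈ F → y ∈ F → θ z = z → θ x = x → θ y = y →
   ∀ a b : Om, a ∈ F → b ∈ F → a ≠ 0 → b ≠ 0 → Rel E y a → Rel E y (θ a) →
   (∃ c ∈ E, b = a * c ^ 3) → (∃ c ∈ E, θ (a * b) = c ^ 3) →
   ∀ G P0 P1 P2 Q : Om[X][Y], Coef2In F G → Coef2In F P0 → Coef2In F P1 → Coef2In F P2 → Coef2In F Q →
     Irreducible G → 0 < G.natDegree → ¬ G ∣ Q → G ∣ N3 (C (C a)) P0 P1 P2 - C (C x) * Q ^ 3 →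
     ∃ (τ : Om ≃+* Om) (H0 H1 H2 : Om[X][Y]) (q : Om[X]), (∀ t ∈ F, τ t = t) ∧
       Coef2In E H0 ∧ Coef2In E H1 ∧ Coef2In E H2 ∧ CoefIn E q ∧
       (∀ i j, θ (τ ((H0.coeff i).coeff j)) ∈ E) ∧ (∀ i j, θ (τ ((H1.coeff i).coeff j)) ∈ E) ∧
       (∀ i j, θ (τ ((H2.coeff i).coeff j)) ∈ E) ∧ (∀ j, θ (τ (q.coeff j)) ∈ E) ∧ q ≠ 0 ∧
       G ∣ N3 (C (C b)) H0 H1 H2 - C (C x) * (C q) ^ 3

/-- a stage of the tower -/
structure St (E : Subfield Om) (z x y b : Om) where
  F : Subfield Om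
  θ : Om ≃+* Om
  cnt : Countable F
  le : F ≤ E
  mem : ∀ t ∈ F, θ t ∈ E
  hz : z ∈ F
  hx : x ∈ F
  hy : y ∈ F
  hb : b ∈ F
  θz : θ z = z
  θx : θ x = x
  θy : θ y = y
  θb : ∃ c ∈ E, θ b * y = c ^ 3

variable {E : Subfield Om} {z x y b : Om}

instance : Preorder (St E z x y b) where
  le s s' := s.F ≤ s'.F ∧ ∀ t ∈ s.F, s'.θ t = s.θ t
  le_refl s := ⟨le_rfl, fun _ _ => rfl⟩
  le_trans s s' s'' h h' := ⟨h.1.trans h'.1, fun t ht => (h'.2 t (h.1 ht)).trans (h.2 t ht)⟩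

theorem St.le_def {s s' : St E z x y b} : s ≤ s' ↔ s.F ≤ s'.F ∧ ∀ t ∈ s.F, s'.θ t = s.θ t := Iff.rfl

/-- enlarging a stage -/
theorem St.exists_ext (s : St E z x y b) (τ : Om ≃+* Om) (hτ : ∀ t ∈ s.F, τ t = t) (A : Set Om)
    (hA : A.Countable) (hAE : ∀ t ∈ A, t ∈ E) (hAθ : ∀ t ∈ A, s.θ (τ t) ∈ E) :
    ∃ s' : St E z x y b, s ≤ s' ∧ ∀ t ∈ A, t ∈ s'.F := by
  have hcnt := s.cnt
  have hsub : ((s.F : Set Om) ∪ A) ⊆ Subfield.closure ((s.F : Set Om) ∪ A) := Subfield.subset_closure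
  have hF : s.F ≤ Subfield.closure ((s.F : Set Om) ∪ A) := fun t ht => hsub (Or.inl ht)
  have hagree : ∀ t ∈ s.F, (τ.trans s.θ) t = s.θ t := by
    intro t ht
    change s.θ (τ t) = s.θ t
    rw [hτ t ht]
  refine ⟨{ F := Subfield.closure ((s.F : Set Om) ∪ A), θ := τ.trans s.θ,
            cnt := ?_, le := ?_, mem := ?_, hz := hF s.hz, hx := hF s.hx, hy := hF s.hy, hb := hF s.hb,
            θz := (hagree z s.hz).trans s.θz, θx := (hagree x s.hx).trans s.θx,
            θy := (hagree y s.hy).trans s.θy, θb := ?_ }, ⟨hF, hagree⟩, fun t ht => hsub (Or.inr ht)⟩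
  · apply countable_subfieldClosure
    have : (s.F : Set Om).Countable := Set.countable_coe_iff.1 s.cnt
    exact this.union hA
  · rw [Subfield.closure_le]
    rintro t (ht | ht)
    · exact s.le ht
    · exact hAE t ht
  · intro t ht
    have h1 : Subfield.closure ((s.F : Set Om) ∪ A) ≤ E.comap (τ.trans s.θ : Om ≃+* Om).toRingHom := by
      rw [Subfield.closure_le]
      rintro t (ht | ht)
      · change (τ.trans s.θ) t ∈ E
        rw [hagree t ht]
        exact s.mem t ht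
      · exact hAθ t ht
    exact h1 ht
  · rw [hagree b s.hb]
    exact s.θb

/-- no nontrivial factorisation over `F` -/
def IrrOver (F : Subfield Om) (f : Om[X]) : Prop :=
  ∀ g h : Om[X], CoefIn F g → CoefIn F h → f = g * h → g.natDegree = 0 ∨ h.natDegree = 0

/-- the tasks -/
inductive Task (Om : Type) [Field Om]
  | c1 (f : Om[X])
  | c2 (d : Bool) (f : Om[X])
  | c3 (d : Bool) (t : Om[X][Y] × Om[X][Y] × Om[X][Y] × Om[X][Y] × Om[X][Y])

/-- the task has its parameters in the stage -/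
def appl (s : St E z x y b) : Task Om → Prop
  | .c1 f => CoefIn s.F f
  | .c2 _ f => CoefIn s.F f
  | .c3 _ t => Coef2In s.F t.1 ∧ Coef2In s.F t.2.1 ∧ Coef2In s.F t.2.2.1 ∧ Coef2In s.F t.2.2.2.1 ∧
      Coef2In s.F t.2.2.2.2

/-- the element `c` of the finite step -/
def cc (y b : Om) (d : Bool) : Om := if d then b / y else y * b

/-- first parameter in the curve step -/
def ca (y b : Om) (d : Bool) : Om := if d then y else b

/-- second parameter in the curve step -/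
def cb (y b : Om) (d : Bool) : Om := if d then b else y

/-- the task is solved at the stage -/
def solved (s : St E z x y b) : Task Om → Prop
  | .c1 f => IrrOver s.F f → (∃ r ∈ E, f.eval r = 0) → (∃ r ∈ E, (f.map (s.θ : Om →+* Om)).eval r = 0) →
      ∃ r ∈ s.F, f.eval r = 0
  | .c2 d f => f.Separable →
      (∃ g : Fin 3 → Om[X], (∀ k, CoefIn E (g k)) ∧ f ∣ N3 (C (cc y b d)) (g 0) (g 1) (g 2) - C x) →
      (∃ g : Fin 3 → Om[X], (∀ k, CoefIn E (g k)) ∧
        f.map (s.θ : Om →+* Om) ∣ N3 (C (s.θ (cc y b d))) (g 0) (g 1) (g 2) - C x) →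
      (∃ g : Fin 3 → Om[X], (∀ k, CoefIn s.F (g k)) ∧ f ∣ N3 (C (cc y b d)) (g 0) (g 1) (g 2) - C x)
  | .c3 d t => Irreducible t.1 → 0 < t.1.natDegree → ¬ t.1 ∣ t.2.2.2.2 →
      t.1 ∣ N3 (C (C (ca y b d))) t.2.1 t.2.2.1 t.2.2.2.1 - C (C x) * t.2.2.2.2 ^ 3 →
      ∃ (H0 H1 H2 : Om[X][Y]) (q : Om[X]), Coef2In s.F H0 ∧ Coef2In s.F H1 ∧ Coef2In s.F H2 ∧
        CoefIn s.F q ∧ q ≠ 0 ∧ t.1 ∣ N3 (C (C (cb y b d))) H0 H1 H2 - C (C x) * (C q) ^ 3

theorem appl_mono (s s' : St E z x y b) (t : Task Om) (h : s ≤ s') (ht : appl s t) : appl s' t := by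
  cases t with
  | c1 f => exact CoefIn.mono h.1 ht
  | c2 d f => exact CoefIn.mono h.1 ht
  | c3 d t =>
    exact ⟨ht.1.mono h.1, ht.2.1.mono h.1, ht.2.2.1.mono h.1, ht.2.2.2.1.mono h.1, ht.2.2.2.2.mono h.1⟩

theorem appl_countable (s : St E z x y b) : {t | appl s t}.Countable := by
  haveI := s.cnt
  have h1 := countable_coefIn s.F
  have h2 := countable_coef2In s.F
  have h3 : {t : Om[X][Y] × Om[X][Y] × Om[X][Y] × Om[X][Y] × Om[X][Y] | Coef2In s.F t.1 ∧ Coef2In s.F t.2.1 ∧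
      Coef2In s.F t.2.2.1 ∧ Coef2In s.F t.2.2.2.1 ∧ Coef2In s.F t.2.2.2.2}.Countable := by
    refine (h2.prod (h2.prod (h2.prod (h2.prod h2)))).mono ?_
    rintro ⟨t1, t2, t3, t4, t5⟩ ⟨a, b, c, d, e⟩
    exact ⟨a, b, c, d, e⟩
  refine ((h1.image Task.c1).union (((h1.image (Task.c2 true)).union (h1.image (Task.c2 false))).union
    ((h3.image (Task.c3 true)).union (h3.image (Task.c3 false))))).mono ?_
  intro t ht
  cases t with
  | c1 f => exact Or.inl ⟨f, ht, rfl⟩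
  | c2 d f =>
    cases d
    · exact Or.inr (Or.inl (Or.inr ⟨f, ht, rfl⟩))
    · exact Or.inr (Or.inl (Or.inl ⟨f, ht, rfl⟩))
  | c3 d t =>
    cases d
    · exact Or.inr (Or.inr (Or.inr ⟨t, ht, rfl⟩))
    · exact Or.inr (Or.inr (Or.inl ⟨t, ht, rfl⟩))

end Hyp

end Pool.Agent.Helper51.SFinal
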