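import Pool.Agent.Helper386.D5V.Helper51_SF_Deduce
import Pool.Agent.Helper386.D5V.Helper399_ModKE

/-!
# Assembly of S02124 from the curve step
-/

set_option autoImplicit false
set_option linter.all false

open Polynomial Cardinal
open scoped Polynomial.Bivariate TensorProduct

namespace Pool.Agent.Helper51.SFinal

open SF Pool.Agent.Helper51.C2

section Start

variable {Om : Type} [Field Om] [CharZero Om] [IsAlgClosed Om] [Uncountable Om]

/-- the starting stage -/
theorem exists_start (E : Subfield Om) (hE : Algebra.IsAlgebraic E Om) {z x y : Om} (hzE : z ∈ E)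
    (hxE : x ∈ E) (hyE : y ∈ E) (hy0 : y ≠ 0) :
    ∃ b : Om, b ≠ 0 ∧ (∃ c ∈ E, b = y * c ^ 3) ∧ Nonempty (St E z x y b) := by
  classical
  let T : Subfield Om := Subfield.closure {z, x, y}
  haveI hT : Countable T := countable_subfieldClosure _ (Set.toFinite _).countable
  have hTsub : ({z, x, y} : Set Om) ⊆ T := Subfield.subset_closure
  have hzT : z ∈ T := hTsub (by simp)
  have hxT : x ∈ T := hTsub (by simp)
  have hyT : y ∈ T := hTsub (by simp)
  have hTE : T ≤ E := by
    rw [Subfield.closure_le]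
    rintro t (rfl | rfl | rfl)
    exacts [hzE, hxE, hyE]
  obtain ⟨v, hvE, hv⟩ := exists_generic T E hE Unit
  let c := v ()
  have hcE : c ∈ E := hvE ()
  have hc : Transcendental T c := by
    have h1 : AlgebraicIndependent T (fun _ : Unit => c) := hv
    rwa [algebraicIndependent_unique_type_iff] at h1
  have hc0 : c ≠ 0 := by
    intro h
    apply hc
    rw [h]
    exact isAlgebraic_zero
  have htr : ∀ t : Om, t ∈ T → t ≠ 0 → Transcendental T (t * c ^ 3) := by
    intro t ht ht0 halg
    apply hc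
    have h1 : IsAlgebraic T (c ^ 3) := by
      have h2 : IsAlgebraic T (t⁻¹ * (t * c ^ 3)) :=
        (isAlgebraic_algebraMap (⟨t⁻¹, inv_mem ht⟩ : T)).mul halg
      rwa [← mul_assoc, inv_mul_cancel₀ ht0, one_mul] at h2
    exact IsAlgebraic.of_pow (by norm_num) h1
  let b : Om := y * c ^ 3
  let b' : Om := y⁻¹ * c ^ 3
  have hb : Transcendental T b := htr y hyT hy0
  have hb' : Transcendental T b' := htr y⁻¹ (inv_mem hyT) (inv_ne_zero hy0)
  have hai : ∀ t : Om, Transcendental T t → ∀ p : MvPolynomial Unit T,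
      MvPolynomial.aeval (fun _ : Unit => t) p = 0 ↔ p = 0 := by
    intro t ht p
    have h1 : AlgebraicIndependent T (fun _ : Unit => t) := by
      rw [algebraicIndependent_unique_type_iff]; exact ht
    constructor
    · intro h; exact h1 (by rw [map_zero]; exact h)
    · rintro rfl; exact map_zero _
  obtain ⟨σ, hσ⟩ := exists_algEquiv_of_same_type (T := T) (fun _ : Unit => b) (fun _ : Unit => b')
    (fun p => (hai b hb p).trans (hai b' hb' p).symm)
  have hσb : σ b = b' := hσ ()
  have hσT : ∀ t ∈ T, σ t = t := fun t ht => σ.commutes ⟨t, ht⟩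
  have hsub : ((T : Set Om) ∪ {b}) ⊆ Subfield.closure ((T : Set Om) ∪ {b}) := Subfield.subset_closure
  have hTF : T ≤ Subfield.closure ((T : Set Om) ∪ {b}) := fun t ht => hsub (Or.inl ht)
  refine ⟨b, mul_ne_zero hy0 (pow_ne_zero 3 hc0), ⟨c, hcE, rfl⟩, ⟨St.mk
    (Subfield.closure ((T : Set Om) ∪ {b})) (σ : Om ≃+* Om) ?_ ?_ ?_ (hTF hzT) (hTF hxT) (hTF hyT)
    (hsub (Or.inr rfl)) (hσT z hzT) (hσT x hxT) (hσT y hyT) ⟨c, hcE, ?_⟩⟩⟩
  · apply countable_subfieldClosure
    have : (T : Set Om).Countable := Set.countable_coe_iff.1 hT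
    exact this.union (Set.countable_singleton b)
  · rw [Subfield.closure_le]
    rintro t (ht | rfl)
    · exact hTE ht
    · exact mul_mem hyE (pow_mem hcE 3)
  · intro t ht
    have h1 : Subfield.closure ((T : Set Om) ∪ {b}) ≤ E.comap (σ : Om ≃+* Om).toRingHom := by
      rw [Subfield.closure_le]
      rintro t (ht | rfl)
      · change σ t ∈ E
        rw [hσT t ht]
        exact hTE ht
      · change σ b ∈ E
        rw [hσb]
        exact mul_mem (inv_mem hyE) (pow_mem hcE 3)
    exact h1 ht
  · change σ b * y = c ^ 3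
    rw [hσb]
    simp only [b']
    field_simp

end Start

theorem uncountable_laurent (k : Type) [Field k] : Uncountable (LaurentSeries k) := by
  have hinj : Function.Injective (fun f : ℕ → Bool =>
      ((PowerSeries.mk (fun n => if f n then (1 : k) else 0) : PowerSeries k) : LaurentSeries k)) := by
    intro f g h
    have h1 : (PowerSeries.mk (fun n => if f n then (1 : k) else 0)) =
        PowerSeries.mk (fun n => if g n then (1 : k) else 0) := by
      exact HahnSeries.ofPowerSeries_injective h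
    funext n
    have h2 := congrArg (PowerSeries.coeff n) h1
    rw [PowerSeries.coeff_mk, PowerSeries.coeff_mk] at h2
    cases hf : f n <;> cases hg : g n <;> simp [hf, hg] at h2 ⊢
  haveI : Uncountable (ℕ → Bool) := by
    rw [← Cardinal.aleph0_lt_mk_iff]
    simp [Cardinal.mk_pi]
    exact Cardinal.cantor _
  exact hinj.uncountable

/-- the core from the curve step -/
theorem core_of_C3
    (hC3 : ∀ (k : Type) [Field k] [CharZero k] (z x : k) (_ : IsK k z x) (E : Type) [Field E] [CharZero E]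
      [Algebra (LaurentSeries k) E] (_ : IsE k x E),
      C3Hyp (algebraMap E (AlgebraicClosure E)).fieldRange
        (algebraMap E (AlgebraicClosure E) (algebraMap (LaurentSeries k) E (HahnSeries.C z)))
        (algebraMap E (AlgebraicClosure E) (algebraMap (LaurentSeries k) E (HahnSeries.C x)))
        (algebraMap E (AlgebraicClosure E) (algebraMap (LaurentSeries k) E (yv k)))) : Core := by
  obtain ⟨k, _, _, z, x, hk⟩ := exists_IsK
  obtain ⟨E0, _, _, hE⟩ := exists_IsE k z x hk
  haveI : CharZero (LaurentSeries k) := charZero_of_injective_algebraMap (algebraMap k (LaurentSeries k)).injective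
  haveI : CharZero E0 := charZero_of_injective_algebraMap (algebraMap (LaurentSeries k) E0).injective
  let Om := AlgebraicClosure E0
  haveI : CharZero Om := charZero_of_injective_algebraMap (algebraMap E0 Om).injective
  haveI : Uncountable (LaurentSeries k) := uncountable_laurent k
  haveI : Uncountable E0 := (algebraMap (LaurentSeries k) E0).injective.uncountable
  haveI : Uncountable Om := (algebraMap E0 Om).injective.uncountable
  let E : Subfield Om := (algebraMap E0 Om).fieldRange
  let ι : E0 →+* Om := algebraMap E0 Om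
  let κ : k →+* E0 := (algebraMap (LaurentSeries k) E0).comp (HahnSeries.C : k →+* LaurentSeries k)
  let z0 : E0 := κ z
  let x0 : E0 := κ x
  let y0 : E0 := algebraMap (LaurentSeries k) E0 (yv k)
  have hx : x ≠ 0 := by
    rintro rfl
    exact hk.notcube ⟨0, by norm_num⟩
  have hx00 : x0 ≠ 0 := by simpa [x0] using (map_ne_zero κ).2 hx
  have hy00 : y0 ≠ 0 := by
    rw [Ne, map_eq_zero]
    exact HahnSeries.single_ne_zero one_ne_zero
  have hz0 : IsPrimitiveRoot z0 3 := hk.prim.map_of_injective κ.injective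
  have hz : IsPrimitiveRoot (ι z0) 3 := hz0.map_of_injective ι.injective
  have hmem : ∀ t : E0, ι t ∈ E := fun t => ⟨t, rfl⟩
  let r : E0 →+* E := ι.rangeRestrictField
  have hr : ∀ t : E0, ((r t : E) : Om) = ι t := fun t => rfl
  have hrs : Function.Surjective r := by
    rintro ⟨_, t, rfl⟩
    exact ⟨t, rfl⟩
  have hEalg : Algebra.IsAlgebraic E Om := by
    constructor
    intro t
    obtain ⟨p, hp0, hp⟩ := (inferInstance : Algebra.IsAlgebraic E0 Om).isAlgebraic t
    refine ⟨p.map r, ?_, ?_⟩
    · rw [Ne, Polynomial.map_eq_zero]; exact hp0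
    · rw [aeval_def, eval₂_map]
      exact hp
  obtain ⟨b, hb0, hb1, ⟨s0⟩⟩ := exists_start E hEalg (hmem z0) (hmem x0) (hmem y0) (y := ι y0)
    ((map_ne_zero ι).2 hy00)
  have hzrel : (ι z0) ^ 2 + ι z0 + 1 = 0 := Pool.Agent.Helper51.Alg3.z_rel hz
  obtain ⟨T⟩ := exists_fin (E := E) hEalg hzrel ((map_ne_zero ι).2 hx00) ((map_ne_zero ι).2 hy00) hb0
    (hC3 k z x hk E0 hE) hb1 s0
  refine final_deduction E (hmem z0) (hmem x0) (hmem y0) hz ((map_ne_zero ι).2 hx00)
    ((map_ne_zero ι).2 hy00) hb0 ?_ ?_ hb1 T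
  · intro h
    let re : E0 ≃+* E := RingEquiv.ofBijective r ⟨r.injective, hrs⟩
    have h1 := Sp_map (re.symm : E →+* E0) h
    have h2 : ∀ t : E0, (re.symm : E →+* E0) ⟨ι t, hmem t⟩ = t := by
      intro t
      exact re.symm_apply_apply t
    rw [h2, h2] at h1
    exact hE.nsp h1
  · intro E' _ _ hfin hne
    letI : Algebra E0 E := r.toAlgebra
    letI : Algebra E0 E' := ((algebraMap E E').comp r).toAlgebra
    haveI : IsScalarTower E0 E E' := IsScalarTower.of_algebraMap_eq (fun _ => rfl)
    have h1 : Module.finrank E0 E = 1 := by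
      let e : E0 ≃ₗ[E0] E := LinearEquiv.ofBijective (Algebra.linearMap E0 E) ⟨r.injective, hrs⟩
      rw [← e.finrank_eq, Module.finrank_self]
    haveI : FiniteDimensional E0 E := Module.finite_of_finrank_pos (by omega)
    haveI : FiniteDimensional E0 E' := Module.Finite.trans E E'
    have h2 : Module.finrank E0 E' ≠ 1 := by
      rw [← Module.finrank_mul_finrank E0 E E', h1, one_mul]
      exact hne
    exact hE.sp E' inferInstance h2

/-- **S02124** from the core -/
theorem S02124_of_core (h : Core) :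
    ¬ (∀ (K : Type) [Field K] (D₁ D₂ : Type) [DivisionRing D₁] [DivisionRing D₂]
    [Algebra K D₁] [Algebra K D₂],
    Algebra.IsCentral K D₁ → Algebra.IsCentral K D₂ →
    Module.finrank K D₁ = 9 → Module.finrank K D₂ = 9 →
    (∀ (L : Type) [Field L] [Algebra K L], Algebra.trdeg K L ≤ 1 →
      (Nonempty ((L ⊗[K] D₁) ≃ₐ[L] Matrix (Fin 3) (Fin 3) L) ↔
       Nonempty ((L ⊗[K] D₂) ≃ₐ[L] Matrix (Fin 3) (Fin 3) L))) →
    Nonempty (D₂ ≃ₐ[K] D₁) ∨ Nonempty (D₂ ≃ₐ[K] D₁ᵐᵒᵖ)) := by
  obtain ⟨K, _, _, z, x, a, b, hz, hx, ha, hb, n1, n2, n3, n4, hL⟩ := h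
  exact Pool.Agent.Helper51.Alg3.alg_main K z x a b hz hx ha hb n1 n2 n3 n4 hL

/-- **S02124** from the curve step `C3Hyp` -/
theorem S02124_of_C3
    (hC3 : ∀ (k : Type) [Field k] [CharZero k] (z x : k) (_ : IsK k z x) (E : Type) [Field E] [CharZero E]
      [Algebra (LaurentSeries k) E] (_ : IsE k x E),
      C3Hyp (algebraMap E (AlgebraicClosure E)).fieldRange
        (algebraMap E (AlgebraicClosure E) (algebraMap (LaurentSeries k) E (HahnSeries.C z)))
        (algebraMap E (AlgebraicClosure E) (algebraMap (LaurentSeries k) E (HahnSeries.C x)))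
        (algebraMap E (AlgebraicClosure E) (algebraMap (LaurentSeries k) E (yv k)))) :
    ¬ (∀ (K : Type) [Field K] (D₁ D₂ : Type) [DivisionRing D₁] [DivisionRing D₂]
    [Algebra K D₁] [Algebra K D₂],
    Algebra.IsCentral K D₁ → Algebra.IsCentral K D₂ →
    Module.finrank K D₁ = 9 → Module.finrank K D₂ = 9 →
    (∀ (L : Type) [Field L] [Algebra K L], Algebra.trdeg K L ≤ 1 →
      (Nonempty ((L ⊗[K] D₁) ≃ₐ[L] Matrix (Fin 3) (Fin 3) L) ↔
       Nonempty ((L ⊗[K] D₂) ≃ₐ[L] Matrix (Fin 3) (Fin 3) L))) →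
    Nonempty (D₂ ≃ₐ[K] D₁) ∨ Nonempty (D₂ ≃ₐ[K] D₁ᵐᵒᵖ)) :=
  S02124_of_core (core_of_C3 hC3)

end Pool.Agent.Helper51.SFinal
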