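import Pool.Agent.Helper386.D5V.Helper740_D5_ModelM
import Pool.Agent.Helper386.D5V.SF_Model

/-! C3 one-step, part B: polynomial form of elements of `T.L`. -/

set_option autoImplicit false
set_option linter.all false
set_option linter.overlappingInstances false

open Polynomial Module FF SF Pool.Agent.Helper740.RegExt
open scoped Polynomial.Bivariate

namespace Pool.Agent.Helper740.C3

theorem bezout {K : Type*} [Field K] {G Q : K[X][Y]} (hirr : Irreducible G)
    (hpos : 0 < G.natDegree) (hQ : ¬ G ∣ Q) :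
    ∃ (A B : K[X][Y]) (r : K[X]), r ≠ 0 ∧ A * Q + B * G = C r := by
  classical
  let : NormalizedGCDMonoid K[X] := UniqueFactorizationMonoid.toNormalizedGCDMonoid _
  let Fr := FractionRing K[X]
  have hprim : G.IsPrimitive := hirr.isPrimitive (by lia)
  have hirrK : Irreducible (G.map (algebraMap K[X] Fr)) :=
    (hprim.irreducible_iff_irreducible_map_fraction_map (K := Fr)).1 hirr
  have hcop : IsCoprime (G.map (algebraMap K[X] Fr)) (Q.map (algebraMap K[X] Fr)) := by
    rw [hirrK.coprime_iff_not_dvd]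
    intro h
    exact hQ (IsPrimitive.dvd_of_fraction_map_dvd_fraction_map (K := Fr) hprim h)
  obtain ⟨u, v, huv⟩ := hcop
  obtain ⟨b1, hb1⟩ := IsLocalization.integerNormalization_map_to_map (nonZeroDivisors K[X]) u
  obtain ⟨b2, hb2⟩ := IsLocalization.integerNormalization_map_to_map (nonZeroDivisors K[X]) v
  refine ⟨C (b1 : K[X]) * IsLocalization.integerNormalization (nonZeroDivisors K[X]) v,
    C (b2 : K[X]) * IsLocalization.integerNormalization (nonZeroDivisors K[X]) u, b1 * b2,
    mul_ne_zero (nonZeroDivisors.ne_zero b1.2) (nonZeroDivisors.ne_zero b2.2), ?_⟩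
  apply Polynomial.map_injective (algebraMap K[X] Fr) (FaithfulSMul.algebraMap_injective K[X] Fr)
  simp only [Polynomial.map_add, Polynomial.map_mul, Polynomial.map_C, map_mul]
  rw [hb1, hb2, Algebra.smul_def, Algebra.smul_def]
  have h1 : ∀ t : K[X], algebraMap K[X] Fr[X] t = C (algebraMap K[X] Fr t) := fun t => rfl
  rw [h1, h1]
  linear_combination (C (algebraMap K[X] Fr b1) * C (algebraMap K[X] Fr b2)) * huv

theorem map_ev {A B D : Type*} [CommRing A] [CommRing B] [CommRing D] (φ : B →+* D) (f : A →+* B)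
    (x y : B) (P : A[X][Y]) : φ (ev f x y P) = ev (φ.comp f) (φ x) (φ y) P := by
  have h : φ.comp (ev f x y) = ev (φ.comp f) (φ x) (φ y) := by
    ext t <;> simp [ev]
  exact congrArg (fun g : A[X][Y] →+* D => g P) h

theorem mem_comp_poly {F Ω L M : Type} [Field F] [Field Ω] [Algebra F Ω] [Field L] [Algebra F L]
    [Field M] [Algebra Ω M] [Algebra L M] (m : Model F Ω L M) {ξ η : L}
    (hgen : Gen (algebraMap F L) ξ η) (T : Subfield Ω) (hT : ∀ c : F, algebraMap F Ω c ∈ T) {f : M}
    (hf : f ∈ m.comp T) :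
    ∃ P Q : T[X][Y],
      ev ((algebraMap Ω M).comp T.subtype) (algebraMap L M ξ) (algebraMap L M η) Q ≠ 0 ∧
      f * ev ((algebraMap Ω M).comp T.subtype) (algebraMap L M ξ) (algebraMap L M η) Q =
        ev ((algebraMap Ω M).comp T.subtype) (algebraMap L M ξ) (algebraMap L M η) P := by
  classical
  set e := ev ((algebraMap Ω M).comp T.subtype) (algebraMap L M ξ) (algebraMap L M η) with he
  let S : Subfield M :=
    { carrier := {f | ∃ P Q : T[X][Y], e Q ≠ 0 ∧ f * e Q = e P}
      mul_mem' := by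
        rintro f g ⟨P, Q, hQ, h⟩ ⟨P', Q', hQ', h'⟩
        refine ⟨P * P', Q * Q', by rw [map_mul]; exact mul_ne_zero hQ hQ', ?_⟩
        rw [map_mul, map_mul, ← h, ← h']; ring
      one_mem' := ⟨1, 1, by rw [map_one]; exact one_ne_zero, by rw [map_one, one_mul]⟩
      add_mem' := by
        rintro f g ⟨P, Q, hQ, h⟩ ⟨P', Q', hQ', h'⟩
        refine ⟨P * Q' + P' * Q, Q * Q', by rw [map_mul]; exact mul_ne_zero hQ hQ', ?_⟩
        rw [map_mul, map_add, map_mul, map_mul, ← h, ← h']; ring
      zero_mem' := ⟨0, 1, by rw [map_one]; exact one_ne_zero, by rw [map_zero, zero_mul]⟩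
      neg_mem' := by
        rintro f ⟨P, Q, hQ, h⟩
        refine ⟨-P, Q, hQ, ?_⟩
        rw [map_neg, ← h]; ring
      inv_mem' := by
        rintro f ⟨P, Q, hQ, h⟩
        by_cases hf0 : f = 0
        · rw [hf0, inv_zero]
          exact ⟨0, 1, by rw [map_one]; exact one_ne_zero, by rw [map_zero, zero_mul]⟩
        · refine ⟨Q, P, ?_, ?_⟩
          · rw [← h]; exact mul_ne_zero hf0 hQ
          · rw [← h, ← mul_assoc, inv_mul_cancel₀ hf0, one_mul] }
  have hle : m.comp T ≤ S := by
    unfold Model.comp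
    rw [Subfield.closure_le]
    rintro _ (⟨c, hc, rfl⟩ | ⟨l, rfl⟩)
    · refine ⟨C (C ⟨c, hc⟩), 1, by rw [map_one]; exact one_ne_zero, ?_⟩
      rw [map_one, mul_one, he, ev_C, eval₂_C]
      rfl
    · obtain ⟨P, Q, hQ, rfl⟩ := hgen l
      let i : F →+* T := (algebraMap F Ω).codRestrict T hT
      have hi : ∀ P : F[X][Y], e (bc i P) = algebraMap L M (ev (algebraMap F L) ξ η P) := by
        intro P
        have h1 : ((algebraMap Ω M).comp T.subtype).comp i = (algebraMap L M).comp (algebraMap F L) := by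
          ext c
          exact m.compat c
        rw [he, ev_bc, map_ev, h1]
      refine ⟨bc i P, bc i Q, ?_, ?_⟩
      · rw [hi]
        exact (_root_.map_ne_zero _).2 hQ
      · rw [hi, hi, map_div₀, div_mul_cancel₀]
        exact (_root_.map_ne_zero _).2 hQ
  exact hle hf

/-- denominators in `T[X]` -/
theorem mem_comp_poly' {F Ω L M : Type} [Field F] [Field Ω] [Algebra F Ω] [Field L] [Algebra F L]
    [Field M] [Algebra Ω M] [Algebra L M] (m : Model F Ω L M) {ξ η : L}
    (hgen : Gen (algebraMap F L) ξ η) {G : F[X][Y]} (hG : ev (algebraMap F L) ξ η G = 0)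
    (hirr : Irreducible (bc (algebraMap F Ω) G)) (hpos : 0 < G.natDegree)
    (T : Subfield Ω) (hT : ∀ c : F, algebraMap F Ω c ∈ T) {f : M}
    (hf : f ∈ m.comp T) :
    ∃ (P : T[X][Y]) (r : T[X]), r ≠ 0 ∧
      f * ev ((algebraMap Ω M).comp T.subtype) (algebraMap L M ξ) (algebraMap L M η) (C r) =
        ev ((algebraMap Ω M).comp T.subtype) (algebraMap L M ξ) (algebraMap L M η) P := by
  classical
  obtain ⟨P, Q, hQ, h⟩ := mem_comp_poly m hgen T hT hf
  let i : F →+* T := (algebraMap F Ω).codRestrict T hT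
  have hi : T.subtype.comp i = algebraMap F Ω := by ext c; rfl
  have hirrT : Irreducible (bc i G) := by
    apply irreducible_of_bc T.subtype
    rw [bc_bc, hi]
    exact hirr
  have hposT : 0 < (bc i G).natDegree := by rwa [natDegree_bc]
  have hGT : ev ((algebraMap Ω M).comp T.subtype) (algebraMap L M ξ) (algebraMap L M η) (bc i G) = 0 := by
    rw [ev_bc, RingHom.comp_assoc, hi]
    have h1 : (algebraMap Ω M).comp (algebraMap F Ω) = (algebraMap L M).comp (algebraMap F L) := by
      ext c; exact m.compat c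
    rw [h1, ← map_ev, hG, map_zero]
  have hndvd : ¬ bc i G ∣ Q := by
    rintro ⟨K, rfl⟩
    rw [map_mul, hGT, zero_mul] at hQ
    exact hQ rfl
  obtain ⟨A, B, r, hr, hAB⟩ := bezout hirrT hposT hndvd
  refine ⟨A * P, r, hr, ?_⟩
  rw [← hAB, map_add, map_mul, map_mul, map_mul, hGT, mul_zero, add_zero, ← h]
  ring

end Pool.Agent.Helper740.C3
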