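import Pool.Agent.Helper386.D5V.SF_Model

/-! Field of definition in a model. -/

set_option autoImplicit false
set_option linter.all false
set_option linter.overlappingInstances false

open Module FF

namespace SF

section
variable {F Ω L M : Type} [Field F] [Field Ω] [Algebra F Ω] [Field L] [Algebra F L]
    [Field M] [Algebra Ω M] [Algebra L M]

theorem Model.act_lc (m : Model F Ω L M) {ι : Type} (v : ι → L) (σ : Ω ≃ₐ[F] Ω) (c : ι →₀ Ω) :
    m.act σ (Finsupp.linearCombination Ω (fun i => algebraMap L M (v i)) c) =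
      Finsupp.linearCombination Ω (fun i => algebraMap L M (v i)) (c.mapRange σ (map_zero σ)) := by
  rw [Finsupp.linearCombination_apply, Finsupp.linearCombination_apply,
    Finsupp.sum_mapRange_index (by simp)]
  unfold Finsupp.sum
  rw [map_sum]
  apply Finset.sum_congr rfl
  intro i _
  beta_reduce
  rw [Algebra.smul_def, Algebra.smul_def, map_mul, m.act_const, m.act_L]

theorem Model.exists_lc (m : Model F Ω L M) {ι : Type} (b : Basis ι F L) (p : M)
    (hp : p ∈ Submodule.span Ω (Set.range (algebraMap L M))) :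
    ∃ c : ι →₀ Ω, Finsupp.linearCombination Ω (fun i => algebraMap L M (b i)) c = p := by
  have h1 : ∀ l : L, ∃ c : ι →₀ Ω,
      Finsupp.linearCombination Ω (fun i => algebraMap L M (b i)) c = algebraMap L M l := by
    intro l
    have hl : l ∈ Submodule.span F (Set.range b) := b.mem_span l
    induction hl using Submodule.span_induction with
    | mem x hx =>
      obtain ⟨i, rfl⟩ := hx
      exact ⟨Finsupp.single i 1, by simp⟩
    | zero => exact ⟨0, by simp⟩
    | add x y _ _ hx hy =>
      obtain ⟨c, hc⟩ := hx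
      obtain ⟨d, hd⟩ := hy
      exact ⟨c + d, by rw [map_add, hc, hd, map_add]⟩
    | smul a x _ hx =>
      obtain ⟨c, hc⟩ := hx
      refine ⟨algebraMap F Ω a • c, ?_⟩
      rw [map_smul, hc, Algebra.smul_def, Algebra.smul_def, map_mul, m.compat]
  have h2 : Submodule.span Ω (Set.range (algebraMap L M)) ≤
      LinearMap.range (Finsupp.linearCombination Ω (fun i => algebraMap L M (b i))) := by
    rw [Submodule.span_le]
    rintro _ ⟨l, rfl⟩
    exact h1 l
  exact h2 hp

theorem Model.lc_mem_comp (m : Model F Ω L M) (T : Subfield Ω) {ι : Type} (v : ι → L)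
    (c : ι →₀ Ω) (hc : ∀ i, c i ∈ T) :
    Finsupp.linearCombination Ω (fun i => algebraMap L M (v i)) c ∈ m.comp T := by
  rw [Finsupp.linearCombination_apply]
  apply Subfield.sum_mem
  intro i _
  beta_reduce
  rw [Algebra.smul_def]
  apply mul_mem
  · exact Subfield.subset_closure (Or.inl ⟨_, hc i, rfl⟩)
  · exact Subfield.subset_closure (Or.inr ⟨_, rfl⟩)

/-- field of definition / descent for subgroups -/
theorem model_descent (m : Model F Ω L M)
    (H : Subgroup (Ω ≃ₐ[F] Ω)) (T : Subfield Ω) (hT : ∀ t, t ∈ T ↔ ∀ σ ∈ H, σ t = t)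
    (f : M) (hf : ∀ σ ∈ H, m.act σ f = f) : f ∈ m.comp T := by
  classical
  let b := Module.Free.chooseBasis F L
  let lc := Finsupp.linearCombination Ω (fun i => algebraMap L M (b i))
  have hlc : LinearIndependent Ω (fun i => algebraMap L M (b i)) := m.indep _ b.linearIndependent
  have hinj : ∀ c, lc c = 0 → c = 0 := linearIndependent_iff.1 hlc
  have hinj' : Function.Injective lc := (injective_iff_map_eq_zero lc).2 hinj
  let P : (Module.Free.ChooseBasisIndex F L →₀ Ω) → Prop := fun c => ∃ e, lc e = lc c * f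
  have hex : ∃ n, ∃ c, c ≠ 0 ∧ P c ∧ c.support.card = n := by
    obtain ⟨p, q, hp, hq, hq0, hpq⟩ := m.frac f
    obtain ⟨e, he⟩ := m.exists_lc b p hp
    obtain ⟨c, hc⟩ := m.exists_lc b q hq
    refine ⟨_, c, ?_, ⟨e, ?_⟩, rfl⟩
    · rintro rfl
      apply hq0
      rw [← hc, map_zero]
    · change Finsupp.linearCombination Ω (fun i => algebraMap L M (b i)) e =
        Finsupp.linearCombination Ω (fun i => algebraMap L M (b i)) c * f
      rw [he, hc, hpq, mul_div_cancel₀ _ hq0]
  obtain ⟨c, hc0, ⟨e, he⟩, hcn⟩ := Nat.find_spec hex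
  have hmin : ∀ d, d ≠ 0 → P d → c.support.card ≤ d.support.card := by
    intro d hd0 hd
    rw [hcn]
    exact Nat.find_min' hex ⟨d, hd0, hd, rfl⟩
  obtain ⟨i0, hi0⟩ : ∃ i, c i ≠ 0 := by
    by_contra hcon
    push Not at hcon
    exact hc0 (Finsupp.ext hcon)
  -- normalise
  let c1 := (c i0)⁻¹ • c
  let e1 := (c i0)⁻¹ • e
  have hc1i : c1 i0 = 1 := by
    simp only [c1, Finsupp.smul_apply, smul_eq_mul]
    exact inv_mul_cancel₀ hi0
  have hc1s : c1.support ⊆ c.support := Finsupp.support_smul
  have he1 : lc e1 = lc c1 * f := by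
    simp only [c1, e1, map_smul, he, smul_mul_assoc]
  have hc1T : ∀ σ ∈ H, c1.mapRange σ (map_zero σ) = c1 := by
    intro σ hσ
    by_contra hne
    let d := c1.mapRange σ (map_zero σ) - c1
    have hd0 : d ≠ 0 := sub_ne_zero.2 hne
    have hPd : P d := by
      refine ⟨e1.mapRange σ (map_zero σ) - e1, ?_⟩
      have h1 := congrArg (m.act σ) he1
      rw [map_mul, hf σ hσ] at h1
      simp only [lc] at h1 he1 ⊢
      rw [m.act_lc, m.act_lc] at h1
      simp only [d, map_sub]
      rw [h1, he1, sub_mul]
    have h2 := hmin d hd0 hPd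
    have h3 : d.support ⊆ c1.support.erase i0 := by
      intro i hi
      rw [Finsupp.mem_support_iff] at hi
      rw [Finset.mem_erase, Finsupp.mem_support_iff]
      constructor
      · rintro rfl
        apply hi
        simp only [d, Finsupp.sub_apply, Finsupp.mapRange_apply]
        rw [hc1i, map_one, sub_self]
      · intro h0
        apply hi
        simp only [d, Finsupp.sub_apply, Finsupp.mapRange_apply]
        rw [h0, map_zero, sub_self]
    have h4 : (c1.support.erase i0).card < c1.support.card := by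
      apply Finset.card_erase_lt_of_mem
      rw [Finsupp.mem_support_iff, hc1i]
      exact one_ne_zero
    have h5 := Finset.card_le_card h3
    have h6 := Finset.card_le_card hc1s
    omega
  have hc1m : ∀ i, c1 i ∈ T := by
    intro i
    rw [hT]
    intro σ hσ
    have := congrArg (fun g : (Module.Free.ChooseBasisIndex F L →₀ Ω) => g i) (hc1T σ hσ)
    simpa only [Finsupp.mapRange_apply] using this
  have he1m : ∀ i, e1 i ∈ T := by
    intro i
    rw [hT]
    intro σ hσ
    have h1 := congrArg (m.act σ) he1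
    rw [map_mul, hf σ hσ] at h1
    simp only [lc] at h1 he1
    rw [m.act_lc, m.act_lc, hc1T σ hσ, ← he1] at h1
    have h2 := hinj' h1
    have := congrArg (fun g : (Module.Free.ChooseBasisIndex F L →₀ Ω) => g i) h2
    simpa only [Finsupp.mapRange_apply] using this
  have hlc1 : lc c1 ≠ 0 := by
    intro h
    have h1 := hinj _ h
    rw [h1] at hc1i
    exact zero_ne_one hc1i
  have hf' : f = lc e1 / lc c1 := by
    rw [he1, mul_div_cancel_left₀ _ hlc1]
  rw [hf']
  exact div_mem (m.lc_mem_comp T _ _ he1m) (m.lc_mem_comp T _ _ hc1m)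

end

end SF
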