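import Pool.Agent.Helper386.D5V.Helper740_D5_OneSide
import Pool.Agent.Helper386.D5V.Helper970_D5_Descent
import Pool.Agent.Helper386.D5V.Helper740_D5_Poly
import Pool.Agent.Helper386.D5V.Helper740_D5_ModelPoly
import Pool.Agent.Helper386.D5V.Helper51_SF_State
import Pool.Agent.Helper386.D5V.Helper740_D5_DPos

/-! C3 one-step: helper51's `C3Hyp` from LOC, GP and merge. -/

set_option autoImplicit false
set_option linter.all false
set_option linter.overlappingInstances false

open Polynomial Module FF SF Step Pool.Agent.Helper740.RegExt Pool.Agent.Helper51.SFinal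
open scoped Polynomial.Bivariate

namespace Pool.Agent.Helper740.C3

theorem big {E0 Om : Type} [Field E0] [Field Om] [Uncountable E0] (j : E0 →+* Om)
    (Λ : Subfield Om) (hΛ : Countable Λ) : ∃ c : E0, Transcendental Λ (j c) := by
  by_contra h
  push Not at h
  have h1 : ∀ c, j c ∈ algebraicClosure Λ Om := fun c =>
    mem_algebraicClosure_iff.2 (not_not.1 (h c))
  have h2 : Function.Injective (fun c : E0 => (⟨j c, h1 c⟩ : algebraicClosure Λ Om)) := by
    intro u v huv
    exact j.injective (congrArg Subtype.val huv)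
  have h3 : Countable (algebraicClosure Λ Om) :=
    Cardinal.mk_le_aleph0_iff.1 (Step.countable_algCl Λ Om)
  exact not_countable (α := E0) h2.countable

theorem n3_div {K : Type*} [Field K] (a p0 p1 p2 q : K) (hq : q ≠ 0) :
    N3 a (p0 / q) (p1 / q) (p2 / q) = N3 a p0 p1 p2 / q ^ 3 := by
  unfold N3
  field_simp

theorem n3_mul {K : Type*} [CommRing K] (a p0 p1 p2 q : K) :
    N3 a (p0 * q) (p1 * q) (p2 * q) = N3 a p0 p1 p2 * q ^ 3 := by
  unfold N3
  ring

theorem nsp_a {k : Type} [Field k] [CharZero k] {z x : k} (hk : IsK k z x) {E : Type} [Field E]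
    [CharZero E] [Algebra (LaurentSeries k) E] (hE : IsE k x E) {a : E} (ha0 : a ≠ 0)
    (ha : ∃ c : E, c ≠ 0 ∧ (a = algebraMap (LaurentSeries k) E (yv k) * c ^ 3 ∨
      a * algebraMap (LaurentSeries k) E (yv k) = c ^ 3)) :
    ¬ Sp E a (algebraMap (LaurentSeries k) E (HahnSeries.C x)) := by
  intro h
  let κ : k →+* E := (algebraMap (LaurentSeries k) E).comp (HahnSeries.C : k →+* LaurentSeries k)
  have hx : x ≠ 0 := by
    rintro rfl
    exact hk.notcube ⟨0, by norm_num⟩
  have hx0 : κ x ≠ 0 := by simpa using (_root_.map_ne_zero κ).2 hx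
  have hy0 : algebraMap (LaurentSeries k) E (yv k) ≠ 0 := by
    rw [Ne, map_eq_zero]
    exact HahnSeries.single_ne_zero one_ne_zero
  have hz0 : IsPrimitiveRoot (κ z) 3 := hk.prim.map_of_injective κ.injective
  obtain ⟨c, hc0, hc⟩ := ha
  apply hE.nsp
  rcases hc with hc | hc
  · rw [hc] at h
    exact (Sp_mul_cube_left hz0 hy0 hc0 hx0).1 h
  · have h1 : a = (algebraMap (LaurentSeries k) E (yv k))⁻¹ * c ^ 3 := by
      rw [← hc]; field_simp
    rw [h1] at h
    have h2 := (Sp_mul_cube_left hz0 (inv_ne_zero hy0) hc0 hx0).1 h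
    exact (Sp_inv_left_iff hz0 hy0 hx0).1 h2

theorem C3Hyp_of (hLOC : LOCStmt) (hGP : GPStmt) {k : Type} [Field k] [CharZero k] {z x : k}
    (hk : IsK k z x) {E : Type} [Field E] [CharZero E] [Algebra (LaurentSeries k) E]
    (hE : IsE k x E) [Uncountable E] (Om : Type) [Field Om] [Algebra E Om] [IsAlgClosed Om]
    [CharZero Om] [Algebra.IsAlgebraic E Om] :
    C3Hyp (algebraMap E Om).fieldRange
        (algebraMap E Om (algebraMap (LaurentSeries k) E (HahnSeries.C z)))
        (algebraMap E Om (algebraMap (LaurentSeries k) E (HahnSeries.C x)))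
        (algebraMap E Om (algebraMap (LaurentSeries k) E (yv k))) := by
  classical
  intro F θ hFc hFE hFθ hzF hxF hyF hθz hθx hθy a b haF hbF ha0 hb0 hRa hRθa hba hθab
    G P0 P1 P2 Q hG hP0 hP1 hP2 hQc hirr hpos hnd hdvd
  have hOmU : Uncountable Om := (algebraMap E Om).injective.uncountable
  haveI : Countable F := hFc
  haveI : CharZero F := F.subtype.charZero
  have hsub : (algebraMap F Om) = F.subtype := rfl
  obtain ⟨G', hG'⟩ := hG.exists_bc
  obtain ⟨P0', hP0'⟩ := hP0.exists_bc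
  obtain ⟨P1', hP1'⟩ := hP1.exists_bc
  obtain ⟨P2', hP2'⟩ := hP2.exists_bc
  obtain ⟨Q', hQ'⟩ := hQc.exists_bc
  have hirr' : Irreducible (bc (algebraMap F Om) G') := by rw [hsub, hG']; exact hirr
  have hpos' : 0 < G'.natDegree := by rwa [← hG', natDegree_bc] at hpos
  obtain ⟨L, M, iL, aL, iM, aM, aLM, m, ξ, η, hξ, hFF1, hFF2, hGL, hgen⟩ :=
    exists_model_poly (F := F) (Ω := Om) hirr' hpos'
  -- evaluation in `M`
  set eM : Polynomial (Polynomial Om) →+* M := ev (algebraMap Om M) (algebraMap L M ξ) (algebraMap L M η) with heM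
  set eL : F[X][Y] →+* L := ev (algebraMap F L) ξ η with heL
  have hcomp : (algebraMap Om M).comp F.subtype = (algebraMap L M).comp (algebraMap F L) := by
    ext c; exact m.compat c
  have heML : ∀ P' : F[X][Y], eM (bc F.subtype P') = algebraMap L M (eL P') := by
    intro P'
    rw [heM, ev_bc, hcomp, heL, map_ev]
  have heMG : eM G = 0 := by rw [← hG', heML, hGL, map_zero]
  have hξM : Transcendental Om (algebraMap L M ξ) := m.transcendental740 hξ
  have hker : ∀ H : Polynomial (Polynomial Om), eM H = 0 → G ∣ H := by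
    intro H hH
    exact dvd_of_ev_eq_zero (algebraMap Om M) (fun p hp => transcendental_iff.1 hξM p hp) hirr hpos
      heMG hH
  have hcM : ∀ c : Om, eM (C (C c)) = algebraMap Om M c := by
    intro c
    rw [heM, ev_C, eval₂_C]
  -- the elements of `F`
  let zF : F := ⟨_, hzF⟩
  let xF : F := ⟨_, hxF⟩
  let aF : F := ⟨a, haF⟩
  let bF : F := ⟨b, hbF⟩
  have hzFv : algebraMap F Om zF = algebraMap E Om (algebraMap (LaurentSeries k) E (HahnSeries.C z)) := rfl
  have hxFv : algebraMap F Om xF = algebraMap E Om (algebraMap (LaurentSeries k) E (HahnSeries.C x)) := rfl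
  have haFv : algebraMap F Om aF = a := rfl
  have hbFv : algebraMap F Om bF = b := rfl
  have hx : x ≠ 0 := by
    rintro rfl
    exact hk.notcube ⟨0, by norm_num⟩
  have hxF0 : xF ≠ 0 := by
    intro h
    have h1 := congrArg (algebraMap F Om) h
    rw [hxFv, map_zero, map_eq_zero, map_eq_zero] at h1
    exact hx ((map_eq_zero (HahnSeries.C : k →+* LaurentSeries k)).1 h1)
  have haF0 : aF ≠ 0 := fun h => ha0 (congrArg Subtype.val h)
  have hbF0 : bF ≠ 0 := fun h => hb0 (congrArg Subtype.val h)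
  have hzFp : IsPrimitiveRoot zF 3 := by
    have h1 : IsPrimitiveRoot (algebraMap F Om zF) 3 := by
      rw [hzFv]
      let κ : k →+* Om := (algebraMap E Om).comp ((algebraMap (LaurentSeries k) E).comp
        (HahnSeries.C : k →+* LaurentSeries k))
      exact hk.prim.map_of_injective κ.injective
    exact h1.of_map_of_injective (algebraMap F Om).injective
  -- the solution for `a`
  have heQ : eL Q' ≠ 0 := by
    intro h
    apply hnd
    apply hker
    rw [← hQ', heML, h, map_zero]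
  have hN : N3 (algebraMap F L aF) (eL P0') (eL P1') (eL P2') = algebraMap F L xF * (eL Q') ^ 3 := by
    apply (algebraMap L M).injective
    have h1 : eM (N3 (C (C a)) P0 P1 P2 - C (C (algebraMap E Om (algebraMap (LaurentSeries k) E (HahnSeries.C x)))) * Q ^ 3) = 0 := by
      obtain ⟨K, hK⟩ := hdvd
      rw [hK, map_mul, heMG, zero_mul]
    rw [map_sub, sub_eq_zero] at h1
    have h2 : eM (N3 (C (C a)) P0 P1 P2) = N3 (eM (C (C a))) (eM P0) (eM P1) (eM P2) := by
      unfold N3
      simp only [map_sub, map_add, map_mul, map_pow, map_ofNat]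
    have h3 : algebraMap L M (N3 (algebraMap F L aF) (eL P0') (eL P1') (eL P2')) =
        N3 (algebraMap L M (algebraMap F L aF)) (algebraMap L M (eL P0')) (algebraMap L M (eL P1'))
          (algebraMap L M (eL P2')) := by
      unfold N3
      simp only [map_sub, map_add, map_mul, map_pow, map_ofNat]
    rw [h3, ← heML, ← heML, ← heML, hP0', hP1', hP2', ← m.compat, haFv, ← hcM, ← h2, h1, map_mul,
      map_pow, map_mul, map_pow, ← heML, hQ', ← m.compat, hxFv, hcM]
  have hg : N3 (algebraMap F L aF) (eL P0' / eL Q') (eL P1' / eL Q') (eL P2' / eL Q') =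
      algebraMap F L xF := by
    rw [n3_div _ _ _ _ _ heQ, hN, mul_div_assoc, div_self (pow_ne_zero 3 heQ), mul_one]
  obtain ⟨α, hα⟩ := IsAlgClosed.exists_pow_nat_eq (algebraMap F Om aF) (n := 3) (by norm_num)
  -- `F` inside `E`
  have hjF1 : ∀ c : F, ∃ e : E, algebraMap E Om e = algebraMap F Om c := fun c => hFE c.2
  have hns : ¬ Sp F aF xF := by
    intro h
    choose f hf using hjF1
    let jF : F →+* E :=
      { toFun := f
        map_one' := by apply (algebraMap E Om).injective; rw [hf, map_one, map_one]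
        map_mul' := fun u v => by apply (algebraMap E Om).injective; rw [hf, map_mul, map_mul, hf, hf]
        map_zero' := by apply (algebraMap E Om).injective; rw [hf, map_zero, map_zero]
        map_add' := fun u v => by apply (algebraMap E Om).injective; rw [hf, map_add, map_add, hf, hf] }
    have h1 := Sp_map jF h
    have hjx : jF xF = algebraMap (LaurentSeries k) E (HahnSeries.C x) := by
      apply (algebraMap E Om).injective
      exact (hf xF).trans hxFv
    have hja : algebraMap E Om (jF aF) = a := (hf aF).trans haFv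
    rw [hjx] at h1
    refine nsp_a hk hE ?_ ?_ h1
    · intro h2
      rw [h2, map_zero] at hja
      exact ha0 hja.symm
    · obtain ⟨c, ⟨c', rfl⟩, hc0, hc⟩ := hRa
      refine ⟨c', fun h2 => hc0 (by rw [h2, map_zero]), ?_⟩
      rcases hc with hc | hc
      · left
        apply (algebraMap E Om).injective
        rw [hja, hc, map_mul, map_pow]
      · right
        apply (algebraMap E Om).injective
        rw [map_mul, hja, hc, map_pow]
  have hd0 := d_pos m zF xF aF hzFp hxF0 haF0 hns (eL P0' / eL Q') (eL P1' / eL Q') (eL P2' / eL Q') hg α hα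
  -- the two embeddings
  let j2 : E →+* Om := (θ.symm : Om →+* Om).comp (algebraMap E Om)
  have hj2 : ∀ e, j2 e = θ.symm (algebraMap E Om e) := fun e => rfl
  have halg1 : @Algebra.IsAlgebraic E Om _ _ (algebraMap E Om).toAlgebra := by
    refine @Algebra.IsAlgebraic.mk E Om _ _ (algebraMap E Om).toAlgebra ?_
    intro w
    obtain ⟨p, hp0, hp⟩ := Algebra.IsAlgebraic.isAlgebraic (R := E) w
    exact ⟨p, hp0, hp⟩
  have halg2 : @Algebra.IsAlgebraic E Om _ _ j2.toAlgebra := by
    refine @Algebra.IsAlgebraic.mk E Om _ _ j2.toAlgebra ?_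
    intro w
    obtain ⟨p, hp0, hp⟩ := Algebra.IsAlgebraic.isAlgebraic (R := E) (θ w)
    refine ⟨p, hp0, ?_⟩
    change p.eval₂ j2 w = 0
    have h1 := congrArg θ.symm hp
    rw [aeval_def, map_zero] at h1
    rw [← h1]
    change _ = (θ.symm : Om →+* Om) (eval₂ (algebraMap E Om) (θ w) p)
    rw [hom_eval₂]
    congr 1
    exact (θ.symm_apply_apply w).symm
  have hZ1 := one_side hLOC hGP hk hE m ξ hξ (algebraMap E Om) halg1 hjF1 aF xF zF
    (by
      obtain ⟨c, ⟨c', rfl⟩, hc0, hc⟩ := hRa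
      refine ⟨c', fun h2 => hc0 (by rw [h2, map_zero]), ?_⟩
      rcases hc with hc | hc
      · left
        rw [haFv, hc, map_mul, map_pow]
      · right
        rw [haFv, hc, map_pow])
    hxFv hzFp α hα _ _ _ hg _ rfl hd0
  have hZ2 := one_side hLOC hGP hk hE m ξ hξ j2 halg2
    (fun c => by
      obtain ⟨e, he⟩ := hFθ c.1 c.2
      refine ⟨e, ?_⟩
      rw [hj2, he]
      exact θ.symm_apply_apply _)
    aF xF zF
    (by
      obtain ⟨c, ⟨c', rfl⟩, hc0, hc⟩ := hRθa
      refine ⟨c', fun h2 => hc0 (by rw [h2, map_zero]), ?_⟩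
      rcases hc with hc | hc
      · left
        rw [haFv, hj2, map_mul, map_pow, ← hc]
        exact (θ.symm_apply_apply a).symm
      · right
        rw [haFv, hj2, hj2, map_pow, ← hc, map_mul, θ.symm_apply_apply])
    (by
      rw [hxFv, hj2]
      exact (RingEquiv.eq_symm_apply θ).2 hθx)
    hzFp α hα _ _ _ hg _ rfl hd0
  -- the fields `E1`, `E2`
  let E1 : IntermediateField F Om :=
    Subfield.toIntermediateField (algebraMap E Om).fieldRange (fun c => hFE c.2)
  let E2 : IntermediateField F Om :=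
    Subfield.toIntermediateField ((algebraMap E Om).fieldRange.comap (θ : Om →+* Om)) (fun c => hFθ c.1 c.2)
  have hE1m : ∀ t, t ∈ E1 ↔ t ∈ (algebraMap E Om).fieldRange := fun t => Iff.rfl
  have hE2m : ∀ t, t ∈ E2 ↔ θ t ∈ (algebraMap E Om).fieldRange := fun t => Iff.rfl
  obtain ⟨τ, H0, H1, H2, hNH, hfix1, hfix2⟩ := SF.merge m ξ hξ zF xF aF bF hzFp hxF0 haF0 hbF0 E1 E2
    (by
      obtain ⟨c, hc, hc'⟩ := hba
      refine ⟨c, hc, ?_⟩
      have h1 : algebraMap F Om (bF / aF) = b / a := by rw [map_div₀]; rfl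
      rw [h1, hc']
      field_simp)
    (by
      obtain ⟨c, hc, hc'⟩ := hθab
      refine ⟨θ.symm c, ?_, ?_⟩
      · rw [hE2m, θ.apply_symm_apply]; exact hc
      · have h1 : algebraMap F Om (aF * bF) = a * b := by rw [map_mul]; rfl
        rw [h1, ← map_pow, ← hc', θ.symm_apply_apply])
    (fun Λ hΛ => by
      obtain ⟨c, hc⟩ := big (algebraMap E Om) Λ hΛ
      exact ⟨_, ⟨c, rfl⟩, hc⟩)
    (fun Λ hΛ => by
      obtain ⟨c, hc⟩ := big j2 Λ hΛ
      refine ⟨j2 c, ?_, hc⟩
      rw [hE2m, hj2, θ.apply_symm_apply]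
      exact ⟨c, rfl⟩)
    _ _ _ hg α hα _ hd0 rfl
    (fun Λ hΛ t => by
      obtain ⟨Z, h1, h2, h3, h4⟩ := hZ1 Λ hΛ t
      exact ⟨Z, h1, fun σ hσ => h2 σ (fun e => hσ _ ⟨e, rfl⟩), h3, h4⟩)
    (fun Λ hΛ t => by
      obtain ⟨Z, h1, h2, h3, h4⟩ := hZ2 Λ hΛ t
      refine ⟨Z, h1, fun σ hσ => h2 σ (fun e => hσ _ ?_), h3, h4⟩
      rw [hE2m, hj2, θ.apply_symm_apply]
      exact ⟨e, rfl⟩)
  -- descent
  let T0 : Subfield Om := (algebraMap E Om).fieldRange ⊓
    (algebraMap E Om).fieldRange.comap ((θ : Om →+* Om).comp (τ : Om →+* Om))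
  have hT0m : ∀ t, t ∈ T0 ↔ t ∈ E1 ∧ τ t ∈ E2 := fun t => Iff.rfl
  let S : Set (Om ≃ₐ[F] Om) := {σ | (∀ e ∈ E1, σ e = e) ∨ ∃ ρ : Om ≃ₐ[F] Om, (∀ e ∈ E2, ρ e = e) ∧ σ = τ⁻¹ * ρ * τ}
  let H : Subgroup (Om ≃ₐ[F] Om) := Subgroup.closure S
  have hTfix : ∀ t, t ∈ T0 ↔ ∀ σ ∈ H, σ t = t := by
    intro t
    constructor
    · intro ht σ hσ
      rw [hT0m] at ht
      induction hσ using Subgroup.closure_induction with
      | mem σ hσ =>
        rcases hσ with hσ | ⟨ρ, hρ, rfl⟩
        · exact hσ t ht.1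
        · change τ⁻¹ (ρ (τ t)) = t
          rw [hρ _ ht.2]
          exact τ.symm_apply_apply t
      | one => rfl
      | mul σ σ' _ _ h1 h2 =>
        change σ (σ' t) = t
        rw [h2, h1]
      | inv σ _ h1 =>
        calc σ⁻¹ t = σ⁻¹ (σ t) := by rw [h1]
          _ = t := σ.symm_apply_apply t
    · intro h
      rw [hT0m]
      constructor
      · apply Step.mem_of_fix
        intro σ hσ
        exact h σ (Subgroup.subset_closure (Or.inl hσ))
      · apply Step.mem_of_fix
        intro ρ hρ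
        have h1 := h (τ⁻¹ * ρ * τ) (Subgroup.subset_closure (Or.inr ⟨ρ, hρ, rfl⟩))
        have h2 : τ⁻¹ (ρ (τ t)) = t := h1
        have h3 := congrArg τ h2
        have h4 : τ (τ⁻¹ (ρ (τ t))) = ρ (τ t) := τ.apply_symm_apply _
        rw [h4] at h3
        exact h3
  have hHfix : ∀ h : M, (∀ σ : Om ≃ₐ[F] Om, (∀ e ∈ E1, σ e = e) → m.act σ h = h) →
      (∀ σ : Om ≃ₐ[F] Om, (∀ e ∈ E2, σ e = e) → m.act σ (m.act τ h) = m.act τ h) →
      ∀ σ ∈ H, m.act σ h = h := by
    intro h h1 h2 σ hσ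
    induction hσ using Subgroup.closure_induction with
    | mem σ hσ =>
      rcases hσ with hσ | ⟨ρ, hρ, rfl⟩
      · exact h1 σ hσ
      · rw [Step.act_mul, Step.act_mul, h2 ρ hρ, Step.act_inv_act]
    | one => rw [map_one]; rfl
    | mul σ σ' _ _ h3 h4 => rw [Step.act_mul, h4, h3]
    | inv σ _ h3 =>
      conv_lhs => rw [← h3]
      rw [Step.act_inv_act]
  have hF0 : ∀ c : F, algebraMap F Om c ∈ T0 := by
    intro c
    rw [hT0m]
    refine ⟨E1.algebraMap_mem c, ?_⟩
    rw [AlgEquiv.commutes]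
    exact E2.algebraMap_mem c
  have hpoly : ∀ h : M, (∀ σ : Om ≃ₐ[F] Om, (∀ e ∈ E1, σ e = e) → m.act σ h = h) →
      (∀ σ : Om ≃ₐ[F] Om, (∀ e ∈ E2, σ e = e) → m.act σ (m.act τ h) = m.act τ h) →
      ∃ (P : T0[X][Y]) (r : T0[X]), r ≠ 0 ∧
        h * eM (bc T0.subtype (C r)) = eM (bc T0.subtype P) := by
    intro h h1 h2
    obtain ⟨P, r, hr, hPr⟩ := mem_comp_poly' m hgen hGL hirr' hpos' T0 hF0
      (model_descent m H T0 hTfix h (hHfix h h1 h2))
    refine ⟨P, r, hr, ?_⟩
    rw [heM, ev_bc, ev_bc]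
    exact hPr
  obtain ⟨A0, r0, hr0, hA0⟩ := hpoly H0 (fun σ hσ => (hfix1 σ hσ).1) (fun σ hσ => (hfix2 σ hσ).1)
  obtain ⟨A1, r1, hr1, hA1⟩ := hpoly H1 (fun σ hσ => (hfix1 σ hσ).2.1) (fun σ hσ => (hfix2 σ hσ).2.1)
  obtain ⟨A2, r2, hr2, hA2⟩ := hpoly H2 (fun σ hσ => (hfix1 σ hσ).2.2) (fun σ hσ => (hfix2 σ hσ).2.2)
  have hTE : ∀ t : T0, (t : Om) ∈ (algebraMap E Om).fieldRange := fun t => t.2.1
  have hTθ : ∀ t : T0, θ (τ (t : Om)) ∈ (algebraMap E Om).fieldRange := fun t => t.2.2
  have hbcC : ∀ r : T0[X], bc T0.subtype (C r) = C (r.map T0.subtype) := by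
    intro r
    simp [bc]
  refine ⟨τ.toRingEquiv, bc T0.subtype (A0 * C (r1 * r2)), bc T0.subtype (A1 * C (r0 * r2)),
    bc T0.subtype (A2 * C (r0 * r1)), (r0 * r1 * r2).map T0.subtype, ?_, ?_, ?_, ?_, ?_, ?_, ?_, ?_, ?_, ?_, ?_⟩
  · intro t ht
    exact τ.commutes ⟨t, ht⟩
  · intro i j
    rw [bc_coeff]; exact hTE _
  · intro i j
    rw [bc_coeff]; exact hTE _
  · intro i j
    rw [bc_coeff]; exact hTE _
  · intro i
    rw [coeff_map]; exact hTE _
  · intro i j
    rw [bc_coeff]; exact hTθ _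
  · intro i j
    rw [bc_coeff]; exact hTθ _
  · intro i j
    rw [bc_coeff]; exact hTθ _
  · intro i
    rw [coeff_map]; exact hTθ _
  · rw [Ne, Polynomial.map_eq_zero]
    exact mul_ne_zero (mul_ne_zero hr0 hr1) hr2
  · apply hker
    rw [← hbcC]
    set ρ : M := eM (bc T0.subtype (C (r0 * r1 * r2))) with hρ
    have hρ' : ρ = eM (bc T0.subtype (C r0)) * eM (bc T0.subtype (C r1)) * eM (bc T0.subtype (C r2)) := by
      rw [hρ]
      simp only [map_mul]
    have h0 : eM (bc T0.subtype (A0 * C (r1 * r2))) = H0 * ρ := by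
      simp only [map_mul, C_mul]
      rw [← hA0, hρ']; ring
    have h1 : eM (bc T0.subtype (A1 * C (r0 * r2))) = H1 * ρ := by
      simp only [map_mul, C_mul]
      rw [← hA1, hρ']; ring
    have h2 : eM (bc T0.subtype (A2 * C (r0 * r1))) = H2 * ρ := by
      simp only [map_mul, C_mul]
      rw [← hA2, hρ']; ring
    have h3 : ∀ U0 U1 U2, eM (N3 (C (C b)) U0 U1 U2) = N3 (eM (C (C b))) (eM U0) (eM U1) (eM U2) := by
      intro U0 U1 U2
      unfold N3
      simp only [map_sub, map_add, map_mul, map_pow, map_ofNat]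
    rw [map_sub, h3, h0, h1, h2, n3_mul, hcM, map_mul, map_pow, hcM]
    have h4 : N3 (algebraMap Om M b) H0 H1 H2 = algebraMap Om M (algebraMap F Om xF) := hNH
    rw [h4, hxFv, sub_self]

end Pool.Agent.Helper740.C3
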