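import Pool.Agent.Helper386.D5V.Helper740_D5_RegExt
import Pool.Agent.Helper386.D5V.Helper386_FF_Div

/-! The function field `M` of `G` over a big field, with the coefficientwise action. -/

set_option autoImplicit false
open Polynomial
open scoped Polynomial.Bivariate

namespace Pool.Agent.Helper740.RegExt

section kernel

variable {K M : Type*} [Field K] [Field M]

/-- The kernel of evaluation at `(ξ, η)` is generated by an irreducible polynomial of positive
degree. -/
theorem dvd_of_ev_eq_zero (f : K →+* M) {ξ η : M}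
    (hξ : ∀ p : K[X], p.eval₂ f ξ = 0 → p = 0) {G : K[X][Y]} (hirr : Irreducible G)
    (hpos : 0 < G.natDegree) (hG : ev f ξ η G = 0) {H : K[X][Y]} (hH : ev f ξ η H = 0) :
    G ∣ H := by
  classical
  by_cases hH0 : H = 0
  · rw [hH0]; exact dvd_zero _
  let : NormalizedGCDMonoid K[X] := UniqueFactorizationMonoid.toNormalizedGCDMonoid _
  let Fr := FractionRing K[X]
  let φ : K[X] →+* M := eval₂RingHom f ξ
  have hφ : Function.Injective φ := (injective_iff_map_eq_zero φ).2 (fun p hp => hξ p hp)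
  let ψ : Fr →+* M := IsFractionRing.lift hφ
  have hψ : ψ.comp (algebraMap K[X] Fr) = φ := by
    ext x
    · simp [ψ]
    · simp [ψ]
  letI : Algebra Fr M := ψ.toAlgebra
  have hev : ∀ P : K[X][Y], aeval η (P.map (algebraMap K[X] Fr)) = ev f ξ η P := by
    intro P
    rw [aeval_def, eval₂_map]
    change P.eval₂ (ψ.comp (algebraMap K[X] Fr)) η = _
    rw [hψ]
    rfl
  have hprim : G.IsPrimitive := hirr.isPrimitive (by lia)
  have hirrK : Irreducible (G.map (algebraMap K[X] Fr)) :=
    (hprim.irreducible_iff_irreducible_map_fraction_map (K := Fr)).1 hirr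
  have hcont : ev f ξ η (C H.content) ≠ 0 := by
    rw [ev_C]
    intro h
    have := hξ _ h
    rw [content_eq_zero_iff] at this
    exact hH0 this
  have hpp : ev f ξ η H.primPart = 0 := by
    have h1 := H.eq_C_content_mul_primPart
    have h2 : ev f ξ η (C H.content) * ev f ξ η H.primPart = 0 := by
      rw [← map_mul, ← h1, hH]
    exact (mul_eq_zero.1 h2).resolve_left hcont
  have hdvdK : G.map (algebraMap K[X] Fr) ∣ H.primPart.map (algebraMap K[X] Fr) := by
    have hint : IsIntegral Fr η := by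
      refine (IsAlgebraic.isIntegral ⟨G.map (algebraMap K[X] Fr), hirrK.ne_zero, ?_⟩)
      rw [hev, hG]
    have h1 : minpoly Fr η ∣ G.map (algebraMap K[X] Fr) := minpoly.dvd _ _ (by rw [hev, hG])
    have h2 : minpoly Fr η ∣ H.primPart.map (algebraMap K[X] Fr) :=
      minpoly.dvd _ _ (by rw [hev, hpp])
    have h3 : Associated (minpoly Fr η) (G.map (algebraMap K[X] Fr)) :=
      (minpoly.irreducible hint).associated_of_dvd hirrK h1
    exact h3.symm.dvd.trans h2
  have h4 : G ∣ H.primPart := by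
    exact IsPrimitive.dvd_of_fraction_map_dvd_fraction_map (K := Fr) hprim hdvdK
  rw [H.eq_C_content_mul_primPart]
  exact h4.trans (dvd_mul_left _ _)

/-- `M` is generated by `ξ, η` over (the image of) `K`. -/
def Gen (f : K →+* M) (ξ η : M) : Prop :=
  ∀ x : M, ∃ P Q : K[X][Y], ev f ξ η Q ≠ 0 ∧ x = ev f ξ η P / ev f ξ η Q

theorem Gen.hom_ext {N : Type*} [Field N] {f : K →+* M} {ξ η : M} (h : Gen f ξ η)
    (φ ψ : M →+* N) (h1 : ∀ c, φ (f c) = ψ (f c)) (h2 : φ ξ = ψ ξ) (h3 : φ η = ψ η) : φ = ψ := by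
  have key : ∀ P : K[X][Y], φ (ev f ξ η P) = ψ (ev f ξ η P) := by
    have : φ.comp (ev f ξ η) = ψ.comp (ev f ξ η) := by
      ext x
      · simpa [ev] using h1 x
      · simpa [ev] using h2
      · simpa [ev] using h3
    intro P
    exact congrArg (fun g : K[X][Y] →+* N => g P) this
  ext x
  obtain ⟨P, Q, _, rfl⟩ := h x
  rw [map_div₀, map_div₀, key, key]

theorem exists_lift {N : Type*} [Field N] {f : K →+* M} {ξ η : M} (h : Gen f ξ η)
    (g : K →+* N) (ξ' η' : N) (hk : ∀ H, ev f ξ η H = 0 ↔ ev g ξ' η' H = 0) :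
    ∃ φ : M →+* N, (∀ c, φ (f c) = g c) ∧ φ ξ = ξ' ∧ φ η = η' := by
  classical
  let A := (ev f ξ η).range
  have hA : IsFractionRing A M := by
    apply IsFractionRing.of_field
    intro x
    obtain ⟨P, Q, hQ, rfl⟩ := h x
    exact ⟨⟨_, P, rfl⟩, ⟨_, Q, rfl⟩, rfl⟩
  let e0 : A →+* N :=
    (ev f ξ η).rangeRestrict.liftOfSurjective (ev f ξ η).rangeRestrict_surjective
      ⟨ev g ξ' η', by
        intro x hx
        rw [RingHom.mem_ker] at hx ⊢
        rw [← hk]
        exact congrArg Subtype.val hx⟩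
  have he0 : ∀ P, e0 ((ev f ξ η).rangeRestrict P) = ev g ξ' η' P := by
    intro P
    exact RingHom.liftOfRightInverse_comp_apply _ _ _ _ _
  have hinj : Function.Injective e0 := by
    rw [injective_iff_map_eq_zero]
    rintro ⟨_, P, rfl⟩ hP
    have h1 := he0 P
    have h2 : (⟨ev f ξ η P, P, rfl⟩ : A) = (ev f ξ η).rangeRestrict P := rfl
    rw [h2] at hP ⊢
    rw [h1, ← hk] at hP
    exact Subtype.ext hP
  let φ : M →+* N := IsFractionRing.lift hinj
  have hφ : ∀ P, φ (ev f ξ η P) = ev g ξ' η' P := by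
    intro P
    rw [← he0 P]
    exact IsFractionRing.lift_algebraMap hinj ((ev f ξ η).rangeRestrict P)
  refine ⟨φ, ?_, ?_, ?_⟩
  · intro c
    have := hφ (C (C c))
    simpa [ev] using this
  · have := hφ (C X)
    simpa [ev] using this
  · have := hφ X
    simpa [ev] using this

end kernel

theorem frac_quot.{u} (A : Type u) [CommRing A] (I : Ideal A) [I.IsPrime] :
    ∃ (M : Type u) (_ : Field M) (π : A →+* M), (∀ a, π a = 0 ↔ a ∈ I) ∧
      ∀ x : M, ∃ a b, π b ≠ 0 ∧ x = π a / π b := by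
  let π : A →+* FractionRing (A ⧸ I) := (algebraMap (A ⧸ I) (FractionRing (A ⧸ I))).comp (Ideal.Quotient.mk I)
  have hπ : ∀ P, π P = 0 ↔ P ∈ I := by
    intro P
    rw [← Ideal.Quotient.eq_zero_iff_mem]
    change algebraMap (A ⧸ I) (FractionRing (A ⧸ I)) _ = 0 ↔ _
    exact FaithfulSMul.algebraMap_eq_zero_iff _ _
  refine ⟨FractionRing (A ⧸ I), inferInstance, π, hπ, ?_⟩
  intro x
  obtain ⟨a, b, hb, rfl⟩ := IsFractionRing.div_surjective (A := A ⧸ I) x
  obtain ⟨P, rfl⟩ := Ideal.Quotient.mk_surjective a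
  obtain ⟨Q, rfl⟩ := Ideal.Quotient.mk_surjective b
  refine ⟨P, Q, ?_, rfl⟩
  change algebraMap (A ⧸ I) (FractionRing (A ⧸ I)) _ ≠ 0
  rw [Ne, FaithfulSMul.algebraMap_eq_zero_iff]
  exact nonZeroDivisors.ne_zero hb

/-- existence of the function field -/
theorem exists_field.{u} {K : Type u} [Field K] {G : K[X][Y]} (hirr : Irreducible G)
    (hpos : 0 < G.natDegree) :
    ∃ (M : Type u) (_ : Field M) (_ : Algebra K M) (ξ η : M), Transcendental K ξ ∧
      ev (algebraMap K M) ξ η G = 0 ∧ Gen (algebraMap K M) ξ η := by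
  classical
  have hprime : (Ideal.span {G}).IsPrime :=
    (Ideal.span_singleton_prime hirr.ne_zero).2 hirr.prime
  obtain ⟨M, hM, π, hπ, hs⟩ := frac_quot K[X][Y] (Ideal.span {G})
  letI : Algebra K M := (π.comp (C.comp C)).toAlgebra
  have hev : ev (algebraMap K M) (π (C X)) (π X) = π := by
    ext x
    · simp [ev]; rfl
    · simp [ev]
    · simp [ev]
  refine ⟨M, inferInstance, inferInstance, π (C X), π X, ?_, ?_, ?_⟩
  · rw [transcendental_iff]
    intro p hp
    have h1 : π (C p) = 0 := by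
      rw [← hev, ev_C]
      exact hp
    rw [hπ, Ideal.mem_span_singleton] at h1
    by_contra hp0
    have h2 := natDegree_le_of_dvd h1 (by simpa using hp0)
    rw [natDegree_C] at h2
    lia
  · rw [hev, hπ]; exact Ideal.mem_span_singleton_self G
  · intro x
    rw [hev]
    exact hs x

end Pool.Agent.Helper740.RegExt
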