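import Pool.Agent.Helper386.D5V.Helper740_D5_V970Base
import Pool.Agent.Helper386.D5V.Helper18_Step_Merge

/-! C3 one-step, part A: generic stable divisors for one embedding. -/

set_option autoImplicit false
set_option linter.all false
set_option linter.overlappingInstances false

open Module FF SF

namespace Pool.Agent.Helper740.C3

/-- LOC (docs 318) -/
def LOCStmt : Prop :=
  ∀ (k : Type) [Field k] [CharZero k] (z x : k) (hk : IsK k z x)
    (E : Type) [Field E] [CharZero E] [Algebra (LaurentSeries k) E] (hE : IsE k x E)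
    (Ω L M : Type) [Field Ω] [Algebra E Ω] [Field L] [Algebra E L] [Field M] [Algebra Ω M] [Algebra L M]
    [IsAlgClosed Ω] [CharZero Ω] [Algebra.IsAlgebraic E Ω] [IsFF E L] [IsFF Ω M] (m : Model E Ω L M)
    (a : E) (ha : ∃ c : E, c ≠ 0 ∧ (a = algebraMap (LaurentSeries k) E (yv k) * c ^ 3 ∨
      a * algebraMap (LaurentSeries k) E (yv k) = c ^ 3))
    (α : Ω) (hα : α ^ 3 = algebraMap E Ω a) (ζ : Ω) (hζ : IsPrimitiveRoot ζ 3) (g0 g1 g2 : L)
    (hg : N3 (algebraMap E L a) g0 g1 g2 = algebraMap E L (algebraMap (LaurentSeries k) E (HahnSeries.C x)))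
    (s : Finset L),
    ∃ (E' : Type) (_ : Field E') (_ : Algebra E E'), FiniteDimensional E E' ∧
      (finrank E E' : ℤ) ∣ ddeg (DD (Ω := Ω) (M := M) (cj α g0 g1 g2) (cj (ζ * α) g0 g1 g2)) ∧
      Nonempty (Algebra.adjoin E (s : Set L) →ₐ[E] E')

/-- GP (docs 318) -/
def GPStmt : Prop :=
  ∀ (k : Type) [Field k] [CharZero k] (z x : k) (hk : IsK k z x)
    (E : Type) [Field E] [CharZero E] [Algebra (LaurentSeries k) E] (hE : IsE k x E)
    (Ω L M : Type) [Field Ω] [Algebra E Ω] [Field L] [Algebra E L] [Field M] [Algebra Ω M] [Algebra L M]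
    [IsAlgClosed Ω] [CharZero Ω] [Algebra.IsAlgebraic E Ω] [IsFF E L] [IsFF Ω M] (m : Model E Ω L M)
    (ξ : L) (hξ : Transcendental E ξ) (d : ℤ)
    (hLOC : ∀ s : Finset L, ∃ (E' : Type) (_ : Field E') (_ : Algebra E E'), FiniteDimensional E E' ∧
      (finrank E E' : ℤ) ∣ d ∧ Nonempty (Algebra.adjoin E (s : Set L) →ₐ[E] E')),
    ∃ I : ℕ, 0 < I ∧ (I : ℤ) ∣ d ∧ ∀ (Λ : Subfield Ω), Countable Λ → ∀ t : ℕ,
      ∃ Z : Finset (Place Ω M), Z.card = t * I ∧
        (∀ σ : Ω ≃ₐ[E] Ω, ∀ P ∈ Z, m.actP σ P ∈ Z) ∧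
        (∀ P ∈ Z, P.Reg (algebraMap L M ξ)) ∧
        AlgebraicIndependent Λ (fun P : Z => val P.1 (algebraMap L M ξ))

theorem one_side (hLOC : LOCStmt) (hGP : GPStmt) {k : Type} [Field k] [CharZero k] {z x : k}
    (hk : IsK k z x) {E : Type} [Field E] [CharZero E] [Algebra (LaurentSeries k) E]
    (hE : IsE k x E) {F Ω L M : Type} [Field F] [Field Ω] [Algebra F Ω] [Field L] [Algebra F L]
    [Field M] [Algebra Ω M] [Algebra L M] [IsAlgClosed Ω] [CharZero Ω] [CharZero F] [IsFF F L]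
    [IsFF Ω M] (m : Model F Ω L M) (ξ : L) (hξ : Transcendental F ξ)
    (j : E →+* Ω) (hjalg : @Algebra.IsAlgebraic E Ω _ _ j.toAlgebra)
    (hjF : ∀ c : F, ∃ e : E, j e = algebraMap F Ω c)
    (a x' z' : F)
    (ha : ∃ c : E, c ≠ 0 ∧ (algebraMap F Ω a = j (algebraMap (LaurentSeries k) E (yv k) * c ^ 3) ∨
      algebraMap F Ω a * j (algebraMap (LaurentSeries k) E (yv k)) = j (c ^ 3)))
    (hx' : algebraMap F Ω x' = j (algebraMap (LaurentSeries k) E (HahnSeries.C x)))
    (hz' : IsPrimitiveRoot z' 3) (α : Ω) (hα : α ^ 3 = algebraMap F Ω a) (g0 g1 g2 : L)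
    (hg : N3 (algebraMap F L a) g0 g1 g2 = algebraMap F L x') (d : ℤ)
    (hd : d = ddeg (DD (Ω := Ω) (M := M) (cj α g0 g1 g2) (cj (algebraMap F Ω z' * α) g0 g1 g2)))
    (hd0 : 0 < d) :
    ∀ Λ : Subfield Ω, Countable Λ → ∀ t : ℕ, ∃ Z : Finset (Place Ω M), (Z.card : ℤ) = t * d ∧
        (∀ σ : Ω ≃ₐ[F] Ω, (∀ e : E, σ (j e) = j e) → ∀ P ∈ Z, m.actP σ P ∈ Z) ∧
        (∀ P ∈ Z, P.Reg (algebraMap L M ξ)) ∧
        AlgebraicIndependent Λ (fun P : Z => val P.1 (algebraMap L M ξ)) := by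
  classical
  letI : Algebra E Ω := j.toAlgebra
  have hEΩ : ∀ e, algebraMap E Ω e = j e := fun e => rfl
  choose f hf using hjF
  let jF : F →+* E :=
    { toFun := f
      map_one' := by apply j.injective; rw [hf, map_one, map_one]
      map_mul' := fun u v => by apply j.injective; rw [hf, map_mul, map_mul, hf, hf]
      map_zero' := by apply j.injective; rw [hf, map_zero, map_zero]
      map_add' := fun u v => by apply j.injective; rw [hf, map_add, map_add, hf, hf] }
  letI : Algebra F E := jF.toAlgebra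
  have hFE : ∀ c, algebraMap F E c = f c := fun c => rfl
  haveI : IsScalarTower F E Ω := IsScalarTower.of_algebraMap_eq (fun c => by
    rw [hEΩ, hFE, hf])
  obtain ⟨LE, iLE, aELE, aLLE, aLEM, m', hFF, h1, h2, h3⟩ := model_base_change740 m E
  -- the coordinates
  have hLE : ∀ c : F, algebraMap L LE (algebraMap F L c) = algebraMap E LE (f c) := fun c => (h2 c).symm
  have hfx : f x' = algebraMap (LaurentSeries k) E (HahnSeries.C x) := by
    apply j.injective
    rw [hf, hx']
  have hg' : N3 (algebraMap E LE (f a)) (algebraMap L LE g0) (algebraMap L LE g1)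
      (algebraMap L LE g2) = algebraMap E LE (algebraMap (LaurentSeries k) E (HahnSeries.C x)) := by
    rw [← hfx, ← hLE, ← hLE, ← hg]
    unfold N3
    simp only [map_sub, map_add, map_mul, map_pow, map_ofNat]
  have hcj : ∀ β : Ω, (cj β (algebraMap L LE g0) (algebraMap L LE g1) (algebraMap L LE g2) : M) =
      cj β g0 g1 g2 := by
    intro β
    unfold cj
    rw [h1, h1, h1]
  have hα' : α ^ 3 = algebraMap E Ω (f a) := by rw [hα, hEΩ, hf]
  have ha' : ∃ c : E, c ≠ 0 ∧ (f a = algebraMap (LaurentSeries k) E (yv k) * c ^ 3 ∨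
      f a * algebraMap (LaurentSeries k) E (yv k) = c ^ 3) := by
    obtain ⟨c, hc0, hc⟩ := ha
    refine ⟨c, hc0, ?_⟩
    rcases hc with hc | hc
    · left
      apply j.injective
      rw [hf, hc]
    · right
      apply j.injective
      rw [map_mul, hf, hc]
  have hζ : IsPrimitiveRoot (algebraMap F Ω z') 3 := hz'.map_of_injective (algebraMap F Ω).injective
  have hξE : Transcendental E (algebraMap L LE ξ) := by
    rw [transcendental_iff]
    intro p hp
    have h4 : Polynomial.aeval (algebraMap L M ξ) (p.map (algebraMap E Ω)) = 0 := by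
      have h5 : (algebraMap Ω M).comp (algebraMap E Ω) = (algebraMap LE M).comp (algebraMap E LE) := by
        ext c
        exact m'.compat c
      rw [Polynomial.aeval_def, Polynomial.eval₂_map, h5, ← h1, ← Polynomial.hom_eval₂,
        ← Polynomial.aeval_def, hp, map_zero]
    have h5 := transcendental_iff.1 (m.transcendental740 hξ) _ h4
    exact (Polynomial.map_eq_zero_iff (algebraMap E Ω).injective).1 h5
  obtain ⟨I, hI0, hId, hI⟩ := hGP k z x hk E hE Ω LE M m' (algebraMap L LE ξ) hξE d (by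
    intro s
    have h4 := hLOC k z x hk E hE Ω LE M m' (f a) ha' α hα' (algebraMap F Ω z') hζ
      (algebraMap L LE g0) (algebraMap L LE g1) (algebraMap L LE g2) hg' s
    rw [hcj, hcj, ← hd] at h4
    exact h4)
  obtain ⟨q, hq⟩ := hId
  have hq0 : 0 < q := by
    by_contra h
    push Not at h
    have : (I : ℤ) * q ≤ 0 := mul_nonpos_of_nonneg_of_nonpos (by positivity) h
    omega
  intro Λ hΛ t
  obtain ⟨Z, hZ1, hZ2, hZ3, hZ4⟩ := hI Λ hΛ (t * q.toNat)
  refine ⟨Z, ?_, ?_, ?_, ?_⟩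
  · rw [hZ1, hq]
    push_cast
    rw [Int.toNat_of_nonneg hq0.le]
    ring
  · intro σ hσ P hP
    let σE : Ω ≃ₐ[E] Ω := AlgEquiv.ofRingEquiv (f := σ.toRingEquiv) (fun e => hσ e)
    have h4 := hZ2 σE P hP
    have h5 : m'.actP σE P = m.actP σ P := by
      have h6 : ∀ g : M, m'.act σE g = m.act σ g := by
        intro g
        rw [h3]
        rfl
      apply Place.ext
      funext g
      change P.ord ((m'.act σE).symm g) = P.ord ((m.act σ).symm g)
      congr 1
      rw [RingEquiv.symm_apply_eq, h6, RingEquiv.apply_symm_apply]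
    rwa [h5] at h4
  · intro P hP
    have h4 := hZ3 P hP
    rwa [h1] at h4
  · have h4 := hZ4
    rwa [h1] at h4

end Pool.Agent.Helper740.C3
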