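import Pool.Agent.Helper386.D5V.Helper18_Step_Fixed
import Pool.Agent.Helper386.D5V.Helper740_D5_RankField

/-! Place lemmas for the rank count. -/

set_option autoImplicit false
set_option linter.all false
set_option linter.overlappingInstances false

open Module FF SF Step

namespace Pool.Agent.Helper740.Rank

variable {F Ω L M : Type} [Field F] [Field Ω] [Algebra F Ω] [Field L] [Algebra F L]
    [Field M] [Algebra Ω M] [Algebra L M] [IsAlgClosed Ω] [CharZero Ω] [CharZero F]
    [IsFF Ω M] (m : Model F Ω L M) (ξ : L)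

theorem actP_inj (σ : Ω ≃ₐ[F] Ω) {P P' : Place Ω M} (h : m.actP σ P = m.actP σ P') : P = P' := by
  apply Place.ext
  funext f
  have h1 := m.actP_ord σ P f
  rw [h, m.actP_ord] at h1
  exact h1.symm

theorem divisor_act (σ : Ω ≃ₐ[F] Ω) (f : M) (P : Place Ω M) :
    divisor Ω (m.act σ f) (m.actP σ P) = divisor Ω f P := m.actP_ord σ P f

theorem pts_fixed {ι : Type*} [Fintype ι] (q : ι → Place Ω M) (σ : Ω ≃ₐ[F] Ω)
    (h : ∀ i, m.actP σ (q i) = q i) (P : Place Ω M) : pts q (m.actP σ P) = pts q P := by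
  classical
  unfold pts
  rw [Finsupp.finsetSum_apply, Finsupp.finsetSum_apply]
  apply Finset.sum_congr rfl
  intro i _
  rw [Finsupp.single_apply, Finsupp.single_apply]
  congr 1
  apply propext
  constructor
  · intro h1
    exact actP_inj m σ ((h i).trans h1)
  · intro h1
    rw [← h1, h i]

theorem supp_fixed (A : Place Ω M →₀ ℤ) (σ : Ω ≃ₐ[F] Ω)
    (h : ∀ P ∈ A.support, m.actP σ P = P) (P : Place Ω M) : A (m.actP σ P) = A P := by
  by_cases hP : P ∈ A.support
  · rw [h P hP]
  · have h1 : m.actP σ P ∉ A.support := by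
      intro h2
      have h3 := h _ h2
      have h4 := actP_inj m σ h3
      rw [← h4] at hP
      exact hP h2
    rw [Finsupp.notMem_support_iff.1 hP, Finsupp.notMem_support_iff.1 h1]

theorem ddeg_pts {ι : Type*} [Fintype ι] (q : ι → Place Ω M) : ddeg (pts q) = Fintype.card ι := by
  classical
  have key : ∀ s : Finset ι, ddeg (∑ i ∈ s, Finsupp.single (q i) (1 : ℤ)) = s.card := by
    intro s
    induction s using Finset.induction_on with
    | empty => simp [ddeg_zero]
    | insert a s ha ih =>
      rw [Finset.sum_insert ha, ddeg_add, ih, ddeg_single, Finset.card_insert_of_notMem ha,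
        deg_eq_one]
      push_cast; ring
  exact key Finset.univ

theorem exists_pts {D : Place Ω M →₀ ℤ} (hD : 0 ≤ D) :
    ∃ (e : ℕ) (q : Fin e → Place Ω M), D = pts q := by
  classical
  obtain ⟨E, hE⟩ := exists_nd hD
  rw [zero_add] at hE
  subst hE
  clear hD
  induction E using Finsupp.induction_linear with
  | zero => exact ⟨0, fun i => i.elim0, by simp [pts]⟩
  | add E1 E2 h1 h2 =>
    obtain ⟨e1, q1, h1⟩ := h1
    obtain ⟨e2, q2, h2⟩ := h2
    refine ⟨e1 + e2, Fin.append q1 q2, ?_⟩
    rw [map_add, h1, h2]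
    unfold pts
    rw [Fin.sum_univ_add]
    simp
  | single P n =>
    refine ⟨n, fun _ => P, ?_⟩
    rw [nd_single]
    unfold pts
    simp

theorem pts_nonneg {ι : Type*} [Fintype ι] (q : ι → Place Ω M) : 0 ≤ pts q := by
  classical
  unfold pts
  apply Finset.sum_nonneg
  intro i _
  intro P
  rw [Finsupp.single_apply]
  split_ifs <;> simp

theorem pts_pos {ι : Type*} [Fintype ι] (q : ι → Place Ω M) (i : ι) : 1 ≤ pts q (q i) := by
  classical
  unfold pts
  rw [Finsupp.finsetSum_apply]
  have h1 : (1 : ℤ) = (Finsupp.single (q i) (1 : ℤ)) (q i) := by simp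
  refine h1.le.trans ?_
  apply Finset.single_le_sum (f := fun j => (Finsupp.single (q j) (1 : ℤ)) (q i)) _ (Finset.mem_univ i)
  intro j _
  simp only [Finsupp.single_apply]
  split_ifs <;> simp

theorem mem_of_pts {Z : Finset (Place Ω M)} {P : Place Ω M}
    (h : pts (fun P : Z => P.1) P ≠ 0) : P ∈ Z := by
  classical
  unfold pts at h
  rw [Finsupp.finsetSum_apply] at h
  obtain ⟨i, _, hi⟩ := Finset.exists_ne_zero_of_sum_ne_zero h
  rw [Finsupp.single_apply] at hi
  split_ifs at hi with h1
  · rw [← h1]; exact i.2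
  · exact absurd rfl hi

theorem val_act (σ : Ω ≃ₐ[F] Ω) (P : Place Ω M) (hP : P.Reg (algebraMap L M ξ)) :
    val (m.actP σ P) (algebraMap L M ξ) = σ (val P (algebraMap L M ξ)) := by
  have := m.val_actP σ P hP
  rwa [m.act_L] at this

theorem divisor_smul {c : Ω} (hc : c ≠ 0) (f : M) : divisor Ω (c • f) = divisor Ω f := by
  by_cases hf : f = 0
  · rw [hf, smul_zero]
  ext P
  rw [divisor_apply, divisor_apply, Algebra.smul_def, P.ord_mul (by simpa using hc) hf,
    P.ord_const hc, zero_add]

end Pool.Agent.Helper740.Rank
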