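import Pool.Agent.Helper386.D5V.Helper386_FF_Div

/-! Algebraic presentation of a function field in one variable. -/

set_option autoImplicit false
set_option linter.all false

open Module Polynomial IntermediateField FF

namespace PL

/-- clearing denominators in the coefficients of a polynomial -/
theorem clear_denoms {A B : Type*} [CommRing A] [CommRing B] (f : A →+* B) (y : A)
    (h : ∀ b : B, ∃ (n : ℕ) (a : A), f a = f y ^ n * b) (q : B[X]) :
    ∃ (n : ℕ) (a : A[X]), a.map f = (C y).map f ^ n * q := by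
  induction q using Polynomial.induction_on' with
  | add p q hp hq =>
    obtain ⟨n1, a1, h1⟩ := hp
    obtain ⟨n2, a2, h2⟩ := hq
    refine ⟨n1 + n2, C y ^ n2 * a1 + C y ^ n1 * a2, ?_⟩
    rw [Polynomial.map_add, Polynomial.map_mul, Polynomial.map_mul, Polynomial.map_pow,
      Polynomial.map_pow, h1, h2]
    ring
  | monomial i b =>
    obtain ⟨n, a, h1⟩ := h b
    refine ⟨n, monomial i a, ?_⟩
    rw [map_monomial, h1, map_C, ← C_pow, C_mul_monomial]

variable {R L : Type*} [Field R] [CharZero R] [Field L] [Algebra R L]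

/-- Presentation of a function field: `L = R(ξ, η)`. -/
theorem alg_data [IsFF R L] (y : R) (hy : y ≠ 0) (Pos : L → Prop)
    (hPos : ∀ z : L, ∃ n : ℕ, Pos (algebraMap R L y ^ n * z)) :
    ∃ (ξ η : L) (g : R[X][X]), Pos ξ ∧ Pos η ∧ Transcendental R ξ ∧ g.Monic ∧
      g.eval₂ (aeval ξ : R[X] →ₐ[R] L).toRingHom η = 0 ∧
      g.derivative.eval₂ (aeval ξ : R[X] →ₐ[R] L).toRingHom η ≠ 0 ∧
      (∀ P : R[X][X], P.eval₂ (aeval ξ : R[X] →ₐ[R] L).toRingHom η = 0 → g ∣ P) ∧
      (∀ z : L, ∃ (h : R[X]) (P : R[X][X]), h ≠ 0 ∧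
        aeval ξ h * z = P.eval₂ (aeval ξ : R[X] →ₐ[R] L).toRingHom η) := by
  obtain ⟨ξ₀, hξ₀⟩ := IsFF.exists_transcendental (k := R) (K := L)
  obtain ⟨n, hn⟩ := hPos ξ₀
  have hy' : algebraMap R L y ≠ 0 := by simpa using hy
  obtain ⟨ξ, hξdef⟩ : ∃ ξ, ξ = algebraMap R L y ^ n * ξ₀ := ⟨_, rfl⟩
  have hξpos : Pos ξ := by rw [hξdef]; exact hn
  have hξ : Transcendental R ξ := by
    intro h
    apply hξ₀
    have h1 : ξ₀ = ξ * algebraMap R L (y ^ n)⁻¹ := by
      rw [hξdef, map_inv₀, map_pow]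
      field_simp
    rw [h1]
    exact h.mul (isAlgebraic_algebraMap _)
  clear hξdef hn
  let al : R[X] →+* L := (aeval ξ : R[X] →ₐ[R] L).toRingHom
  have hal : Function.Injective al := (transcendental_iff_injective.1 hξ)
  letI algL : Algebra R[X] L := al.toAlgebra
  have hst : IsScalarTower R R[X] L := by
    refine IsScalarTower.of_algebraMap_eq fun c => ?_
    change algebraMap R L c = aeval ξ (C c)
    rw [aeval_C]
  have hfin := IsFF.finite hξ
  have hchar : CharZero R⟮ξ⟯ := charZero_of_injective_algebraMap (algebraMap R R⟮ξ⟯).injective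
  obtain ⟨η₀, hη₀⟩ := Field.exists_primitive_element R⟮ξ⟯ L
  have halg : Algebra.IsAlgebraic R[X] L := by
    have h1 : Algebra.IsAlgebraic (Algebra.adjoin R {ξ}) L := by
      have h2 := (IsFF.basis hξ).isAlgebraic
      have h3 : Set.range (fun _ : Unit => ξ) = {ξ} := by simp
      rwa [h3] at h2
    refine Algebra.IsAlgebraic.of_ringHom_of_comp_eq (S := Algebra.adjoin R {ξ}) (B := L)
      (Polynomial.algEquivOfTranscendental R ξ hξ).toRingEquiv.toRingHom (RingHom.id L)
      (Polynomial.algEquivOfTranscendental R ξ hξ).surjective Function.injective_id ?_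
    refine Polynomial.ringHom_ext (fun c => ?_) ?_
    · change ((Polynomial.algEquivOfTranscendental R ξ hξ (C c) : Algebra.adjoin R {ξ}) : L) = aeval ξ (C c)
      simp
    · change ((Polynomial.algEquivOfTranscendental R ξ hξ X : Algebra.adjoin R {ξ}) : L) = aeval ξ X
      simp
  obtain ⟨a, ha0, ha⟩ := (halg.isAlgebraic η₀).exists_integral_multiple
  obtain ⟨n, hn⟩ := hPos (a • η₀)
  obtain ⟨η, hηdef⟩ : ∃ η, η = algebraMap R L y ^ n * (a • η₀) := ⟨_, rfl⟩
  have hηpos : Pos η := by rw [hηdef]; exact hn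
  have hηint : IsIntegral R[X] η := by
    rw [hηdef]
    refine IsIntegral.mul ?_ ha
    have : algebraMap R L y ^ n = algebraMap R[X] L (C (y ^ n)) := by
      change _ = aeval ξ (C (y ^ n))
      rw [aeval_C, map_pow]
    rw [this]
    exact isIntegral_algebraMap
  have hal0 : al a ≠ 0 := by
    intro h; exact ha0 (hal (by rw [h, map_zero]))
  have hmem : ∀ p : R[X], al p ∈ R⟮ξ⟯ := by
    intro p
    exact (mem_adjoin_simple_iff R _).2 ⟨p, 1, by simp [al]⟩
  have hgen : R⟮ξ⟯⟮η⟯ = ⊤ := by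
    rw [eq_top_iff, ← hη₀, IntermediateField.adjoin_simple_le_iff]
    have h1 : η₀ = algebraMap R⟮ξ⟯ L ⟨(al (C y) ^ n * al a)⁻¹, inv_mem (mul_mem (pow_mem (hmem _) _) (hmem _))⟩ * η := by
      change η₀ = (al (C y) ^ n * al a)⁻¹ * η
      have h2 : al (C y) = algebraMap R L y := by
        change aeval ξ (C y) = _
        rw [aeval_C]
      rw [hηdef, h2, Algebra.smul_def]
      change η₀ = (algebraMap R L y ^ n * al a)⁻¹ * (algebraMap R L y ^ n * (al a * η₀))
      field_simp
    rw [h1]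
    exact mul_mem (IntermediateField.algebraMap_mem _ _) (IntermediateField.mem_adjoin_simple_self _ _)
  have hfaith : FaithfulSMul R[X] L := (faithfulSMul_iff_algebraMap_injective _ _).2 hal
  have hdvd : ∀ P : R[X][X], P.eval₂ al η = 0 → minpoly R[X] η ∣ P := by
    intro P hP
    exact minpoly.isIntegrallyClosed_dvd hηint hP
  refine ⟨ξ, η, minpoly R[X] η, hξpos, hηpos, hξ, minpoly.monic hηint, minpoly.aeval _ _, ?_, hdvd, ?_⟩
  · intro h
    have h1 := hdvd _ h
    have hmon := minpoly.monic hηint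
    have hdeg : 0 < (minpoly R[X] η).natDegree := minpoly.natDegree_pos hηint
    have h2 : (minpoly R[X] η).derivative ≠ 0 := by
      intro h3
      have := natDegree_eq_zero_of_derivative_eq_zero h3
      omega
    exact hmon.not_dvd_of_natDegree_lt h2 (natDegree_derivative_lt hdeg.ne') h1
  · let E2 : R[X][X] →+* L := eval₂RingHom al η
    let T : Subring L :=
      { carrier := {z | ∃ (h : R[X]) (P : R[X][X]), h ≠ 0 ∧ al h * z = E2 P}
        one_mem' := ⟨1, 1, one_ne_zero, by simp⟩
        zero_mem' := ⟨1, 0, one_ne_zero, by simp⟩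
        mul_mem' := by
          rintro a b ⟨h1, P1, h10, h1P⟩ ⟨h2, P2, h20, h2P⟩
          refine ⟨h1 * h2, P1 * P2, mul_ne_zero h10 h20, ?_⟩
          rw [map_mul, map_mul, ← h1P, ← h2P]; ring
        add_mem' := by
          rintro a b ⟨h1, P1, h10, h1P⟩ ⟨h2, P2, h20, h2P⟩
          refine ⟨h1 * h2, C h2 * P1 + C h1 * P2, mul_ne_zero h10 h20, ?_⟩
          have h3 : ∀ h : R[X], E2 (C h) = al h := fun h => eval₂_C _ _
          rw [map_mul, map_add, map_mul, map_mul, ← h1P, ← h2P, h3, h3]; ring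
        neg_mem' := by
          rintro a ⟨h1, P1, h10, h1P⟩
          exact ⟨h1, -P1, h10, by rw [map_neg, ← h1P]; ring⟩ }
    have hTξ : ∀ c : R⟮ξ⟯, (c : L) ∈ T := by
      rintro ⟨c, hc⟩
      obtain ⟨r, s, rfl⟩ := (mem_adjoin_simple_iff R _).1 hc
      by_cases hs : aeval ξ s = 0
      · change aeval ξ r / aeval ξ s ∈ T
        rw [hs, div_zero]; exact T.zero_mem
      · refine ⟨s, C r, ?_, ?_⟩
        · rintro rfl
          exact hs (map_zero _)
        · change aeval ξ s * (aeval ξ r / aeval ξ s) = eval₂ al η (C r)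
          rw [eval₂_C, mul_div_cancel₀ _ hs]
          rfl
    have hTη : η ∈ T := ⟨1, X, one_ne_zero, by
      change al 1 * η = eval₂ al η X
      rw [map_one, one_mul, eval₂_X]⟩
    intro z
    change z ∈ T
    have hz : z ∈ Algebra.adjoin R⟮ξ⟯ {η} := by
      rw [← IntermediateField.adjoin_simple_toSubalgebra_of_isAlgebraic (IsAlgebraic.of_finite R⟮ξ⟯ η), hgen]
      trivial
    induction hz using Algebra.adjoin_induction with
    | mem x hx =>
      rw [Set.mem_singleton_iff] at hx
      rw [hx]; exact hTη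
    | algebraMap r => exact hTξ r
    | add x y _ _ hx hy => exact T.add_mem hx hy
    | mul x y _ _ hx hy => exact T.mul_mem hx hy

end PL
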