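import Pool.Agent.Helper386.D5V.Helper807_PL_MainExt
import Pool.Agent.Helper386.D5V.Helper807_PL_Jets

/-! The core of the point lemma. -/

set_option autoImplicit false
set_option linter.all false

open Module Polynomial FF SF
open HahnSeries (ofPowerSeries ofPowerSeries_X ofPowerSeries_C)

namespace PL

/-- `n`-th roots of power series with constant coefficient `1`. -/
theorem exists_root_powerSeries {k : Type*} [Field k] [CharZero k] (U : PowerSeries k)
    (hU : PowerSeries.constantCoeff U = 1) (n : ℕ) (hn : 0 < n) : ∃ W : PowerSeries k, W ^ n = U := by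
  obtain ⟨W, hW, -⟩ := hensel_nonmonic (PowerSeries k) (Ideal.span {PowerSeries.X}) (X ^ n - C U) 1 (by
    rw [eval_sub, eval_pow, eval_X, eval_C, one_pow, Ideal.mem_span_singleton, PowerSeries.X_dvd_iff]
    simp [hU]) (by
    have : (derivative (X ^ n - C U : (PowerSeries k)[X])).eval 1 = PowerSeries.C (n : k) := by
      rw [derivative_sub, derivative_C, sub_zero, derivative_X_pow]
      simp
    rw [this]
    exact ((IsUnit.mk0 (n : k) (by exact_mod_cast hn.ne')).map PowerSeries.C).map _)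
  refine ⟨W, ?_⟩
  have h : (X ^ n - C U : (PowerSeries k)[X]).eval W = 0 := hW
  rw [eval_sub, eval_pow, eval_X, eval_C] at h
  exact sub_eq_zero.1 h

section
variable {k L : Type} [Field k] [CharZero k] [Field L] [Algebra (LaurentSeries k) L] [Algebra k L]
  [IsScalarTower k (LaurentSeries k) L] (w : Place k L)

theorem vL_C (a : k) : vL k L (PowerSeries.C a) = algebraMap k L a := by
  change algebraMap (LaurentSeries k) L (ofPowerSeries ℤ k (PowerSeries.C a)) = _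
  rw [ofPowerSeries_C]
  have h1 : (HahnSeries.C a : LaurentSeries k) = a • (1 : LaurentSeries k) := by
    ext n
    simp only [HahnSeries.C_apply, HahnSeries.coeff_smul, HahnSeries.coeff_one, HahnSeries.coeff_single]
    split_ifs <;> simp
  have h2 : (a • (1 : LaurentSeries k)) • (1 : L) = a • ((1 : LaurentSeries k) • (1 : L)) := smul_assoc _ _ _
  rw [one_smul, Algebra.smul_def, mul_one, Algebra.smul_def a, mul_one] at h2
  rw [h1, h2]

theorem vL_X : vL k L PowerSeries.X = algebraMap (LaurentSeries k) L (yv k) := by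
  change algebraMap (LaurentSeries k) L (ofPowerSeries ℤ k PowerSeries.X) = _
  rw [ofPowerSeries_X]
  rfl

theorem vL_ne_zero {F : PowerSeries k} (hF : F ≠ 0) : vL k L F ≠ 0 := by
  intro h
  apply hF
  have h1 : ofPowerSeries ℤ k F = 0 := by
    have : algebraMap (LaurentSeries k) L (ofPowerSeries ℤ k F) = 0 := h
    rwa [map_eq_zero] at this
  exact HahnSeries.ofPowerSeries_injective (h1.trans (map_zero _).symm)

theorem ord_vL_unit {U : PowerSeries k} (hU : PowerSeries.constantCoeff U = 1) : w.ord (vL k L U) = 0 := by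
  have h1 : ∀ n : ℕ, 0 < n → (n : ℤ) ∣ w.ord (vL k L U) := by
    intro n hn
    obtain ⟨W, hW⟩ := exists_root_powerSeries U hU n hn
    rw [← hW, map_pow, w.ord_pow]
    exact dvd_mul_right _ _
  have h2 := h1 ((w.ord (vL k L U)).natAbs + 1) (by omega)
  exact Int.eq_zero_of_abs_lt_dvd h2 (by
    push_cast
    rw [Int.abs_eq_natAbs]
    omega)

theorem reg_vL (hy : 0 < w.ord (algebraMap (LaurentSeries k) L (yv k))) (F : PowerSeries k) : w.Reg (vL k L F) := by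
  by_cases hF : F = 0
  · rw [hF, map_zero]; exact w.reg_zero
  obtain ⟨n, U, hU0, rfl⟩ : ∃ (n : ℕ) (U : PowerSeries k), PowerSeries.constantCoeff U ≠ 0 ∧ F = PowerSeries.X ^ n * U := by
    refine ⟨F.order.toNat, PowerSeries.divXPowOrder F, ?_, ?_⟩
    · rw [PowerSeries.constantCoeff_divXPowOrder]
      exact PowerSeries.coeff_order hF
    · exact (PowerSeries.X_pow_order_mul_divXPowOrder).symm
  have hU : U = PowerSeries.C (PowerSeries.constantCoeff U) * (PowerSeries.C (PowerSeries.constantCoeff U)⁻¹ * U) := by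
    rw [← mul_assoc, ← map_mul, mul_inv_cancel₀ hU0, map_one, one_mul]
  have h1 : PowerSeries.constantCoeff (PowerSeries.C (PowerSeries.constantCoeff U)⁻¹ * U) = 1 := by
    rw [map_mul, PowerSeries.constantCoeff_C, inv_mul_cancel₀ hU0]
  rw [map_mul, map_pow, vL_X, hU, map_mul, vL_C]
  refine w.reg_mul ?_ (w.reg_mul (w.reg_const _) ?_)
  · right; rw [w.ord_pow]; positivity
  · right; rw [ord_vL_unit w h1]

/-- `k[[y]] → O_w` -/
noncomputable def vO (hy : 0 < w.ord (algebraMap (LaurentSeries k) L (yv k))) : PowerSeries k →+* w.O :=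
  (vL k L).codRestrict w.O (reg_vL w hy)

omit [CharZero k] [Algebra (LaurentSeries k) L] [IsScalarTower k (LaurentSeries k) L] in
theorem build_Theta {N : ℕ} {σ : w.RF →+* (w.O ⧸ PI w N)} {π : w.O}
    (hσ : ∀ f : w.O, ∃ g : w.O, ((g : L) = 0 ∨ 0 < w.ord g) ∧
        Ideal.Quotient.mk _ f = σ (w.resHom f) + Ideal.Quotient.mk (PI w N) g)
    (hπ : w.ord π = 1) {A Q : Type*} [CommRing A] [CommRing Q] (E0 : A →+* w.RF[X]) (ψ : A →+* Q)
    (hψ : ∀ F, X ^ N ∣ E0 F → ψ F = 0) :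
    ∃ (S : Subring L) (Θ : S →+* Q),
      (∀ (f : w.O) (F : A), ev w σ π (E0 F) = Ideal.Quotient.mk _ f → (f : L) ∈ S) ∧
      ∀ (f : w.O) (F : A) (h : (f : L) ∈ S), ev w σ π (E0 F) = Ideal.Quotient.mk _ f → Θ ⟨f, h⟩ = ψ F := by
  obtain ⟨ϑ, hϑ⟩ := factor_hom ((ev w σ π).comp E0) ψ (by
    intro P hP
    exact hψ P (ev_ker w hσ hπ hP))
  let B := ((ev w σ π).comp E0).range
  let S : Subring L := (B.comap (Ideal.Quotient.mk (PI w N))).map w.O.subtype
  have hSO : ∀ x : S, (x : L) ∈ w.O := by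
    rintro ⟨_, ⟨f, hf, rfl⟩⟩
    exact f.2
  let inc : S →+* w.O := S.subtype.codRestrict w.O hSO
  have hinc : ∀ x : S, Ideal.Quotient.mk (PI w N) (inc x) ∈ B := by
    rintro ⟨_, ⟨f, hf, rfl⟩⟩
    exact hf
  let ρ : S →+* B := ((Ideal.Quotient.mk (PI w N)).comp inc).codRestrict B hinc
  refine ⟨S, ϑ.comp ρ, ?_, ?_⟩
  · intro f F h
    exact ⟨f, ⟨F, h⟩, rfl⟩
  · intro f F h hF
    have h1 : ((ev w σ π).comp E0) F ∈ B := ⟨F, rfl⟩
    rw [← hϑ F h1]
    have h2 : ρ ⟨f, h⟩ = ⟨((ev w σ π).comp E0) F, h1⟩ := by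
      apply Subtype.ext
      exact hF.symm
    exact congrArg ϑ h2

theorem core [IsFF (LaurentSeries k) L] (m0 : ℕ) (hm0 : 0 < m0)
    (hw : w.ord (algebraMap (LaurentSeries k) L (yv k)) = m0) (π₀ : L) (hπ₀ : w.ord π₀ = 1) (s : Finset L) :
    ∃ (N μ ν : ℕ) (Fξ Fη FD FH : w.RF[X]), m0 < N ∧ 2 * μ < N ∧ ν < N ∧
      Fξ.coeff 0 = 0 ∧ Fη.coeff 0 = 0 ∧ (∀ i < μ, FD.coeff i = 0) ∧ FD.coeff μ ≠ 0 ∧
      (∀ i < ν, FH.coeff i = 0) ∧ FH.coeff ν ≠ 0 ∧
      FD.coeff 0 ∈ (algebraMap k w.RF).range ∧ FH.coeff 0 ∈ (algebraMap k w.RF).range ∧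
      ∀ (A : Type) [CommRing A] (E0 : A →+* w.RF[X]) (α : k →+* A) (τ x1 x2 x3 x4 : A),
        (∀ a, E0 (α a) = C (algebraMap k w.RF a)) →
        E0 τ = C (w.red (algebraMap (LaurentSeries k) L (yv k) / π₀ ^ m0)) * X ^ m0 →
        E0 x1 = Fξ → E0 x2 = Fη → E0 x3 = FD → E0 x4 = FH →
        ∀ (κ : Type) [Field κ] [Algebra k κ] (N' : ℕ)
          (ψ : A →+* (PowerSeries κ ⧸ Ideal.span {(PowerSeries.X : PowerSeries κ) ^ N'})),
          (∀ F, X ^ N ∣ E0 F → ψ F = 0) →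
          (∀ a, ψ (α a) = Ideal.Quotient.mk _ (PowerSeries.C (algebraMap k κ a))) →
          ∀ (c : κ) (hc : c ≠ 0) (m : ℕ) (hm : 0 < m),
            ψ τ = Ideal.Quotient.mk _ (PowerSeries.C c * PowerSeries.X ^ m) →
            (∃ (d : ℕ) (u : PowerSeries κ), IsUnit u ∧ 2 * d < N' ∧
              ψ x3 = Ideal.Quotient.mk _ (PowerSeries.X ^ d * u)) → ψ x4 ≠ 0 →
            ∃ φ : Algebra.adjoin (LaurentSeries k) (s : Set L) →+* LaurentSeries κ,
              ∀ r, φ (algebraMap _ _ r) = iota (algebraMap k κ) c hc m hm r := by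
  have hy : 0 < w.ord (algebraMap (LaurentSeries k) L (yv k)) := by rw [hw]; exact_mod_cast hm0
  have hyv0 : yv k ≠ 0 := by
    unfold yv
    simp
  have hy0 : algebraMap (LaurentSeries k) L (yv k) ≠ 0 := by rw [Ne, map_eq_zero]; exact hyv0
  obtain ⟨ξ, η, D, H, hξ, hη, hD0, hH0, hmain⟩ := main_ext (k := k) (L := L) (fun z => z = 0 ∨ 0 < w.ord z) (by
    intro z
    by_cases hz : z = 0
    · exact ⟨0, Or.inl (by rw [hz, mul_zero])⟩
    · refine ⟨(w.ord z).natAbs + 1, Or.inr ?_⟩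
      rw [w.ord_mul (pow_ne_zero _ hy0) hz, w.ord_pow, hw]
      have h1 : (1 : ℤ) ≤ m0 := by exact_mod_cast hm0
      have h2 : ((((w.ord z).natAbs + 1 : ℕ) : ℤ)) * 1 ≤ (((w.ord z).natAbs + 1 : ℕ) : ℤ) * m0 :=
        mul_le_mul_of_nonneg_left h1 (by positivity)
      omega) s
  have hregξ : w.Reg ξ := hξ.imp id le_of_lt
  have hregη : w.Reg η := hη.imp id le_of_lt
  obtain ⟨hDO, hHO, -⟩ := hmain w.O.toSubring (fun F => reg_vL w hy F) hregξ hregη
  let S1 : Subring L := ((algebraMap k w.RF).range.comap w.resHom).map w.O.subtype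
  have hS1 : ∀ f : w.O, w.resHom f ∈ (algebraMap k w.RF).range → (f : L) ∈ S1 := fun f hf => ⟨f, hf, rfl⟩
  have hS1' : ∀ f : w.O, (f : L) ∈ S1 → w.resHom f ∈ (algebraMap k w.RF).range := by
    rintro f ⟨f', hf', h⟩
    have : f' = f := Subtype.ext h
    rw [← this]; exact hf'
  have hresC : ∀ a : k, w.resHom (constO w a) = algebraMap k w.RF a := by
    intro a
    rw [Place.algebraMap_RF, w.red_of_reg (w.reg_const a)]
    rfl
  obtain ⟨hDS1, hHS1, -⟩ := hmain S1 (fun F => by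
    refine hS1 (vO w hy F) ?_
    obtain ⟨G, h2⟩ : ∃ G, F = PowerSeries.X ^ 1 * G + ((PowerSeries.trunc 1 F : k[X]) : PowerSeries k) :=
      ⟨_, PowerSeries.eq_X_pow_mul_shift_add_trunc 1 F⟩
    have h3 : ((PowerSeries.trunc 1 F : k[X]) : PowerSeries k) = PowerSeries.C (PowerSeries.constantCoeff F) := by
      ext i
      rw [Polynomial.coeff_coe, PowerSeries.coeff_trunc, PowerSeries.coeff_C]
      by_cases hi : i = 0
      · subst hi; simp
      · rw [if_neg (by omega), if_neg hi]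
    have h4 : w.resHom (vO w hy PowerSeries.X) = 0 := by
      rw [resHom_eq_zero_iff]
      right
      change 0 < w.ord (vL k L PowerSeries.X)
      rw [vL_X]; exact hy
    have h5 : w.resHom (vO w hy F) = algebraMap k w.RF (PowerSeries.constantCoeff F) := by
      conv_lhs => rw [h2]
      rw [map_add, map_mul, map_pow, map_add, map_mul, map_pow, h4, h3, ← hresC]
      rw [pow_one, zero_mul, zero_add]
      congr 1
      ext
      change vL k L _ = algebraMap k L _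
      rw [vL_C]
    rw [h5]
    exact ⟨_, rfl⟩)
    (hS1 ⟨ξ, hregξ⟩ (by rw [(resHom_eq_zero_iff w ⟨ξ, hregξ⟩).2 hξ]; exact Subring.zero_mem _))
    (hS1 ⟨η, hregη⟩ (by rw [(resHom_eq_zero_iff w ⟨η, hregη⟩).2 hη]; exact Subring.zero_mem _))
  have hDn : 0 ≤ w.ord D := (w.reg_iff hD0).1 hDO
  have hHn : 0 ≤ w.ord H := (w.reg_iff hH0).1 hHO
  obtain ⟨μ, hμ⟩ := Int.eq_ofNat_of_zero_le hDn
  obtain ⟨ν, hν⟩ := Int.eq_ofNat_of_zero_le hHn
  obtain ⟨N, hN⟩ : ∃ N, N = 2 * μ + ν + m0 + 1 := ⟨_, rfl⟩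
  obtain ⟨σ, hσk, hσ⟩ := exists_section w N (by omega)
  let yO : w.O := ⟨algebraMap (LaurentSeries k) L (yv k), Or.inr hy.le⟩
  obtain ⟨π, hπ, hyπ⟩ := exists_unif w (by omega : 0 < N) σ hσ ⟨π₀, Or.inr (by omega)⟩ hπ₀ yO hy0 m0 hm0 hw
  obtain ⟨Fξ, hFξ⟩ := ev_surjective w hσ hπ (Ideal.Quotient.mk _ ⟨ξ, hregξ⟩)
  obtain ⟨Fη, hFη⟩ := ev_surjective w hσ hπ (Ideal.Quotient.mk _ ⟨η, hregη⟩)
  obtain ⟨FD, hFD⟩ := ev_surjective w hσ hπ (Ideal.Quotient.mk _ ⟨D, hDO⟩)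
  obtain ⟨FH, hFH⟩ := ev_surjective w hσ hπ (Ideal.Quotient.mk _ ⟨H, hHO⟩)
  have hlead : ∀ (f : w.O) (F : w.RF[X]) (i : ℕ), ev w σ π F = Ideal.Quotient.mk _ f → i < N → (f : L) ≠ 0 →
      w.ord f = i → (∀ j < i, F.coeff j = 0) ∧ F.coeff i ≠ 0 := by
    intro f F i hF hi hf0 hf
    obtain ⟨h1, h2⟩ := ev_lead w hσ hπ hF hi hf0 hf
    refine ⟨h1, ?_⟩
    rw [h2]
    have hπ0 : (π : L) ≠ 0 := by
      intro h; rw [h, w.ord_zero] at hπ; omega
    apply w.red_ne_zero (div_ne_zero hf0 (pow_ne_zero _ hπ0))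
    rw [w.ord_div hf0 (pow_ne_zero _ hπ0), w.ord_pow, hf, hπ]
    ring
  have hzero : ∀ (f : w.O) (F : w.RF[X]), ev w σ π F = Ideal.Quotient.mk _ f →
      ((f : L) = 0 ∨ 0 < w.ord f) → F.coeff 0 = 0 := by
    intro f F hF hf
    have h1 := ev_coeff w hσ hπ hF (μ := 0) (by omega) (by intro i hi; omega)
    rw [pow_zero, div_one] at h1
    rw [← h1.2, w.red_eq_zero_iff h1.1]
    exact hf
  have hconst : ∀ (f : w.O) (F : w.RF[X]), ev w σ π F = Ideal.Quotient.mk _ f →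
      (f : L) ∈ S1 → F.coeff 0 ∈ (algebraMap k w.RF).range := by
    intro f F hF hf
    have h1 := ev_coeff w hσ hπ hF (μ := 0) (by omega) (by intro i hi; omega)
    rw [pow_zero, div_one] at h1
    rw [← h1.2, w.red_of_reg h1.1]
    exact hS1' f hf
  obtain ⟨hFD1, hFD2⟩ := hlead _ FD μ hFD (by omega) hD0 hμ
  obtain ⟨hFH1, hFH2⟩ := hlead _ FH ν hFH (by omega) hH0 hν
  refine ⟨N, μ, ν, Fξ, Fη, FD, FH, by omega, by omega, by omega, hzero _ _ hFξ hξ, hzero _ _ hFη hη,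
    hFD1, hFD2, hFH1, hFH2, hconst _ _ hFD hDS1, hconst _ _ hFH hHS1, ?_⟩
  intro A _ E0 α τ x1 x2 x3 x4 hα hτ hx1 hx2 hx3 hx4 κ _ _ N' ψ hψ hψα c hc m hm hψτ hψ3 hψ4
  obtain ⟨S, Θ, hS, hΘ⟩ := build_Theta w hσ hπ E0 ψ hψ
  have hevα : ∀ a : k, ev w σ π (E0 (α a)) = Ideal.Quotient.mk _ (constO w a) := by
    intro a
    rw [hα, ev_C, hσk]
  have hevτ : ev w σ π (E0 τ) = Ideal.Quotient.mk _ yO := by
    rw [hτ, map_mul, map_pow, ev_C, ev_X, hyπ, map_pow]
  have hVS : ∀ F : PowerSeries k, ∃ F' : A, ev w σ π (E0 F') = Ideal.Quotient.mk _ (vO w hy F) := by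
    intro F
    let p2 : k[X] →+* (w.O ⧸ PI w N) := (Ideal.Quotient.mk _).comp ((vO w hy).comp Polynomial.coeToPowerSeries.ringHom)
    have hp : ((ev w σ π).comp E0).comp (eval₂RingHom α τ) = p2 := by
      refine Polynomial.ringHom_ext (fun a => ?_) ?_
      · change ev w σ π (E0 (eval₂ α τ (C a))) = Ideal.Quotient.mk _ (vO w hy ((C a : k[X]) : PowerSeries k))
        rw [eval₂_C, hevα]
        congr 1
        ext
        change algebraMap k L a = vL k L _
        rw [Polynomial.coe_C, vL_C]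
      · change ev w σ π (E0 (eval₂ α τ X)) = Ideal.Quotient.mk _ (vO w hy ((X : k[X]) : PowerSeries k))
        rw [eval₂_X, hevτ]
        congr 1
        ext
        change _ = vL k L _
        rw [Polynomial.coe_X, vL_X]
    refine ⟨eval₂RingHom α τ (PowerSeries.trunc N F), ?_⟩
    have h1 := RingHom.congr_fun hp (PowerSeries.trunc N F)
    change ev w σ π (E0 (eval₂RingHom α τ (PowerSeries.trunc N F))) =
      Ideal.Quotient.mk _ (vO w hy ((PowerSeries.trunc N F : k[X]) : PowerSeries k)) at h1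
    rw [h1, Ideal.Quotient.eq, ← map_sub]
    obtain ⟨G, h2⟩ : ∃ G, F = PowerSeries.X ^ N * G + ((PowerSeries.trunc N F : k[X]) : PowerSeries k) :=
      ⟨_, PowerSeries.eq_X_pow_mul_shift_add_trunc N F⟩
    have h3 : ((PowerSeries.trunc N F : k[X]) : PowerSeries k) - F = -(PowerSeries.X ^ N * G) := by
      linear_combination -h2
    rw [h3, map_neg, map_mul, map_pow]
    refine (Ideal.neg_mem_iff _).2 (Ideal.mul_mem_right _ _ ?_)
    rw [mem_PI]
    right
    change (N : ℤ) ≤ w.ord (vL k L PowerSeries.X ^ N)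
    rw [w.ord_pow, vL_X, hw]
    have h4 : (1 : ℤ) ≤ m0 := by exact_mod_cast hm0
    nlinarith
  have hV : ∀ F : PowerSeries k, vL k L F ∈ S := by
    intro F
    obtain ⟨F', hF'⟩ := hVS F
    exact hS (vO w hy F) F' hF'
  obtain ⟨hDS, hHS, hfin⟩ := hmain S hV (hS ⟨ξ, hregξ⟩ x1 (by rw [hx1, hFξ])) (hS ⟨η, hregη⟩ x2 (by rw [hx2, hFη]))
  refine hfin κ N' Θ c hc m hm ?_ ?_ ?_ ?_
  · intro a
    rw [← hψα a]
    refine hΘ (vO w hy (PowerSeries.C a)) (α a) (hV _) ?_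
    rw [hevα]
    congr 1
    ext
    change algebraMap k L a = vL k L _
    rw [vL_C]
  · rw [← hψτ]
    refine hΘ (vO w hy PowerSeries.X) τ (hV _) ?_
    rw [hevτ]
    congr 1
    ext
    change _ = vL k L _
    rw [vL_X]
  · obtain ⟨d, u, hu, hd, h3⟩ := hψ3
    refine ⟨d, u, hu, hd, ?_⟩
    rw [← h3]
    exact hΘ ⟨D, hDO⟩ x3 hDS (by rw [hx3, hFD])
  · intro h
    apply hψ4
    rw [← h]
    exact (hΘ ⟨H, hHO⟩ x4 hHS (by rw [hx4, hFH])).symm

end

end PL
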