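import Mathlib

/-! Hensel's lemma for complete rings (not necessarily monic polynomials), and the strong form for
power series rings. -/

set_option autoImplicit false
set_option linter.all false

open Polynomial

namespace PL

theorem hensel_nonmonic (R : Type*) [CommRing R] (I : Ideal R)
    [IsAdicComplete I R] (f : R[X]) (a₀ : R) (h₁ : f.eval a₀ ∈ I)
      (h₂ : IsUnit (Ideal.Quotient.mk I (f.derivative.eval a₀))) : ∃ a : R, f.IsRoot a ∧ a - a₀ ∈ I := by
    classical
      let f' := derivative f
      let c : ℕ → R := fun n => Nat.recOn n a₀ fun _ b => b - f.eval b * (Ring.inverse (f'.eval b))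
      have hc : ∀ n, c (n + 1) = c n - f.eval (c n) * (Ring.inverse (f'.eval (c n))) := by
        intro n
        simp only [c]
      have hc_mod : ∀ n, c n ≡ a₀ [SMOD I] := by
        intro n
        induction n with
        | zero => rfl
        | succ n ih => ?_
        rw [hc, sub_eq_add_neg, ← add_zero a₀]
        refine ih.add ?_
        rw [SModEq.zero, Ideal.neg_mem_iff]
        refine I.mul_mem_right _ ?_
        rw [← SModEq.zero] at h₁ ⊢
        exact (ih.eval f).trans h₁
      have hf'c : ∀ n, IsUnit (f'.eval (c n)) := by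
        intro n
        have := isLocalHom_of_le_jacobson_bot I (IsAdicComplete.le_jacobson_bot I)
        apply IsUnit.of_map (Ideal.Quotient.mk I)
        convert! h₂ using 1
        exact SModEq.def.mp ((hc_mod n).eval _)
      have hfcI : ∀ n, f.eval (c n) ∈ I ^ (n + 1) := by
        intro n
        induction n with
        | zero => simpa only [Nat.rec_zero, zero_add, pow_one] using! h₁
        | succ n ih => ?_
        rw [← taylor_eval_sub (c n), hc, sub_eq_add_neg, sub_eq_add_neg,
          add_neg_cancel_comm]
        rw [eval_eq_sum, sum_over_range' _ _ _ (lt_add_of_pos_right _ zero_lt_two), ←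
          Finset.sum_range_add_sum_Ico _ (Nat.le_add_left _ _)]
        swap
        · intro i
          rw [zero_mul]
        refine Ideal.add_mem _ ?_ ?_
        · rw [← one_add_one_eq_two, Finset.sum_range_succ, Finset.range_one, Finset.sum_singleton,
            taylor_coeff_zero, taylor_coeff_one, pow_zero, pow_one, mul_one, mul_neg,
            mul_left_comm, Ring.mul_inverse_cancel _ (hf'c n), mul_one, add_neg_cancel]
          exact Ideal.zero_mem _
        · refine Submodule.sum_mem _ ?_
          simp only [Finset.mem_Ico]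
          rintro i ⟨h2i, _⟩
          have aux : n + 2 ≤ i * (n + 1) := by trans 2 * (n + 1) <;> nlinarith only [h2i]
          refine Ideal.mul_mem_left _ _ (Ideal.pow_le_pow_right aux ?_)
          rw [pow_mul']
          exact Ideal.pow_mem_pow ((Ideal.neg_mem_iff _).2 <| Ideal.mul_mem_right _ _ ih) _
      have aux : ∀ m n, m ≤ n → c m ≡ c n [SMOD (I ^ m • ⊤ : Ideal R)] := by
        intro m n hmn
        rw [← Ideal.one_eq_top, Ideal.smul_eq_mul, mul_one]
        obtain ⟨k, rfl⟩ := Nat.exists_eq_add_of_le hmn
        clear hmn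
        induction k with
        | zero => rw [add_zero]
        | succ k ih => ?_
        rw [← add_assoc, hc, ← add_zero (c m), sub_eq_add_neg]
        refine ih.add ?_
        symm
        rw [SModEq.zero, Ideal.neg_mem_iff]
        refine Ideal.mul_mem_right _ _ (Ideal.pow_le_pow_right ?_ (hfcI _))
        rw [add_assoc]
        exact le_self_add
      obtain ⟨a, ha⟩ := IsPrecomplete.prec' c (aux _ _)
      refine ⟨a, ?_, ?_⟩
      · show f.IsRoot a
        suffices ∀ n, f.eval a ≡ 0 [SMOD (I ^ n • ⊤ : Ideal R)] by exact IsHausdorff.haus' _ this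
        intro n
        specialize ha n
        rw [← Ideal.one_eq_top, Ideal.smul_eq_mul, mul_one] at ha ⊢
        refine (ha.symm.eval f).trans ?_
        rw [SModEq.zero]
        exact Ideal.pow_le_pow_right le_self_add (hfcI _)
      · show a - a₀ ∈ I
        specialize ha (0 + 1)
        rw [hc, pow_one, ← Ideal.one_eq_top, Ideal.smul_eq_mul, mul_one, sub_eq_add_neg] at ha
        rw [← SModEq.sub_mem, ← add_zero a₀]
        refine ha.symm.trans (SModEq.rfl.add ?_)
        rw [SModEq.zero, Ideal.neg_mem_iff]
        exact Ideal.mul_mem_right _ _ h₁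

/-- Strong Hensel lemma over a power series ring. -/
theorem strong_hensel {κ : Type*} [Field κ] (p : (PowerSeries κ)[X]) (a₀ : PowerSeries κ) (d : ℕ)
    (e u : PowerSeries κ) (hu : IsUnit u)
    (h0 : p.eval a₀ = PowerSeries.X ^ (2 * d + 1) * e) (h1 : p.derivative.eval a₀ = PowerSeries.X ^ d * u) :
    ∃ a : PowerSeries κ, p.eval a = 0 := by
  set T := taylor a₀ p with hT
  let t := T.divX.divX
  have hT2 : T = t * X ^ 2 + C (PowerSeries.X ^ d * u) * X + C (PowerSeries.X ^ (2 * d + 1) * e) := by
    have h2 : T = T.divX * X + C (T.coeff 0) := (T.divX_mul_X_add).symm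
    have h3 : T.divX = t * X + C (T.divX.coeff 0) := (T.divX.divX_mul_X_add).symm
    have h4 : T.coeff 0 = PowerSeries.X ^ (2 * d + 1) * e := by
      rw [hT, taylor_coeff_zero, h0]
    have h5 : T.divX.coeff 0 = PowerSeries.X ^ d * u := by
      rw [coeff_divX, zero_add, hT, taylor_coeff_one, h1]
    rw [h2, h3, h4, h5]
    ring
  let f : (PowerSeries κ)[X] := (t.comp (C (PowerSeries.X ^ d) * X)) * X ^ 2 + C u * X + C (PowerSeries.X * e)
  have hf : ∀ z : PowerSeries κ, T.eval (PowerSeries.X ^ d * z) = PowerSeries.X ^ (2 * d) * f.eval z := by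
    intro z
    rw [hT2]
    simp only [f, eval_add, eval_mul, eval_C, eval_X, eval_pow, eval_comp]
    ring
  obtain ⟨z, hz, -⟩ := hensel_nonmonic (PowerSeries κ) (Ideal.span {PowerSeries.X}) f 0 (by
    simp only [f, eval_add, eval_mul, eval_C, eval_X, eval_pow]
    rw [zero_pow two_ne_zero, mul_zero, mul_zero, zero_add, zero_add]
    exact Ideal.mul_mem_right _ _ (Ideal.mem_span_singleton_self _)) (by
    have : f.derivative.eval 0 = u := by
      simp [f]
    rw [this]
    exact hu.map _)
  refine ⟨a₀ + PowerSeries.X ^ d * z, ?_⟩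
  have h6 := hf z
  rw [show f.eval z = 0 from hz, mul_zero, hT, taylor_eval] at h6
  rwa [add_comm]

end PL
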