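import Pool.Agent.Helper386.D5V.Helper807_PL_MainAlg
import Pool.Agent.Helper386.D5V.SF_Model

/-! The main extension theorem: approximate homomorphisms give homomorphisms. -/

set_option autoImplicit false
set_option linter.all false

open Module Polynomial FF SF
open HahnSeries (ofPowerSeries ofPowerSeries_X ofPowerSeries_C)

namespace PL

/-- `k[[y]] → L` -/
noncomputable def vL (k L : Type) [Field k] [Field L] [Algebra (LaurentSeries k) L] : PowerSeries k →+* L :=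
  (algebraMap (LaurentSeries k) L).comp (ofPowerSeries ℤ k)

theorem powerSeries_denom {k : Type} [Field k] (b : LaurentSeries k) :
    ∃ (n : ℕ) (a : PowerSeries k), ofPowerSeries ℤ k a = ofPowerSeries ℤ k PowerSeries.X ^ n * b := by
  have h1 := LaurentSeries.ofPowerSeries_powerSeriesPart b
  rcases le_or_gt 0 b.order with h | h
  · refine ⟨0, PowerSeries.X ^ b.order.toNat * b.powerSeriesPart, ?_⟩
    have hn : ((b.order.toNat : ℕ) : ℤ) = b.order := Int.toNat_of_nonneg h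
    rw [LaurentSeries.X_order_mul_powerSeriesPart hn]
    simp
  · refine ⟨(-b.order).toNat, b.powerSeriesPart, ?_⟩
    have hn : (((-b.order).toNat : ℕ) : ℤ) = -b.order := Int.toNat_of_nonneg (by omega)
    rw [h1, ofPowerSeries_X, HahnSeries.single_pow, one_pow, nsmul_eq_mul, mul_one, hn]

/-- The approximation step, inside the power series ring. -/
theorem approx_step {V S κ : Type*} [CommRing V] [CommRing S] [Field κ] (N : ℕ) (vS : V →+* S)
    (Θ : S →+* (PowerSeries κ ⧸ Ideal.span {(PowerSeries.X : PowerSeries κ) ^ N}))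
    (j : V →+* PowerSeries κ) (hj : Θ.comp vS = (Ideal.Quotient.mk _).comp j)
    (G : V[X][X]) (H0 : V[X]) (ξ η : S) (hG : G.eval₂ (eval₂RingHom vS ξ) η = 0)
    (d : ℕ) (u : PowerSeries κ) (hu : IsUnit u) (hdN : 2 * d < N)
    (hD : Θ (G.derivative.eval₂ (eval₂RingHom vS ξ) η) = Ideal.Quotient.mk _ (PowerSeries.X ^ d * u))
    (hH : Θ (eval₂RingHom vS ξ H0) ≠ 0) :
    ∃ ξ' η' : PowerSeries κ, G.eval₂ (eval₂RingHom j ξ') η' = 0 ∧ eval₂RingHom j ξ' H0 ≠ 0 := by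
  obtain ⟨mk, hmk⟩ : ∃ mk : PowerSeries κ →+* (PowerSeries κ ⧸ Ideal.span {(PowerSeries.X : PowerSeries κ) ^ N}),
    mk = Ideal.Quotient.mk _ := ⟨_, rfl⟩
  rw [← hmk] at hj hD
  obtain ⟨ξ', hξ'⟩ := Ideal.Quotient.mk_surjective (Θ ξ)
  obtain ⟨η', hη'⟩ := Ideal.Quotient.mk_surjective (Θ η)
  rw [← hmk] at hξ' hη'
  have hmk0 : ∀ z, mk z = 0 → (PowerSeries.X : PowerSeries κ) ^ N ∣ z := by
    intro z hz
    rw [← Ideal.mem_span_singleton, ← Ideal.Quotient.eq_zero_iff_mem, ← hmk]; exact hz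
  have F2 : Θ.comp (eval₂RingHom vS ξ) = mk.comp (eval₂RingHom j ξ') := by
    refine Polynomial.ringHom_ext (fun a => ?_) ?_
    · change Θ (eval₂ vS ξ (C a)) = mk (eval₂ j ξ' (C a))
      rw [eval₂_C, eval₂_C]
      exact RingHom.congr_fun hj a
    · change Θ (eval₂ vS ξ X) = mk (eval₂ j ξ' X)
      rw [eval₂_X, eval₂_X]
      exact hξ'.symm
  have F3 : ∀ P : V[X][X], mk ((P.map (eval₂RingHom j ξ')).eval η') = Θ (P.eval₂ (eval₂RingHom vS ξ) η) := by
    intro P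
    rw [Polynomial.hom_eval₂, F2, ← hη', eval_map]
    exact Polynomial.hom_eval₂ _ _ _ _
  have F4 : mk ((G.map (eval₂RingHom j ξ')).eval η') = 0 := by
    rw [F3, hG, map_zero]
  have F5 : mk ((G.map (eval₂RingHom j ξ')).derivative.eval η') = mk (PowerSeries.X ^ d * u) := by
    rw [derivative_map, F3, ← hD]
  obtain ⟨e1, he1⟩ := hmk0 _ F4
  obtain ⟨e2, he2⟩ := hmk0 ((G.map (eval₂RingHom j ξ')).derivative.eval η' - PowerSeries.X ^ d * u) (by
    rw [map_sub, F5, sub_self])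
  obtain ⟨a, ha⟩ := strong_hensel (G.map (eval₂RingHom j ξ')) η' d (PowerSeries.X ^ (N - (2 * d + 1)) * e1)
    (u + PowerSeries.X ^ (N - d) * e2) (by
      rw [PowerSeries.isUnit_iff_constantCoeff, map_add, map_mul, map_pow, PowerSeries.constantCoeff_X,
        zero_pow (by omega), zero_mul, add_zero, ← PowerSeries.isUnit_iff_constantCoeff]
      exact hu) (by
      rw [he1, ← mul_assoc, ← _root_.pow_add]
      congr 2
      omega) (by
      rw [mul_add, ← mul_assoc, ← _root_.pow_add, show d + (N - d) = N by omega, ← he2]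
      ring)
  rw [eval_map] at ha
  refine ⟨ξ', a, ha, ?_⟩
  intro h5
  apply hH
  have h6 : Θ (eval₂RingHom vS ξ H0) = mk (eval₂RingHom j ξ' H0) := RingHom.congr_fun F2 H0
  rw [h6, h5, map_zero]

theorem main_ext {k L : Type} [Field k] [CharZero k] [Field L] [Algebra (LaurentSeries k) L]
    [IsFF (LaurentSeries k) L] (Pos : L → Prop)
    (hPos : ∀ z : L, ∃ n : ℕ, Pos (algebraMap (LaurentSeries k) L (yv k) ^ n * z)) (s : Finset L) :
    ∃ ξ η D H : L, Pos ξ ∧ Pos η ∧ D ≠ 0 ∧ H ≠ 0 ∧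
      ∀ (S : Subring L) (hV : ∀ F : PowerSeries k, vL k L F ∈ S), ξ ∈ S → η ∈ S →
      ∃ (hD : D ∈ S) (hH : H ∈ S), ∀ (κ : Type) [Field κ] [Algebra k κ] (N : ℕ)
        (Θ : S →+* (PowerSeries κ ⧸ Ideal.span {(PowerSeries.X : PowerSeries κ) ^ N}))
        (c : κ) (hc : c ≠ 0) (m : ℕ) (hm : 0 < m),
        (∀ a : k, Θ ⟨vL k L (PowerSeries.C a), hV _⟩ = Ideal.Quotient.mk _ (PowerSeries.C (algebraMap k κ a))) →
        (Θ ⟨vL k L PowerSeries.X, hV _⟩ = Ideal.Quotient.mk _ (PowerSeries.C c * PowerSeries.X ^ m)) →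
        (∃ (d : ℕ) (u : PowerSeries κ), IsUnit u ∧ 2 * d < N ∧
          Θ ⟨D, hD⟩ = Ideal.Quotient.mk _ (PowerSeries.X ^ d * u)) → Θ ⟨H, hH⟩ ≠ 0 →
        ∃ φ : Algebra.adjoin (LaurentSeries k) (s : Set L) →+* LaurentSeries κ,
          ∀ r, φ (algebraMap _ _ r) = iota (algebraMap k κ) c hc m hm r := by
  have hcharR : CharZero (LaurentSeries k) :=
    charZero_of_injective_algebraMap (R := k) (algebraMap k (LaurentSeries k)).injective
  have hy0 : yv k ≠ 0 := by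
    unfold yv
    simp
  have hfX : ofPowerSeries ℤ k PowerSeries.X = yv k := ofPowerSeries_X
  have hfX0 : ofPowerSeries ℤ k PowerSeries.X ≠ 0 := by rw [hfX]; exact hy0
  obtain ⟨ξ, η, G, H0, hξ, hη, hG0, hG1, hH1, hall⟩ := main_alg (R := LaurentSeries k) (L := L)
    (ofPowerSeries ℤ k) PowerSeries.X hfX0 powerSeries_denom Pos (by rw [hfX]; exact hPos) s
  refine ⟨ξ, η, _, _, hξ, hη, hG1, hH1, ?_⟩
  intro S hV hξS hηS
  obtain ⟨vS, hvS⟩ : ∃ vS : PowerSeries k →+* S, vS = (vL k L).codRestrict S hV := ⟨_, rfl⟩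
  have heS : S.subtype.comp (eval₂RingHom vS ⟨ξ, hξS⟩) =
      eval₂RingHom ((algebraMap (LaurentSeries k) L).comp (ofPowerSeries ℤ k)) ξ := by
    refine Polynomial.ringHom_ext (fun a => ?_) ?_
    · change S.subtype (eval₂ vS ⟨ξ, hξS⟩ (C a)) = eval₂ _ ξ (C a)
      rw [eval₂_C, eval₂_C, hvS]; rfl
    · change S.subtype (eval₂ vS ⟨ξ, hξS⟩ X) = eval₂ _ ξ X
      rw [eval₂_X, eval₂_X]; rfl
  have heS2 : ∀ P : (PowerSeries k)[X][X], ((P.eval₂ (eval₂RingHom vS ⟨ξ, hξS⟩) ⟨η, hηS⟩ : S) : L) =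
      P.eval₂ (eval₂RingHom ((algebraMap (LaurentSeries k) L).comp (ofPowerSeries ℤ k)) ξ) η := by
    intro P
    rw [← heS]
    exact Polynomial.hom_eval₂ P _ S.subtype ⟨η, hηS⟩
  have heS1 : ∀ P : (PowerSeries k)[X], ((eval₂RingHom vS ⟨ξ, hξS⟩ P : S) : L) =
      eval₂RingHom ((algebraMap (LaurentSeries k) L).comp (ofPowerSeries ℤ k)) ξ P := by
    intro P
    rw [← heS]; rfl
  refine ⟨by rw [← heS2]; exact Subtype.coe_prop _, by rw [← heS1]; exact Subtype.coe_prop _, ?_⟩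
  intro κ _ _ N Θ c hc m hm hΘc hΘX ⟨d, u, hu, hdN, hΘD⟩ hΘH
  obtain ⟨j, hj1, hj2, hj3⟩ := exists_iotaV (algebraMap k κ) c hc m hm
  have F1 : Θ.comp vS = (Ideal.Quotient.mk _).comp j := by
    apply powerSeries_hom_ext
    · intro a
      rw [hvS]
      change Θ ⟨vL k L (PowerSeries.C a), hV _⟩ = Ideal.Quotient.mk _ (j (PowerSeries.C a))
      rw [hΘc, hj2]
    · rw [hvS]
      change Θ ⟨vL k L PowerSeries.X, hV _⟩ = Ideal.Quotient.mk _ (j PowerSeries.X)
      rw [hΘX, hj3]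
    · rw [hvS]
      change IsNilpotent (Θ ⟨vL k L PowerSeries.X, hV _⟩)
      rw [hΘX]
      refine ⟨N, ?_⟩
      rw [← map_pow, Ideal.Quotient.eq_zero_iff_mem, Ideal.mem_span_singleton, mul_pow, ← pow_mul, mul_comm m N, pow_mul]
      exact Dvd.dvd.mul_left (dvd_pow_self _ hm.ne') _
  obtain ⟨ξ', η', h1, h2⟩ := approx_step N vS Θ j F1 G H0 ⟨ξ, hξS⟩ ⟨η, hηS⟩
    (Subtype.ext ((heS2 G).trans hG0)) d u hu hdN (by
      rw [← hΘD]
      congr 1
      exact Subtype.ext (heS2 _)) (by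
      intro h3
      apply hΘH
      rw [← h3]
      congr 1
      exact Subtype.ext (heS1 _).symm)
  have hfW : Function.Injective (ofPowerSeries ℤ κ) := HahnSeries.ofPowerSeries_injective
  have hcomp : (iota (algebraMap k κ) c hc m hm).comp (ofPowerSeries ℤ k) = (ofPowerSeries ℤ κ).comp j := by
    refine RingHom.ext fun F => (hj1 F).symm
  have heW : eval₂RingHom ((iota (algebraMap k κ) c hc m hm).comp (ofPowerSeries ℤ k)) (ofPowerSeries ℤ κ ξ') =
      (ofPowerSeries ℤ κ).comp (eval₂RingHom j ξ') := by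
    rw [hcomp]
    refine Polynomial.ringHom_ext (fun a => ?_) ?_
    · change eval₂ _ _ (C a) = ofPowerSeries ℤ κ (eval₂ _ _ (C a))
      rw [eval₂_C, eval₂_C]; rfl
    · change eval₂ _ _ X = ofPowerSeries ℤ κ (eval₂ _ _ X)
      rw [eval₂_X, eval₂_X]
  refine hall (LaurentSeries κ) (iota (algebraMap k κ) c hc m hm) (ofPowerSeries ℤ κ ξ') (ofPowerSeries ℤ κ η') ?_ ?_
  · rw [heW, ← Polynomial.hom_eval₂, h1, map_zero]
  · rw [heW, RingHom.comp_apply]
    intro h3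
    exact h2 (hfW (h3.trans (map_zero _).symm))

end PL
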