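import Mathlib

/-! The embedding `k((y)) → κ((t))`, `y ↦ c t^m`. -/

set_option autoImplicit false
set_option linter.all false

open HahnSeries Module

namespace PL

section
variable {k κ : Type*} [Field k] [Field κ] (φ : k →+* κ) (c : κ) (hc : c ≠ 0)

theorem scale_support (c : κ) (hc : c ≠ 0) (f : LaurentSeries k) :
    Function.support (fun n : ℤ => c ^ n * φ (f.coeff n)) = f.support := by
  ext n
  simp [zpow_ne_zero n hc]

/-- `∑ f_n y^n ↦ ∑ φ(f_n) c^n t^n` -/
noncomputable def scale : LaurentSeries k →+* LaurentSeries κ where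
  toFun f := ⟨fun n => c ^ n * φ (f.coeff n), by
    rw [scale_support φ c hc]; exact f.isPWO_support⟩
  map_one' := by
    ext n
    simp only [coeff_one]
    split_ifs with h
    · subst h; simp
    · simp
  map_zero' := by
    ext n
    simp
  map_add' := by
    intro f g
    ext n
    simp [mul_add]
  map_mul' := by
    intro f g
    ext n
    simp only [coeff_mul, map_sum, Finset.mul_sum, map_mul]
    have hs : ∀ f : LaurentSeries k, ∀ h, (HahnSeries.support (⟨fun n => c ^ n * φ (f.coeff n), h⟩ : LaurentSeries κ)) = f.support := by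
      intro f h
      exact scale_support φ c hc f
    refine Finset.sum_congr ?_ ?_
    · ext ⟨i, j⟩
      simp only [Finset.mem_addAntidiagonal, hs]
    · rintro ⟨i, j⟩ hij
      simp only [Finset.mem_addAntidiagonal] at hij
      rw [← hij.2.2, zpow_add₀ hc]
      ring

theorem scale_coeff (f : LaurentSeries k) (n : ℤ) :
    (scale φ c hc f).coeff n = c ^ n * φ (f.coeff n) := rfl

variable (m : ℕ) (hm : 0 < m)

/-- `y ↦ c t^m` -/
noncomputable def iota : LaurentSeries k →+* LaurentSeries κ :=
  (embDomainRingHom (AddMonoidHom.mulLeft (m : ℤ)) (by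
    intro a b h
    simpa [hm.ne'] using h) (by
    intro a b
    simp only [AddMonoidHom.coe_mulLeft]
    exact mul_le_mul_iff_right₀ (by exact_mod_cast hm))).comp (scale φ c hc)

theorem iota_coeff_mul (f : LaurentSeries k) (q : ℤ) :
    (iota φ c hc m hm f).coeff (m * q) = c ^ q * φ (f.coeff q) := by
  rw [← scale_coeff φ c hc f q]
  exact embDomain_coeff

theorem iota_coeff_not_dvd (f : LaurentSeries k) (n : ℤ) (hn : ¬ (m : ℤ) ∣ n) :
    (iota φ c hc m hm f).coeff n = 0 := by
  apply embDomain_notin_range
  rintro ⟨q, rfl⟩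
  exact hn ⟨q, rfl⟩

theorem iota_C (a : k) : iota φ c hc m hm (C a) = C (φ a) := by
  ext n
  by_cases hn : (m : ℤ) ∣ n
  · obtain ⟨q, rfl⟩ := hn
    rw [iota_coeff_mul]
    simp only [C_apply, coeff_single]
    by_cases hq : q = 0
    · subst hq; simp
    · have : (m : ℤ) * q ≠ 0 := mul_ne_zero (by exact_mod_cast hm.ne') hq
      simp [hq, this]
  · rw [iota_coeff_not_dvd φ c hc m hm _ _ hn]
    simp only [C_apply, coeff_single]
    rw [if_neg]
    rintro rfl
    exact hn (dvd_zero _)

theorem iota_single : iota φ c hc m hm (single 1 1) = single (m : ℤ) c := by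
  ext n
  by_cases hn : (m : ℤ) ∣ n
  · obtain ⟨q, rfl⟩ := hn
    rw [iota_coeff_mul]
    simp only [coeff_single]
    by_cases hq : q = 1
    · subst hq; simp
    · have : (m : ℤ) * q ≠ m := by
        intro h
        apply hq
        have hm' : (m : ℤ) ≠ 0 := by exact_mod_cast hm.ne'
        exact mul_left_cancel₀ hm' (by rw [h, mul_one])
      simp [hq, this]
  · rw [iota_coeff_not_dvd φ c hc m hm _ _ hn]
    simp only [coeff_single]
    rw [if_neg]
    rintro rfl
    exact hn dvd_rfl

end

section finrank
variable {k κ : Type*} [Field k] [Field κ] [Algebra k κ] [FiniteDimensional k κ] (c : κ) (hc : c ≠ 0)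
  (m : ℕ) (hm : 0 < m)

theorem finrank_iota : letI := (iota (algebraMap k κ) c hc m hm).toAlgebra
    FiniteDimensional (LaurentSeries k) (LaurentSeries κ) ∧
    finrank (LaurentSeries k) (LaurentSeries κ) = m * finrank k κ := by
  letI := (iota (algebraMap k κ) c hc m hm).toAlgebra
  set R := LaurentSeries k
  set Ψ := LaurentSeries κ
  let b := finBasis k κ
  let J := Fin (finrank k κ)
  let v : Fin m × J → Ψ := fun p => single ((p.1 : ℕ) : ℤ) (b p.2)
  let Φ : (Fin m × J → R) →ₗ[R] Ψ := Fintype.linearCombination R v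
  have hΦ : ∀ g, Φ g = ∑ p : Fin m × J, iota (algebraMap k κ) c hc m hm (g p) * v p := by
    intro g
    rw [Fintype.linearCombination_apply]
    rfl
  have hcoeff : ∀ (g : Fin m × J → R) (q : ℤ) (i : Fin m),
      (Φ g).coeff (m * q + (i : ℕ)) = c ^ q * ∑ j : J, (g (i, j)).coeff q • b j := by
    intro g q i
    rw [hΦ, HahnSeries.coeff_sum, Fintype.sum_prod_type, Finset.sum_eq_single i, Finset.mul_sum]
    · refine Finset.sum_congr rfl fun j _ => ?_
      rw [coeff_mul_single, add_sub_cancel_right, iota_coeff_mul, Algebra.smul_def]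
      ring
    · intro i' _ hi'
      refine Finset.sum_eq_zero fun j _ => ?_
      rw [coeff_mul_single, iota_coeff_not_dvd, zero_mul]
      intro hd
      have h1 : (m : ℤ) ∣ ((i : ℕ) : ℤ) - ((i' : ℕ) : ℤ) := by
        have : (m : ℤ) * q + (i : ℕ) - (i' : ℕ) = m * q + (((i : ℕ) : ℤ) - ((i' : ℕ) : ℤ)) := by ring
        rw [this] at hd
        exact (dvd_add_right (dvd_mul_right _ _)).1 hd
      have h2 := Int.eq_zero_of_abs_lt_dvd h1 (by
        rw [abs_lt]
        have := i.2; have := i'.2
        constructor <;> omega)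
      apply hi'
      ext
      omega
    · intro h; exact absurd (Finset.mem_univ _) h
  have hinj : Function.Injective Φ := by
    rw [injective_iff_map_eq_zero]
    intro g hg
    funext p
    obtain ⟨i, j⟩ := p
    ext q
    have h1 := hcoeff g q i
    rw [hg, HahnSeries.coeff_zero] at h1
    have h2 := (mul_eq_zero.1 h1.symm).resolve_left (zpow_ne_zero q hc)
    exact Fintype.linearIndependent_iff.1 b.linearIndependent (fun j => (g (i, j)).coeff q) h2 j
  have hsurj : Function.Surjective Φ := by
    intro f
    have hpwo : ∀ (i : Fin m) (j : J), (Function.support fun q : ℤ =>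
        b.repr (c ^ (-q) * f.coeff (m * q + (i : ℕ))) j).IsPWO := by
      intro i j
      have h1 : (Function.support fun q : ℤ => b.repr (c ^ (-q) * f.coeff (m * q + (i : ℕ))) j) ⊆
          (fun q : ℤ => (m : ℤ) * q + (i : ℕ)) ⁻¹' f.support := by
        intro q hq
        rw [Set.mem_preimage, HahnSeries.mem_support]
        intro h0
        apply hq
        simp [h0]
      refine Set.IsPWO.mono ?_ h1
      -- preimage of a PWO set under a strictly monotone map
      have h2 : ((fun q : ℤ => (m : ℤ) * q + (i : ℕ)) ⁻¹' f.support).IsWF := by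
        have h3 := f.isPWO_support.isWF
        rw [Set.isWF_iff_no_descending_seq] at h3 ⊢
        intro s hs hmem
        refine h3 (fun n => (m : ℤ) * s n + (i : ℕ)) ?_ hmem
        intro a b hab
        have := hs hab
        have hm' : (0 : ℤ) < m := by exact_mod_cast hm
        simp only
        nlinarith
      exact h2.isPWO
    refine ⟨fun p => ⟨fun q => b.repr (c ^ (-q) * f.coeff (m * q + (p.1 : ℕ))) p.2, hpwo p.1 p.2⟩, ?_⟩
    ext n
    obtain ⟨q, i, rfl⟩ : ∃ (q : ℤ) (i : Fin m), n = m * q + (i : ℕ) := by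
      have hm' : (0 : ℤ) < m := by exact_mod_cast hm
      have h0 := Int.emod_nonneg n hm'.ne'
      have h1 := Int.emod_lt_of_pos n hm'
      refine ⟨n / m, ⟨(n % m).toNat, by omega⟩, ?_⟩
      have h2 := Int.mul_ediv_add_emod n m
      simp only
      omega
    rw [hcoeff]
    simp only
    rw [b.sum_repr, ← mul_assoc, ← zpow_add₀ hc]
    simp
  let e := LinearEquiv.ofBijective Φ ⟨hinj, hsurj⟩
  refine ⟨Module.Finite.equiv e, ?_⟩
  rw [← e.finrank_eq, Module.finrank_fintype_fun_eq_card, Fintype.card_prod, Fintype.card_fin, Fintype.card_fin]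

end finrank

end PL
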